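import Mathlib

set_option autoImplicit false

open Polynomial

namespace Pool.Agent.MP33dd76

/-! # Primitive eulerian pairs over `F_q[t]`: algebraic definitions

`q` is a power of the prime `p`, `q > 2`. -/

/-- `[k] = 1 + q + ... + q^(k-1)` -/
def br (q k : ℕ) : ℕ := ∑ i ∈ Finset.range k, q ^ i

/-- the power series `∑ k, g k * X ^ [k]` -/
noncomputable def ser {R : Type*} [CommRing R] (q : ℕ) (g : ℕ → R) : PowerSeries R :=
  PowerSeries.mk fun n => ∑ k ∈ Finset.range (n + 1), if br q k = n then g k else 0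

/-- `[X^m] 1 / e` for `e = ser q g` (used with `g 0 = 1`) -/
noncomputable def Bs {R : Type*} [CommRing R] (q : ℕ) (g : ℕ → R) (m : ℕ) : R :=
  PowerSeries.coeff m (PowerSeries.invOfUnit (ser q g) 1)

/-- `∑_{i=1}^m z^i [X^(m-i)] e^((q-1)i-1)` for `e = ser q g` -/
noncomputable def As {R : Type*} [CommRing R] (q : ℕ) (g : ℕ → R) (z : R) (m : ℕ) : R :=
  ∑ i ∈ Finset.Icc 1 m, z ^ i * PowerSeries.coeff (m - i) (ser q g ^ ((q - 1) * i - 1))

/-! ## The objects in the variable `v`, over a field `K` with a distinguished element `π` -/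

section hat

variable {K : Type*} [Field K]

/-- `s 0 = 0`, `s (k+1) = 1 + π⁻¹ * (s k)^q` -/
noncomputable def sq (q : ℕ) (π : K) : ℕ → K
  | 0 => 0
  | k + 1 => 1 + π⁻¹ * (sq q π k) ^ q

/-- `gh 0 = 1`, `gh (k+1) = (v - (1+v) / s (k+1)) * (gh k)^q`, in `K[v]` -/
noncomputable def gh (q : ℕ) (π : K) : ℕ → K[X]
  | 0 => 1
  | k + 1 => (X - (1 + X) * C (sq q π (k + 1))⁻¹) * (gh q π k) ^ q

/-- the polynomials `Bhat_m` -/
noncomputable def Bh (q : ℕ) (π : K) (m : ℕ) : K[X] := Bs q (gh q π) m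

/-- the polynomials `Ahat_m` -/
noncomputable def Ah (q : ℕ) (π : K) (m : ℕ) : K[X] := As q (gh q π) X m

/-- the right hand side of the functional equation, for coefficients `β` and weight `m` -/
noncomputable def Ph (q : ℕ) (π : K) (β : ℕ → K) (m : ℕ) : K[X] :=
  ∑ i ∈ Finset.range (m / q + 1), C (β i * π ^ i) * (X ^ (q * i) * (1 + X) ^ (m - q * i))

/-- the equation (*): `Ahat_a * Bhat_m = ∑_{i ≤ M/q} υ_i (π^i v^(qi) (1+v)^(M-qi) - v^i)` -/
def Star (q : ℕ) (π : K) (a m : ℕ) (υ : ℕ → K) : Prop :=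
  Ah q π a * Bh q π m =
    Ph q π υ (a + m) - ∑ i ∈ Finset.range ((a + m) / q + 1), C (υ i) * X ^ i

end hat

section norm

variable {K : Type*} [NormedField K]

/-- `f` lies in the `k`-th power of the ideal `(π, v)` of `O[v]` -/
def Fil (π : K) (k : ℕ) (f : K[X]) : Prop := ∀ i, ‖f.coeff i‖ ≤ ‖π‖ ^ (k - i)

/-- the standing hypotheses of parts III and IV -/
structure Hyp (K : Type*) [NormedField K] (p q : ℕ) (π : K) : Prop where
  prime : p.Prime
  char : CharP K p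
  pow : ∃ s, q = p ^ s
  two : 2 < q
  ne : π ≠ 0
  lt : ‖π‖ < 1

/-- the ceiling of `(m - m/q)/q` -/
def e0 (q m : ℕ) : ℕ := (m - m / q + q - 1) / q

end norm

/-! ## Combinatorics -/

/-- generalised binomial coefficients modulo `p` -/
noncomputable def bin (p : ℕ) (x : ℤ) (k : ℕ) : ZMod p := ((Ring.choose x k : ℤ) : ZMod p)

/-- the polynomials `T_j(b)` over `F_p`: `T_0 = 1`,
`T_j = ∑_{ql ≤ j} X^l T_l binom(b - ql, j - ql)` for `j ≥ 1` -/
noncomputable def Tj (p q : ℕ) (b : ℤ) : ℕ → (ZMod p)[X]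
  | 0 => 1
  | j + 1 => ∑ l : Fin (j + 1), if q * l.1 ≤ j + 1 then
      X ^ l.1 * Tj p q b l.1 * C (bin p (b - q * l.1) (j + 1 - q * l.1)) else 0

/-- `λ = lambda(b)`, `ν = nu(b)` -/
structure LN (p q b lam nu : ℕ) : Prop where
  lt : b < q * lam
  le : lam ≤ nu
  ne : (Tj p q b lam).coeff (nu - lam) ≠ 0
  min : ∀ l n, b < q * l → (Tj p q b l).coeff n ≠ 0 → nu ≤ l + n
  max : ∀ l n, b < q * l → (Tj p q b l).coeff n ≠ 0 → l + n = nu → l ≤ lam

/-- special elements: `Sp q Q x` iff `x = Q/q + Q/q^2 + ... + Q/q^k` with `q^k ∣ Q` -/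
inductive Sp (q : ℕ) : ℕ → ℕ → Prop
  | zero (Q : ℕ) : Sp q Q 0
  | step (Q x : ℕ) (hQ : q ∣ Q) (hQ' : 0 < Q) (h : Sp q (Q / q) x) : Sp q Q (Q / q + x)

end Pool.Agent.MP33dd76
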