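import Mathlib
import Pool.Agent.Lib.MP_33dd76_nt.Defs

set_option autoImplicit false

open Polynomial

namespace Pool.Agent.MP33dd76

/-! # Definitions for the transcendence part

`F` is a finite field with `q` elements, `K` a complete ultrametric normed field which is an
`F`-algebra, `θ ∈ K` with `1 < ‖θ‖`. -/

/-- `F[t][X]`: the outer variable `X` stands for `θ` (or `y`), the inner variable is `t` -/
abbrev A2 (F : Type*) [Field F] : Type _ := Polynomial (Polynomial F)

/-- bound on the degree in the inner variable `t` -/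
def TD {F : Type*} [Field F] (n : ℕ) (H : A2 F) : Prop := ∀ k, (H.coeff k).natDegree ≤ n

/-- `t` as an element of `A2 F` -/
noncomputable def tt (F : Type*) [Field F] : A2 F := C X

section series

variable {K : Type*} [NormedField K]

/-- bound for a power series on the disc of radius `R` -/
def Bd (f : PowerSeries K) (R c : ℝ) : Prop := ∀ n, ‖PowerSeries.coeff n f‖ * R ^ n ≤ c

/-- entire power series -/
def Ent (f : PowerSeries K) : Prop := ∀ R : ℝ, 0 < R → ∃ c, Bd f R c

/-- value at `x` -/
noncomputable def ev (x : K) (f : PowerSeries K) : K := ∑' n, PowerSeries.coeff n f * x ^ n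

end series

section twist

variable (F : Type*) [Field F] [Fintype F] {K : Type*} [NormedField K] [Algebra F K]

/-- `x ↦ x^(q^n)` -/
noncomputable def frob (n : ℕ) : K →+* K :=
  ((FiniteField.frobeniusAlgHom F K : K →ₐ[F] K) : K →+* K) ^ n

/-- the `n`-fold twist of a power series: coefficients to the power `q^n` -/
noncomputable def tw (n : ℕ) : PowerSeries K →+* PowerSeries K := PowerSeries.map (frob F n)

/-- `F[t] → K[[t]]` -/
noncomputable def base : Polynomial F →+* PowerSeries K :=
  Polynomial.coeToPowerSeries.ringHom.comp (Polynomial.mapRingHom (algebraMap F K))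

/-- `F[t][X] → K[[t]]`, `X ↦ θ` -/
noncomputable def iota (θ : K) : A2 F →+* PowerSeries K :=
  Polynomial.eval₂RingHom (base F) (PowerSeries.C θ)

/-- the value of `H ∈ F[t][X]` at `t = x`, `X = θ` -/
noncomputable def val (θ x : K) : A2 F →+* K :=
  Polynomial.eval₂RingHom ((Polynomial.aeval x : Polynomial F →ₐ[F] K) : Polynomial F →+* K) θ

end twist

/-- the twist `X ↦ X^(q^n)` on `F[t][X]` -/
noncomputable def tA (F : Type*) [Field F] [Fintype F] (n : ℕ) : A2 F →+* A2 F :=
  ((Polynomial.expand (Polynomial F) (Fintype.card F ^ n) :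
    Polynomial (Polynomial F) →ₐ[Polynomial F] Polynomial (Polynomial F)) :
      Polynomial (Polynomial F) →+* Polynomial (Polynomial F))

/-! ## Power sums -/

section pow

variable (F : Type*) [Field F] [Fintype F] {L : Type*} [Field L] [Algebra F L]

/-- `E_k ∈ L[y]` -/
noncomputable def Ey (t : L) : ℕ → L[X]
  | 0 => 1
  | k + 1 => C ((t ^ (Fintype.card F ^ (k + 1)) - t)⁻¹) *
      (C (t ^ (Fintype.card F ^ (k + 1))) - X) * (Ey t k) ^ Fintype.card F

/-- `E(x) = ∑ E_k x^(q^k)` in `L[y][[x]]` -/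
noncomputable def Eser (t : L) : PowerSeries L[X] :=
  PowerSeries.mk fun n => ∑ k ∈ Finset.range (n + 1), if Fintype.card F ^ k = n then Ey F t k else 0

/-- `h_n = [x^n] 1/(1 - E(x))` -/
noncomputable def hy (t : L) (n : ℕ) : L[X] :=
  PowerSeries.coeff n (PowerSeries.invOfUnit (1 - Eser F t) 1)

/-- `l_n = ∏_{j=1}^n (t - t^(q^j))` -/
noncomputable def ell (t : L) (n : ℕ) : L :=
  ∏ j ∈ Finset.range n, (t - t ^ (Fintype.card F ^ (j + 1)))

/-- the monic polynomial of degree `n` with coefficients `c`, evaluated at `t` -/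
noncomputable def mon (t : L) {n : ℕ} (c : Fin n → F) : L :=
  t ^ n + ∑ i, algebraMap F L (c i) * t ^ (i : ℕ)

/-- `S_n(s)`: the sum of `a^(-s)` over the monic polynomials `a` of degree `n`, evaluated at `t` -/
noncomputable def Ssum (t : L) (n s : ℕ) : L := ∑ c : Fin n → F, (mon F t c ^ s)⁻¹

/-- `S_{<n}(s)` -/
noncomputable def Slt (t : L) (n s : ℕ) : L := ∑ i ∈ Finset.range n, Ssum F t i s

/-- `sigma_D = ∑_{i<D} S_i(s1) S_{<i}(s2)` -/
noncomputable def sig (t : L) (D s1 s2 : ℕ) : L :=
  ∑ i ∈ Finset.range D, Ssum F t i s1 * Slt F t i s2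

end pow

/-- index set of the depth 2 multizeta value: pairs of monic polynomials, `deg a₂ < deg a₁` -/
def MPair (F : Type*) [Field F] : Type _ :=
  {x : Polynomial F × Polynomial F // x.1.Monic ∧ x.2.Monic ∧ x.2.natDegree < x.1.natDegree}

/-- the multizeta value `zeta(s1,s2)` in `K` -/
noncomputable def mzv (F : Type*) [Field F] {K : Type*} [NormedField K] [Algebra F K] (θ : K)
    (s1 s2 : ℕ) : K :=
  ∑' x : MPair F, (aeval θ x.1.1 ^ s1 * aeval θ x.1.2 ^ s2)⁻¹

/-- the infinite product `∏_{i ≥ 1} (1 - θ^(1-q^i))` -/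
noncomputable def pprod (F : Type*) [Field F] [Fintype F] {K : Type*} [NormedField K] (θ : K) : K :=
  ∏' i : ℕ, (1 - θ * (θ⁻¹) ^ (Fintype.card F ^ (i + 1)))

/-- `ϖ` is a Carlitz period: `ϖ^(q-1) = - θ^q ∏ (1 - θ^(1-q^i))^(-(q-1))` -/
def IsPeriod (F : Type*) [Field F] [Fintype F] {K : Type*} [NormedField K] (θ ϖ : K) : Prop :=
  ϖ ^ (Fintype.card F - 1) =
    - θ ^ Fintype.card F * ((pprod F θ) ^ (Fintype.card F - 1))⁻¹

end Pool.Agent.MP33dd76
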