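import Mathlib
import Pool.Agent.Lib.MP_33dd76_nt.ADefs

set_option autoImplicit false

open Polynomial

namespace Pool.Agent.MP33dd76

/-! # Module A1: power series, bounds, values -/

variable {F : Type*} [Field F] [Fintype F] {K : Type*} [NormedField K] [IsUltrametricDist K]
  [CompleteSpace K] [Algebra F K]

omit [IsUltrametricDist K] [CompleteSpace K] in
theorem A1_frob_apply (n : ℕ) (x : K) : frob F n x = x ^ (Fintype.card F ^ n) := by
  induction n generalizing x with
  | zero => simp [frob]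
  | succ n ih =>
    have h : frob F (n + 1) x = frob F n (x ^ Fintype.card F) := by
      unfold frob
      rw [pow_succ]
      rfl
    rw [h, ih, ← pow_mul]
    congr 1
    ring

theorem coeff_tw (n k : ℕ) (f : PowerSeries K) :
    PowerSeries.coeff k (tw F n f) = (PowerSeries.coeff k f) ^ (Fintype.card F ^ n) := by
  unfold tw
  rw [PowerSeries.coeff_map, A1_frob_apply]

theorem tw_tw (m n : ℕ) (f : PowerSeries K) : tw F m (tw F n f) = tw F (m + n) f := by
  ext k
  rw [coeff_tw, coeff_tw, coeff_tw, ← pow_mul]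
  congr 1
  ring

theorem tw_zero (f : PowerSeries K) : tw F 0 f = f := by
  ext k
  rw [coeff_tw, pow_zero, pow_one]

theorem Bd.nonneg {f : PowerSeries K} {R c : ℝ} (h : Bd f R c) : 0 ≤ c := by
  have h0 := h 0
  rw [pow_zero, mul_one] at h0
  exact (norm_nonneg _).trans h0

theorem Bd.mono {f : PowerSeries K} {R c d : ℝ} (h : Bd f R c) (hd : c ≤ d) : Bd f R d :=
  fun n => (h n).trans hd

/-- a bound at radius `R` gives the same bound at smaller radii -/
theorem Bd.radius {f : PowerSeries K} {R R' c : ℝ} (h : Bd f R c) (h0 : 0 ≤ R') (h1 : R' ≤ R) :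
    Bd f R' c := fun n =>
  (mul_le_mul_of_nonneg_left (pow_le_pow_left₀ h0 h1 n) (norm_nonneg _)).trans (h n)

theorem Bd.add {f g : PowerSeries K} {R c : ℝ} (hR : 0 ≤ R) (hf : Bd f R c) (hg : Bd g R c) :
    Bd (f + g) R c := by
  intro n
  rw [map_add]
  have h1 := IsUltrametricDist.norm_add_le_max (PowerSeries.coeff n f) (PowerSeries.coeff n g)
  rcases le_max_iff.1 h1 with h2 | h2
  · exact (mul_le_mul_of_nonneg_right h2 (pow_nonneg hR n)).trans (hf n)
  · exact (mul_le_mul_of_nonneg_right h2 (pow_nonneg hR n)).trans (hg n)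

omit [IsUltrametricDist K] [CompleteSpace K] in
theorem A1_Bd_neg {f : PowerSeries K} {R c : ℝ} (hf : Bd f R c) : Bd (-f) R c := by
  intro n
  rw [map_neg, norm_neg]
  exact hf n

theorem Bd.sub {f g : PowerSeries K} {R c : ℝ} (hR : 0 ≤ R) (hf : Bd f R c) (hg : Bd g R c) :
    Bd (f - g) R c := by
  rw [sub_eq_add_neg]
  exact Bd.add hR hf (A1_Bd_neg hg)

theorem Bd.mul {f g : PowerSeries K} {R c d : ℝ} (hR : 0 ≤ R) (hf : Bd f R c) (hg : Bd g R d) :
    Bd (f * g) R (c * d) := by
  intro n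
  rw [PowerSeries.coeff_mul]
  have hne : (Finset.HasAntidiagonal.antidiagonal n).Nonempty := ⟨(0, n), by simp⟩
  obtain ⟨⟨i, j⟩, hij, h1⟩ := IsUltrametricDist.exists_norm_finsetSum_le_of_nonempty hne
    (fun p : ℕ × ℕ => PowerSeries.coeff p.1 f * PowerSeries.coeff p.2 g)
  have hn : i + j = n := by simpa using hij
  refine (mul_le_mul_of_nonneg_right h1 (pow_nonneg hR n)).trans ?_
  simp only [norm_mul]
  rw [← hn, pow_add]
  calc ‖PowerSeries.coeff i f‖ * ‖PowerSeries.coeff j g‖ * (R ^ i * R ^ j)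
      = (‖PowerSeries.coeff i f‖ * R ^ i) * (‖PowerSeries.coeff j g‖ * R ^ j) := by ring
    _ ≤ c * d := mul_le_mul (hf i) (hg j) (mul_nonneg (norm_nonneg _) (pow_nonneg hR j))
        (Bd.nonneg hf)

theorem Bd.tw {f : PowerSeries K} {R c : ℝ} (n : ℕ) (hR : 0 ≤ R) (hf : Bd f R c) :
    Bd (tw F n f) (R ^ (Fintype.card F ^ n)) (c ^ (Fintype.card F ^ n)) := by
  intro k
  rw [coeff_tw, norm_pow]
  have e : ‖PowerSeries.coeff k f‖ ^ (Fintype.card F ^ n) * (R ^ (Fintype.card F ^ n)) ^ k =
      (‖PowerSeries.coeff k f‖ * R ^ k) ^ (Fintype.card F ^ n) := by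
    rw [mul_pow, ← pow_mul, ← pow_mul, mul_comm k]
  rw [e]
  exact pow_le_pow_left₀ (mul_nonneg (norm_nonneg _) (pow_nonneg hR k)) (hf k) _

theorem Ent.add {f g : PowerSeries K} (hf : Ent f) (hg : Ent g) : Ent (f + g) := by
  intro R hR
  obtain ⟨c, hc⟩ := hf R hR
  obtain ⟨d, hd⟩ := hg R hR
  exact ⟨max c d, Bd.add hR.le (hc.mono (le_max_left _ _)) (hd.mono (le_max_right _ _))⟩

omit [IsUltrametricDist K] [CompleteSpace K] in
theorem A1_Ent_neg {f : PowerSeries K} (hf : Ent f) : Ent (-f) := by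
  intro R hR
  obtain ⟨c, hc⟩ := hf R hR
  exact ⟨c, A1_Bd_neg hc⟩

theorem Ent.sub {f g : PowerSeries K} (hf : Ent f) (hg : Ent g) : Ent (f - g) := by
  rw [sub_eq_add_neg]
  exact Ent.add hf (A1_Ent_neg hg)

theorem Ent.mul {f g : PowerSeries K} (hf : Ent f) (hg : Ent g) : Ent (f * g) := by
  intro R hR
  obtain ⟨c, hc⟩ := hf R hR
  obtain ⟨d, hd⟩ := hg R hR
  exact ⟨c * d, Bd.mul hR.le hc hd⟩

omit [IsUltrametricDist K] [CompleteSpace K] in
theorem A1_Ent_monomial (n : ℕ) (a : K) : Ent ((monomial n a : K[X]) : PowerSeries K) := by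
  intro R hR
  refine ⟨‖a‖ * R ^ n, fun k => ?_⟩
  rw [Polynomial.coeff_coe, Polynomial.coeff_monomial]
  split_ifs with h
  · rw [h]
  · rw [norm_zero, zero_mul]
    positivity

theorem A1_Ent_coe (p : K[X]) : Ent (p : PowerSeries K) := by
  induction p using Polynomial.induction_on' with
  | add p q hp hq =>
    rw [Polynomial.coe_add]
    exact Ent.add hp hq
  | monomial n a => exact A1_Ent_monomial n a

theorem Ent.one : Ent (1 : PowerSeries K) := by
  have h := A1_Ent_coe (1 : K[X])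
  rwa [Polynomial.coe_one] at h

theorem Ent.pow {f : PowerSeries K} (hf : Ent f) (n : ℕ) : Ent (f ^ n) := by
  induction n with
  | zero =>
    rw [pow_zero]
    exact Ent.one
  | succ n ih =>
    rw [pow_succ]
    exact Ent.mul ih hf

theorem Ent.tw {f : PowerSeries K} (hf : Ent f) (n : ℕ) : Ent (tw F n f) := by
  intro R hR
  obtain ⟨c, hc⟩ := hf (max R 1) (lt_of_lt_of_le zero_lt_one (le_max_right _ _))
  refine ⟨c ^ (Fintype.card F ^ n), Bd.radius (Bd.tw (F := F) n
    (zero_le_one.trans (le_max_right R 1)) hc) hR.le ?_⟩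
  have hq : Fintype.card F ^ n ≠ 0 := pow_ne_zero _ Fintype.card_ne_zero
  exact (le_max_left R 1).trans (le_self_pow₀ (le_max_right R 1) hq)

/-- `iota` as a polynomial -/
noncomputable def A1_P (F : Type*) [Field F] {K : Type*} [NormedField K] [Algebra F K] (θ : K) :
    A2 F →+* K[X] :=
  Polynomial.eval₂RingHom (Polynomial.mapRingHom (algebraMap F K)) (C θ)

omit [Fintype F] [IsUltrametricDist K] [CompleteSpace K] in
theorem A1_iota_eq (θ : K) (H : A2 F) : iota F θ H = ((A1_P F θ H : K[X]) : PowerSeries K) := by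
  have h : iota F θ = (Polynomial.coeToPowerSeries.ringHom).comp (A1_P F θ) := by
    apply Polynomial.ringHom_ext'
    · ext a <;> simp [iota, A1_P, base]
    · simp [iota, A1_P]
  rw [h]
  simp

theorem Ent.iota (θ : K) (H : A2 F) : Ent (iota F θ H) := by
  rw [A1_iota_eq]
  exact A1_Ent_coe _

theorem A1_summable_norm {f : PowerSeries K} (x : K) (hf : Ent f) :
    Summable fun n => ‖PowerSeries.coeff n f * x ^ n‖ := by
  have hR : 0 < 2 * ‖x‖ + 1 := by positivity
  obtain ⟨c, hc⟩ := hf _ hR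
  have hc0 : 0 ≤ c := Bd.nonneg hc
  have hgeo : Summable fun n : ℕ => c * (1 / 2 : ℝ) ^ n :=
    (summable_geometric_of_lt_one (by norm_num) (by norm_num)).mul_left c
  refine Summable.of_nonneg_of_le (fun n => norm_nonneg _) (fun n => ?_) hgeo
  rw [norm_mul, norm_pow]
  have h1 : ‖x‖ ≤ (2 * ‖x‖ + 1) * (1 / 2) := by linarith
  calc ‖PowerSeries.coeff n f‖ * ‖x‖ ^ n
      ≤ ‖PowerSeries.coeff n f‖ * ((2 * ‖x‖ + 1) * (1 / 2)) ^ n :=
        mul_le_mul_of_nonneg_left (pow_le_pow_left₀ (norm_nonneg _) h1 n) (norm_nonneg _)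
    _ = (‖PowerSeries.coeff n f‖ * (2 * ‖x‖ + 1) ^ n) * (1 / 2) ^ n := by
        rw [mul_pow]; ring
    _ ≤ c * (1 / 2) ^ n := mul_le_mul_of_nonneg_right (hc n) (by positivity)

theorem A1_summable {f : PowerSeries K} (x : K) (hf : Ent f) :
    Summable fun n => PowerSeries.coeff n f * x ^ n :=
  (A1_summable_norm x hf).of_norm

theorem ev_add {f g : PowerSeries K} (x : K) (hf : Ent f) (hg : Ent g) :
    ev x (f + g) = ev x f + ev x g := by
  unfold ev
  rw [← (A1_summable x hf).tsum_add (A1_summable x hg)]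
  congr 1
  funext n
  rw [map_add, add_mul]

theorem ev_sub {f g : PowerSeries K} (x : K) (hf : Ent f) (hg : Ent g) :
    ev x (f - g) = ev x f - ev x g := by
  unfold ev
  rw [← (A1_summable x hf).tsum_sub (A1_summable x hg)]
  congr 1
  funext n
  rw [map_sub, sub_mul]

theorem ev_mul {f g : PowerSeries K} (x : K) (hf : Ent f) (hg : Ent g) :
    ev x (f * g) = ev x f * ev x g := by
  unfold ev
  rw [tsum_mul_tsum_eq_tsum_sum_antidiagonal_of_summable_norm (A1_summable_norm x hf)
    (A1_summable_norm x hg)]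
  congr 1
  funext n
  rw [PowerSeries.coeff_mul, Finset.sum_mul]
  refine Finset.sum_congr rfl fun p hp => ?_
  rw [← Finset.HasAntidiagonal.mem_antidiagonal.1 hp, pow_add]
  ring

omit [IsUltrametricDist K] [CompleteSpace K] in
theorem A1_ev_coe (x : K) (p : K[X]) : ev x (p : PowerSeries K) = p.eval x := by
  unfold ev
  rw [tsum_eq_sum (s := Finset.range (p.natDegree + 1)), Polynomial.eval_eq_sum_range]
  · refine Finset.sum_congr rfl fun n _ => ?_
    rw [Polynomial.coeff_coe]
  · intro n hn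
    rw [Polynomial.coeff_coe, Polynomial.coeff_eq_zero_of_natDegree_lt, zero_mul]
    simpa [Nat.lt_succ_iff] using hn

theorem ev_one (x : K) : ev x (1 : PowerSeries K) = 1 := by
  have h := A1_ev_coe x (1 : K[X])
  rwa [Polynomial.coe_one, Polynomial.eval_one] at h

theorem ev_pow {f : PowerSeries K} (x : K) (hf : Ent f) (n : ℕ) :
    ev x (f ^ n) = (ev x f) ^ n := by
  induction n with
  | zero => rw [pow_zero, pow_zero, ev_one]
  | succ n ih => rw [pow_succ, pow_succ, ev_mul x (hf.pow n) hf, ih]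

theorem ev_tw {f : PowerSeries K} (x : K) (hf : Ent f) (n : ℕ) :
    ev (x ^ (Fintype.card F ^ n)) (tw F n f) = (ev x f) ^ (Fintype.card F ^ n) := by
  have hcont : Continuous (frob F n : K →+* K) := by
    have e : ((frob F n : K →+* K) : K → K) = fun y => y ^ (Fintype.card F ^ n) := by
      funext y
      exact A1_frob_apply n y
    rw [e]
    fun_prop
  have h := (A1_summable x hf).map_tsum (frob F n : K →+* K) hcont
  unfold ev
  rw [← A1_frob_apply (F := F) n (∑' n, PowerSeries.coeff n f * x ^ n), h]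
  congr 1
  funext k
  rw [coeff_tw, A1_frob_apply, mul_pow, ← pow_mul, ← pow_mul, mul_comm k]

omit [Fintype F] [IsUltrametricDist K] [CompleteSpace K] in
theorem A1_eval_P (θ x : K) (H : A2 F) : (A1_P F θ H).eval x = val F θ x H := by
  have h : (Polynomial.evalRingHom x).comp (A1_P F θ) = val F θ x := by
    apply Polynomial.ringHom_ext'
    · ext a <;> simp [A1_P, val]
    · simp [A1_P, val]
  rw [← h]
  simp

theorem ev_iota (θ x : K) (H : A2 F) : ev x (iota F θ H) = val F θ x H := by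
  rw [A1_iota_eq, A1_ev_coe, A1_eval_P]

theorem norm_ev_le {f : PowerSeries K} {R c : ℝ} (x : K) (hf : Ent f) (h : Bd f R c)
    (hx : ‖x‖ ≤ R) : ‖ev x f‖ ≤ c := by
  unfold ev
  refine IsUltrametricDist.norm_tsum_le_of_forall_le_of_nonneg (Bd.nonneg h) fun n => ?_
  rw [norm_mul, norm_pow]
  exact (mul_le_mul_of_nonneg_left (pow_le_pow_left₀ (norm_nonneg _) hx n)
    (norm_nonneg _)).trans (h n)

omit [IsUltrametricDist K] [CompleteSpace K] in
theorem A1_frob_alg (n : ℕ) (a : F) :
    (algebraMap F K a) ^ (Fintype.card F ^ n) = algebraMap F K a := by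
  rw [← map_pow, FiniteField.pow_card_pow]

theorem tw_iota (θ : K) (n : ℕ) (H : A2 F) : tw F n (iota F θ H) = iota F θ (tA F n H) := by
  have h : (tw F n).comp (iota F θ) = (iota F θ).comp (tA F n) := by
    apply Polynomial.ringHom_ext'
    · apply Polynomial.ringHom_ext'
      · ext a
        simp [iota, base, tA, tw, A1_frob_apply, A1_frob_alg]
      · simp [iota, base, tA, tw]
    · simp [iota, tA, tw, A1_frob_apply]
  exact DFunLike.congr_fun h H

theorem val_tA (θ x : K) (n : ℕ) (H : A2 F) :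
    val F θ x (tA F n H) = val F (θ ^ (Fintype.card F ^ n)) x H := by
  have h : (val F θ x).comp (tA F n) = val F (θ ^ (Fintype.card F ^ n)) x := by
    apply Polynomial.ringHom_ext'
    · ext a <;> simp [val, tA]
    · simp [val, tA]
  exact DFunLike.congr_fun h H

end Pool.Agent.MP33dd76
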