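import Mathlib
import Pool.Agent.Lib.MP_33dd76_nt.A1Ps

set_option autoImplicit false

open Polynomial

namespace Pool.Agent.MP33dd76

/-! # Module A2: norms of polynomials in `θ` -/

variable {F : Type*} [Field F] [Fintype F] {K : Type*} [NormedField K] [IsUltrametricDist K]
  [CompleteSpace K] [Algebra F K]

theorem norm_algMap (a : F) (ha : a ≠ 0) : ‖algebraMap F K a‖ = 1 := by
  have h1 : a ^ (Fintype.card F - 1) = 1 := FiniteField.pow_card_sub_one_eq_one a ha
  have h2 : ‖algebraMap F K a‖ ^ (Fintype.card F - 1) = 1 := by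
    rw [← norm_pow, ← map_pow, h1, map_one, norm_one]
  have h3 : Fintype.card F - 1 ≠ 0 := by
    have := Fintype.one_lt_card (α := F)
    omega
  exact (pow_eq_one_iff_of_nonneg (norm_nonneg _) h3).1 h2

omit [CompleteSpace K] [IsUltrametricDist K] in
theorem A2_norm_algMap_le (a : F) : ‖algebraMap F K a‖ ≤ 1 := by
  rcases eq_or_ne a 0 with rfl | ha
  · rw [map_zero, norm_zero]
    exact zero_le_one
  · have h1 : a ^ (Fintype.card F - 1) = 1 := FiniteField.pow_card_sub_one_eq_one a ha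
    have h2 : ‖algebraMap F K a‖ ^ (Fintype.card F - 1) = 1 := by
      rw [← norm_pow, ← map_pow, h1, map_one, norm_one]
    have h3 : Fintype.card F - 1 ≠ 0 := by
      have := Fintype.one_lt_card (α := F)
      omega
    exact ((pow_eq_one_iff_of_nonneg (norm_nonneg _) h3).1 h2).le

omit [CompleteSpace K] in
theorem A2_sum_le {θ : K} (hθ : 1 < ‖θ‖) (a : ℕ → F) (m D : ℕ) (hm : m ≤ D + 1) :
    ‖∑ j ∈ Finset.range m, algebraMap F K (a j) * θ ^ j‖ ≤ ‖θ‖ ^ D := by
  refine IsUltrametricDist.norm_sum_le_of_forall_le_of_nonneg (by positivity) fun j hj => ?_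
  rw [norm_mul, norm_pow]
  have h1 := A2_norm_algMap_le (K := K) (a j)
  have h2 : j ≤ D := by
    have := Finset.mem_range.1 hj
    omega
  calc ‖algebraMap F K (a j)‖ * ‖θ‖ ^ j ≤ 1 * ‖θ‖ ^ j := by gcongr
    _ = ‖θ‖ ^ j := one_mul _
    _ ≤ ‖θ‖ ^ D := pow_le_pow_right₀ hθ.le h2

omit [CompleteSpace K] in
theorem A2_aeval_le {θ : K} (hθ : 1 < ‖θ‖) (P : F[X]) (D : ℕ) (hP : P.natDegree ≤ D) :
    ‖aeval θ P‖ ≤ ‖θ‖ ^ D := by
  rw [Polynomial.aeval_eq_sum_range]
  simp only [Algebra.smul_def]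
  exact A2_sum_le hθ _ _ _ (by omega)

theorem norm_aeval {θ : K} (hθ : 1 < ‖θ‖) (P : F[X]) (hP : P ≠ 0) :
    ‖aeval θ P‖ = ‖θ‖ ^ P.natDegree := by
  have h0 : 0 < ‖θ‖ := zero_lt_one.trans hθ
  have h1 : aeval θ P = aeval θ P.eraseLead +
      algebraMap F K P.leadingCoeff * θ ^ P.natDegree := by
    conv_lhs => rw [← Polynomial.eraseLead_add_monomial_natDegree_leadingCoeff P]
    rw [map_add, Polynomial.aeval_monomial]
  have h2 : ‖algebraMap F K P.leadingCoeff * θ ^ P.natDegree‖ = ‖θ‖ ^ P.natDegree := by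
    rw [norm_mul, norm_pow, norm_algMap _ (Polynomial.leadingCoeff_ne_zero.2 hP), one_mul]
  have h3 : ‖aeval θ P.eraseLead‖ < ‖θ‖ ^ P.natDegree := by
    rcases Nat.eq_zero_or_pos P.natDegree with h | h
    · have h4 : P.eraseLead = 0 := by
        rw [Polynomial.eq_C_of_natDegree_eq_zero h, Polynomial.eraseLead_C]
      rw [h4, map_zero, norm_zero]
      positivity
    · refine lt_of_le_of_lt (A2_aeval_le hθ _ (P.natDegree - 1)
        (Polynomial.eraseLead_natDegree_le P)) ?_
      exact pow_lt_pow_right₀ hθ (by omega)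
  rw [h1, IsUltrametricDist.norm_add_eq_max_of_norm_ne_norm (by rw [h2]; exact h3.ne), h2]
  exact max_eq_right h3.le

theorem aeval_ne_zero {θ : K} (hθ : 1 < ‖θ‖) (P : F[X]) (hP : P ≠ 0) : aeval θ P ≠ 0 := by
  intro h
  have h1 := norm_aeval hθ P hP
  rw [h, norm_zero] at h1
  have h0 : 0 < ‖θ‖ ^ P.natDegree := pow_pos (zero_lt_one.trans hθ) _
  linarith

theorem theta_pow_inj {θ : K} (hθ : 1 < ‖θ‖) (i j : ℕ)
    (h : θ ^ (Fintype.card F ^ i) = θ ^ (Fintype.card F ^ j)) : i = j := by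
  have h1 : ‖θ‖ ^ (Fintype.card F ^ i) = ‖θ‖ ^ (Fintype.card F ^ j) := by
    rw [← norm_pow, ← norm_pow, h]
  have h2 : Fintype.card F ^ i = Fintype.card F ^ j :=
    pow_right_injective₀ (zero_lt_one.trans hθ) hθ.ne' h1
  exact Nat.pow_right_injective (Fintype.one_lt_card (α := F)) h2

/-- the coefficients of `iota θ H` in terms of `H` -/
theorem A2_coeff_iota (θ : K) (H : A2 F) (k : ℕ) :
    PowerSeries.coeff k (iota F θ H) = ∑ j ∈ Finset.range (H.natDegree + 1),
      algebraMap F K ((H.coeff j).coeff k) * θ ^ j := by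
  unfold iota
  rw [Polynomial.coe_eval₂RingHom, Polynomial.eval₂_eq_sum_range, map_sum]
  refine Finset.sum_congr rfl fun j _ => ?_
  rw [← map_pow, PowerSeries.coeff_mul_C]
  congr 1
  simp [base]

theorem iota_injective {θ : K} (hθ : 1 < ‖θ‖) : Function.Injective (iota F θ) := by
  rw [injective_iff_map_eq_zero]
  intro H hH
  have key : ∀ k j, (H.coeff j).coeff k = 0 := by
    intro k
    obtain ⟨P, hP⟩ : ∃ P : F[X], P = ∑ j ∈ Finset.range (H.natDegree + 1),
      Polynomial.monomial j ((H.coeff j).coeff k) := ⟨_, rfl⟩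
    have h1 : aeval θ P = 0 := by
      have h2 := A2_coeff_iota θ H k
      rw [hH, map_zero] at h2
      rw [h2, hP, map_sum]
      refine Finset.sum_congr rfl fun j _ => ?_
      rw [Polynomial.aeval_monomial]
    have h3 : P = 0 := by
      by_contra hne
      exact aeval_ne_zero hθ P hne h1
    intro j
    by_cases hj : j ∈ Finset.range (H.natDegree + 1)
    · have h4 : P.coeff j = (H.coeff j).coeff k := by
        rw [hP, Polynomial.finset_sum_coeff]
        rw [Finset.sum_eq_single j]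
        · rw [Polynomial.coeff_monomial, if_pos rfl]
        · intro i _ hi
          rw [Polynomial.coeff_monomial, if_neg hi]
        · intro h
          exact absurd hj h
      rw [← h4, h3, Polynomial.coeff_zero]
    · have h5 : H.coeff j = 0 := by
        refine Polynomial.coeff_eq_zero_of_natDegree_lt ?_
        rw [Finset.mem_range] at hj
        omega
      rw [h5, Polynomial.coeff_zero]
  ext j k
  rw [key k j]
  simp

theorem Bd_iota {θ : K} (hθ : 1 < ‖θ‖) {R : ℝ} (hR : 1 ≤ R) (H : A2 F) (D n : ℕ)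
    (hD : H.natDegree ≤ D) (hn : TD n H) : Bd (iota F θ H) R (‖θ‖ ^ D * R ^ n) := by
  intro k
  have hθ0 : 0 ≤ ‖θ‖ := norm_nonneg _
  rw [A2_coeff_iota]
  rcases le_or_gt k n with h | h
  · exact mul_le_mul (A2_sum_le hθ _ _ _ (by omega)) (pow_le_pow_right₀ hR h)
      (by positivity) (by positivity)
  · rw [Finset.sum_eq_zero, norm_zero, zero_mul]
    · positivity
    · intro j _
      rw [Polynomial.coeff_eq_zero_of_natDegree_lt (lt_of_le_of_lt (hn j) h), map_zero, zero_mul]

/-- the coefficients of `iota θ H` in terms of `H` -/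
theorem coeff_iota (θ : K) (H : A2 F) (k : ℕ) :
    PowerSeries.coeff k (iota F θ H) = ∑ j ∈ Finset.range (H.natDegree + 1),
      algebraMap F K ((H.coeff j).coeff k) * θ ^ j := A2_coeff_iota θ H k

theorem val_eq (θ x : K) (H : A2 F) :
    val F θ x H = ∑ j ∈ Finset.range (H.natDegree + 1), aeval x (H.coeff j) * θ ^ j := by
  unfold val
  rw [Polynomial.coe_eval₂RingHom, Polynomial.eval₂_eq_sum_range]
  rfl

end Pool.Agent.MP33dd76
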