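import Mathlib
import Pool.Agent.Lib.MP_33dd76_nt.A1Ps

set_option autoImplicit false

open Polynomial

namespace Pool.Agent.MP33dd76

/-! # Module A3: division by `t - x` -/

variable {K : Type*} [NormedField K] [IsUltrametricDist K] [CompleteSpace K]

omit [IsUltrametricDist K] [CompleteSpace K] in
theorem A3_term {f : PowerSeries K} {R c : ℝ} (hR : 0 < R) (hf : Bd f R c) (x : K) (n k : ℕ) :
    ‖PowerSeries.coeff (n + k) f * x ^ k‖ ≤ c / R ^ n * (‖x‖ / R) ^ k := by
  rw [norm_mul, norm_pow]
  have h1 := hf (n + k)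
  have h2 : ‖PowerSeries.coeff (n + k) f‖ ≤ c / R ^ (n + k) := by
    rw [le_div_iff₀ (by positivity)]
    exact h1
  calc ‖PowerSeries.coeff (n + k) f‖ * ‖x‖ ^ k ≤ c / R ^ (n + k) * ‖x‖ ^ k := by gcongr
    _ = c / R ^ n * (‖x‖ / R) ^ k := by
      rw [pow_add, div_pow]
      field_simp

omit [IsUltrametricDist K] in
theorem A3_summable {f : PowerSeries K} {R c : ℝ} (hR : 0 < R) (hf : Bd f R c) (x : K)
    (hx : ‖x‖ < R) (n : ℕ) : Summable fun k => PowerSeries.coeff (n + k) f * x ^ k := by
  refine Summable.of_norm_bounded ?_ (A3_term hR hf x n)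
  refine (summable_geometric_of_lt_one (by positivity) ?_).mul_left _
  rwa [div_lt_one hR]

theorem div_one {f : PowerSeries K} {R c : ℝ} (hR : 0 < R) (hf : Bd f R c) (x : K) (hx : ‖x‖ < R)
    (h0 : ev x f = 0) :
    ∃ g : PowerSeries K, f = (PowerSeries.X - PowerSeries.C x) * g ∧ Bd g R (c / R) := by
  have hc : 0 ≤ c := Bd.nonneg hf
  obtain ⟨S, hS⟩ : ∃ S : ℕ → K, S = fun n => ∑' k, PowerSeries.coeff (n + k) f * x ^ k :=
    ⟨_, rfl⟩
  have hrec : ∀ n, S n = PowerSeries.coeff n f + x * S (n + 1) := by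
    intro n
    have h1 := (A3_summable hR hf x hx n).tsum_eq_zero_add
    simp only [hS]
    rw [h1, ← tsum_mul_left]
    congr 1
    · simp
    · congr 1
      funext k
      rw [show n + (k + 1) = n + 1 + k by ring]
      ring
  have hS0 : S 0 = 0 := by
    simp only [hS, zero_add]
    exact h0
  have hle : ∀ n, ‖S n‖ ≤ c / R ^ n := by
    intro n
    simp only [hS]
    refine IsUltrametricDist.norm_tsum_le_of_forall_le_of_nonneg (by positivity) fun k => ?_
    refine (A3_term hR hf x n k).trans ?_
    refine mul_le_of_le_one_right (by positivity) ?_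
    refine pow_le_one₀ (by positivity) ?_
    rw [div_le_one hR]
    exact hx.le
  refine ⟨PowerSeries.mk fun n => S (n + 1), ?_, fun n => ?_⟩
  · ext n
    rw [sub_mul, map_sub, PowerSeries.coeff_C_mul, PowerSeries.coeff_mk]
    rcases n with _ | n
    · rw [PowerSeries.coeff_zero_X_mul]
      have h1 := hrec 0
      rw [hS0] at h1
      linear_combination -h1
    · rw [PowerSeries.coeff_succ_X_mul, PowerSeries.coeff_mk]
      have h1 := hrec (n + 1)
      linear_combination -h1
  · rw [PowerSeries.coeff_mk]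
    calc ‖S (n + 1)‖ * R ^ n ≤ c / R ^ (n + 1) * R ^ n := by
          gcongr
          exact hle _
      _ = c / R := by
          rw [pow_succ]
          field_simp

/-- values of a product `(t - x) g` inside the disc -/
theorem ev_linear_mul {g : PowerSeries K} {R c : ℝ} (hR : 0 < R) (hg : Bd g R c) (x z : K)
    (hz : ‖z‖ < R) : ev z ((PowerSeries.X - PowerSeries.C x) * g) = (z - x) * ev z g := by
  have hs : Summable fun n => PowerSeries.coeff n g * z ^ n := by
    have := A3_summable hR hg z hz 0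
    simpa using this
  have hX : HasSum (fun n => PowerSeries.coeff n (PowerSeries.X * g) * z ^ n) (z * ev z g) := by
    have h1 : HasSum (fun n => PowerSeries.coeff n g * z ^ n * z) (ev z g * z) :=
      hs.hasSum.mul_right z
    have h2 : HasSum (fun n => PowerSeries.coeff (n + 1) (PowerSeries.X * g) * z ^ (n + 1))
        (ev z g * z) := by
      refine h1.congr_fun fun n => ?_
      rw [PowerSeries.coeff_succ_X_mul]
      ring
    have h3 := (hasSum_nat_add_iff (f := fun n => PowerSeries.coeff n (PowerSeries.X * g) *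
      z ^ n) 1).1 h2
    simpa [mul_comm] using h3
  have hC : HasSum (fun n => PowerSeries.coeff n (PowerSeries.C x * g) * z ^ n)
      (x * ev z g) := by
    have h1 : HasSum (fun n => x * (PowerSeries.coeff n g * z ^ n)) (x * ev z g) :=
      hs.hasSum.mul_left x
    refine h1.congr_fun fun n => ?_
    rw [PowerSeries.coeff_C_mul]
    ring
  have h := (hX.sub hC).tsum_eq
  have e : ev z ((PowerSeries.X - PowerSeries.C x) * g) =
      ∑' n, (PowerSeries.coeff n (PowerSeries.X * g) * z ^ n -
        PowerSeries.coeff n (PowerSeries.C x * g) * z ^ n) := by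
    unfold ev
    congr 1
    funext n
    rw [sub_mul, map_sub, sub_mul]
  rw [e, h]
  ring

theorem div_many {f : PowerSeries K} {R c : ℝ} (hR : 0 < R) (hf : Bd f R c) {N : ℕ} (x : Fin N → K)
    (hx : ∀ j, ‖x j‖ < R) (hinj : Function.Injective x) (h0 : ∀ j, ev (x j) f = 0) :
    ∃ g : PowerSeries K, f = (∏ j, (PowerSeries.X - PowerSeries.C (x j))) * g ∧
      Bd g R (c / R ^ N) := by
  induction N generalizing f c with
  | zero => exact ⟨f, by simp, by simpa using hf⟩
  | succ N ih =>
    obtain ⟨g₁, hg₁, hb₁⟩ := div_one hR hf (x 0) (hx 0) (h0 0)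
    have h1 : ∀ j : Fin N, ev (x j.succ) g₁ = 0 := by
      intro j
      have h2 := ev_linear_mul hR hb₁ (x 0) (x j.succ) (hx _)
      rw [← hg₁, h0] at h2
      rcases mul_eq_zero.1 h2.symm with h3 | h3
      · exact absurd (hinj (sub_eq_zero.1 h3)) (Fin.succ_ne_zero j)
      · exact h3
    obtain ⟨g, hg, hb⟩ := ih hb₁ (fun j => x j.succ) (fun j => hx _)
      (fun i j hij => Fin.succ_injective _ (hinj hij)) h1
    refine ⟨g, ?_, ?_⟩
    · rw [Fin.prod_univ_succ, mul_assoc, ← hg, ← hg₁]
    · rw [pow_succ', ← div_div]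
      exact hb

end Pool.Agent.MP33dd76
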