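import Mathlib
import Pool.Agent.Lib.MP_33dd76_nt.A1Ps
import Pool.Agent.Lib.MP_33dd76_nt.A2Norm
import Pool.Agent.Lib.MP_33dd76_nt.A3Div

set_option autoImplicit false

open Polynomial

namespace Pool.Agent.MP33dd76

/-! # Module A5: bounds for the leading coefficient -/

variable {F : Type*} [Field F] [Fintype F] {K : Type*} [NormedField K] [IsUltrametricDist K]
  [CompleteSpace K] [Algebra F K]

/-- a nonzero coefficient of `iota θ H` has norm at least one -/
theorem A5_coeff_ge {θ : K} (hθ : 1 < ‖θ‖) (H : A2 F) (k : ℕ)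
    (h : PowerSeries.coeff k (iota F θ H) ≠ 0) : 1 ≤ ‖PowerSeries.coeff k (iota F θ H)‖ := by
  obtain ⟨P, hP⟩ : ∃ P : F[X], P = ∑ j ∈ Finset.range (H.natDegree + 1),
    Polynomial.monomial j ((H.coeff j).coeff k) := ⟨_, rfl⟩
  have h1 : PowerSeries.coeff k (iota F θ H) = aeval θ P := by
    rw [A2_coeff_iota θ H k, hP, map_sum]
    refine Finset.sum_congr rfl fun j _ => ?_
    rw [Polynomial.aeval_monomial]
  have h2 : P ≠ 0 := by
    rintro rfl
    rw [h1, map_zero] at h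
    exact h rfl
  rw [h1, norm_aeval hθ P h2]
  exact one_le_pow₀ hθ.le

/-- the coefficients of `iota θ H` are at most `‖θ‖ ^ E` -/
theorem A5_coeff_le {θ : K} (hθ : 1 < ‖θ‖) (H : A2 F) (k E : ℕ) (hE : H.natDegree ≤ E) :
    ‖PowerSeries.coeff k (iota F θ H)‖ ≤ ‖θ‖ ^ E := by
  rw [A2_coeff_iota]
  exact A2_sum_le hθ _ _ _ (by omega)

/-- the numerical step -/
theorem A5_step {x y : ℝ} {q i E : ℕ} (hq : 2 ≤ q) (hx : 0 < x) (hx1 : x < 1) (hy : 1 < y)
    (h : x ^ (q ^ i) ≤ y ^ E * x ^ (q ^ (i + 1))) : (y⁻¹) ^ E ≤ x := by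
  have hlt : q ^ i < q ^ (i + 1) := Nat.pow_lt_pow_right (by omega) (by omega)
  obtain ⟨d, hd⟩ : ∃ d, q ^ (i + 1) = q ^ i + (d + 1) := ⟨q ^ (i + 1) - q ^ i - 1, by omega⟩
  rw [hd, pow_add] at h
  have h1 : 0 < x ^ (q ^ i) := pow_pos hx _
  have h2 : 1 ≤ y ^ E * x ^ (d + 1) := by
    by_contra h3
    push Not at h3
    have h4 : x ^ (q ^ i) * (y ^ E * x ^ (d + 1)) < x ^ (q ^ i) * 1 :=
      mul_lt_mul_of_pos_left h3 h1
    have h5 : y ^ E * (x ^ q ^ i * x ^ (d + 1)) = x ^ (q ^ i) * (y ^ E * x ^ (d + 1)) := by ring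
    rw [h5] at h
    linarith
  have h3 : x ^ (d + 1) ≤ x := by
    have := pow_le_pow_of_le_one hx.le hx1.le (show 1 ≤ d + 1 by omega)
    rwa [pow_one] at this
  have hyE : 0 < y ^ E := pow_pos (zero_lt_one.trans hy) _
  have h4 : 1 ≤ y ^ E * x := h2.trans (mul_le_mul_of_nonneg_left h3 hyE.le)
  rw [inv_pow, inv_le_comm₀ hyE hx, inv_le_iff_one_le_mul₀ hx]
  exact h4

/-- lower bound: a power series satisfying a linear relation between its twists -/
theorem lead_lower {θ : K} (hθ : 1 < ‖θ‖) (f : PowerSeries K) (hf : f ≠ 0) (c : Fin 4 → A2 F)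
    (hc : c ≠ 0) (E : ℕ) (hE : ∀ i, (c i).natDegree ≤ E)
    (h : ∑ i, iota F θ (c i) * tw F (i : ℕ) f = 0) :
    ∃ n, (∀ k < n, PowerSeries.coeff k f = 0) ∧ PowerSeries.coeff n f ≠ 0 ∧
      (‖θ‖⁻¹) ^ E ≤ ‖PowerSeries.coeff n f‖ := by
  classical
  have hq : 2 ≤ Fintype.card F := Fintype.one_lt_card
  -- the order of `f`
  have hex : ∃ n, PowerSeries.coeff n f ≠ 0 := by
    by_contra hcon
    push Not at hcon
    exact hf (PowerSeries.ext fun n => by rw [hcon n, map_zero])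
  obtain ⟨n, hn1, hn2⟩ : ∃ n, PowerSeries.coeff n f ≠ 0 ∧ ∀ k < n, PowerSeries.coeff k f = 0 :=
    ⟨Nat.find hex, Nat.find_spec hex, fun k hk => not_not.1 (Nat.find_min hex hk)⟩
  -- the order of the coefficients
  have hex2 : ∃ k, ∃ i, PowerSeries.coeff k (iota F θ (c i)) ≠ 0 := by
    by_contra hcon
    push Not at hcon
    apply hc
    funext i
    apply iota_injective hθ
    rw [Pi.zero_apply, map_zero]
    exact PowerSeries.ext fun n => by rw [hcon n i, map_zero]
  obtain ⟨k, hk1, hk2⟩ : ∃ k, (∃ i, PowerSeries.coeff k (iota F θ (c i)) ≠ 0) ∧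
      ∀ l < k, ∀ i, PowerSeries.coeff l (iota F θ (c i)) = 0 := by
    refine ⟨Nat.find hex2, Nat.find_spec hex2, fun l hl i => ?_⟩
    have := Nat.find_min hex2 hl
    push Not at this
    exact this i
  refine ⟨n, hn2, hn1, ?_⟩
  set lam := PowerSeries.coeff n f with hlam
  set b : Fin 4 → K := fun i => PowerSeries.coeff k (iota F θ (c i)) with hb
  -- the coefficient `k + n` of the relation
  have hcoef : ∑ i, b i * lam ^ (Fintype.card F ^ (i : ℕ)) = 0 := by
    have h1 := congrArg (PowerSeries.coeff (k + n)) h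
    rw [map_sum, map_zero] at h1
    rw [← h1]
    refine Finset.sum_congr rfl fun i _ => ?_
    rw [PowerSeries.coeff_mul, Finset.sum_eq_single (k, n)]
    · rw [coeff_tw]
    · rintro ⟨a, e⟩ hae hne
      rw [Finset.HasAntidiagonal.mem_antidiagonal] at hae
      simp only at hae ⊢
      rcases lt_or_ge a k with h2 | h2
      · rw [hk2 a h2 i, zero_mul]
      · have h3 : e < n := by
          rcases Nat.lt_or_ge k a with h4 | h4
          · omega
          · exfalso
            apply hne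
            have h5 : a = k := by omega
            have h6 : e = n := by omega
            rw [h5, h6]
        rw [coeff_tw, hn2 e h3, zero_pow (pow_ne_zero _ (by omega)), mul_zero]
    · intro h2
      exact absurd (by simp) h2
  have hlam0 : 0 < ‖lam‖ := norm_pos_iff.2 hn1
  rcases le_or_gt 1 ‖lam‖ with hl | hl
  · refine le_trans ?_ hl
    exact pow_le_one₀ (inv_nonneg.2 (norm_nonneg _)) (inv_le_one_of_one_le₀ hθ.le)
  -- the least index
  have hex3 : ∃ j : ℕ, ∃ i : Fin 4, (i : ℕ) = j ∧ b i ≠ 0 := by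
    obtain ⟨i, hi⟩ := hk1
    exact ⟨i, i, rfl, hi⟩
  obtain ⟨i0, hi0, hi1⟩ : ∃ i0 : Fin 4, b i0 ≠ 0 ∧ ∀ i : Fin 4, i < i0 → b i = 0 := by
    obtain ⟨i, hi, hbi⟩ := Nat.find_spec hex3
    refine ⟨i, hbi, fun j hj => ?_⟩
    by_contra hbj
    exact Nat.find_min hex3 (m := (j : ℕ)) (by rw [← hi]; exact hj) ⟨j, rfl, hbj⟩
  refine A5_step (q := Fintype.card F) (i := (i0 : ℕ)) hq hlam0 hl hθ ?_
  have h1 : b i0 * lam ^ (Fintype.card F ^ (i0 : ℕ)) =
      -∑ i ∈ Finset.univ.erase i0, b i * lam ^ (Fintype.card F ^ (i : ℕ)) := by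
    rw [← Finset.add_sum_erase Finset.univ _ (Finset.mem_univ i0)] at hcoef
    exact eq_neg_of_add_eq_zero_left hcoef
  have h2 : ‖b i0 * lam ^ (Fintype.card F ^ (i0 : ℕ))‖ ≤
      ‖θ‖ ^ E * ‖lam‖ ^ (Fintype.card F ^ ((i0 : ℕ) + 1)) := by
    rw [h1, norm_neg]
    refine IsUltrametricDist.norm_sum_le_of_forall_le_of_nonneg (by positivity) fun i hi => ?_
    have hne : i ≠ i0 := (Finset.mem_erase.1 hi).1
    rcases lt_or_gt_of_ne hne with h3 | h3
    · rw [hi1 i h3, zero_mul, norm_zero]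
      positivity
    · rw [norm_mul, norm_pow]
      refine mul_le_mul (A5_coeff_le hθ (c i) k E (hE i)) ?_ (by positivity) (by positivity)
      refine pow_le_pow_of_le_one hlam0.le hl.le ?_
      exact Nat.pow_le_pow_right (by omega) h3
  refine le_trans ?_ h2
  rw [norm_mul, norm_pow]
  exact le_mul_of_one_le_left (by positivity) (A5_coeff_ge hθ (c i0) k hi0)

theorem A5_geom (q N : ℕ) (hq : 2 ≤ q) : ∑ j : Fin N, q ^ ((j : ℕ) + 1) ≤ 2 * q ^ N := by
  induction N with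
  | zero => simp
  | succ N ih =>
    rw [Fin.sum_univ_castSucc]
    simp only [Fin.val_castSucc, Fin.val_last]
    have h1 : 2 * q ^ N ≤ q ^ (N + 1) := by
      rw [pow_succ, mul_comm]
      exact Nat.mul_le_mul_left _ hq
    omega

/-- upper bound: a power series with zeros `θ^(q^j)`, `1 ≤ j ≤ N` -/
theorem lead_upper {θ : K} (hθ : 1 < ‖θ‖) (f : PowerSeries K) (N n : ℕ) {R c : ℝ}
    (hR : ‖θ‖ ^ (Fintype.card F ^ N) < R) (hf : Bd f R c)
    (h0 : ∀ j, 1 ≤ j → j ≤ N → ev (θ ^ (Fintype.card F ^ j)) f = 0)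
    (hn : ∀ k < n, PowerSeries.coeff k f = 0) :
    ‖PowerSeries.coeff n f‖ ≤ ‖θ‖ ^ (2 * Fintype.card F ^ N) * (c / R ^ N) := by
  have hq : 2 ≤ Fintype.card F := Fintype.one_lt_card
  have hR1 : 1 ≤ R := (one_le_pow₀ hθ.le).trans hR.le
  have hR0 : 0 < R := zero_lt_one.trans_le hR1
  have hθ0 : θ ≠ 0 := by
    rintro rfl
    rw [norm_zero] at hθ
    exact absurd hθ (by norm_num)
  set x : Fin N → K := fun j => θ ^ (Fintype.card F ^ ((j : ℕ) + 1)) with hx
  obtain ⟨g, hg, hgB⟩ := div_many hR0 hf x (by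
    intro j
    simp only [hx]
    rw [norm_pow]
    refine lt_of_le_of_lt (pow_le_pow_right₀ hθ.le ?_) hR
    exact Nat.pow_le_pow_right (by omega) j.2) (by
    intro i j hij
    have := theta_pow_inj hθ _ _ hij
    exact Fin.ext (by omega)) (fun j => h0 _ (by omega) j.2)
  set P : PowerSeries K := ∏ j, (PowerSeries.X - PowerSeries.C (x j)) with hP
  have hP0 : PowerSeries.constantCoeff P = ∏ j, (-x j) := by
    rw [hP, map_prod]
    refine Finset.prod_congr rfl fun j _ => ?_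
    rw [map_sub, PowerSeries.constantCoeff_X, PowerSeries.constantCoeff_C, zero_sub]
  have hP1 : PowerSeries.constantCoeff P ≠ 0 := by
    rw [hP0]
    refine Finset.prod_ne_zero_iff.2 fun j _ => neg_ne_zero.2 (pow_ne_zero _ hθ0)
  have hPu : IsUnit P := PowerSeries.isUnit_iff_constantCoeff.2 (isUnit_iff_ne_zero.2 hP1)
  have hXf : PowerSeries.X ^ n ∣ f := PowerSeries.X_pow_dvd_iff.2 hn
  rw [hg, hPu.dvd_mul_left] at hXf
  obtain ⟨g', hg'⟩ := hXf
  have e1 : PowerSeries.coeff n g = PowerSeries.constantCoeff g' := by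
    rw [hg']
    have := PowerSeries.coeff_X_pow_mul g' n 0
    rw [zero_add] at this
    rw [this, PowerSeries.coeff_zero_eq_constantCoeff_apply]
  have e2 : PowerSeries.coeff n f = PowerSeries.constantCoeff P * PowerSeries.coeff n g := by
    have h3 : f = PowerSeries.X ^ n * (P * g') := by
      rw [hg, hg']
      ring
    rw [e1, h3]
    have := PowerSeries.coeff_X_pow_mul (P * g') n 0
    rw [zero_add] at this
    rw [this, PowerSeries.coeff_zero_eq_constantCoeff_apply, map_mul]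
  have hgn : ‖PowerSeries.coeff n g‖ ≤ c / R ^ N := by
    refine le_trans ?_ (hgB n)
    exact le_mul_of_one_le_right (norm_nonneg _) (one_le_pow₀ hR1)
  rw [e2, norm_mul, hP0, norm_prod]
  refine mul_le_mul ?_ hgn (norm_nonneg _) (by positivity)
  have e3 : ∀ j : Fin N, ‖-x j‖ = ‖θ‖ ^ (Fintype.card F ^ ((j : ℕ) + 1)) := by
    intro j
    rw [norm_neg]
    simp only [hx]
    rw [norm_pow]
  simp only [e3]
  rw [Finset.prod_pow_eq_pow_sum]
  exact pow_le_pow_right₀ hθ.le (A5_geom _ _ hq)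

end Pool.Agent.MP33dd76
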