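import Mathlib
import Pool.Agent.Lib.MP_33dd76_nt.ADefs

set_option autoImplicit false

open Polynomial

namespace Pool.Agent.MP33dd76

/-! # Module A4: Siegel lemmas (linear algebra over `F`) -/

variable {F : Type*} [Field F]

/-- more unknowns than equations -/
theorem siegel {V : Type*} [AddCommGroup V] [Module F V] [FiniteDimensional F V] {ι : Type*}
    [Fintype ι] (L : ι → V →ₗ[F] F[X]) (d : ι → ℕ) (hd : ∀ i v, (L i v).degree < d i)
    (h : ∑ i, d i < Module.finrank F V) : ∃ v, v ≠ 0 ∧ ∀ i, L i v = 0 := by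
  classical
  let Φ : V →ₗ[F] ((i : ι) → Fin (d i) → F) :=
    LinearMap.pi fun i => LinearMap.pi fun k => (Polynomial.lcoeff F (k : ℕ)).comp (L i)
  have hfin : Module.finrank F ((i : ι) → Fin (d i) → F) = ∑ i, d i := by
    rw [Module.finrank_pi_fintype]
    simp
  have hker : LinearMap.ker Φ ≠ ⊥ := by
    apply LinearMap.ker_ne_bot_of_finrank_lt
    rw [hfin]
    exact h
  obtain ⟨v, hv, hv0⟩ := Submodule.exists_mem_ne_zero_of_ne_bot hker
  refine ⟨v, hv0, fun i => ?_⟩
  ext k
  rw [LinearMap.mem_ker] at hv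
  by_cases hk : k < d i
  · have := congrFun (congrFun hv i) ⟨k, hk⟩
    simpa [Φ] using this
  · rw [Polynomial.coeff_zero]
    apply Polynomial.coeff_eq_zero_of_degree_lt
    refine lt_of_lt_of_le (hd i v) ?_
    exact_mod_cast not_lt.mp hk

/-- the polynomial with coefficients `x` -/
noncomputable def A4_c {a b : ℕ} (x : Fin a → Fin b → F) : A2 F :=
  ∑ l : Fin a, monomial (l : ℕ) (∑ k : Fin b, monomial (k : ℕ) (x l k))

theorem A4_c_add {a b : ℕ} (x y : Fin a → Fin b → F) : A4_c (x + y) = A4_c x + A4_c y := by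
  simp only [A4_c, Pi.add_apply, map_add, Finset.sum_add_distrib]

theorem A4_c_smul {a b : ℕ} (s : F) (x : Fin a → Fin b → F) : A4_c (s • x) = s • A4_c x := by
  simp only [A4_c, Pi.smul_apply, Finset.smul_sum, Polynomial.smul_monomial]

theorem A4_coeff {a b : ℕ} (x : Fin a → Fin b → F) (l : Fin a) :
    (A4_c x).coeff (l : ℕ) = ∑ k : Fin b, monomial (k : ℕ) (x l k) := by
  classical
  simp only [A4_c, Polynomial.finsetSum_coeff, Polynomial.coeff_monomial]
  rw [Finset.sum_eq_single l]
  · simp
  · intro b' _ hb'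
    rw [if_neg]
    intro h
    exact hb' (Fin.ext h)
  · intro h
    exact absurd (Finset.mem_univ _) h

theorem A4_coeff_coeff {a b : ℕ} (x : Fin a → Fin b → F) (l : Fin a) (k : Fin b) :
    ((A4_c x).coeff (l : ℕ)).coeff (k : ℕ) = x l k := by
  classical
  rw [A4_coeff, Polynomial.finsetSum_coeff]
  simp only [Polynomial.coeff_monomial]
  rw [Finset.sum_eq_single k]
  · simp
  · intro b' _ hb'
    rw [if_neg]
    intro h
    exact hb' (Fin.ext h)
  · intro h
    exact absurd (Finset.mem_univ _) h

theorem A4_coeff_mem {a b : ℕ} (x : Fin a → Fin b → F) (m : ℕ) :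
    (A4_c x).coeff m ∈ Polynomial.degreeLT F b := by
  rw [A4_c, Polynomial.finsetSum_coeff]
  refine Submodule.sum_mem _ fun l _ => ?_
  rw [Polynomial.coeff_monomial]
  split_ifs
  · refine Submodule.sum_mem _ fun k _ => ?_
    rw [Polynomial.mem_degreeLT]
    refine lt_of_le_of_lt (Polynomial.degree_monomial_le _ _) ?_
    exact_mod_cast k.2
  · exact Submodule.zero_mem _

theorem A4_natDegree {a b : ℕ} (x : Fin a → Fin b → F) : (A4_c x).natDegree ≤ a - 1 := by
  rw [A4_c]
  refine Polynomial.natDegree_sum_le_of_forall_le _ _ fun l _ => ?_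
  refine (Polynomial.natDegree_monomial_le _).trans ?_
  have := l.2
  omega

/-- four row vectors of length 3 over `F[t][X]` satisfy a relation of small degree -/
theorem rel4 (r : Fin 4 → Fin 3 → A2 F) (E n : ℕ) (hE : ∀ i j, (r i j).natDegree ≤ E)
    (hn : ∀ i j, TD n (r i j)) :
    ∃ c : Fin 4 → A2 F, c ≠ 0 ∧ (∀ j, ∑ i, c i * r i j = 0) ∧
      ∀ i, (c i).natDegree ≤ 12 * (E + 1) := by
  classical
  set a := 12 * (E + 1) with ha
  set b := 12 * (n + 1) with hb
  let L : (Fin 3 × Fin (a + E)) → (Fin 4 → Fin a → Fin b → F) →ₗ[F] F[X] := fun p =>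
    { toFun := fun x => (∑ i, A4_c (x i) * r i p.1).coeff (p.2 : ℕ)
      map_add' := by
        intro x y
        simp only [Pi.add_apply, A4_c_add, add_mul, Finset.sum_add_distrib, Polynomial.coeff_add]
      map_smul' := by
        intro s x
        simp only [Pi.smul_apply, A4_c_smul, smul_mul_assoc, ← Finset.smul_sum,
          Polynomial.coeff_smul, RingHom.id_apply] }
  have hL : ∀ p x, L p x = (∑ i, A4_c (x i) * r i p.1).coeff (p.2 : ℕ) := fun p x => rfl
  have hdeg : ∀ p x, (L p x).degree < ((b + n : ℕ) : WithBot ℕ) := by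
    intro p x
    rw [hL, ← Polynomial.mem_degreeLT, Polynomial.finsetSum_coeff]
    refine Submodule.sum_mem _ fun i _ => ?_
    rw [Polynomial.coeff_mul]
    refine Submodule.sum_mem _ fun s _ => ?_
    rw [Polynomial.mem_degreeLT]
    have h1 : ((A4_c (x i)).coeff s.1).degree < (b : WithBot ℕ) :=
      Polynomial.mem_degreeLT.1 (A4_coeff_mem _ _)
    have h2 : ((r i p.1).coeff s.2).natDegree ≤ n := hn _ _ _
    by_cases h3 : (A4_c (x i)).coeff s.1 = 0
    · rw [h3, zero_mul, Polynomial.degree_zero]
      exact WithBot.bot_lt_coe _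
    by_cases h4 : (r i p.1).coeff s.2 = 0
    · rw [h4, mul_zero, Polynomial.degree_zero]
      exact WithBot.bot_lt_coe _
    rw [Polynomial.degree_mul, Polynomial.degree_eq_natDegree h3, Polynomial.degree_eq_natDegree h4]
    rw [Polynomial.degree_eq_natDegree h3] at h1
    have h5 : ((A4_c (x i)).coeff s.1).natDegree < b := by exact_mod_cast h1
    have h6 : ((A4_c (x i)).coeff s.1).natDegree + ((r i p.1).coeff s.2).natDegree < b + n := by
      omega
    exact_mod_cast h6
  have hcount : ∑ _p : Fin 3 × Fin (a + E), (b + n) <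
      Module.finrank F (Fin 4 → Fin a → Fin b → F) := by
    have h1 : Module.finrank F (Fin 4 → Fin a → Fin b → F) = 4 * (a * b) := by
      rw [Module.finrank_pi_fintype]
      have : Module.finrank F (Fin a → Fin b → F) = a * b := by
        rw [Module.finrank_pi_fintype]
        simp
      simp [this]
    rw [h1]
    simp only [Finset.sum_const, Finset.card_univ, Fintype.card_prod, Fintype.card_fin,
      smul_eq_mul]
    rw [ha, hb]
    nlinarith [Nat.zero_le (E * n), Nat.zero_le E, Nat.zero_le n]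
  obtain ⟨x, hx0, hx⟩ := siegel L (fun _ => b + n) hdeg hcount
  refine ⟨fun i => A4_c (x i), ?_, ?_, ?_⟩
  · intro h0
    apply hx0
    funext i l k
    have h1 : A4_c (x i) = 0 := congrFun h0 i
    have h2 := A4_coeff_coeff (x i) l k
    rw [h1] at h2
    simpa using h2.symm
  · intro j
    ext1 l
    rw [Polynomial.coeff_zero]
    by_cases hl : l < a + E
    · have := hx (j, ⟨l, hl⟩)
      rw [hL] at this
      exact this
    · apply Polynomial.coeff_eq_zero_of_natDegree_lt
      refine lt_of_le_of_lt (Polynomial.natDegree_sum_le_of_forall_le (n := a - 1 + E) _ _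
        fun i _ => ?_) ?_
      · refine Polynomial.natDegree_mul_le.trans ?_
        exact Nat.add_le_add (A4_natDegree _) (hE _ _)
      · omega
  · intro i
    exact (A4_natDegree (x i)).trans (Nat.sub_le a 1)

end Pool.Agent.MP33dd76
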