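import Mathlib
import Pool.Agent.Lib.MP_33dd76_nt.A1Ps
import Pool.Agent.Lib.MP_33dd76_nt.A2Norm

set_option autoImplicit false

open Polynomial

namespace Pool.Agent.MP33dd76

/-! # Module A6: iterates of the system `ψ = Φ τ(ψ)` -/

variable {F : Type*} [Field F] [Fintype F] {K : Type*} [NormedField K] [IsUltrametricDist K]
  [CompleteSpace K] [Algebra F K]

/-- `Φ τ(Φ) ... τ^(n-1)(Φ)` -/
noncomputable def PhN (Φ : Matrix (Fin 3) (Fin 3) (A2 F)) : ℕ → Matrix (Fin 3) (Fin 3) (A2 F)
  | 0 => 1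
  | n + 1 => PhN Φ n * Φ.map (tA F n)

/-- the hypothesis on the system -/
structure Sys (θ : K) (Φ : Matrix (Fin 3) (Fin 3) (A2 F)) (ψ : Fin 3 → PowerSeries K) : Prop where
  ent : ∀ i, Ent (ψ i)
  eq : ∀ i, ψ i = ∑ j, iota F θ (Φ i j) * tw F 1 (ψ j)
  c22 : Φ 2 2 = 1
  c02 : Φ 0 2 = 0
  c12 : Φ 1 2 = 0
  zero : ev θ (ψ 2) = 0

theorem A6_succ (Φ : Matrix (Fin 3) (Fin 3) (A2 F)) (n : ℕ) (i j : Fin 3) :
    PhN Φ (n + 1) i j = ∑ k, PhN Φ n i k * tA F n (Φ k j) := by
  simp only [PhN, Matrix.mul_apply, Matrix.map_apply]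

theorem PhN_eq {θ : K} {Φ : Matrix (Fin 3) (Fin 3) (A2 F)} {ψ : Fin 3 → PowerSeries K}
    (h : Sys θ Φ ψ) (n : ℕ) (i : Fin 3) :
    ψ i = ∑ j, iota F θ (PhN Φ n i j) * tw F n (ψ j) := by
  induction n with
  | zero =>
    have e : ∀ j : Fin 3, iota F θ (PhN Φ 0 i j) * tw F 0 (ψ j) = if i = j then ψ j else 0 := by
      intro j
      rw [tw_zero]
      change iota F θ ((1 : Matrix (Fin 3) (Fin 3) (A2 F)) i j) * ψ j = _
      rw [Matrix.one_apply]
      split_ifs with hij
      · rw [map_one, one_mul]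
      · rw [map_zero, zero_mul]
    simp [e]
  | succ n ih =>
    have e : ∀ k : Fin 3, tw F n (ψ k) =
        ∑ j, iota F θ (tA F n (Φ k j)) * tw F (n + 1) (ψ j) := by
      intro k
      conv_lhs => rw [h.eq k]
      rw [map_sum]
      refine Finset.sum_congr rfl fun j _ => ?_
      rw [map_mul, tw_iota, tw_tw]
    conv_lhs => rw [ih]
    simp_rw [A6_succ, map_sum, map_mul, Finset.sum_mul]
    rw [Finset.sum_comm]
    refine Finset.sum_congr rfl fun k _ => ?_
    rw [e k, Finset.mul_sum]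
    refine Finset.sum_congr rfl fun j _ => ?_
    ring

theorem PhN_col {θ : K} {Φ : Matrix (Fin 3) (Fin 3) (A2 F)} {ψ : Fin 3 → PowerSeries K}
    (h : Sys θ Φ ψ) (n : ℕ) : PhN Φ n 2 2 = 1 ∧ PhN Φ n 0 2 = 0 ∧ PhN Φ n 1 2 = 0 := by
  have key : ∀ n i, PhN Φ (n + 1) i 2 = PhN Φ n i 2 := by
    intro n i
    rw [A6_succ, Fin.sum_univ_three, h.c02, h.c12, h.c22, map_zero, map_one, mul_zero, mul_zero,
      zero_add, zero_add, mul_one]
  induction n with
  | zero =>
    refine ⟨?_, ?_, ?_⟩ <;> simp [PhN, Matrix.one_apply]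
  | succ n ih => rw [key, key, key]; exact ih

omit [Fintype F] in
theorem A6_TD_zero (n : ℕ) : TD n (0 : A2 F) := by
  intro k
  simp

omit [Fintype F] in
theorem A6_TD_add {n : ℕ} {G H : A2 F} (hG : TD n G) (hH : TD n H) : TD n (G + H) := by
  intro k
  rw [coeff_add]
  exact (natDegree_add_le _ _).trans (max_le (hG k) (hH k))

omit [Fintype F] in
theorem A6_TD_mul {m n : ℕ} {G H : A2 F} (hG : TD m G) (hH : TD n H) : TD (m + n) (G * H) := by
  intro k
  rw [coeff_mul]
  refine natDegree_sum_le_of_forall_le _ _ fun x _ => ?_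
  exact natDegree_mul_le.trans (add_le_add (hG _) (hH _))

theorem A6_TD_tA {m : ℕ} {H : A2 F} (n : ℕ) (hH : TD m H) : TD m (tA F n H) := by
  intro k
  have h0 : 0 < Fintype.card F ^ n := pow_pos Fintype.card_pos n
  change ((expand (F[X]) (Fintype.card F ^ n) H).coeff k).natDegree ≤ m
  rw [coeff_expand h0]
  split_ifs with hk
  · exact hH _
  · simp

theorem A6_natDegree_tA (n : ℕ) (H : A2 F) :
    (tA F n H).natDegree = H.natDegree * Fintype.card F ^ n := by
  change (expand (F[X]) (Fintype.card F ^ n) H).natDegree = _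
  rw [natDegree_expand]

omit [Fintype F] in
theorem A6_natDegree_eval {m : ℕ} {H : A2 F} (hH : TD m H) :
    (H.eval (X : F[X])).natDegree ≤ m + H.natDegree := by
  rw [eval_eq_sum_range]
  refine natDegree_sum_le_of_forall_le _ _ fun k hk => ?_
  have h1 : k ≤ H.natDegree := Nat.lt_succ_iff.1 (Finset.mem_range.1 hk)
  refine natDegree_mul_le.trans (add_le_add (hH k) ?_)
  rw [natDegree_X_pow]
  exact h1

/-- degrees of the entries of the iterates -/
theorem PhN_deg (Φ : Matrix (Fin 3) (Fin 3) (A2 F)) :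
    ∃ C : ℕ, ∀ n i j, (PhN Φ n i j).natDegree ≤ C * Fintype.card F ^ n ∧
      TD (C * n) (PhN Φ n i j) ∧
      ((PhN Φ n i j).eval (X : F[X])).natDegree ≤ C * Fintype.card F ^ n := by
  obtain ⟨A, hA⟩ : ∃ A : ℕ, ∀ i j, (Φ i j).natDegree ≤ A := by
    refine ⟨∑ i, ∑ j, (Φ i j).natDegree, fun i j => ?_⟩
    calc (Φ i j).natDegree ≤ ∑ j, (Φ i j).natDegree :=
          Finset.single_le_sum (f := fun j => (Φ i j).natDegree) (fun _ _ => Nat.zero_le _)
            (Finset.mem_univ j)
      _ ≤ _ := Finset.single_le_sum (f := fun i => ∑ j, (Φ i j).natDegree)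
            (fun _ _ => Nat.zero_le _) (Finset.mem_univ i)
  obtain ⟨B, hB⟩ : ∃ B : ℕ, ∀ i j, TD B (Φ i j) := by
    have h1 : ∀ i j, ∃ b : ℕ, TD b (Φ i j) := by
      intro i j
      refine ⟨∑ k ∈ Finset.range ((Φ i j).natDegree + 1), ((Φ i j).coeff k).natDegree,
        fun k => ?_⟩
      by_cases hk : k ∈ Finset.range ((Φ i j).natDegree + 1)
      · exact Finset.single_le_sum (f := fun k => ((Φ i j).coeff k).natDegree)
          (fun _ _ => Nat.zero_le _) hk
      · rw [coeff_eq_zero_of_natDegree_lt (by simpa [Nat.lt_succ_iff] using hk), natDegree_zero]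
        exact Nat.zero_le _
    choose b hb using h1
    refine ⟨∑ i, ∑ j, b i j, fun i j k => (hb i j k).trans ?_⟩
    calc b i j ≤ ∑ j, b i j :=
          Finset.single_le_sum (f := fun j => b i j) (fun _ _ => Nat.zero_le _)
            (Finset.mem_univ j)
      _ ≤ _ := Finset.single_le_sum (f := fun i => ∑ j, b i j)
            (fun _ _ => Nat.zero_le _) (Finset.mem_univ i)
  have hq : 2 ≤ Fintype.card F := Fintype.one_lt_card
  have main : ∀ n i j, (PhN Φ n i j).natDegree ≤ A * Fintype.card F ^ n ∧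
      TD (B * n) (PhN Φ n i j) := by
    intro n
    induction n with
    | zero =>
      intro i j
      change ((1 : Matrix (Fin 3) (Fin 3) (A2 F)) i j).natDegree ≤ _ ∧
        TD _ ((1 : Matrix (Fin 3) (Fin 3) (A2 F)) i j)
      rw [Matrix.one_apply]
      split_ifs with hij
      · refine ⟨by simp, fun k => ?_⟩
        rw [coeff_one]
        split_ifs <;> simp
      · exact ⟨by simp, A6_TD_zero _⟩
    | succ n ih =>
      intro i j
      rw [A6_succ]
      constructor
      · refine natDegree_sum_le_of_forall_le _ _ fun k _ => ?_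
        refine natDegree_mul_le.trans ?_
        rw [A6_natDegree_tA]
        have h1 := (ih i k).1
        have h2 := hA k j
        calc (PhN Φ n i k).natDegree + (Φ k j).natDegree * Fintype.card F ^ n
            ≤ A * Fintype.card F ^ n + A * Fintype.card F ^ n :=
              add_le_add h1 (Nat.mul_le_mul_right _ h2)
          _ = A * Fintype.card F ^ n * 2 := by ring
          _ ≤ A * Fintype.card F ^ n * Fintype.card F := Nat.mul_le_mul_left _ hq
          _ = A * Fintype.card F ^ (n + 1) := by ring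
      · rw [Fin.sum_univ_three]
        have h3 : ∀ k, TD (B * (n + 1)) (PhN Φ n i k * tA F n (Φ k j)) := by
          intro k
          have := A6_TD_mul (ih i k).2 (A6_TD_tA n (hB k j))
          rwa [show B * n + B = B * (n + 1) by ring] at this
        exact A6_TD_add (A6_TD_add (h3 0) (h3 1)) (h3 2)
  refine ⟨A + B, fun n i j => ⟨(main n i j).1.trans ?_, fun k => ((main n i j).2 k).trans ?_, ?_⟩⟩
  · exact Nat.mul_le_mul_right _ (Nat.le_add_right _ _)
  · exact Nat.mul_le_mul_right _ (Nat.le_add_left _ _)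
  · refine (A6_natDegree_eval (main n i j).2).trans ?_
    have h1 : n ≤ Fintype.card F ^ n := (Nat.lt_pow_self (by omega)).le
    calc B * n + (PhN Φ n i j).natDegree
        ≤ B * Fintype.card F ^ n + A * Fintype.card F ^ n :=
          add_le_add (Nat.mul_le_mul_left _ h1) (main n i j).1
      _ = (A + B) * Fintype.card F ^ n := by ring

omit [Fintype F] [IsUltrametricDist K] [CompleteSpace K] in
theorem A6_val (θ : K) (H : A2 F) : val F θ θ H = aeval θ (H.eval (X : F[X])) := by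
  have h : val F θ θ = ((aeval θ : F[X] →ₐ[F] K) : F[X] →+* K).comp
      (Polynomial.evalRingHom (X : F[X])) := by
    apply Polynomial.ringHom_ext'
    · ext a <;> simp [val]
    · simp [val]
  rw [h]
  rfl

/-- the twisted third equation at `t = θ` -/
theorem third_eq {θ : K} {Φ : Matrix (Fin 3) (Fin 3) (A2 F)} {ψ : Fin 3 → PowerSeries K}
    (h : Sys θ Φ ψ) (n : ℕ) :
    ev θ (tw F n (ψ 2)) + aeval θ ((PhN Φ n 2 0).eval (X : F[X])) * ev θ (tw F n (ψ 0)) +
      aeval θ ((PhN Φ n 2 1).eval (X : F[X])) * ev θ (tw F n (ψ 1)) = 0 := by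
  have h1 := PhN_eq h n 2
  have hc := (PhN_col h n).1
  rw [Fin.sum_univ_three, hc, map_one, one_mul] at h1
  have e0 := Ent.iota (F := F) θ (PhN Φ n 2 0)
  have e1 := Ent.iota (F := F) θ (PhN Φ n 2 1)
  have t0 := Ent.tw (F := F) (h.ent 0) n
  have t1 := Ent.tw (F := F) (h.ent 1) n
  have t2 := Ent.tw (F := F) (h.ent 2) n
  have h2 := congrArg (ev θ) h1
  rw [h.zero, ev_add _ (Ent.add (Ent.mul e0 t0) (Ent.mul e1 t1)) t2,
    ev_add _ (Ent.mul e0 t0) (Ent.mul e1 t1), ev_mul _ e0 t0, ev_mul _ e1 t1, ev_iota, ev_iota,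
    A6_val, A6_val] at h2
  rw [h2]
  ring

end Pool.Agent.MP33dd76
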