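import Mathlib
import Pool.Agent.Lib.MP_33dd76_nt.A4Sieg
import Pool.Agent.Lib.MP_33dd76_nt.A6Phi

set_option autoImplicit false

open Polynomial

namespace Pool.Agent.MP33dd76

/-! # Module A7: the auxiliary polynomials (Step 1) -/

variable {F : Type*} [Field F] [Fintype F]

/-- `H(t = X^(q^j), X)` -/
noncomputable def subj (j : ℕ) (H : A2 F) : F[X] :=
  (H.map ((Polynomial.expand F (Fintype.card F ^ j) : F[X] →ₐ[F] F[X]) : F[X] →+* F[X])).eval
    (X : F[X])

/-- the polynomial with given coefficients -/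
noncomputable def A7_P {R : Type*} [Semiring R] {n : ℕ} (w : Fin n → R) : R[X] :=
  ∑ i : Fin n, C (w i) * X ^ (i : ℕ)

theorem A7_P_coeff {R : Type*} [Semiring R] {n : ℕ} (w : Fin n → R) (m : Fin n) :
    (A7_P w).coeff m = w m := by
  unfold A7_P
  rw [Polynomial.finsetSum_coeff]
  simp only [Polynomial.coeff_C_mul_X_pow]
  rw [Finset.sum_eq_single m]
  · simp
  · intro b _ hb
    rw [if_neg]
    intro h
    exact hb (Fin.ext h.symm)
  · intro h
    exact absurd (Finset.mem_univ _) h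

theorem A7_P_natDegree {R : Type*} [Semiring R] {n : ℕ} (w : Fin n → R) :
    (A7_P w).natDegree ≤ n - 1 := by
  apply Polynomial.natDegree_sum_le_of_forall_le
  intro i _
  exact (Polynomial.natDegree_C_mul_X_pow_le _ _).trans (by omega)

/-- the linear map `w ↦ subj j (A7_P (A7_P w))` -/
noncomputable def A7_S (F : Type*) [Field F] (a b e : ℕ) :
    (Fin a → Fin b → F) →ₗ[F] F[X] where
  toFun w := ∑ k : Fin a, ∑ l : Fin b, C (w k l) * X ^ ((l : ℕ) * e + (k : ℕ))
  map_add' x y := by simp [add_mul, Finset.sum_add_distrib]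
  map_smul' c x := by
    simp [Finset.smul_sum, Polynomial.smul_eq_C_mul, mul_assoc]

theorem A7_S_apply (a b e : ℕ) (w : Fin a → Fin b → F) :
    A7_S F a b e w = ∑ k : Fin a, ∑ l : Fin b, C (w k l) * X ^ ((l : ℕ) * e + (k : ℕ)) := rfl

theorem A7_S_eq (a b j : ℕ) (w : Fin a → Fin b → F) :
    subj j (A7_P fun k => A7_P (w k)) = A7_S F a b (Fintype.card F ^ j) w := by
  rw [A7_S_apply]
  unfold subj A7_P
  rw [Polynomial.map_sum, Polynomial.eval_finsetSum]
  refine Finset.sum_congr rfl fun k _ => ?_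
  rw [Polynomial.map_mul, Polynomial.map_C, Polynomial.map_pow, Polynomial.map_X,
    Polynomial.eval_mul, Polynomial.eval_C, Polynomial.eval_pow, Polynomial.eval_X, map_sum,
    Finset.sum_mul]
  refine Finset.sum_congr rfl fun l _ => ?_
  rw [map_mul, map_pow]
  simp only [RingHom.coe_coe, Polynomial.expand_C, Polynomial.expand_X]
  rw [mul_assoc, ← pow_mul, ← pow_add, mul_comm (Fintype.card F ^ j) (l : ℕ)]

theorem A7_S_natDegree (a b e : ℕ) (ha : 1 ≤ a) (w : Fin a → Fin b → F) :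
    (A7_S F a b e w).natDegree ≤ b * e + a - 1 := by
  rw [A7_S_apply]
  apply Polynomial.natDegree_sum_le_of_forall_le
  intro k _
  apply Polynomial.natDegree_sum_le_of_forall_le
  intro l _
  refine (Polynomial.natDegree_C_mul_X_pow_le _ _).trans ?_
  have h1 : (l : ℕ) * e ≤ b * e := Nat.mul_le_mul_right _ l.2.le
  have := k.2
  omega

theorem A7_geom (q : ℕ) (hq : 2 ≤ q) (N : ℕ) :
    ∑ j ∈ Finset.range N, q ^ (j + 1) ≤ 2 * q ^ N := by
  induction N with
  | zero => simp
  | succ N ih =>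
    rw [Finset.sum_range_succ]
    have h1 : 2 * q ^ N ≤ q ^ (N + 1) := by
      rw [pow_succ, mul_comm]
      exact Nat.mul_le_mul_left _ hq
    omega

theorem exists_aux (Φ : Matrix (Fin 3) (Fin 3) (A2 F)) :
    ∃ C : ℕ, ∀ N0 : ℕ, 1 ≤ N0 → ∃ H : Fin 3 → A2 F, H ≠ 0 ∧
      (∀ i, (H i).natDegree ≤ C * Fintype.card F ^ (6 * N0)) ∧ (∀ i, TD (5 * N0 - 1) (H i)) ∧
      ∀ j, 1 ≤ j → j ≤ 6 * N0 → ∀ i : Fin 3, i ≠ 2 →
        subj j (H i) = subj j (H 2) *
          Polynomial.expand F (Fintype.card F ^ j) ((PhN Φ (6 * N0 - j) 2 i).eval (X : F[X])) := by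
  obtain ⟨C', hC'⟩ := PhN_deg Φ
  refine ⟨8 + 4 * C', fun N0 hN0 => ?_⟩
  have hq : 2 ≤ Fintype.card F := Fintype.one_lt_card
  set q := Fintype.card F with hqdef
  set N := 6 * N0 with hN
  set Q := q ^ N with hQ
  have hQ1 : 1 ≤ Q := Nat.one_le_pow _ _ (by omega)
  set a := (8 + 4 * C') * Q with ha
  set b := 5 * N0 with hb
  have ha1 : 1 ≤ a := by
    rw [ha]
    exact Nat.mul_pos (by omega) hQ1
  -- the linear conditions
  let β : Fin N → Fin 2 → F[X] := fun j i =>
    Polynomial.expand F (q ^ ((j : ℕ) + 1)) ((PhN Φ (N - ((j : ℕ) + 1)) 2 i.castSucc).eval (X : F[X]))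
  let L : Fin N × Fin 2 → (Fin 3 → Fin a → Fin b → F) →ₗ[F] F[X] := fun x =>
    (A7_S F a b (q ^ ((x.1 : ℕ) + 1))).comp (LinearMap.proj x.2.castSucc) -
      (LinearMap.mulRight F (β x.1 x.2)).comp
        ((A7_S F a b (q ^ ((x.1 : ℕ) + 1))).comp (LinearMap.proj 2))
  let d : Fin N × Fin 2 → ℕ := fun x => b * q ^ ((x.1 : ℕ) + 1) + a + C' * Q
  have hβ : ∀ j i, (β j i).natDegree ≤ C' * Q := by
    intro j i
    simp only [β]
    rw [Polynomial.natDegree_expand]
    have h1 := (hC' (N - ((j : ℕ) + 1)) 2 i.castSucc).2.2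
    calc ((PhN Φ (N - ((j : ℕ) + 1)) 2 i.castSucc).eval (X : F[X])).natDegree * q ^ ((j : ℕ) + 1)
        ≤ (C' * q ^ (N - ((j : ℕ) + 1))) * q ^ ((j : ℕ) + 1) := Nat.mul_le_mul_right _ h1
      _ = C' * Q := by
        rw [mul_assoc, ← pow_add, hQ]
        congr 2
        have := j.2
        omega
  have hd : ∀ x v, (L x v).degree < d x := by
    intro x v
    refine Polynomial.degree_le_natDegree.trans_lt ?_
    rw [Nat.cast_lt]
    have e1 : L x v = A7_S F a b (q ^ ((x.1 : ℕ) + 1)) (v x.2.castSucc) -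
        A7_S F a b (q ^ ((x.1 : ℕ) + 1)) (v 2) * β x.1 x.2 := rfl
    rw [e1]
    have h1 := A7_S_natDegree a b (q ^ ((x.1 : ℕ) + 1)) ha1 (v x.2.castSucc)
    have h2 := A7_S_natDegree a b (q ^ ((x.1 : ℕ) + 1)) ha1 (v 2)
    have h3 := hβ x.1 x.2
    have h4 := Polynomial.natDegree_mul_le (p := A7_S F a b (q ^ ((x.1 : ℕ) + 1)) (v 2))
      (q := β x.1 x.2)
    have h5 := Polynomial.natDegree_sub_le (A7_S F a b (q ^ ((x.1 : ℕ) + 1)) (v x.2.castSucc))
      (A7_S F a b (q ^ ((x.1 : ℕ) + 1)) (v 2) * β x.1 x.2)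
    simp only [d]
    omega
  have hfin : Module.finrank F (Fin 3 → Fin a → Fin b → F) = 3 * (a * b) := by
    simp [Module.finrank_pi_fintype]
  have hsum : ∑ x, d x < Module.finrank F (Fin 3 → Fin a → Fin b → F) := by
    rw [hfin, Fintype.sum_prod_type]
    have e2 : ∑ x : Fin N, ∑ y : Fin 2, d (x, y) =
        2 * (b * ∑ j ∈ Finset.range N, q ^ (j + 1) + N * a + N * (C' * Q)) := by
      have e3 : ∀ x : Fin N, ∑ y : Fin 2, d (x, y) =
          2 * (b * q ^ ((x : ℕ) + 1) + a + C' * Q) := by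
        intro x
        simp only [d]
        rw [Finset.sum_const, Finset.card_univ, Fintype.card_fin, smul_eq_mul]
      rw [Finset.sum_congr rfl (fun x _ => e3 x), ← Finset.mul_sum,
        Fin.sum_univ_eq_sum_range (fun i => b * q ^ (i + 1) + a + C' * Q) N,
        Finset.sum_add_distrib, Finset.sum_add_distrib, ← Finset.mul_sum, Finset.sum_const,
        Finset.sum_const, Finset.card_range, smul_eq_mul, smul_eq_mul]
    rw [e2]
    have h6 := A7_geom q hq N
    have h7 : b * ∑ j ∈ Finset.range N, q ^ (j + 1) ≤ b * (2 * Q) := Nat.mul_le_mul_left _ h6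
    have h8 : 2 * (b * (2 * Q) + N * a + N * (C' * Q)) < 3 * (a * b) := by
      rw [ha, hb, hN]
      have h9 : 0 < N0 * Q := Nat.mul_pos (by omega) (by omega)
      nlinarith
    omega
  obtain ⟨v, hv, hLv⟩ := siegel L d hd hsum
  have hcf : ∀ i (k : Fin a), (A7_P fun k => A7_P (v i k) : A2 F).coeff k = A7_P (v i k) :=
    fun i k => A7_P_coeff (fun k => A7_P (v i k)) k
  refine ⟨fun i => A7_P fun k => A7_P (v i k), ?_, ?_, ?_, ?_⟩
  · intro h0
    apply hv
    funext i k l
    have h1 := congrFun h0 i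
    simp only [Pi.zero_apply] at h1
    have h2 := hcf i k
    rw [h1, Polynomial.coeff_zero] at h2
    have h3 := A7_P_coeff (v i k) l
    rw [← h2, Polynomial.coeff_zero] at h3
    simp only [Pi.zero_apply]
    exact h3.symm
  · intro i
    refine (A7_P_natDegree _).trans ?_
    omega
  · intro i k
    by_cases hk : k < a
    · have := hcf i ⟨k, hk⟩
      simp only at this
      rw [this]
      exact A7_P_natDegree _
    · rw [Polynomial.coeff_eq_zero_of_natDegree_lt]
      · simp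
      · have := A7_P_natDegree (fun k => A7_P (v i k))
        show (A7_P fun k => A7_P (v i k)).natDegree < k
        omega
  · intro j hj1 hjN i hi
    obtain ⟨i', rfl⟩ : ∃ i' : Fin 2, i'.castSucc = i := by
      rw [Fin.exists_castSucc_eq]
      exact hi
    have h1 := hLv (⟨j - 1, by omega⟩, i')
    have e1 : L (⟨j - 1, by omega⟩, i') v = A7_S F a b (q ^ ((j - 1) + 1)) (v i'.castSucc) -
        A7_S F a b (q ^ ((j - 1) + 1)) (v 2) * Polynomial.expand F (q ^ ((j - 1) + 1))
          ((PhN Φ (N - ((j - 1) + 1)) 2 i'.castSucc).eval (X : F[X])) := rfl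
    rw [e1, sub_eq_zero] at h1
    have hj : j - 1 + 1 = j := by omega
    rw [hj] at h1
    rw [A7_S_eq, A7_S_eq]
    exact h1

end Pool.Agent.MP33dd76
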