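import Mathlib
import Pool.Agent.Lib.MP_33dd76_nt.A7Aux

set_option autoImplicit false

open Polynomial

namespace Pool.Agent.MP33dd76

/-! # Module A8: zeros of the auxiliary function (Step 2) -/

variable {F : Type*} [Field F] [Fintype F] {K : Type*} [NormedField K] [IsUltrametricDist K]
  [CompleteSpace K] [Algebra F K]

omit [IsUltrametricDist K] [CompleteSpace K] in
theorem A8_val_subj (θ : K) (j : ℕ) (H : A2 F) :
    val F θ (θ ^ (Fintype.card F ^ j)) H = aeval θ (subj j H) := by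
  have h : val F θ (θ ^ (Fintype.card F ^ j)) =
      ((Polynomial.aeval θ : F[X] →ₐ[F] K) : F[X] →+* K).comp
        ((Polynomial.evalRingHom (X : F[X])).comp (Polynomial.mapRingHom
          ((Polynomial.expand F (Fintype.card F ^ j) : F[X] →ₐ[F] F[X]) : F[X] →+* F[X]))) := by
    apply Polynomial.ringHom_ext'
    · ext a <;> simp [val]
    · simp [val]
  exact DFunLike.congr_fun h H

omit [IsUltrametricDist K] [CompleteSpace K] in
theorem A8_aeval_pow (θ : K) (j : ℕ) (P : F[X]) :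
    (aeval θ P) ^ (Fintype.card F ^ j) =
      aeval θ (Polynomial.expand F (Fintype.card F ^ j) P) := by
  rw [Polynomial.expand_aeval, ← A1_frob_apply (F := F) j (aeval θ P), Polynomial.aeval_def,
    Polynomial.hom_eval₂, A1_frob_apply, Polynomial.aeval_def]
  congr 1
  ext a
  rw [RingHom.comp_apply, A1_frob_apply, A1_frob_alg]

theorem aux_zero {θ : K} {Φ : Matrix (Fin 3) (Fin 3) (A2 F)} {ψ : Fin 3 → PowerSeries K}
    (h : Sys θ Φ ψ) (N : ℕ) (H : Fin 3 → A2 F)
    (hH : ∀ j, 1 ≤ j → j ≤ N → ∀ i : Fin 3, i ≠ 2 →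
        subj j (H i) = subj j (H 2) *
          Polynomial.expand F (Fintype.card F ^ j) ((PhN Φ (N - j) 2 i).eval (X : F[X])))
    (j : ℕ) (h1 : 1 ≤ j) (hj : j ≤ N) :
    ev (θ ^ (Fintype.card F ^ j)) (∑ i, iota F θ (H i) * tw F N (ψ i)) = 0 := by
  have hE : ∀ i, Ent (iota F θ (H i) * tw F N (ψ i)) := fun i =>
    Ent.mul (Ent.iota θ (H i)) (Ent.tw (h.ent i) N)
  have hev : ∀ i, ev (θ ^ (Fintype.card F ^ j)) (iota F θ (H i) * tw F N (ψ i)) =
      aeval θ (subj j (H i)) * (ev θ (tw F (N - j) (ψ i))) ^ (Fintype.card F ^ j) := by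
    intro i
    rw [ev_mul _ (Ent.iota θ (H i)) (Ent.tw (h.ent i) N), ev_iota, A8_val_subj,
      ← ev_tw θ (Ent.tw (h.ent i) (N - j)) j, tw_tw, Nat.add_sub_cancel' hj]
  rw [Fin.sum_univ_three, ev_add _ ((hE 0).add (hE 1)) (hE 2), ev_add _ (hE 0) (hE 1), hev 0,
    hev 1, hev 2, hH j h1 hj 0 (by decide), hH j h1 hj 1 (by decide)]
  have h3 := congrArg (frob F j : K →+* K) (third_eq h (N - j))
  rw [map_zero, map_add, map_add, map_mul, map_mul, A1_frob_apply, A1_frob_apply, A1_frob_apply,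
    A1_frob_apply, A1_frob_apply, A8_aeval_pow, A8_aeval_pow] at h3
  rw [map_mul, map_mul]
  linear_combination (aeval θ (subj j (H 2))) * h3

end Pool.Agent.MP33dd76
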