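import Mathlib
import Pool.Agent.Lib.MP_33dd76_nt.A4Sieg
import Pool.Agent.Lib.MP_33dd76_nt.A6Phi

set_option autoImplicit false

open Polynomial

namespace Pool.Agent.MP33dd76

/-! # Module A9: a relation between four twists of the auxiliary function (Step 4) -/

variable {F : Type*} [Field F] [Fintype F] {K : Type*} [NormedField K] [IsUltrametricDist K]
  [CompleteSpace K] [Algebra F K]

theorem A9_natDegree_tA {F : Type*} [Field F] [Fintype F] (m : ℕ) (P : A2 F) :
    (tA F m P).natDegree = P.natDegree * Fintype.card F ^ m :=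
  Polynomial.natDegree_expand _ _

theorem A9_TD_tA {F : Type*} [Field F] [Fintype F] (m n : ℕ) {P : A2 F} (h : TD n P) :
    TD n (tA F m P) := by
  intro k
  have hq : 0 < Fintype.card F ^ m := pow_pos Fintype.card_pos _
  show ((Polynomial.expand (Polynomial F) (Fintype.card F ^ m) P).coeff k).natDegree ≤ n
  rw [Polynomial.coeff_expand hq]
  split_ifs
  · exact h _
  · simp

theorem A9_TD_sum {F : Type*} [Field F] {ι : Type*} (s : Finset ι) (f : ι → A2 F) (n : ℕ)
    (h : ∀ i ∈ s, TD n (f i)) : TD n (∑ i ∈ s, f i) := by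
  intro k
  rw [Polynomial.finsetSum_coeff]
  exact Polynomial.natDegree_sum_le_of_forall_le s _ fun i hi => h i hi k

theorem A9_TD_mul {F : Type*} [Field F] {n m : ℕ} {P Q : A2 F} (hP : TD n P) (hQ : TD m Q) :
    TD (n + m) (P * Q) := by
  intro k
  rw [Polynomial.coeff_mul]
  refine Polynomial.natDegree_sum_le_of_forall_le _ _ fun i _ => ?_
  exact (Polynomial.natDegree_mul_le).trans (add_le_add (hP _) (hQ _))

theorem A9_tw_iter {θ : K} {Φ : Matrix (Fin 3) (Fin 3) (A2 F)} {ψ : Fin 3 → PowerSeries K}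
    (h : Sys θ Φ ψ) (m l : ℕ) (j : Fin 3) :
    tw F m (ψ j) = ∑ k, iota F θ (tA F m (PhN Φ l j k)) * tw F (m + l) (ψ k) := by
  conv_lhs => rw [PhN_eq h l j]
  rw [map_sum]
  refine Finset.sum_congr rfl fun k _ => ?_
  rw [map_mul, tw_iota, tw_tw]

theorem aux_rel {θ : K} {Φ : Matrix (Fin 3) (Fin 3) (A2 F)} {ψ : Fin 3 → PowerSeries K}
    (h : Sys θ Φ ψ) (C : ℕ) :
    ∃ C' : ℕ, ∀ (N n : ℕ) (H : Fin 3 → A2 F),
      (∀ i, (H i).natDegree ≤ C * Fintype.card F ^ N) → (∀ i, TD n (H i)) →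
      ∃ c : Fin 4 → A2 F, c ≠ 0 ∧ (∀ i, (c i).natDegree ≤ C' * Fintype.card F ^ N) ∧
        ∑ i, iota F θ (c i) * tw F (i : ℕ) (∑ j, iota F θ (H j) * tw F N (ψ j)) = 0 := by
  obtain ⟨C0, hC0⟩ := PhN_deg Φ
  refine ⟨12 * ((C + C0) * Fintype.card F ^ 3 + 1), fun N n H hH hTD => ?_⟩
  have hq1 : 1 ≤ Fintype.card F := Fintype.card_pos
  set r : Fin 4 → Fin 3 → A2 F := fun i k =>
    ∑ j, tA F (i : ℕ) (H j) * tA F (N + i) (PhN Φ (3 - i) j k) with hr
  have hdeg : ∀ i k, (r i k).natDegree ≤ (C + C0) * Fintype.card F ^ 3 * Fintype.card F ^ N := by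
    intro i k
    refine Polynomial.natDegree_sum_le_of_forall_le _ _ fun j _ => ?_
    refine (Polynomial.natDegree_mul_le).trans ?_
    rw [A9_natDegree_tA, A9_natDegree_tA]
    have h1 : (H j).natDegree * Fintype.card F ^ (i : ℕ) ≤
        C * Fintype.card F ^ N * Fintype.card F ^ 3 :=
      Nat.mul_le_mul (hH j) (Nat.pow_le_pow_right hq1 (by omega))
    have h2 : (PhN Φ (3 - i) j k).natDegree * Fintype.card F ^ (N + (i : ℕ)) ≤
        C0 * Fintype.card F ^ (3 - (i : ℕ)) * Fintype.card F ^ (N + (i : ℕ)) :=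
      Nat.mul_le_mul_right _ (hC0 _ _ _).1
    have h3 : C0 * Fintype.card F ^ (3 - (i : ℕ)) * Fintype.card F ^ (N + (i : ℕ)) =
        C0 * Fintype.card F ^ 3 * Fintype.card F ^ N := by
      rw [mul_assoc, mul_assoc, ← pow_add, ← pow_add]
      congr 2
      omega
    rw [h3] at h2
    calc _ ≤ C * Fintype.card F ^ N * Fintype.card F ^ 3 +
        C0 * Fintype.card F ^ 3 * Fintype.card F ^ N := add_le_add h1 h2
      _ = _ := by ring
  have htd : ∀ i k, TD (n + C0 * 3) (r i k) := by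
    intro i k
    refine A9_TD_sum _ _ _ fun j _ => ?_
    refine A9_TD_mul (A9_TD_tA _ _ (hTD j)) (A9_TD_tA _ _ ?_)
    intro l
    exact ((hC0 (3 - i) j k).2.1 l).trans (Nat.mul_le_mul_left _ (by omega))
  obtain ⟨c, hc0, hc1, hc2⟩ := rel4 r _ _ hdeg htd
  refine ⟨c, hc0, fun i => ?_, ?_⟩
  · refine (hc2 i).trans ?_
    have h1 : 1 ≤ Fintype.card F ^ N := Nat.one_le_pow _ _ hq1
    calc 12 * ((C + C0) * Fintype.card F ^ 3 * Fintype.card F ^ N + 1)
        ≤ 12 * ((C + C0) * Fintype.card F ^ 3 * Fintype.card F ^ N + Fintype.card F ^ N) := by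
          gcongr
      _ = _ := by ring
  · have key : ∀ i : Fin 4, tw F (i : ℕ) (∑ j, iota F θ (H j) * tw F N (ψ j)) =
        ∑ k, iota F θ (r i k) * tw F (N + 3) (ψ k) := by
      intro i
      rw [map_sum]
      have h1 : ∀ j, tw F (i : ℕ) (iota F θ (H j) * tw F N (ψ j)) =
          ∑ k, iota F θ (tA F (i : ℕ) (H j) * tA F (N + i) (PhN Φ (3 - i) j k)) *
            tw F (N + 3) (ψ k) := by
        intro j
        rw [map_mul, tw_iota, tw_tw, add_comm (i : ℕ) N, A9_tw_iter h (N + i) (3 - i) j,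
          Finset.mul_sum]
        refine Finset.sum_congr rfl fun k _ => ?_
        have h2 : N + (i : ℕ) + (3 - (i : ℕ)) = N + 3 := by omega
        rw [h2, map_mul, mul_assoc]
      rw [Finset.sum_congr rfl fun j _ => h1 j, Finset.sum_comm]
      refine Finset.sum_congr rfl fun k _ => ?_
      simp only [hr]
      rw [map_sum, Finset.sum_mul]
    rw [Finset.sum_congr rfl fun i _ => by rw [key i, Finset.mul_sum], Finset.sum_comm]
    refine Finset.sum_eq_zero fun k _ => ?_
    have h3 : ∑ i, iota F θ (c i) * (iota F θ (r i k) * tw F (N + 3) (ψ k)) =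
        iota F θ (∑ i, c i * r i k) * tw F (N + 3) (ψ k) := by
      rw [map_sum, Finset.sum_mul]
      refine Finset.sum_congr rfl fun i _ => ?_
      rw [map_mul, mul_assoc]
    rw [h3, hc1 k, map_zero, zero_mul]

end Pool.Agent.MP33dd76
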