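import Mathlib
import Pool.Agent.Lib.MP_33dd76_nt.A5Lead
import Pool.Agent.Lib.MP_33dd76_nt.A8Zero
import Pool.Agent.Lib.MP_33dd76_nt.A9Rel

set_option autoImplicit false

open Polynomial

namespace Pool.Agent.MP33dd76

/-! # Module A10: the transcendence theorem for the system -/

variable {F : Type*} [Field F] [Fintype F] {K : Type*} [NormedField K] [IsUltrametricDist K]
  [CompleteSpace K] [Algebra F K]

/-- the numerical contradiction -/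
theorem A10_num {a B : ℝ} (ha : 1 < a) (hB : 1 ≤ B) (C1 C2 N0 Q : ℕ) (hQ : Q ≠ 0) (hN0 : 1 ≤ N0)
    (h : (a⁻¹) ^ (C2 * Q) ≤ a ^ (2 * Q) *
      (a ^ (C1 * Q) * ((a ^ 2) ^ Q) ^ (5 * N0 - 1) * B ^ Q / ((a ^ 2) ^ Q) ^ (6 * N0))) :
    a ^ (2 * (N0 + 1)) ≤ a ^ (2 + C1 + C2) * B := by
  have ha0 : 0 < a := zero_lt_one.trans ha
  obtain ⟨R, hR⟩ : ∃ R : ℝ, R = (a ^ 2) ^ Q := ⟨_, rfl⟩
  have hR0 : 0 < R := by rw [hR]; positivity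
  have e1 : R ^ (6 * N0) = R ^ (5 * N0 - 1) * R ^ (N0 + 1) := by
    rw [← pow_add]
    congr 1
    omega
  rw [← hR, e1] at h
  have e2 : a ^ (C1 * Q) * R ^ (5 * N0 - 1) * B ^ Q / (R ^ (5 * N0 - 1) * R ^ (N0 + 1)) =
      a ^ (C1 * Q) * B ^ Q / R ^ (N0 + 1) := by
    field_simp
  rw [e2, inv_pow, ← mul_div_assoc, le_div_iff₀ (by positivity), inv_mul_le_iff₀ (by positivity)]
    at h
  have e3 : R ^ (N0 + 1) = (a ^ (2 * (N0 + 1))) ^ Q := by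
    rw [hR, ← pow_mul, ← pow_mul, ← pow_mul]
    congr 1
    ring
  have e4 : a ^ (C2 * Q) * (a ^ (2 * Q) * (a ^ (C1 * Q) * B ^ Q)) =
      (a ^ (2 + C1 + C2) * B) ^ Q := by
    rw [mul_pow, ← pow_mul, add_mul, add_mul, pow_add, pow_add]
    ring
  rw [e3, e4] at h
  exact le_of_pow_le_pow_left₀ hQ (by positivity) h

theorem abp {θ : K} (hθ : 1 < ‖θ‖) {Φ : Matrix (Fin 3) (Fin 3) (A2 F)}
    {ψ : Fin 3 → PowerSeries K} (h : Sys θ Φ ψ) :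
    ∃ (N : ℕ) (H : Fin 3 → A2 F), H ≠ 0 ∧ ∑ i, iota F θ (H i) * tw F N (ψ i) = 0 := by
  classical
  by_contra hcon
  push Not at hcon
  obtain ⟨C1, hC1⟩ := exists_aux Φ
  obtain ⟨C2, hC2⟩ := aux_rel h C1
  have ha2 : 0 < ‖θ‖ ^ 2 := by positivity
  obtain ⟨b0, hb0⟩ := h.ent 0 (‖θ‖ ^ 2) ha2
  obtain ⟨b1, hb1⟩ := h.ent 1 (‖θ‖ ^ 2) ha2
  obtain ⟨b2, hb2⟩ := h.ent 2 (‖θ‖ ^ 2) ha2
  obtain ⟨B, hB⟩ : ∃ B : ℝ, B = max 1 (max b0 (max b1 b2)) := ⟨_, rfl⟩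
  have hB1 : 1 ≤ B := by rw [hB]; exact le_max_left _ _
  have hBd : ∀ i, Bd (ψ i) (‖θ‖ ^ 2) B := by
    intro i
    have h0 : b0 ≤ B := by
      rw [hB]
      exact (le_max_left _ _).trans (le_max_right _ _)
    have h1 : b1 ≤ B := by
      rw [hB]
      exact ((le_max_left _ _).trans (le_max_right _ _)).trans (le_max_right _ _)
    have h2 : b2 ≤ B := by
      rw [hB]
      exact ((le_max_right _ _).trans (le_max_right _ _)).trans (le_max_right _ _)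
    fin_cases i
    · exact hb0.mono h0
    · exact hb1.mono h1
    · exact hb2.mono h2
  obtain ⟨n0, hn0⟩ := pow_unbounded_of_one_lt (‖θ‖ ^ (2 + C1 + C2) * B) hθ
  obtain ⟨N0, hN0⟩ : ∃ N0, N0 = n0 + 1 := ⟨_, rfl⟩
  have hN01 : 1 ≤ N0 := by omega
  obtain ⟨H, hH0, hHdeg, hHTD, hH⟩ := hC1 N0 hN01
  have hf0 := hcon (6 * N0) H hH0
  obtain ⟨Q, hQ⟩ : ∃ Q, Q = Fintype.card F ^ (6 * N0) := ⟨_, rfl⟩
  have hq : 1 < Fintype.card F := Fintype.one_lt_card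
  have hQ0 : Q ≠ 0 := by
    rw [hQ]
    exact pow_ne_zero _ (by omega)
  obtain ⟨R, hR⟩ : ∃ R : ℝ, R = (‖θ‖ ^ 2) ^ Q := ⟨_, rfl⟩
  have hR1 : 1 ≤ R := by
    rw [hR]
    exact one_le_pow₀ (one_le_pow₀ hθ.le)
  have hR0 : 0 ≤ R := zero_le_one.trans hR1
  -- the bound
  have hterm : ∀ i, Bd (iota F θ (H i) * tw F (6 * N0) (ψ i)) R
      (‖θ‖ ^ (C1 * Q) * R ^ (5 * N0 - 1) * B ^ Q) := by
    intro i
    have h1 := Bd_iota hθ hR1 (H i) (C1 * Q) (5 * N0 - 1) (by rw [hQ]; exact hHdeg i) (hHTD i)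
    have h2 := (hBd i).tw (F := F) (6 * N0) ha2.le
    rw [← hQ, ← hR] at h2
    exact h1.mul hR0 h2
  have hfB : Bd (∑ i, iota F θ (H i) * tw F (6 * N0) (ψ i)) R
      (‖θ‖ ^ (C1 * Q) * R ^ (5 * N0 - 1) * B ^ Q) := by
    rw [Fin.sum_univ_three]
    exact ((hterm 0).add hR0 (hterm 1)).add hR0 (hterm 2)
  obtain ⟨c, hc0, hcdeg, hcrel⟩ := hC2 (6 * N0) (5 * N0 - 1) H hHdeg hHTD
  obtain ⟨n, hn1, _, hn3⟩ := lead_lower hθ _ hf0 c hc0 (C2 * Fintype.card F ^ (6 * N0)) hcdeg hcrel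
  have hup := lead_upper hθ _ (6 * N0) n (R := R) (by
    rw [← hQ, hR, ← pow_mul]
    exact pow_lt_pow_right₀ hθ (by omega)) hfB
    (fun j h1 h2 => aux_zero h (6 * N0) H hH j h1 h2) hn1
  have hfin := hn3.trans hup
  rw [← hQ, hR] at hfin
  have hlast := A10_num hθ hB1 C1 C2 N0 Q hQ0 hN01 hfin
  have h5 : ‖θ‖ ^ n0 ≤ ‖θ‖ ^ (2 * (N0 + 1)) := pow_le_pow_right₀ hθ.le (by omega)
  linarith

end Pool.Agent.MP33dd76
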