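import Mathlib
import Pool.Agent.Lib.MP_33dd76_nt.A1Ps
import Pool.Agent.Lib.MP_33dd76_nt.A2Norm

set_option autoImplicit false

open Polynomial

namespace Pool.Agent.MP33dd76

/-! # Module A11: the function Omega -/

variable {F : Type*} [Field F] [Fintype F] {K : Type*} [NormedField K] [IsUltrametricDist K]
  [CompleteSpace K] [Algebra F K]

omit [CompleteSpace K] [IsUltrametricDist K] in
theorem A11_size {θ : K} (hθ : 1 < ‖θ‖) {n : ℕ} (hn : 2 ≤ n) (i : ℕ) :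
    ‖θ * (θ⁻¹) ^ (n ^ (i + 1))‖ ≤ (‖θ‖⁻¹) ^ (i + 1) := by
  have h0 : (0 : ℝ) < ‖θ‖ := by linarith
  have h1 : i + 2 ≤ n ^ (i + 1) := by
    have := Nat.lt_pow_self (n := i + 1) (show 1 < n by omega)
    omega
  rw [norm_mul, norm_pow, norm_inv]
  have h2 : (‖θ‖⁻¹) ^ (n ^ (i + 1)) ≤ (‖θ‖⁻¹) ^ (i + 2) :=
    pow_le_pow_of_le_one (by positivity) (inv_le_one_of_one_le₀ hθ.le) h1
  calc ‖θ‖ * (‖θ‖⁻¹) ^ (n ^ (i + 1)) ≤ ‖θ‖ * (‖θ‖⁻¹) ^ (i + 2) := by gcongr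
    _ = (‖θ‖⁻¹) ^ (i + 1) := by
      rw [show i + 2 = (i + 1) + 1 from rfl, pow_succ' _ (i + 1), ← mul_assoc,
        mul_inv_cancel₀ h0.ne', one_mul]

omit [CompleteSpace K] in
theorem A11_norm_one_sub {x : K} (hx : ‖x‖ < 1) : ‖1 - x‖ = 1 := by
  have h := IsUltrametricDist.norm_add_eq_max_of_norm_ne_norm (x := (1 : K)) (y := -x)
    (by rw [norm_one, norm_neg]; exact hx.ne')
  rw [← sub_eq_add_neg, norm_one, norm_neg, max_eq_left hx.le] at h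
  exact h

omit [CompleteSpace K] [IsUltrametricDist K] [Algebra F K] in
theorem A11_lt_one {θ : K} (hθ : 1 < ‖θ‖) {n : ℕ} (hn : 2 ≤ n) (i : ℕ) :
    ‖θ * (θ⁻¹) ^ (n ^ (i + 1))‖ < 1 :=
  (A11_size hθ hn i).trans_lt (pow_lt_one₀ (by positivity) (inv_lt_one_of_one_lt₀ hθ) (by omega))

theorem pprod_hasProd {θ : K} (hθ : 1 < ‖θ‖) :
    HasProd (fun i : ℕ => (1 - θ * (θ⁻¹) ^ (Fintype.card F ^ (i + 1)))) (pprod F θ) ∧
      ‖pprod F θ‖ = 1 := by
  have hq : 2 ≤ Fintype.card F := Fintype.one_lt_card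
  have hs : Summable fun i : ℕ => ‖-(θ * (θ⁻¹) ^ (Fintype.card F ^ (i + 1)))‖ := by
    refine Summable.of_nonneg_of_le (fun i => norm_nonneg _) (fun i => ?_)
      ((summable_geometric_of_lt_one (r := ‖θ‖⁻¹) (by positivity)
        (inv_lt_one_of_one_lt₀ hθ)).comp_injective (add_left_injective 1))
    rw [norm_neg]
    exact A11_size hθ hq i
  have hm : Multipliable fun i : ℕ => (1 + -(θ * (θ⁻¹) ^ (Fintype.card F ^ (i + 1)))) :=
    multipliable_one_add_of_summable hs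
  simp only [← sub_eq_add_neg] at hm
  have hp := hm.hasProd
  refine ⟨hp, ?_⟩
  have h1 : Filter.Tendsto (fun s : Finset ℕ =>
      ‖∏ i ∈ s, (1 - θ * (θ⁻¹) ^ (Fintype.card F ^ (i + 1)))‖) Filter.atTop
      (nhds ‖pprod F θ‖) := (continuous_norm.tendsto _).comp hp
  have h2 : (fun s : Finset ℕ =>
      ‖∏ i ∈ s, (1 - θ * (θ⁻¹) ^ (Fintype.card F ^ (i + 1)))‖) = fun _ => 1 := by
    funext s
    rw [norm_prod]
    exact Finset.prod_eq_one fun i _ => A11_norm_one_sub (A11_lt_one hθ hq i)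
  rw [h2] at h1
  exact tendsto_nhds_unique h1 tendsto_const_nhds |>.symm ▸ rfl

/-- the solution of `x = b + x ^ q` -/
noncomputable def A11_sol (q : ℕ) (b : K) : K := ∑' k : ℕ, b ^ (q ^ k)

omit [CompleteSpace K] [IsUltrametricDist K] in
theorem A11_pow_le {q : ℕ} (hq : 2 ≤ q) {b : K} (hb : ‖b‖ < 1) (k : ℕ) :
    ‖b ^ (q ^ k)‖ ≤ ‖b‖ ^ (k + 1) := by
  rw [norm_pow]
  refine pow_le_pow_of_le_one (norm_nonneg _) hb.le ?_
  have := Nat.lt_pow_self (n := k) (show 1 < q by omega)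
  omega

omit [IsUltrametricDist K] in
theorem A11_summable {q : ℕ} (hq : 2 ≤ q) {b : K} (hb : ‖b‖ < 1) :
    Summable fun k : ℕ => b ^ (q ^ k) := by
  refine Summable.of_norm_bounded (g := fun k : ℕ => ‖b‖ ^ (k + 1)) ?_ (A11_pow_le hq hb)
  exact (summable_geometric_of_lt_one (norm_nonneg _) hb).comp_injective (add_left_injective 1)

omit [CompleteSpace K] in
theorem A11_sol_norm {q : ℕ} (hq : 2 ≤ q) {b : K} (hb : ‖b‖ < 1) :
    ‖A11_sol q b‖ ≤ ‖b‖ := by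
  refine IsUltrametricDist.norm_tsum_le_of_forall_le_of_nonneg (norm_nonneg _) fun k => ?_
  refine (A11_pow_le hq hb k).trans ?_
  exact pow_le_of_le_one (norm_nonneg _) hb.le (by omega)

variable (F) in
omit [IsUltrametricDist K] in
theorem A11_sol_eq {b : K} (hb : ‖b‖ < 1) :
    A11_sol (Fintype.card F) b =
      b + (A11_sol (Fintype.card F) b) ^ Fintype.card F := by
  have hq : 2 ≤ Fintype.card F := Fintype.one_lt_card
  have hs := A11_summable hq hb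
  have h1 : (A11_sol (Fintype.card F) b) ^ Fintype.card F =
      ∑' k : ℕ, b ^ (Fintype.card F ^ (k + 1)) := by
    have h2 : HasSum (fun k : ℕ => (FiniteField.frobeniusAlgHom F K) (b ^ (Fintype.card F ^ k)))
        ((FiniteField.frobeniusAlgHom F K) (A11_sol (Fintype.card F) b)) :=
      hs.hasSum.map (FiniteField.frobeniusAlgHom F K)
        (by rw [FiniteField.coe_frobeniusAlgHom]; fun_prop)
    rw [FiniteField.coe_frobeniusAlgHom] at h2
    simp only [← pow_mul, ← pow_succ] at h2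
    exact h2.tsum_eq.symm
  rw [h1]
  conv_lhs => rw [A11_sol, hs.tsum_eq_zero_add]
  rw [pow_zero, pow_one]

/-- the coefficients of `Ω / ω_0` -/
noncomputable def A11_a (q : ℕ) (θ : K) : ℕ → K
  | 0 => 1
  | n + 1 => A11_sol q (-(θ⁻¹) ^ q * (A11_a q θ n) ^ q)

omit [CompleteSpace K] in
theorem A11_a_norm {q : ℕ} (hq : 2 ≤ q) {θ : K} (hθ : 1 < ‖θ‖) (n : ℕ) :
    ‖A11_a q θ n‖ ≤ ((‖θ‖⁻¹) ^ q) ^ n ∧ ‖-(θ⁻¹) ^ q * (A11_a q θ n) ^ q‖ < 1 ∧
      ‖A11_a q θ (n + 1)‖ ≤ (‖θ‖⁻¹) ^ q * ‖A11_a q θ n‖ ^ q := by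
  have h0 : (0 : ℝ) < ‖θ‖ := by linarith
  have hr : (‖θ‖⁻¹) ^ q < 1 :=
    pow_lt_one₀ (by positivity) (inv_lt_one_of_one_lt₀ hθ) (by omega)
  have key : ∀ n, ‖A11_a q θ n‖ ≤ ((‖θ‖⁻¹) ^ q) ^ n →
      ‖-(θ⁻¹) ^ q * (A11_a q θ n) ^ q‖ < 1 ∧
      ‖A11_a q θ (n + 1)‖ ≤ (‖θ‖⁻¹) ^ q * ‖A11_a q θ n‖ ^ q := by
    intro n hn
    have h1 : ‖-(θ⁻¹) ^ q * (A11_a q θ n) ^ q‖ = (‖θ‖⁻¹) ^ q * ‖A11_a q θ n‖ ^ q := by
      rw [norm_mul, norm_neg, norm_pow, norm_pow, norm_inv]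
    have h2 : ‖A11_a q θ n‖ ≤ 1 := hn.trans (pow_le_one₀ (by positivity) hr.le)
    have h3 : ‖-(θ⁻¹) ^ q * (A11_a q θ n) ^ q‖ < 1 := by
      rw [h1]
      calc (‖θ‖⁻¹) ^ q * ‖A11_a q θ n‖ ^ q ≤ (‖θ‖⁻¹) ^ q * 1 := by
            gcongr
            exact pow_le_one₀ (norm_nonneg _) h2
        _ < 1 := by rw [mul_one]; exact hr
    exact ⟨h3, (A11_sol_norm hq h3).trans h1.le⟩
  induction n with
  | zero =>
    have h : ‖A11_a q θ 0‖ ≤ ((‖θ‖⁻¹) ^ q) ^ 0 := by simp [A11_a]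
    exact ⟨h, key 0 h⟩
  | succ n ih =>
    have h2 : ‖A11_a q θ n‖ ≤ 1 := ih.1.trans (pow_le_one₀ (by positivity) hr.le)
    have h : ‖A11_a q θ (n + 1)‖ ≤ ((‖θ‖⁻¹) ^ q) ^ (n + 1) := by
      refine ih.2.2.trans ?_
      rw [pow_succ' _ n]
      gcongr
      exact (pow_le_of_le_one (norm_nonneg _) h2 (by omega)).trans ih.1
    exact ⟨h, key _ h⟩

variable (F) in
theorem A11_a_eq {θ : K} (hθ : 1 < ‖θ‖) (n : ℕ) :
    A11_a (Fintype.card F) θ (n + 1) =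
      -(θ⁻¹) ^ Fintype.card F * (A11_a (Fintype.card F) θ n) ^ Fintype.card F +
        (A11_a (Fintype.card F) θ (n + 1)) ^ Fintype.card F :=
  A11_sol_eq F (A11_a_norm Fintype.one_lt_card hθ n).2.1

/-- `Ω / ω_0` -/
noncomputable def A11_Om (q : ℕ) (θ : K) : PowerSeries K := PowerSeries.mk (A11_a q θ)

omit [CompleteSpace K] in
theorem A11_Ent {q : ℕ} (hq : 2 ≤ q) {θ : K} (hθ : 1 < ‖θ‖) : Ent (A11_Om q θ) := by
  intro R hR
  have h0 : (0 : ℝ) < ‖θ‖ := by linarith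
  have hr : (‖θ‖⁻¹) ^ q < 1 :=
    pow_lt_one₀ (by positivity) (inv_lt_one_of_one_lt₀ hθ) (by omega)
  obtain ⟨N, hN⟩ : ∃ N : ℕ, ∀ n ≥ N, ((‖θ‖⁻¹) ^ q) ^ n * R ≤ 1 := by
    have h1 : Filter.Tendsto (fun n : ℕ => ((‖θ‖⁻¹) ^ q) ^ n * R) Filter.atTop (nhds (0 * R)) :=
      (tendsto_pow_atTop_nhds_zero_of_lt_one (by positivity) hr).mul_const R
    rw [zero_mul] at h1
    obtain ⟨N, hN⟩ := (h1.eventually (ge_mem_nhds (show (0 : ℝ) < 1 from one_pos))).exists_forall_of_atTop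
    exact ⟨N, hN⟩
  have hstep : ∀ n ≥ N, ‖A11_a q θ (n + 1)‖ * R ^ (n + 1) ≤ ‖A11_a q θ n‖ * R ^ n := by
    intro n hn
    have h1 := (A11_a_norm hq hθ n)
    have h2 : ‖A11_a q θ n‖ ≤ 1 := h1.1.trans (pow_le_one₀ (by positivity) hr.le)
    have h3 : ‖A11_a q θ n‖ ^ q ≤ ‖A11_a q θ n‖ * ((‖θ‖⁻¹) ^ q) ^ n := by
      calc ‖A11_a q θ n‖ ^ q ≤ ‖A11_a q θ n‖ ^ 2 := pow_le_pow_of_le_one (norm_nonneg _) h2 hq
        _ = ‖A11_a q θ n‖ * ‖A11_a q θ n‖ := pow_two _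
        _ ≤ ‖A11_a q θ n‖ * ((‖θ‖⁻¹) ^ q) ^ n := by gcongr; exact h1.1
    calc ‖A11_a q θ (n + 1)‖ * R ^ (n + 1)
        ≤ ((‖θ‖⁻¹) ^ q * ‖A11_a q θ n‖ ^ q) * R ^ (n + 1) := by gcongr; exact h1.2.2
      _ ≤ (1 * (‖A11_a q θ n‖ * ((‖θ‖⁻¹) ^ q) ^ n)) * R ^ (n + 1) := by gcongr
      _ = (‖A11_a q θ n‖ * R ^ n) * (((‖θ‖⁻¹) ^ q) ^ n * R) := by rw [pow_succ]; ring
      _ ≤ (‖A11_a q θ n‖ * R ^ n) * 1 := by gcongr; exact hN n hn
      _ = ‖A11_a q θ n‖ * R ^ n := mul_one _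
  refine ⟨∑ n ∈ Finset.range (N + 1), ‖A11_a q θ n‖ * R ^ n, fun n => ?_⟩
  rw [A11_Om, PowerSeries.coeff_mk]
  have hsmall : ∀ n ≤ N, ‖A11_a q θ n‖ * R ^ n ≤
      ∑ n ∈ Finset.range (N + 1), ‖A11_a q θ n‖ * R ^ n := fun n hn =>
    Finset.single_le_sum (f := fun n => ‖A11_a q θ n‖ * R ^ n) (fun i _ => by positivity)
      (Finset.mem_range.2 (by omega))
  rcases le_total n N with hn | hn
  · exact hsmall n hn
  · induction n, hn using Nat.le_induction with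
    | base => exact hsmall N le_rfl
    | succ n hn ih => exact (hstep n hn).trans ih

variable (F) in
/-- the functional equation of the twists -/
theorem A11_twist {θ : K} (hθ : 1 < ‖θ‖) (d : ℕ) :
    PowerSeries.C (-(θ ^ (Fintype.card F ^ (d + 1)))) * tw F d (A11_Om (Fintype.card F) θ) =
      (PowerSeries.X - PowerSeries.C (θ ^ (Fintype.card F ^ (d + 1)))) *
        tw F (d + 1) (A11_Om (Fintype.card F) θ) := by
  have hθ0 : θ ≠ 0 := by
    rintro rfl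
    rw [norm_zero] at hθ
    linarith
  ext n
  rw [sub_mul, map_sub, PowerSeries.coeff_C_mul, PowerSeries.coeff_C_mul, coeff_tw, coeff_tw,
    A11_Om]
  simp only [PowerSeries.coeff_mk]
  rcases n with _ | n
  · rw [PowerSeries.coeff_zero_X_mul]
    simp [A11_a]
  · rw [PowerSeries.coeff_succ_X_mul, coeff_tw]
    simp only [PowerSeries.coeff_mk]
    have h := A11_a_eq F hθ n
    have hfr : ∀ x : K, frob F d x = x ^ (Fintype.card F ^ d) := by
      intro x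
      have := coeff_tw (F := F) d 0 (PowerSeries.C x)
      simpa [tw] using this
    have h1 := congrArg (frob F d) h
    rw [map_add, map_mul, map_neg, hfr, hfr, hfr, hfr, ← pow_mul, ← pow_mul, ← pow_mul,
      ← pow_succ'] at h1
    rw [h1, inv_pow, mul_add, ← mul_assoc, neg_mul_neg,
      mul_inv_cancel₀ (pow_ne_zero _ hθ0), one_mul, neg_mul, ← sub_eq_add_neg]

variable (F) in
/-- the partial products -/
theorem A11_prod {θ : K} (hθ : 1 < ‖θ‖) (d : ℕ) :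
    ev θ (A11_Om (Fintype.card F) θ) =
      (∏ i ∈ Finset.range d, (1 - θ * (θ⁻¹) ^ (Fintype.card F ^ (i + 1)))) *
        ev θ (tw F d (A11_Om (Fintype.card F) θ)) := by
  have hθ0 : θ ≠ 0 := by
    rintro rfl
    rw [norm_zero] at hθ
    linarith
  have hE := A11_Ent (q := Fintype.card F) Fintype.one_lt_card hθ
  induction d with
  | zero => rw [tw_zero, Finset.range_zero, Finset.prod_empty, one_mul]
  | succ d ih =>
    rw [ih, Finset.prod_range_succ, mul_assoc]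
    congr 1
    have h1 := congrArg (ev θ) (A11_twist F hθ d)
    have h2 : (PowerSeries.X - PowerSeries.C (θ ^ (Fintype.card F ^ (d + 1))) : PowerSeries K) =
        iota F θ (tt F - X ^ (Fintype.card F ^ (d + 1))) := by
      simp [iota, tt, base]
    have h3 : (PowerSeries.C (-(θ ^ (Fintype.card F ^ (d + 1)))) : PowerSeries K) =
        iota F θ (-X ^ (Fintype.card F ^ (d + 1))) := by
      simp [iota]
    rw [h2, h3, ev_mul θ (Ent.iota θ _) (Ent.tw hE _), ev_mul θ (Ent.iota θ _) (Ent.tw hE _),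
      ev_iota, ev_iota] at h1
    have h4 : val F θ θ (-X ^ (Fintype.card F ^ (d + 1))) = -(θ ^ (Fintype.card F ^ (d + 1))) := by
      simp [val]
    have h5 : val F θ θ (tt F - X ^ (Fintype.card F ^ (d + 1))) =
        θ - θ ^ (Fintype.card F ^ (d + 1)) := by
      simp [val, tt]
    rw [h4, h5] at h1
    have h6 : -(θ ^ (Fintype.card F ^ (d + 1))) ≠ 0 := neg_ne_zero.2 (pow_ne_zero _ hθ0)
    refine mul_left_cancel₀ h6 (h1.trans ?_)
    rw [← mul_assoc]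
    congr 1
    rw [inv_pow]
    field_simp
    ring

variable (F) in
theorem A11_value {θ : K} (hθ : 1 < ‖θ‖) :
    ev θ (A11_Om (Fintype.card F) θ) = pprod F θ := by
  have hq : 2 ≤ Fintype.card F := Fintype.one_lt_card
  have h0 : (0 : ℝ) < ‖θ‖ := by linarith
  have hE := A11_Ent hq hθ
  have h1 := (pprod_hasProd (F := F) hθ).1.tendsto_prod_nat
  have hb : ∀ d : ℕ, ‖ev θ (tw F d (A11_Om (Fintype.card F) θ)) - 1‖ ≤ (‖θ‖⁻¹) ^ (d + 1) := by
    intro d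
    rw [← ev_one θ, ← ev_sub θ (Ent.tw hE d) Ent.one]
    refine norm_ev_le θ ((Ent.tw hE d).sub Ent.one) (R := ‖θ‖) (fun n => ?_) le_rfl
    rw [map_sub, coeff_tw, A11_Om, PowerSeries.coeff_mk, PowerSeries.coeff_one]
    rcases n with _ | n
    · simp [A11_a]
    · rw [if_neg (by omega), sub_zero, norm_pow]
      have h2 := (A11_a_norm hq hθ (n + 1)).1
      calc ‖A11_a (Fintype.card F) θ (n + 1)‖ ^ (Fintype.card F ^ d) * ‖θ‖ ^ (n + 1)
          ≤ (((‖θ‖⁻¹) ^ Fintype.card F) ^ (n + 1)) ^ (Fintype.card F ^ d) * ‖θ‖ ^ (n + 1) := by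
            gcongr
        _ = (‖θ‖ * (‖θ‖⁻¹) ^ (Fintype.card F ^ (d + 1))) ^ (n + 1) := by
            rw [mul_pow, ← pow_mul, ← pow_mul, ← pow_mul, mul_comm (‖θ‖ ^ (n + 1)), pow_succ]
            congr 2
            ring
        _ ≤ ((‖θ‖⁻¹) ^ (d + 1)) ^ (n + 1) := by
            have h3 := A11_size hθ hq d
            rw [norm_mul, norm_pow, norm_inv] at h3
            gcongr
        _ ≤ (‖θ‖⁻¹) ^ (d + 1) := by
            refine pow_le_of_le_one (by positivity) ?_ (by omega)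
            exact pow_le_one₀ (by positivity) (inv_le_one_of_one_le₀ hθ.le)
  have h2 : Filter.Tendsto (fun d => ev θ (tw F d (A11_Om (Fintype.card F) θ))) Filter.atTop
      (nhds 1) := by
    rw [tendsto_iff_norm_sub_tendsto_zero]
    refine squeeze_zero (fun _ => norm_nonneg _) hb ?_
    exact (tendsto_pow_atTop_nhds_zero_of_lt_one (by positivity)
      (inv_lt_one_of_one_lt₀ hθ)).comp (Filter.tendsto_add_atTop_nat 1)
  have h3 := h1.mul h2
  rw [mul_one] at h3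
  simp only [← A11_prod F hθ] at h3
  exact tendsto_nhds_unique tendsto_const_nhds h3

theorem exists_Omega {θ ϖ : K} (hθ : 1 < ‖θ‖) (hF : 2 < Fintype.card F) (hϖ : IsPeriod F θ ϖ) :
    ∃ Ω : PowerSeries K, Ent Ω ∧ Ω = iota F θ (tt F - X ^ Fintype.card F) * tw F 1 Ω ∧
      Ω ≠ 0 ∧ ϖ ≠ 0 ∧ ev θ Ω = ϖ⁻¹ ∧
      ∃ c : ℝ, 0 < c ∧ c ^ (Fintype.card F - 1) = (‖θ‖⁻¹) ^ Fintype.card F ∧
        Bd Ω (‖θ‖ ^ Fintype.card F) c := by
  have hq : 2 ≤ Fintype.card F := by omega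
  have h0 : (0 : ℝ) < ‖θ‖ := by linarith
  have hθ0 : θ ≠ 0 := norm_pos_iff.1 h0
  have hpp : pprod F θ ≠ 0 := by
    intro h
    have := (pprod_hasProd (F := F) hθ).2
    rw [h, norm_zero] at this
    exact zero_ne_one this
  obtain ⟨μ, hμ⟩ : ∃ μ, μ = ϖ * pprod F θ := ⟨_, rfl⟩
  have hμq : μ ^ (Fintype.card F - 1) = -θ ^ Fintype.card F := by
    rw [hμ, mul_pow, hϖ, mul_assoc, inv_mul_cancel₀ (pow_ne_zero _ hpp), mul_one]
  have hμ0 : μ ≠ 0 := by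
    rintro rfl
    rw [zero_pow (by omega)] at hμq
    exact neg_ne_zero.2 (pow_ne_zero _ hθ0) hμq.symm
  have hϖ0 : ϖ ≠ 0 := by
    rintro rfl
    exact hμ0 (by rw [hμ, zero_mul])
  have hw0 : μ⁻¹ ≠ 0 := inv_ne_zero hμ0
  have hw : -(θ ^ Fintype.card F) * (μ⁻¹) ^ Fintype.card F = μ⁻¹ := by
    have h1 : (μ⁻¹) ^ Fintype.card F = (μ⁻¹) ^ (Fintype.card F - 1) * μ⁻¹ := by
      rw [← pow_succ]
      congr 1
      omega
    rw [h1, inv_pow, hμq, ← mul_assoc, mul_inv_cancel₀ (neg_ne_zero.2 (pow_ne_zero _ hθ0)),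
      one_mul]
  have hE := A11_Ent hq hθ
  have hC : ∀ x : K, Ent (PowerSeries.C x) := by
    intro x R hR
    refine ⟨‖x‖, fun n => ?_⟩
    rw [PowerSeries.coeff_C]
    split_ifs with h
    · rw [h, pow_zero, mul_one]
    · rw [norm_zero, zero_mul]
      exact norm_nonneg x
  refine ⟨PowerSeries.C (μ⁻¹) * A11_Om (Fintype.card F) θ, (hC _).mul hE, ?_, ?_, hϖ0, ?_,
    ‖μ⁻¹‖, norm_pos_iff.2 hw0, ?_, ?_⟩
  · have h1 := A11_twist F hθ 0
    rw [tw_zero, zero_add, pow_one] at h1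
    have h2 : (PowerSeries.X - PowerSeries.C (θ ^ Fintype.card F) : PowerSeries K) =
        iota F θ (tt F - X ^ Fintype.card F) := by
      simp [iota, tt, base]
    have h3 : tw F 1 (PowerSeries.C (μ⁻¹)) = PowerSeries.C ((μ⁻¹) ^ Fintype.card F) := by
      ext n
      rw [coeff_tw, pow_one, PowerSeries.coeff_C, PowerSeries.coeff_C]
      split_ifs
      · rfl
      · rw [zero_pow (by omega)]
    rw [map_mul, h3, ← h2, mul_left_comm, ← h1, ← mul_assoc, ← map_mul, mul_comm _ (-_), hw]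
  · intro h
    have h1 := congrArg (PowerSeries.coeff 0) h
    rw [PowerSeries.coeff_C_mul, A11_Om, PowerSeries.coeff_mk, map_zero, A11_a, mul_one] at h1
    exact hw0 h1
  · rw [ev_mul θ (hC _) hE, A11_value F hθ]
    have h1 : ev θ (PowerSeries.C (μ⁻¹)) = μ⁻¹ := by
      unfold ev
      rw [tsum_eq_single 0]
      · simp
      · intro n hn
        rw [PowerSeries.coeff_C, if_neg hn, zero_mul]
    rw [h1, hμ, mul_inv, mul_assoc, inv_mul_cancel₀ hpp, mul_one]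
  · rw [← norm_pow, inv_pow, hμq, norm_inv, norm_neg, norm_pow, inv_pow]
  · intro n
    rw [PowerSeries.coeff_C_mul, norm_mul, A11_Om, PowerSeries.coeff_mk, mul_assoc]
    have h1 := (A11_a_norm hq hθ n).1
    calc ‖μ⁻¹‖ * (‖A11_a (Fintype.card F) θ n‖ * (‖θ‖ ^ Fintype.card F) ^ n)
        ≤ ‖μ⁻¹‖ * (((‖θ‖⁻¹) ^ Fintype.card F) ^ n * (‖θ‖ ^ Fintype.card F) ^ n) := by gcongr
      _ = ‖μ⁻¹‖ := by
        rw [← mul_pow, ← mul_pow, inv_mul_cancel₀ h0.ne', one_pow, one_pow, mul_one]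

end Pool.Agent.MP33dd76
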