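import Mathlib
import Pool.Agent.Lib.MP_33dd76_nt.A1Ps
import Pool.Agent.Lib.MP_33dd76_nt.A11Omega

set_option autoImplicit false

open Polynomial

namespace Pool.Agent.MP33dd76

/-! # Module A12: solutions of `Z = G + τ(Z)` -/

variable {F : Type*} [Field F] [Fintype F] {K : Type*} [NormedField K] [IsUltrametricDist K]
  [CompleteSpace K] [Algebra F K]

/-- the twists have small values -/
theorem A12_small {θ : K} {H : PowerSeries K} (hH : Ent H) {R ρ : ℝ} (hR : 1 < R)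
    (hρ : ρ < 1) (hB : Bd H R ρ) (hF : 2 ≤ Fintype.card F) (k : ℕ) :
    Filter.Tendsto (fun d : ℕ => ev θ (tw F (k + d) H)) Filter.atTop (nhds 0) := by
  have h0 : 0 ≤ ρ := hB.nonneg
  obtain ⟨N, hN⟩ := pow_unbounded_of_one_lt ‖θ‖ hR
  have hlt : ∀ n : ℕ, n + 1 ≤ Fintype.card F ^ n := fun n => by
    have := Nat.lt_pow_self (n := n) (show 1 < Fintype.card F by omega)
    omega
  have hb : ∀ᶠ d : ℕ in Filter.atTop, ‖ev θ (tw F (k + d) H)‖ ≤ ρ ^ d := by
    filter_upwards [Filter.eventually_ge_atTop N] with d hd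
    have h1 : ‖θ‖ ≤ R ^ (Fintype.card F ^ (k + d)) := by
      refine hN.le.trans (pow_le_pow_right₀ hR.le ?_)
      have := hlt (k + d)
      omega
    refine (norm_ev_le θ (Ent.tw hH (k + d)) (Bd.tw (F := F) (k + d) (by linarith) hB)
      h1).trans ?_
    refine pow_le_pow_of_le_one h0 hρ.le ?_
    have := hlt (k + d)
    omega
  exact squeeze_zero_norm' hb (tendsto_pow_atTop_nhds_zero_of_lt_one h0 hρ)

theorem exists_sol {θ : K} (hθ : 1 < ‖θ‖) (G : PowerSeries K) (hG : Ent G) {R ρ : ℝ} (hR : 1 < R)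
    (hρ : ρ < 1) (hB : Bd G R ρ) (hF : 2 ≤ Fintype.card F) :
    ∃ Z : PowerSeries K, Ent Z ∧ Z = G + tw F 1 Z ∧ Bd Z R ρ ∧
      ∀ k, HasSum (fun d : ℕ => ev θ (tw F (k + d) G)) (ev θ (tw F k Z)) := by
  have hlt : ∀ n, ‖PowerSeries.coeff n G‖ < 1 := by
    intro n
    refine lt_of_le_of_lt ?_ hρ
    refine le_trans ?_ (hB n)
    exact le_mul_of_one_le_right (norm_nonneg _) (one_le_pow₀ hR.le)
  obtain ⟨Z, hZ⟩ : ∃ Z : PowerSeries K,
      Z = PowerSeries.mk fun n => A11_sol (Fintype.card F) (PowerSeries.coeff n G) := ⟨_, rfl⟩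
  have hle : ∀ n, ‖PowerSeries.coeff n Z‖ ≤ ‖PowerSeries.coeff n G‖ := by
    intro n
    rw [hZ, PowerSeries.coeff_mk]
    exact A11_sol_norm hF (hlt n)
  have hbd : ∀ {R' c : ℝ}, 0 ≤ R' → Bd G R' c → Bd Z R' c := by
    intro R' c hR' h n
    exact (mul_le_mul_of_nonneg_right (hle n) (pow_nonneg hR' n)).trans (h n)
  have hEZ : Ent Z := by
    intro R' hR'
    obtain ⟨c, hc⟩ := hG R' hR'
    exact ⟨c, hbd hR'.le hc⟩
  have hBZ : Bd Z R ρ := hbd (by linarith) hB
  have heq : Z = G + tw F 1 Z := by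
    ext n
    rw [map_add, coeff_tw, pow_one, hZ, PowerSeries.coeff_mk]
    exact A11_sol_eq F (hlt n)
  refine ⟨Z, hEZ, heq, hBZ, fun k => ?_⟩
  have hz := A12_small (F := F) (θ := θ) hEZ hR hρ hBZ hF k
  have hg := A12_small (F := F) (θ := θ) hG hR hρ hB hF k
  have hstep : ∀ j, ev θ (tw F j Z) = ev θ (tw F j G) + ev θ (tw F (j + 1) Z) := by
    intro j
    rw [← ev_add θ (Ent.tw hG j) (Ent.tw hEZ (j + 1)), ← tw_tw (F := F) j 1 Z, ← map_add,
      ← heq]
  have hsum : ∀ m : ℕ, ∑ d ∈ Finset.range m, ev θ (tw F (k + d) G) =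
      ev θ (tw F k Z) - ev θ (tw F (k + m) Z) := by
    intro m
    induction m with
    | zero => simp
    | succ m ih =>
      rw [Finset.sum_range_succ, ih, hstep (k + m), add_assoc]
      ring
  have hs : Summable fun d : ℕ => ev θ (tw F (k + d) G) := by
    refine NonarchimedeanAddGroup.summable_of_tendsto_cofinite_zero ?_
    rw [Nat.cofinite_eq_atTop]
    exact hg
  have h1 := hs.hasSum.tendsto_sum_nat
  simp only [hsum] at h1
  have h2 : Filter.Tendsto (fun m => ev θ (tw F k Z) - ev θ (tw F (k + m) Z)) Filter.atTop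
      (nhds (ev θ (tw F k Z) - 0)) := tendsto_const_nhds.sub hz
  rw [sub_zero] at h2
  rw [← tendsto_nhds_unique h1 h2]
  exact hs.hasSum

end Pool.Agent.MP33dd76
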