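import Mathlib
import Pool.Agent.Lib.MP_33dd76_nt.Defs

set_option autoImplicit false

open Polynomial

namespace Pool.Agent.MP33dd76

/-! # Module B1: inversion of `e - z X e^q` -/

/-- the telescoping identity -/
private theorem B1_tele {R : Type*} [CommRing R] (q : ℕ) (hq : 2 ≤ q) (e e' w : R)
    (he : e * e' = 1) (m : ℕ) :
    (e - w * e ^ q) * (e' + ∑ i ∈ Finset.Icc 1 m, w ^ i * e ^ ((q - 1) * i - 1)) =
      1 - w ^ (m + 1) * e ^ ((q - 1) * (m + 1)) := by
  obtain ⟨r, rfl⟩ : ∃ r, q = r + 2 := ⟨q - 2, by omega⟩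
  induction m with
  | zero =>
    simp only [Finset.Icc_eq_empty_of_lt (Nat.zero_lt_one), Finset.sum_empty, add_zero]
    have h1 : e ^ (r + 2) * e' = e ^ (r + 1) := by
      rw [pow_succ, mul_assoc, he, mul_one]
    have h2 : (r + 2 - 1) * (0 + 1) = r + 1 := by omega
    rw [h2]
    calc (e - w * e ^ (r + 2)) * e' = e * e' - w * (e ^ (r + 2) * e') := by ring
      _ = _ := by rw [he, h1]; ring
  | succ m ih =>
    rw [Finset.sum_Icc_succ_top (by omega), ← add_assoc, mul_add, ih]
    have h3 : (r + 2 - 1) * (m + 1) - 1 = (r + 1) * m + r := by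
      have : r + 2 - 1 = r + 1 := by omega
      rw [this, mul_add]
      omega
    have h4 : (r + 2 - 1) * (m + 1) = (r + 1) * m + r + 1 := by
      have : r + 2 - 1 = r + 1 := by omega
      rw [this, mul_add]
      omega
    have h5 : (r + 2 - 1) * (m + 1 + 1) = ((r + 1) * m + r) + (r + 2) := by
      have : r + 2 - 1 = r + 1 := by omega
      rw [this, mul_add, mul_add]
      omega
    rw [h3, h4, h5]
    ring

theorem inv_ser {R : Type*} [CommRing R] (q : ℕ) (hq : 2 ≤ q) (e : PowerSeries R)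
    (he : PowerSeries.constantCoeff e = 1) (z : R) (m : ℕ) :
    PowerSeries.coeff m (PowerSeries.invOfUnit (e - PowerSeries.C z * PowerSeries.X * e ^ q) 1) =
      PowerSeries.coeff m (PowerSeries.invOfUnit e 1) +
        ∑ i ∈ Finset.Icc 1 m, z ^ i * PowerSeries.coeff (m - i) (e ^ ((q - 1) * i - 1)) := by
  set w : PowerSeries R := PowerSeries.C z * PowerSeries.X with hw
  set D : PowerSeries R := e - w * e ^ q with hD
  have hDc : PowerSeries.constantCoeff D = ((1 : Rˣ) : R) := by
    rw [hD, hw]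
    simp [he]
  have hinv : D * PowerSeries.invOfUnit D 1 = 1 := PowerSeries.mul_invOfUnit D 1 hDc
  have hei : e * PowerSeries.invOfUnit e 1 = 1 :=
    PowerSeries.mul_invOfUnit e 1 (by rw [he]; rfl)
  have ht := B1_tele q hq e (PowerSeries.invOfUnit e 1) w hei m
  rw [← hD] at ht
  have hwp : ∀ i : ℕ, w ^ i = PowerSeries.C (z ^ i) * PowerSeries.X ^ i := by
    intro i
    rw [hw, mul_pow, ← map_pow]
  have hS : PowerSeries.invOfUnit e 1 + ∑ i ∈ Finset.Icc 1 m, w ^ i * e ^ ((q - 1) * i - 1) =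
      PowerSeries.invOfUnit D 1 - PowerSeries.X ^ (m + 1) *
        (PowerSeries.C (z ^ (m + 1)) * e ^ ((q - 1) * (m + 1)) * PowerSeries.invOfUnit D 1) := by
    have h1 : PowerSeries.invOfUnit D 1 * (D * (PowerSeries.invOfUnit e 1 +
        ∑ i ∈ Finset.Icc 1 m, w ^ i * e ^ ((q - 1) * i - 1))) =
        PowerSeries.invOfUnit e 1 + ∑ i ∈ Finset.Icc 1 m, w ^ i * e ^ ((q - 1) * i - 1) := by
      rw [← mul_assoc, mul_comm (PowerSeries.invOfUnit D 1) D, hinv, one_mul]
    rw [← h1, ht, hwp (m + 1)]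
    ring
  have hc := congrArg (PowerSeries.coeff m) hS
  rw [map_add, map_sum, map_sub, PowerSeries.coeff_X_pow_mul', if_neg (by omega), sub_zero] at hc
  rw [← hc]
  congr 1
  refine Finset.sum_congr rfl fun i hi => ?_
  have him : i ≤ m := (Finset.mem_Icc.mp hi).2
  rw [hwp i, mul_assoc, PowerSeries.coeff_C_mul, PowerSeries.coeff_X_pow_mul', if_pos him]

theorem ser_const {R : Type*} [CommRing R] (q : ℕ) (g : ℕ → R) :
    PowerSeries.constantCoeff (ser q g) = g 0 := by
  rw [← PowerSeries.coeff_zero_eq_constantCoeff_apply]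
  simp [ser, br]

/-- the recursion of the brackets -/
private theorem B1_br_succ (q k : ℕ) : br q (k + 1) = q * br q k + 1 := by
  unfold br
  rw [Finset.sum_range_succ', Finset.mul_sum]
  simp [pow_succ, mul_comm]

private theorem B1_br_strictMono (q : ℕ) (hq : 2 ≤ q) : StrictMono (br q) := by
  refine strictMono_nat_of_lt_succ fun k => ?_
  unfold br
  rw [Finset.sum_range_succ]
  have : 0 < q ^ k := pow_pos (by omega) k
  omega

/-- the coefficients of `ser q g` -/
theorem ser_coeff_br {R : Type*} [CommRing R] (q : ℕ) (hq : 2 ≤ q) (g : ℕ → R) (k : ℕ) :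
    PowerSeries.coeff (br q k) (ser q g) = g k := by
  unfold ser
  rw [PowerSeries.coeff_mk]
  have hk : k ∈ Finset.range (br q k + 1) := by
    rw [Finset.mem_range]
    exact Nat.lt_succ_of_le ((B1_br_strictMono q hq).le_apply)
  rw [Finset.sum_eq_single_of_mem k hk, if_pos rfl]
  intro j _ hjk
  rw [if_neg]
  intro h
  exact hjk ((B1_br_strictMono q hq).injective h)

theorem ser_coeff_ne {R : Type*} [CommRing R] (q : ℕ) (g : ℕ → R) (n : ℕ)
    (h : ∀ k, br q k ≠ n) : PowerSeries.coeff n (ser q g) = 0 := by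
  unfold ser
  rw [PowerSeries.coeff_mk]
  exact Finset.sum_eq_zero fun k _ => if_neg (h k)

/-- the `q`-th power in characteristic `p` -/
private theorem B1_pow {R : Type*} [CommRing R] (p s q : ℕ) (hp : p.Prime) [CharP R p]
    (hq : q = p ^ s) (f : PowerSeries R) (n : ℕ) :
    PowerSeries.coeff n (f ^ q) = if q ∣ n then (PowerSeries.coeff (n / q) f) ^ q else 0 := by
  have : ExpChar R p := ExpChar.prime hp
  have h1 : PowerSeries.map (iterateFrobenius R p s)
      (PowerSeries.expand (p ^ s) (pow_ne_zero s hp.ne_zero) f) = f ^ p ^ s :=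
    MvPowerSeries.map_iterateFrobenius_expand (p := p) (hp := hp.ne_zero) f s
  subst hq
  rw [← h1, PowerSeries.coeff_map, PowerSeries.coeff_expand]
  split_ifs with h
  · rw [iterateFrobenius_def]
  · rw [map_zero]

/-- in characteristic `p`, if `g' (k+1) = g (k+1) - z (g k)^q` then `ser g' = ser g - z X (ser g)^q` -/
theorem ser_frob {R : Type*} [CommRing R] (p s q : ℕ) (hp : p.Prime) [CharP R p] (hq : q = p ^ s)
    (hq2 : 2 ≤ q) (g g' : ℕ → R) (z : R) (h0 : g' 0 = g 0)
    (h : ∀ k, g' (k + 1) = g (k + 1) - z * (g k) ^ q) :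
    ser q g' = ser q g - PowerSeries.C z * PowerSeries.X * (ser q g) ^ q := by
  ext n
  rw [map_sub, mul_assoc, PowerSeries.coeff_C_mul]
  have hq0 : 0 < q := by omega
  by_cases hn : ∃ k, br q k = n
  · obtain ⟨k, rfl⟩ := hn
    rw [ser_coeff_br q hq2, ser_coeff_br q hq2]
    cases k with
    | zero =>
      have hb : br q 0 = 0 := by simp [br]
      rw [hb, PowerSeries.coeff_zero_X_mul, mul_zero, sub_zero, h0]
    | succ k =>
      rw [B1_br_succ, PowerSeries.coeff_succ_X_mul, B1_pow p s q hp hq, if_pos (dvd_mul_right q _),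
        Nat.mul_div_cancel_left _ hq0, ser_coeff_br q hq2, h k]
  · push Not at hn
    rw [ser_coeff_ne q g' n hn, ser_coeff_ne q g n hn]
    cases n with
    | zero => exact absurd (by simp [br]) (hn 0)
    | succ n =>
      rw [PowerSeries.coeff_succ_X_mul, B1_pow p s q hp hq]
      split_ifs with hd
      · obtain ⟨l, rfl⟩ := hd
        rw [Nat.mul_div_cancel_left _ hq0, ser_coeff_ne q g l, zero_pow hq0.ne', mul_zero, sub_zero]
        intro k hk
        apply hn (k + 1)
        rw [B1_br_succ, hk]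
      · rw [mul_zero, sub_zero]

theorem Bs_frob {R : Type*} [CommRing R] (p s q : ℕ) (hp : p.Prime) [CharP R p] (hq : q = p ^ s)
    (hq2 : 2 ≤ q) (g g' : ℕ → R) (z : R) (h1 : g 0 = 1) (h0 : g' 0 = 1)
    (h : ∀ k, g' (k + 1) = g (k + 1) - z * (g k) ^ q) (m : ℕ) :
    Bs q g' m = Bs q g m + As q g z m := by
  unfold Bs As
  rw [ser_frob p s q hp hq hq2 g g' z (h0.trans h1.symm) h]
  exact inv_ser q hq2 (ser q g) (by rw [ser_const, h1]) z m

end Pool.Agent.MP33dd76
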