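import Mathlib
import Pool.Agent.Lib.MP_33dd76_nt.ADefs
import Pool.Agent.Lib.MP_33dd76_nt.B1Inv

set_option autoImplicit false

open Polynomial

namespace Pool.Agent.MP33dd76

/-! # Module A13: the polynomials `E_k`, `h_n`, `A_m`, `B_m` in `y` -/

/-! ## Coefficients of controlled degree -/

private theorem A1_ey_deg_mul {R : Type*} [CommRing R] {f g : PowerSeries R[X]}
    (hf : ∀ n, (PowerSeries.coeff n f).natDegree ≤ n)
    (hg : ∀ n, (PowerSeries.coeff n g).natDegree ≤ n) (n : ℕ) :
    (PowerSeries.coeff n (f * g)).natDegree ≤ n := by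
  rw [PowerSeries.coeff_mul]
  refine Polynomial.natDegree_sum_le_of_forall_le _ _ fun x hx => ?_
  rw [Finset.HasAntidiagonal.mem_antidiagonal] at hx
  refine Polynomial.natDegree_mul_le.trans ?_
  have h1 := hf x.1
  have h2 := hg x.2
  omega

private theorem A1_ey_deg_pow {R : Type*} [CommRing R] {f : PowerSeries R[X]}
    (hf : ∀ n, (PowerSeries.coeff n f).natDegree ≤ n) (N n : ℕ) :
    (PowerSeries.coeff n (f ^ N)).natDegree ≤ n := by
  induction N generalizing n with
  | zero =>
    rw [pow_zero, PowerSeries.coeff_one]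
    split_ifs <;> simp
  | succ N ih =>
    rw [pow_succ]
    exact A1_ey_deg_mul ih hf n

private theorem A1_ey_deg_inv {R : Type*} [CommRing R] {f : PowerSeries R[X]}
    (hf : ∀ n, (PowerSeries.coeff n f).natDegree ≤ n) (n : ℕ) :
    (PowerSeries.coeff n (PowerSeries.invOfUnit f 1)).natDegree ≤ n := by
  induction n using Nat.strong_induction_on with
  | _ n ih =>
    rw [PowerSeries.coeff_invOfUnit]
    split_ifs with h0
    · simp
    · have h2 : ((1 : (R[X])ˣ)⁻¹ : (R[X])ˣ) = 1 := inv_one
      rw [h2, Units.val_one, neg_mul, one_mul, Polynomial.natDegree_neg]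
      refine Polynomial.natDegree_sum_le_of_forall_le _ _ fun x hx => ?_
      rw [Finset.HasAntidiagonal.mem_antidiagonal] at hx
      split_ifs with h3
      · refine Polynomial.natDegree_mul_le.trans ?_
        have h4 := hf x.1
        have h5 := ih x.2 h3
        omega
      · simp

/-! ## Inverses -/

private theorem A1_ey_inv_unique {R : Type*} [CommRing R] {a b c : R} (h1 : a * b = 1)
    (h2 : a * c = 1) : b = c := by
  calc b = b * (a * c) := by rw [h2, mul_one]
    _ = (a * b) * c := by ring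
    _ = c := by rw [h1, one_mul]

private theorem A1_ey_map_inv {R : Type*} [CommRing R] (φ : R →+* R) {f : PowerSeries R}
    (hf : PowerSeries.constantCoeff f = 1) :
    PowerSeries.map φ (PowerSeries.invOfUnit f 1) =
      PowerSeries.invOfUnit (PowerSeries.map φ f) 1 := by
  refine A1_ey_inv_unique (a := PowerSeries.map φ f) ?_ ?_
  · rw [← map_mul, PowerSeries.mul_invOfUnit f 1 (by rw [hf, Units.val_one]), map_one]
  · refine PowerSeries.mul_invOfUnit _ 1 ?_
    rw [Units.val_one, ← PowerSeries.coeff_zero_eq_constantCoeff_apply, PowerSeries.coeff_map,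
      PowerSeries.coeff_zero_eq_constantCoeff_apply, hf, map_one]

private theorem A1_ey_rescale_inv {R : Type*} [CommRing R] (w : R) {f : PowerSeries R}
    (hf : PowerSeries.constantCoeff f = 1) :
    PowerSeries.rescale w (PowerSeries.invOfUnit f 1) =
      PowerSeries.invOfUnit (PowerSeries.rescale w f) 1 := by
  refine A1_ey_inv_unique (a := PowerSeries.rescale w f) ?_ ?_
  · rw [← map_mul, PowerSeries.mul_invOfUnit f 1 (by rw [hf, Units.val_one]), map_one]
  · refine PowerSeries.mul_invOfUnit _ 1 ?_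
    rw [Units.val_one, ← PowerSeries.coeff_zero_eq_constantCoeff_apply, PowerSeries.coeff_rescale,
      pow_zero, one_mul, PowerSeries.coeff_zero_eq_constantCoeff_apply, hf]

private theorem A1_ey_ser_map {R : Type*} [CommRing R] (φ : R →+* R) (q : ℕ) (g : ℕ → R) :
    PowerSeries.map φ (ser q g) = ser q fun k => φ (g k) := by
  ext n
  rw [PowerSeries.coeff_map]
  unfold ser
  rw [PowerSeries.coeff_mk, PowerSeries.coeff_mk, map_sum]
  refine Finset.sum_congr rfl fun k _ => ?_
  split_ifs
  · rfl
  · rw [map_zero]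

private theorem A1_ey_ser_rescale {R : Type*} [CommRing R] (w : R) (q : ℕ) (g : ℕ → R) :
    PowerSeries.rescale w (ser q g) = ser q fun k => w ^ br q k * g k := by
  ext n
  rw [PowerSeries.coeff_rescale]
  unfold ser
  rw [PowerSeries.coeff_mk, PowerSeries.coeff_mk, Finset.mul_sum]
  refine Finset.sum_congr rfl fun k _ => ?_
  split_ifs with h
  · subst h
    rfl
  · rw [mul_zero]

private theorem A1_ey_br (q k : ℕ) (hq : 1 ≤ q) : (q - 1) * br q k + 1 = q ^ k := by
  induction k with
  | zero => simp [br]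
  | succ k ih =>
    have h1 : br q (k + 1) = br q k + q ^ k := by
      unfold br
      rw [Finset.sum_range_succ]
    rw [h1, mul_add, add_right_comm, ih, pow_succ]
    obtain ⟨r, rfl⟩ : ∃ r, q = r + 1 := ⟨q - 1, by omega⟩
    rw [Nat.add_sub_cancel]
    ring

variable {F : Type*} [Field F] [Fintype F] {L : Type*} [Field L] [Algebra F L]

/-- the characteristic -/
private theorem A1_ey_exists_char (F : Type*) [Field F] [Fintype F] (L : Type*) [Field L]
    [Algebra F L] : ∃ p s : ℕ, p.Prime ∧ CharP L p ∧ Fintype.card F = p ^ s := by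
  obtain ⟨p, hp⟩ := CharP.exists F
  obtain ⟨n, h1, h2⟩ := FiniteField.card F p
  exact ⟨p, n, h1, charP_of_injective_algebraMap (algebraMap F L).injective p, h2⟩

private theorem A1_ey_sub_pow (a b : L[X]) :
    (a - b) ^ Fintype.card F = a ^ Fintype.card F - b ^ Fintype.card F := by
  obtain ⟨p, s, hp, hc, hq⟩ := A1_ey_exists_char F L
  have : Fact p.Prime := ⟨hp⟩
  rw [hq]
  exact sub_pow_char_pow (p := p) a b s

private theorem A1_ey_card : 2 ≤ Fintype.card F := Fintype.one_lt_card

private theorem A1_ey_sub_pow_pow (a b : L[X]) (k : ℕ) :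
    (a - b) ^ Fintype.card F ^ k = a ^ Fintype.card F ^ k - b ^ Fintype.card F ^ k := by
  induction k with
  | zero => simp
  | succ k ih => rw [pow_succ, pow_mul, ih, A1_ey_sub_pow, ← pow_mul, ← pow_mul]

private theorem A1_ey_expand (t : L) (k : ℕ) :
    Polynomial.expand L (Fintype.card F) (Ey F t (k + 1)) =
      C ((t ^ (Fintype.card F ^ (k + 1)) - t)⁻¹) * (C t - X) ^ (Fintype.card F ^ (k + 1)) *
        (Ey F t k) ^ Fintype.card F := by
  induction k with
  | zero =>
    rw [A1_ey_sub_pow_pow]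
    simp [Ey]
  | succ k ih =>
    have h1 : Ey F t (k + 1 + 1) = C ((t ^ (Fintype.card F ^ (k + 1 + 1)) - t)⁻¹) *
      (C (t ^ (Fintype.card F ^ (k + 1 + 1))) - X) * (Ey F t (k + 1)) ^ Fintype.card F := rfl
    have h2 : Ey F t (k + 1) = C ((t ^ (Fintype.card F ^ (k + 1)) - t)⁻¹) *
      (C (t ^ (Fintype.card F ^ (k + 1))) - X) * (Ey F t k) ^ Fintype.card F := rfl
    rw [h1, map_mul, map_mul, map_sub, Polynomial.expand_C, Polynomial.expand_C,
      Polynomial.expand_X, map_pow (Polynomial.expand L (Fintype.card F)), ih, h2]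
    rw [mul_pow, mul_pow, mul_pow, mul_pow (C _) (C _ - X), A1_ey_sub_pow (F := F) (C _) X,
      ← C_pow (n := Fintype.card F) (a := t ^ _), ← pow_mul t, ← pow_succ (Fintype.card F),
      ← pow_mul (C t - X), ← pow_succ (Fintype.card F)]
    ring

theorem Ey_twist (t : L) (ht : ∀ n, 1 ≤ n → t ^ (Fintype.card F ^ n) ≠ t) (k : ℕ) :
    Polynomial.expand L (Fintype.card F) (Ey F t (k + 1)) =
      (C t - X) ^ (Fintype.card F ^ (k + 1) - 1) * (Ey F t (k + 1) - (Ey F t k) ^ Fintype.card F) := by
  have hD : (t ^ (Fintype.card F ^ (k + 1)) - t)⁻¹ * (t ^ (Fintype.card F ^ (k + 1)) - t) = 1 :=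
    inv_mul_cancel₀ (sub_ne_zero.2 (ht (k + 1) (by omega)))
  have h2 : Ey F t (k + 1) = C ((t ^ (Fintype.card F ^ (k + 1)) - t)⁻¹) *
      (C (t ^ (Fintype.card F ^ (k + 1))) - X) * (Ey F t k) ^ Fintype.card F := rfl
  have h3 : C ((t ^ (Fintype.card F ^ (k + 1)) - t)⁻¹) *
      (C (t ^ (Fintype.card F ^ (k + 1))) - C t) = (1 : L[X]) := by
    rw [← C_sub, ← C_mul, hD, C_1]
  have h4 : Ey F t (k + 1) - (Ey F t k) ^ Fintype.card F =
      C ((t ^ (Fintype.card F ^ (k + 1)) - t)⁻¹) * (C t - X) * (Ey F t k) ^ Fintype.card F := by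
    rw [h2]
    linear_combination (Ey F t k ^ Fintype.card F) * h3
  have h5 : (C t - X : L[X]) ^ (Fintype.card F ^ (k + 1)) =
      (C t - X) ^ (Fintype.card F ^ (k + 1) - 1) * (C t - X) := by
    rw [← pow_succ]
    congr 1
    have : 0 < Fintype.card F ^ (k + 1) := pow_pos (by have := A1_ey_card (F := F); omega) _
    omega
  rw [A1_ey_expand, h4, h5]
  ring

private theorem A1_ey_natDegree (t : L) (k : ℕ) :
    (Fintype.card F - 1) * (Ey F t k).natDegree + 1 ≤ Fintype.card F ^ k := by
  induction k with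
  | zero => simp [Ey]
  | succ k ih =>
    have h2 : Ey F t (k + 1) = C ((t ^ (Fintype.card F ^ (k + 1)) - t)⁻¹) *
      (C (t ^ (Fintype.card F ^ (k + 1))) - X) * (Ey F t k) ^ Fintype.card F := rfl
    have h3 : (Ey F t (k + 1)).natDegree ≤ 1 + Fintype.card F * (Ey F t k).natDegree := by
      rw [h2]
      refine Polynomial.natDegree_mul_le.trans (add_le_add ?_ ?_)
      · refine Polynomial.natDegree_C_mul_le _ _ |>.trans ?_
        refine (Polynomial.natDegree_sub_le _ _).trans ?_
        simp
      · exact Polynomial.natDegree_pow_le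
    obtain ⟨r, hr⟩ : ∃ r, Fintype.card F = r + 1 :=
      ⟨Fintype.card F - 1, by have := A1_ey_card (F := F); omega⟩
    rw [hr] at ih h3 ⊢
    rw [Nat.add_sub_cancel] at ih ⊢
    calc r * (Ey F t (k + 1)).natDegree + 1
        ≤ r * (1 + (r + 1) * (Ey F t k).natDegree) + 1 := by gcongr
      _ = (r + 1) * (r * (Ey F t k).natDegree + 1) := by ring
      _ ≤ (r + 1) * (r + 1) ^ k := Nat.mul_le_mul_left _ ih
      _ = (r + 1) ^ (k + 1) := by ring

private theorem A1_ey_Eser_coeff (t : L) {n N : ℕ} (h : n ≤ N) :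
    PowerSeries.coeff n (Eser F t) =
      ∑ k ∈ Finset.range N, if Fintype.card F ^ k = n then Ey F t k else 0 := by
  have hlt : ∀ k : ℕ, k < Fintype.card F ^ k := fun k => Nat.lt_pow_self (A1_ey_card (F := F))
  unfold Eser
  rw [PowerSeries.coeff_mk]
  have h1 : ∀ M : ℕ, n ≤ M → ∑ k ∈ Finset.range n,
      (if Fintype.card F ^ k = n then Ey F t k else 0) =
      ∑ k ∈ Finset.range M, if Fintype.card F ^ k = n then Ey F t k else 0 := by
    intro M hM
    refine Finset.sum_subset (Finset.range_subset_range.2 hM) fun k _ hk => if_neg ?_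
    rw [Finset.mem_range, not_lt] at hk
    have := hlt k
    omega
  rw [← h1 (n + 1) (Nat.le_succ n), h1 N h]

private theorem A1_ey_Eser_const (t : L) : PowerSeries.constantCoeff (Eser F t) = 0 := by
  rw [← PowerSeries.coeff_zero_eq_constantCoeff_apply, A1_ey_Eser_coeff t (le_refl 0)]
  simp

private theorem A1_ey_inv (t : L) :
    (1 - Eser F t) * PowerSeries.invOfUnit (1 - Eser F t) 1 = 1 := by
  refine PowerSeries.mul_invOfUnit _ 1 ?_
  rw [map_sub, A1_ey_Eser_const, map_one, sub_zero, Units.val_one]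

theorem hy_zero (t : L) : hy F t 0 = 1 := by
  unfold hy
  rw [PowerSeries.coeff_zero_eq_constantCoeff_apply, PowerSeries.constantCoeff_invOfUnit]
  simp

theorem hy_rec (t : L) (n : ℕ) (hn : 1 ≤ n) :
    hy F t n = ∑ k ∈ Finset.range n, if Fintype.card F ^ k ≤ n then
      Ey F t k * hy F t (n - Fintype.card F ^ k) else 0 := by
  have h1 : PowerSeries.invOfUnit (1 - Eser F t) 1 =
      1 + Eser F t * PowerSeries.invOfUnit (1 - Eser F t) 1 := by
    linear_combination A1_ey_inv (F := F) t
  have h2 : hy F t n =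
      PowerSeries.coeff n (Eser F t * PowerSeries.invOfUnit (1 - Eser F t) 1) := by
    have h3 := congrArg (PowerSeries.coeff n) h1
    rw [map_add, PowerSeries.coeff_one, if_neg (by omega), zero_add] at h3
    exact h3
  rw [h2, PowerSeries.coeff_mul, Finset.Nat.sum_antidiagonal_eq_sum_range_succ
    (fun i j => PowerSeries.coeff i (Eser F t) *
      PowerSeries.coeff j (PowerSeries.invOfUnit (1 - Eser F t) 1))]
  have h3 : ∀ i ∈ Finset.range n.succ, PowerSeries.coeff i (Eser F t) *
      PowerSeries.coeff (n - i) (PowerSeries.invOfUnit (1 - Eser F t) 1) =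
      ∑ k ∈ Finset.range n, if Fintype.card F ^ k = i then Ey F t k * hy F t (n - i) else 0 := by
    intro i hi
    rw [Finset.mem_range] at hi
    rw [A1_ey_Eser_coeff t (show i ≤ n by omega), Finset.sum_mul]
    refine Finset.sum_congr rfl fun k _ => ?_
    rw [ite_mul, zero_mul]
    rfl
  rw [Finset.sum_congr rfl h3, Finset.sum_comm]
  refine Finset.sum_congr rfl fun k _ => ?_
  rw [Finset.sum_ite_eq]
  refine if_congr ?_ rfl rfl
  rw [Finset.mem_range, Nat.lt_succ_iff]

theorem hy_deg (t : L) (n : ℕ) : (Fintype.card F - 1) * (hy F t n).natDegree ≤ n := by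
  have hq := A1_ey_card (F := F)
  have hq1 : 0 < Fintype.card F - 1 := by omega
  induction n using Nat.strong_induction_on with
  | _ n ih =>
    rcases Nat.eq_zero_or_pos n with h0 | h0
    · rw [h0, hy_zero]
      simp
    · rw [mul_comm, ← Nat.le_div_iff_mul_le hq1, hy_rec t n h0]
      refine Polynomial.natDegree_sum_le_of_forall_le _ _ fun k _ => ?_
      split_ifs with hk
      · refine Polynomial.natDegree_mul_le.trans ?_
        rw [Nat.le_div_iff_mul_le hq1, add_mul]
        have hpos : 0 < Fintype.card F ^ k := pow_pos (by omega) _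
        have h1 := ih (n - Fintype.card F ^ k) (by omega)
        have h2 := A1_ey_natDegree (F := F) t k
        rw [mul_comm (Ey F t k).natDegree, mul_comm (hy F t _).natDegree]
        omega
      · simp

/-- `E(x) = x e(x^(q-1))` -/
private theorem A1_ey_Eser_eq (hF : 2 < Fintype.card F) (t : L) :
    Eser F t = PowerSeries.X * PowerSeries.expand (Fintype.card F - 1) (by omega)
      (ser (Fintype.card F) (Ey F t)) := by
  have hbr := fun k => A1_ey_br (Fintype.card F) k (by omega)
  ext1 n
  rcases Nat.eq_zero_or_pos n with h0 | h0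
  · rw [h0, PowerSeries.coeff_zero_X_mul, PowerSeries.coeff_zero_eq_constantCoeff_apply,
      A1_ey_Eser_const]
  · obtain ⟨m, rfl⟩ : ∃ m, n = m + 1 := ⟨n - 1, by omega⟩
    rw [PowerSeries.coeff_succ_X_mul, PowerSeries.coeff_expand,
      A1_ey_Eser_coeff t (le_refl (m + 1))]
    by_cases hk : ∃ k, Fintype.card F ^ k = m + 1
    · obtain ⟨k, hk⟩ := hk
      have hm : m = (Fintype.card F - 1) * br (Fintype.card F) k := by
        have := hbr k
        omega
      rw [if_pos ⟨_, hm⟩]
      have hkm : k ∈ Finset.range (m + 1) := by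
        rw [Finset.mem_range, ← hk]
        exact Nat.lt_pow_self (by omega)
      rw [Finset.sum_eq_single_of_mem k hkm, if_pos hk]
      · rw [hm, Nat.mul_div_cancel_left _ (by omega), ser_coeff_br _ (by omega)]
      · intro j _ hjk
        rw [if_neg]
        intro h
        exact hjk (Nat.pow_right_injective (by omega) (h.trans hk.symm))
    · push Not at hk
      rw [Finset.sum_eq_zero fun k _ => if_neg (hk k)]
      split_ifs with hd
      · obtain ⟨l, hl⟩ := hd
        rw [hl, Nat.mul_div_cancel_left _ (by omega), ser_coeff_ne]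
        intro k hkl
        apply hk k
        rw [← hbr k, hkl, ← hl]
      · rfl

theorem hy_eq_As (hF : 2 < Fintype.card F) (t : L) (m : ℕ) (hm : 1 ≤ m) :
    hy F t ((Fintype.card F - 1) * m - 1) = As (Fintype.card F) (Ey F t) 1 m := by
  set Q := Fintype.card F - 1 with hQ
  have hQ2 : 2 ≤ Q := by omega
  set e := ser (Fintype.card F) (Ey F t) with he
  set n := Q * m - 1 with hn
  have hQm : Q ≤ Q * m := Nat.le_mul_of_pos_right Q hm
  set E := Eser F t with hE
  set I := PowerSeries.invOfUnit (1 - E) 1 with hI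
  have hinv : (1 - E) * I = 1 := A1_ey_inv (F := F) t
  have hEe : E = PowerSeries.X * PowerSeries.expand Q (by omega) e := A1_ey_Eser_eq hF t
  have hgeo : (1 - E) * ∑ r ∈ Finset.range (n + 1), E ^ r = 1 - E ^ (n + 1) :=
    mul_neg_geom_sum E (n + 1)
  have hI2 : I = ∑ r ∈ Finset.range (n + 1), E ^ r + E ^ (n + 1) * I := by
    calc I = I * (1 - E ^ (n + 1)) + E ^ (n + 1) * I := by ring
      _ = ((1 - E) * I) * ∑ r ∈ Finset.range (n + 1), E ^ r + E ^ (n + 1) * I := by
        rw [← hgeo]
        ring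
      _ = _ := by rw [hinv, one_mul]
  have hEr : ∀ r, E ^ r = PowerSeries.X ^ r * PowerSeries.expand Q (by omega) (e ^ r) := by
    intro r
    rw [hEe, mul_pow, map_pow]
  have h1 : hy F t n = ∑ r ∈ Finset.range (n + 1), if Q ∣ n - r then
      PowerSeries.coeff ((n - r) / Q) (e ^ r) else 0 := by
    change PowerSeries.coeff n I = _
    rw [hI2, map_add, map_sum, hEr (n + 1), mul_assoc, PowerSeries.coeff_X_pow_mul',
      if_neg (by omega), add_zero]
    refine Finset.sum_congr rfl fun r hr => ?_
    rw [Finset.mem_range] at hr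
    rw [hEr r, PowerSeries.coeff_X_pow_mul', if_pos (by omega), PowerSeries.coeff_expand]
  rw [h1, ← Finset.sum_filter]
  unfold As
  refine Finset.sum_nbij' (fun r => (r + 1) / Q) (fun i => Q * i - 1) ?_ ?_ ?_ ?_ ?_
  · intro r hr
    rw [Finset.mem_filter, Finset.mem_range] at hr
    obtain ⟨hr1, l, hl⟩ := hr
    have hml : r + 1 = Q * (m - l) := by
      rw [Nat.mul_sub]
      omega
    rw [Finset.mem_Icc, hml, Nat.mul_div_cancel_left _ (by omega)]
    refine ⟨?_, by omega⟩
    rcases Nat.eq_zero_or_pos (m - l) with h | h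
    · rw [h] at hml
      omega
    · exact h
  · intro i hi
    rw [Finset.mem_Icc] at hi
    rw [Finset.mem_filter, Finset.mem_range]
    have h2 : Q * i ≤ Q * m := Nat.mul_le_mul_left Q hi.2
    have h3 : Q ≤ Q * i := Nat.le_mul_of_pos_right Q hi.1
    refine ⟨by omega, m - i, ?_⟩
    rw [Nat.mul_sub]
    omega
  · intro r hr
    rw [Finset.mem_filter, Finset.mem_range] at hr
    obtain ⟨hr1, l, hl⟩ := hr
    have hml : r + 1 = Q * (m - l) := by
      rw [Nat.mul_sub]
      omega
    rw [hml, Nat.mul_div_cancel_left _ (by omega), ← hml]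
    omega
  · intro i hi
    rw [Finset.mem_Icc] at hi
    have h3 : Q ≤ Q * i := Nat.le_mul_of_pos_right Q hi.1
    rw [show Q * i - 1 + 1 = Q * i by omega, Nat.mul_div_cancel_left _ (by omega)]
  · intro r hr
    rw [Finset.mem_filter, Finset.mem_range] at hr
    obtain ⟨hr1, l, hl⟩ := hr
    have hml : r + 1 = Q * (m - l) := by
      rw [Nat.mul_sub]
      omega
    have hlm : l ≤ m := by
      by_contra hcon
      have : m - l = 0 := by omega
      rw [this] at hml
      omega
    rw [one_pow, one_mul, hl, hml, Nat.mul_div_cancel_left _ (by omega),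
      Nat.mul_div_cancel_left _ (by omega), ← hml]
    congr 2
    omega

private theorem A1_ey_ser_deg (hF : 2 < Fintype.card F) (t : L) (n : ℕ) :
    (PowerSeries.coeff n (ser (Fintype.card F) (Ey F t))).natDegree ≤ n := by
  by_cases hn : ∃ k, br (Fintype.card F) k = n
  · obtain ⟨k, rfl⟩ := hn
    rw [ser_coeff_br _ (by omega)]
    have h1 := A1_ey_natDegree (F := F) t k
    rw [← A1_ey_br (Fintype.card F) k (by omega)] at h1
    exact Nat.le_of_mul_le_mul_left (Nat.le_of_succ_le_succ h1) (by omega)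
  · push Not at hn
    rw [ser_coeff_ne _ _ _ hn]
    simp

private theorem A1_ey_ser_const (t : L) :
    PowerSeries.constantCoeff (ser (Fintype.card F) (Ey F t)) = 1 := by
  rw [ser_const]
  rfl

theorem Bs_twist (hF : 2 < Fintype.card F) (t : L)
    (ht : ∀ n, 1 ≤ n → t ^ (Fintype.card F ^ n) ≠ t) (m : ℕ) :
    Polynomial.expand L (Fintype.card F) (Bs (Fintype.card F) (Ey F t) m) =
      (C t - X) ^ ((Fintype.card F - 1) * m) *
        (Bs (Fintype.card F) (Ey F t) m + As (Fintype.card F) (Ey F t) 1 m) := by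
  obtain ⟨p, s, hp, hc, hq⟩ := A1_ey_exists_char F L
  set q := Fintype.card F with hqdef
  set g' : ℕ → L[X] := fun k => Nat.casesOn k 1 fun j => Ey F t (j + 1) - (Ey F t j) ^ q with hg'
  have hg0 : g' 0 = 1 := rfl
  have hgs : ∀ k, g' (k + 1) = Ey F t (k + 1) - 1 * (Ey F t k) ^ q := fun k => by
    rw [one_mul]
  set w : L[X] := (C t - X) ^ (q - 1) with hw
  have h1 : ∀ k, Polynomial.expand L q (Ey F t k) = w ^ br q k * g' k := by
    intro k
    cases k with
    | zero => simp [Ey, br, hg0]
    | succ k =>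
      rw [Ey_twist t ht k, hw, ← pow_mul]
      have h2 : q ^ (k + 1) - 1 = (q - 1) * br q (k + 1) := by
        have := A1_ey_br q (k + 1) (by omega)
        omega
      rw [← hqdef, h2]
  set φ : L[X] →+* L[X] := ((Polynomial.expand L q : L[X] →ₐ[L] L[X]) : L[X] →+* L[X]) with hφ
  have h2 : PowerSeries.map φ (ser q (Ey F t)) = PowerSeries.rescale w (ser q g') := by
    rw [A1_ey_ser_map, A1_ey_ser_rescale]
    congr 1
    funext k
    exact h1 k
  have h3 : PowerSeries.map φ (PowerSeries.invOfUnit (ser q (Ey F t)) 1) =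
      PowerSeries.rescale w (PowerSeries.invOfUnit (ser q g') 1) := by
    rw [A1_ey_map_inv φ (A1_ey_ser_const t), h2, A1_ey_rescale_inv w (by rw [ser_const, hg0])]
  have h4 := congrArg (PowerSeries.coeff m) h3
  rw [PowerSeries.coeff_map, PowerSeries.coeff_rescale] at h4
  have h5 := Bs_frob p s q hp hq (by omega) (Ey F t) g' 1 rfl hg0 hgs m
  rw [← h5, pow_mul, ← hw]
  exact h4

theorem As_deg (hF : 2 < Fintype.card F) (t : L) (m : ℕ) :
    (As (Fintype.card F) (Ey F t) 1 m).natDegree ≤ m := by
  unfold As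
  refine Polynomial.natDegree_sum_le_of_forall_le _ _ fun i _ => ?_
  rw [one_pow, one_mul]
  exact (A1_ey_deg_pow (A1_ey_ser_deg hF t) _ _).trans (Nat.sub_le _ _)

theorem Bs_deg (hF : 2 < Fintype.card F) (t : L) (m : ℕ) :
    (Bs (Fintype.card F) (Ey F t) m).natDegree ≤ m :=
  A1_ey_deg_inv (A1_ey_ser_deg hF t) m

end Pool.Agent.MP33dd76
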