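import Mathlib
import Pool.Agent.Lib.MP_33dd76_nt.A13Ey

set_option autoImplicit false

open Polynomial

namespace Pool.Agent.MP33dd76

/-! # Module A14: power sums (Carlitz) -/

variable {F : Type*} [Field F] [Fintype F] {L : Type*} [Field L] [Algebra F L]

section A14

/-! ### Frobenius -/

private theorem A14_add (F : Type*) [Field F] [Fintype F] {L : Type*} [Field L] [Algebra F L]
    (x y : L) : (x + y) ^ Fintype.card F = x ^ Fintype.card F + y ^ Fintype.card F :=
  map_add (FiniteField.frobeniusAlgHom F L) x y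

private theorem A14_sub (F : Type*) [Field F] [Fintype F] {L : Type*} [Field L] [Algebra F L]
    (x y : L) : (x - y) ^ Fintype.card F = x ^ Fintype.card F - y ^ Fintype.card F :=
  map_sub (FiniteField.frobeniusAlgHom F L) x y

private theorem A14_sum (F : Type*) [Field F] [Fintype F] {L : Type*} [Field L] [Algebra F L]
    {ι : Type*} (s : Finset ι) (f : ι → L) :
    (∑ i ∈ s, f i) ^ Fintype.card F = ∑ i ∈ s, f i ^ Fintype.card F :=
  map_sum (FiniteField.frobeniusAlgHom F L) f s

private theorem A14_ne {t : L} (ht : Transcendental F t) (n : ℕ) (hn : 1 ≤ n) :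
    t ^ (Fintype.card F ^ n) ≠ t := by
  intro h
  have h1 : (X ^ (Fintype.card F ^ n) - X : F[X]) = 0 := by
    apply transcendental_iff_injective.1 ht
    simp [h]
  exact FiniteField.X_pow_card_pow_sub_X_ne_zero F (by omega) Fintype.one_lt_card h1

private theorem A14_ne' {t : L} (ht : Transcendental F t) (n : ℕ) :
    t - t ^ (Fintype.card F ^ (n + 1)) ≠ 0 :=
  sub_ne_zero.2 (A14_ne ht (n + 1) (by omega)).symm

private theorem A14_ell_ne {t : L} (ht : Transcendental F t) (n : ℕ) : ell F t n ≠ 0 := by
  unfold ell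
  exact Finset.prod_ne_zero_iff.2 fun j _ => A14_ne' ht j

/-! ### monic polynomials -/

private noncomputable def A14_pol {n : ℕ} (c : Fin n → F) : F[X] :=
  X ^ n + ∑ i, C (c i) * X ^ (i : ℕ)

private theorem A14_aeval (t : L) {n : ℕ} (c : Fin n → F) : aeval t (A14_pol c) = mon F t c := by
  simp [A14_pol, mon]

private theorem A14_coeff {n : ℕ} (c : Fin n → F) (j : Fin n) : (A14_pol c).coeff j = c j := by
  unfold A14_pol
  rw [coeff_add, coeff_X_pow, if_neg (by omega), zero_add, finsetSum_coeff,
    Finset.sum_eq_single j]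
  · rw [coeff_C_mul, coeff_X_pow, if_pos rfl, mul_one]
  · intro i _ hij
    rw [coeff_C_mul, coeff_X_pow, if_neg (fun h => hij (Fin.ext h.symm)), mul_zero]
  · intro h
    exact absurd (Finset.mem_univ j) h

private theorem A14_coeff_n {n : ℕ} (c : Fin n → F) : (A14_pol c).coeff n = 1 := by
  unfold A14_pol
  rw [coeff_add, coeff_X_pow, if_pos rfl, finsetSum_coeff, Finset.sum_eq_zero, add_zero]
  intro i _
  rw [coeff_C_mul, coeff_X_pow, if_neg (by omega), mul_zero]

private theorem A14_mon_ne {t : L} (ht : Transcendental F t) {n : ℕ} (c : Fin n → F) :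
    mon F t c ≠ 0 := by
  rw [← A14_aeval]
  intro h
  have h1 : A14_pol c = 0 := by
    apply transcendental_iff_injective.1 ht
    rw [h, map_zero]
  have h2 := A14_coeff_n c
  rw [h1, coeff_zero] at h2
  exact zero_ne_one h2

private theorem A14_mon_inj {t : L} (ht : Transcendental F t) {n : ℕ} :
    Function.Injective (fun c : Fin n → F => mon F t c) := by
  intro c d h
  simp only [← A14_aeval] at h
  have h1 := transcendental_iff_injective.1 ht h
  funext j
  rw [← A14_coeff c j, h1, A14_coeff]

/-! ### the additive polynomials -/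

private noncomputable def A14_eps (F : Type*) [Field F] [Fintype F] {L : Type*} [Field L]
    [Algebra F L] (t : L) : ℕ → (L →ₗ[F] L)
  | 0 => LinearMap.id
  | n + 1 => (LinearMap.mulLeft F (t - t ^ (Fintype.card F ^ (n + 1)))⁻¹) ∘ₗ
      (A14_eps F t n - (FiniteField.frobeniusAlgHom F L).toLinearMap ∘ₗ A14_eps F t n)

private theorem A14_eps_zero (t x : L) : A14_eps F t 0 x = x := rfl

private theorem A14_eps_succ (t x : L) (n : ℕ) : A14_eps F t (n + 1) x =
    (t - t ^ (Fintype.card F ^ (n + 1)))⁻¹ *
      (A14_eps F t n x - (A14_eps F t n x) ^ Fintype.card F) := rfl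

private theorem A14_eps_succ' {t : L} (ht : Transcendental F t) (x : L) (n : ℕ) :
    (t - t ^ (Fintype.card F ^ (n + 1))) * A14_eps F t (n + 1) x =
      A14_eps F t n x - (A14_eps F t n x) ^ Fintype.card F := by
  rw [A14_eps_succ, mul_inv_cancel_left₀ (A14_ne' ht n)]

private theorem A14_eps_mul {t : L} (ht : Transcendental F t) (x : L) (n : ℕ) :
    A14_eps F t (n + 1) (t * x) =
      t * A14_eps F t (n + 1) x + (A14_eps F t n x) ^ Fintype.card F := by
  induction n with
  | zero =>
    apply mul_left_cancel₀ (A14_ne' ht 0)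
    rw [A14_eps_succ' ht, mul_add, mul_left_comm, A14_eps_succ' ht]
    simp only [A14_eps_zero, zero_add, pow_one, mul_pow]
    ring
  | succ n ih =>
    apply mul_left_cancel₀ (A14_ne' ht (n + 1))
    rw [A14_eps_succ' ht, mul_add, mul_left_comm, A14_eps_succ' ht, ih]
    have h1 := congrArg (fun z => z ^ Fintype.card F) (A14_eps_succ' ht x n)
    simp only [mul_pow, A14_sub] at h1
    rw [← pow_mul, ← pow_succ] at h1
    rw [A14_add, mul_pow]
    linear_combination (-1 : L) * h1

private theorem A14_eps_one (t : L) (n : ℕ) : A14_eps F t (n + 1) 1 = 0 := by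
  induction n with
  | zero =>
    rw [A14_eps_succ, A14_eps_zero, one_pow, sub_self, mul_zero]
  | succ n ih =>
    rw [A14_eps_succ, ih, zero_pow Fintype.card_ne_zero, sub_self, mul_zero]

private theorem A14_eps_pow {t : L} (ht : Transcendental F t) (n : ℕ) :
    (∀ j < n, A14_eps F t n (t ^ j) = 0) ∧ A14_eps F t n (t ^ n) = 1 := by
  induction n with
  | zero => exact ⟨fun j hj => absurd hj (Nat.not_lt_zero j), by rw [pow_zero, A14_eps_zero]⟩
  | succ n ih =>
    have key : ∀ j < n + 1, A14_eps F t (n + 1) (t ^ j) = 0 := by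
      intro j
      induction j with
      | zero =>
        intro _
        rw [pow_zero, A14_eps_one]
      | succ j ihj =>
        intro hj
        rw [pow_succ', A14_eps_mul ht, ihj (by omega), ih.1 j (by omega),
          zero_pow Fintype.card_ne_zero, mul_zero, add_zero]
    refine ⟨key, ?_⟩
    rw [pow_succ', A14_eps_mul ht, key n (by omega), ih.2, one_pow, mul_zero, zero_add]

private theorem A14_eps_mon {t : L} (ht : Transcendental F t) {n : ℕ} (c : Fin n → F) :
    A14_eps F t n (mon F t c) = 1 := by
  obtain ⟨h1, h2⟩ := A14_eps_pow ht n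
  unfold mon
  rw [map_add, map_sum, h2, Finset.sum_eq_zero, add_zero]
  intro i _
  rw [← Algebra.smul_def, map_smul, h1 i i.2, smul_zero]

/-! ### the polynomials with coefficients `E_k (y_n)` -/

private theorem A14_Ey_zero (t : L) (n k : ℕ) :
    (Ey F t (n + 1 + k)).eval (t ^ (Fintype.card F ^ (n + 1))) = 0 := by
  induction k with
  | zero =>
    rw [add_zero, Ey]
    simp
  | succ k ih =>
    rw [← add_assoc, Ey]
    simp only [eval_mul, eval_pow, ih]
    rw [zero_pow Fintype.card_ne_zero, mul_zero]

private theorem A14_Ey_zero' (t : L) (n k : ℕ) (hk : n + 1 ≤ k) :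
    (Ey F t k).eval (t ^ (Fintype.card F ^ (n + 1))) = 0 := by
  obtain ⟨j, rfl⟩ := Nat.exists_eq_add_of_le hk
  exact A14_Ey_zero t n j

private noncomputable def A14_S (F : Type*) [Field F] [Fintype F] {L : Type*} [Field L]
    [Algebra F L] (t : L) (n N : ℕ) (z : L) : L :=
  ∑ k ∈ Finset.range N, (Ey F t k).eval (t ^ (Fintype.card F ^ (n + 1))) *
    (z / ell F t n) ^ (Fintype.card F ^ k)

private theorem A14_rec {t : L} (ht : Transcendental F t) (n N : ℕ) (z : L) :
    (t - t ^ (Fintype.card F ^ (n + 1))) * A14_S F t (n + 1) (N + 1) z =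
      A14_S F t n (N + 1) z - (A14_S F t n N z) ^ Fintype.card F := by
  have hd := A14_ne' ht n
  have hl := A14_ell_ne ht n
  have hell : ell F t (n + 1) = ell F t n * (t - t ^ (Fintype.card F ^ (n + 1))) := by
    unfold ell
    rw [Finset.prod_range_succ]
  unfold A14_S
  rw [A14_sum, Finset.sum_range_succ', Finset.sum_range_succ' _ N, mul_add, Finset.mul_sum,
    add_sub_right_comm, ← Finset.sum_sub_distrib]
  congr 1
  · refine Finset.sum_congr rfl fun k _ => ?_
    have h1 := congrArg (fun p => Polynomial.eval (t ^ (Fintype.card F ^ (n + 1))) p)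
      (Ey_twist (F := F) t (fun n hn => A14_ne ht n hn) k)
    simp only [expand_eval, eval_mul, eval_pow, eval_sub, eval_C, eval_X] at h1
    have e1 : (t ^ (Fintype.card F ^ (n + 1))) ^ Fintype.card F =
        t ^ (Fintype.card F ^ (n + 1 + 1)) := by
      rw [← pow_mul, ← pow_succ]
    rw [e1] at h1
    rw [h1, hell, ← div_div, div_pow, mul_pow, ← pow_mul, ← pow_succ]
    have h2 : (t - t ^ (Fintype.card F ^ (n + 1))) ^ (Fintype.card F ^ (k + 1)) =
        (t - t ^ (Fintype.card F ^ (n + 1))) ^ (Fintype.card F ^ (k + 1) - 1) *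
          (t - t ^ (Fintype.card F ^ (n + 1))) := by
      rw [← pow_succ, Nat.sub_add_cancel (Nat.one_le_pow _ _ Fintype.card_pos)]
    rw [h2]
    have h3 := pow_ne_zero (Fintype.card F ^ (k + 1) - 1) hd
    field_simp
  · rw [Ey, eval_one, eval_one, hell, pow_zero, pow_one, pow_one, one_mul, one_mul]
    field_simp

private theorem A14_S_eq {t : L} (ht : Transcendental F t) (n : ℕ) (z : L) :
    A14_S F t n (n + 1) z = A14_eps F t n z := by
  induction n with
  | zero =>
    unfold A14_S ell
    rw [Finset.sum_range_one, Ey, eval_one, Finset.prod_range_zero, A14_eps_zero]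
    simp
  | succ n ih =>
    apply mul_left_cancel₀ (A14_ne' ht n)
    rw [A14_rec ht, A14_eps_succ' ht, ← ih]
    congr 1
    unfold A14_S
    rw [Finset.sum_range_succ, A14_Ey_zero' t n (n + 1) le_rfl, zero_mul, add_zero]

/-- the polynomial `1 - ∑ E_k (y_n) x^(q^k)` -/
private noncomputable def A14_P (F : Type*) [Field F] [Fintype F] {L : Type*} [Field L]
    [Algebra F L] (t : L) (n : ℕ) : L[X] :=
  1 - ∑ k ∈ Finset.range (n + 1), C ((Ey F t k).eval (t ^ (Fintype.card F ^ (n + 1)))) *
    X ^ (Fintype.card F ^ k)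

private theorem A14_P_eval {t : L} (ht : Transcendental F t) (n : ℕ) (z : L) :
    (A14_P F t n).eval (z / ell F t n) = 1 - A14_eps F t n z := by
  rw [← A14_S_eq ht]
  unfold A14_P A14_S
  simp [eval_finsetSum]

private theorem A14_P_deg (t : L) (n : ℕ) :
    (A14_P F t n).degree ≤ ((Fintype.card F ^ n : ℕ) : WithBot ℕ) := by
  unfold A14_P
  refine (degree_sub_le _ _).trans (max_le ?_ ?_)
  · exact degree_one_le.trans (by exact_mod_cast Nat.zero_le _)
  · refine (degree_sum_le _ _).trans (Finset.sup_le fun k hk => ?_)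
    refine (degree_C_mul_X_pow_le _ _).trans ?_
    have h1 : k ≤ n := by
      rw [Finset.mem_range] at hk
      omega
    exact_mod_cast Nat.pow_le_pow_right Fintype.card_pos h1

private theorem A14_P_prod {t : L} (ht : Transcendental F t) (n : ℕ) :
    A14_P F t n = ∏ c : Fin n → F, (1 - C (ell F t n / mon F t c) * X) := by
  classical
  have hl := A14_ell_ne ht n
  have hm : ∀ c : Fin n → F, mon F t c ≠ 0 := fun c => A14_mon_ne ht c
  let v : Option (Fin n → F) → L := fun o => o.elim 0 (fun c => mon F t c / ell F t n)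
  have hcard : (Finset.univ : Finset (Option (Fin n → F))).card = Fintype.card F ^ n + 1 := by
    rw [Finset.card_univ, Fintype.card_option, Fintype.card_fun, Fintype.card_fin]
  refine Polynomial.eq_of_degrees_lt_of_eval_index_eq (Finset.univ : Finset (Option (Fin n → F)))
    (v := v) ?_ ?_ ?_ ?_
  · intro a _ b _ hab
    rcases a with _ | a <;> rcases b with _ | b
    · rfl
    · exact absurd hab.symm (div_ne_zero (hm b) hl)
    · exact absurd hab (div_ne_zero (hm a) hl)
    · have h1 : mon F t a / ell F t n = mon F t b / ell F t n := hab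
      rw [div_left_inj' hl] at h1
      rw [A14_mon_inj ht h1]
  · rw [hcard]
    refine lt_of_le_of_lt (A14_P_deg t n) ?_
    exact_mod_cast Nat.lt_succ_self _
  · rw [hcard]
    refine lt_of_le_of_lt (degree_prod_le _ _) ?_
    refine lt_of_le_of_lt (Finset.sum_le_sum (g := fun _ => (1 : WithBot ℕ)) fun c _ => ?_) ?_
    · refine (degree_sub_le _ _).trans (max_le ?_ (degree_C_mul_X_le _))
      exact degree_one_le.trans (by exact_mod_cast Nat.zero_le _)
    · rw [Finset.sum_const, Finset.card_univ, Fintype.card_fun, Fintype.card_fin]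
      simp only [nsmul_eq_mul, mul_one]
      exact_mod_cast Nat.lt_succ_self _
  · intro a _
    rcases a with _ | a
    · change eval 0 _ = eval 0 _
      rw [eval_prod]
      have h1 : ∀ k : ℕ, (0 : L) ^ (Fintype.card F ^ k) = 0 := fun k =>
        zero_pow (pow_ne_zero _ Fintype.card_ne_zero)
      simp [A14_P, eval_finsetSum, h1]
    · change eval (mon F t a / ell F t n) _ = eval (mon F t a / ell F t n) _
      rw [A14_P_eval ht, A14_eps_mon ht, sub_self, eval_prod, Finset.prod_eq_zero (Finset.mem_univ a)]
      have h2 := hm a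
      simp only [eval_sub, eval_one, eval_mul, eval_C, eval_X]
      field_simp
      ring

private theorem A14_card_zero (F : Type*) [Field F] [Fintype F] (L : Type*) [Field L]
    [Algebra F L] : ((Fintype.card F : ℕ) : L) = 0 := by
  rw [← map_natCast (algebraMap F L), FiniteField.cast_card_eq_zero, map_zero]

private theorem A14_P_deriv (t : L) (n : ℕ) : derivative (A14_P F t n) = -1 := by
  unfold A14_P
  rw [derivative_sub, derivative_one, derivative_sum, Finset.sum_range_succ', Finset.sum_eq_zero]
  · rw [Ey]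
    simp
  · intro k _
    rw [derivative_C_mul_X_pow, Nat.cast_pow, A14_card_zero, zero_pow (Nat.succ_ne_zero k),
      mul_zero, C_0, zero_mul]

private theorem A14_lt_pow (m : ℕ) : m < Fintype.card F ^ m :=
  Nat.lt_pow_self Fintype.one_lt_card

private theorem A14_map (t : L) (n : ℕ) :
    PowerSeries.map (Polynomial.evalRingHom (t ^ (Fintype.card F ^ (n + 1)))) (1 - Eser F t) =
      (A14_P F t n : PowerSeries L) := by
  have hE : PowerSeries.map (Polynomial.evalRingHom (t ^ (Fintype.card F ^ (n + 1))))
      (Eser F t) = ((∑ k ∈ Finset.range (n + 1),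
        C ((Ey F t k).eval (t ^ (Fintype.card F ^ (n + 1)))) *
          X ^ (Fintype.card F ^ k) : L[X]) : PowerSeries L) := by
    ext m
    rw [PowerSeries.coeff_map, Eser, PowerSeries.coeff_mk, Polynomial.coeff_coe, finsetSum_coeff,
      map_sum]
    simp only [coeff_C_mul, coeff_X_pow]
    have h1 : ∑ k ∈ Finset.range (m + 1),
        (Polynomial.evalRingHom (t ^ (Fintype.card F ^ (n + 1))))
          (if Fintype.card F ^ k = m then Ey F t k else 0) =
        ∑ k ∈ Finset.range (m + 1 + (n + 1)),
        (Polynomial.evalRingHom (t ^ (Fintype.card F ^ (n + 1))))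
          (if Fintype.card F ^ k = m then Ey F t k else 0) := by
      refine Finset.sum_subset (Finset.range_mono (by omega)) fun k _ hk => ?_
      rw [Finset.mem_range, not_lt] at hk
      have h2 := A14_lt_pow (F := F) k
      rw [if_neg (by omega), map_zero]
    have h3 : ∑ k ∈ Finset.range (n + 1),
        (Ey F t k).eval (t ^ (Fintype.card F ^ (n + 1))) *
          (if m = Fintype.card F ^ k then (1 : L) else 0) =
        ∑ k ∈ Finset.range (m + 1 + (n + 1)),
        (Ey F t k).eval (t ^ (Fintype.card F ^ (n + 1))) *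
          (if m = Fintype.card F ^ k then (1 : L) else 0) := by
      refine Finset.sum_subset (Finset.range_mono (by omega)) fun k _ hk => ?_
      rw [Finset.mem_range, not_lt] at hk
      rw [A14_Ey_zero' t n k hk, zero_mul]
    rw [h1, h3]
    refine Finset.sum_congr rfl fun k _ => ?_
    by_cases h : Fintype.card F ^ k = m
    · rw [if_pos h, if_pos h.symm, mul_one]
      rfl
    · rw [if_neg h, if_neg (fun h' => h h'.symm), mul_zero, map_zero]
  rw [map_sub, map_one, hE]
  unfold A14_P
  rw [Polynomial.coe_sub, Polynomial.coe_one]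

private theorem A14_geom (w : L) :
    ((1 - C w * X : L[X]) : PowerSeries L) * PowerSeries.mk (fun m => w ^ m) = 1 := by
  rw [Polynomial.coe_sub, Polynomial.coe_one, Polynomial.coe_mul, Polynomial.coe_C,
    Polynomial.coe_X, sub_mul, one_mul]
  ext m
  rcases m with _ | m
  · simp
  · rw [map_sub, mul_assoc, PowerSeries.coeff_C_mul, PowerSeries.coeff_succ_X_mul,
      PowerSeries.coeff_mk, PowerSeries.coeff_mk, PowerSeries.coeff_one, if_neg (Nat.succ_ne_zero m)]
    ring

end A14

theorem pow_sum (t : L) (ht : Transcendental F t) (n s : ℕ) (hs : 1 ≤ s) :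
    (hy F t (s - 1)).eval (t ^ (Fintype.card F ^ (n + 1))) = ell F t n ^ s * Ssum F t n s := by
  classical
  set y : L := t ^ (Fintype.card F ^ (n + 1)) with hy'
  set w : (Fin n → F) → L := fun c => ell F t n / mon F t c with hw
  -- the inverse series
  have h0 : PowerSeries.constantCoeff (1 - Eser F t) = ((1 : (L[X])ˣ) : L[X]) := by
    rw [map_sub, map_one, Units.val_one, sub_eq_self, ← PowerSeries.coeff_zero_eq_constantCoeff_apply,
      Eser, PowerSeries.coeff_mk]
    simp
  have h1 := PowerSeries.mul_invOfUnit (1 - Eser F t) 1 h0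
  have h2 := congrArg (PowerSeries.map (Polynomial.evalRingHom y)) h1
  rw [map_mul, map_one, hy', A14_map] at h2
  -- the second inverse
  have h3 : (A14_P F t n : PowerSeries L) *
      (∑ c : Fin n → F, PowerSeries.C (w c) * PowerSeries.mk (fun m => (w c) ^ m)) = 1 := by
    rw [Finset.mul_sum]
    have h4 : ∀ c : Fin n → F, (A14_P F t n : PowerSeries L) *
        (PowerSeries.C (w c) * PowerSeries.mk (fun m => (w c) ^ m)) =
        ((C (w c) * ∏ b ∈ Finset.univ.erase c, (1 - C (w b) * X) : L[X]) : PowerSeries L) := by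
      intro c
      have h5 : A14_P F t n = (1 - C (w c) * X) *
          ∏ b ∈ Finset.univ.erase c, (1 - C (w b) * X) := by
        rw [A14_P_prod ht, Finset.mul_prod_erase _ (fun b => (1 - C (w b) * X)) (Finset.mem_univ c)]
      rw [h5, Polynomial.coe_mul, Polynomial.coe_mul, Polynomial.coe_C]
      have h6 := A14_geom (w c)
      calc _ = (((1 - C (w c) * X : L[X]) : PowerSeries L) * PowerSeries.mk (fun m => (w c) ^ m)) *
            (PowerSeries.C (w c) * ((∏ b ∈ Finset.univ.erase c, (1 - C (w b) * X) : L[X]) :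
              PowerSeries L)) := by ring
        _ = _ := by rw [h6, one_mul]
    simp only [h4]
    have h7 : derivative (A14_P F t n) =
        ∑ c : Fin n → F, (∏ b ∈ Finset.univ.erase c, (1 - C (w b) * X)) *
          derivative (1 - C (w c) * X) := by
      rw [A14_P_prod ht, derivative_prod_finset]
    rw [A14_P_deriv] at h7
    have h8 : ∑ c : Fin n → F, (C (w c) * ∏ b ∈ Finset.univ.erase c, (1 - C (w b) * X)) = 1 := by
      have h9 : ∀ c : Fin n → F, derivative (1 - C (w c) * X) = - C (w c) := by
        intro c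
        simp
      simp only [h9] at h7
      have h10 := congrArg Neg.neg h7
      rw [neg_neg, ← Finset.sum_neg_distrib] at h10
      refine Eq.trans ?_ h10.symm
      refine Finset.sum_congr rfl fun c _ => ?_
      ring
    have h11 := congrArg (fun p : L[X] => (p : PowerSeries L)) h8
    simp only [Polynomial.coe_one] at h11
    rw [← h11]
    exact (map_sum (Polynomial.coeToPowerSeries.ringHom (R := L)) _ _).symm
  -- comparison
  have h4 : PowerSeries.map (Polynomial.evalRingHom (t ^ (Fintype.card F ^ (n + 1))))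
      (PowerSeries.invOfUnit (1 - Eser F t) 1) =
      ∑ c : Fin n → F, PowerSeries.C (w c) * PowerSeries.mk (fun m => (w c) ^ m) := by
    have hunit : IsUnit (A14_P F t n : PowerSeries L) := IsUnit.of_mul_eq_one _ h3
    exact hunit.mul_left_cancel (h2.trans h3.symm)
  have h5 := congrArg (PowerSeries.coeff (s - 1)) h4
  rw [PowerSeries.coeff_map, map_sum] at h5
  have h6 : (hy F t (s - 1)).eval (t ^ (Fintype.card F ^ (n + 1))) =
      ∑ c : Fin n → F, w c * w c ^ (s - 1) := by
    unfold hy
    rw [← Polynomial.coe_evalRingHom, h5]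
    refine Finset.sum_congr rfl fun c _ => ?_
    rw [PowerSeries.coeff_C_mul, PowerSeries.coeff_mk]
  rw [hy', h6]
  unfold Ssum
  rw [Finset.mul_sum]
  refine Finset.sum_congr rfl fun c _ => ?_
  rw [← pow_succ', Nat.sub_add_cancel hs, hw]
  simp only
  rw [div_pow, div_eq_mul_inv]

end Pool.Agent.MP33dd76
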