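import Mathlib
import Pool.Agent.Lib.MP_33dd76_nt.A2Norm

set_option autoImplicit false

open Polynomial

namespace Pool.Agent.MP33dd76

/-! # Module A15: sizes of the power sums -/

variable {F : Type*} [Field F] [Fintype F] {K : Type*} [NormedField K] [IsUltrametricDist K]
  [CompleteSpace K] [Algebra F K]

omit [CompleteSpace K] in
theorem A1_norm_add {x y : K} (h : ‖y‖ < ‖x‖) : ‖x + y‖ = ‖x‖ := by
  rw [IsUltrametricDist.norm_add_eq_max_of_norm_ne_norm h.ne']
  exact max_eq_left h.le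

omit [CompleteSpace K] in
theorem A1_sum_lt {ι : Type*} (s : Finset ι) (f : ι → K) (c : ℝ) (hc : 0 < c)
    (h : ∀ i ∈ s, ‖f i‖ < c) : ‖∑ i ∈ s, f i‖ < c := by
  classical
  induction s using Finset.induction_on with
  | empty => simpa using hc
  | insert a s ha ih =>
    rw [Finset.sum_insert ha]
    refine lt_of_le_of_lt (IsUltrametricDist.norm_add_le_max _ _) (max_lt ?_ ?_)
    · exact h a (Finset.mem_insert_self _ _)
    · exact ih fun i hi => h i (Finset.mem_insert_of_mem hi)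

theorem Ssum_zero (θ : K) (s : ℕ) : Ssum F θ 0 s = 1 := by
  unfold Ssum mon
  simp

theorem norm_mon {θ : K} (hθ : 1 < ‖θ‖) {n : ℕ} (c : Fin n → F) : ‖mon F θ c‖ = ‖θ‖ ^ n := by
  unfold mon
  rw [A1_norm_add, norm_pow]
  rw [norm_pow]
  refine A1_sum_lt _ _ _ (pow_pos (zero_lt_one.trans hθ) _) fun i _ => ?_
  rw [norm_mul, norm_pow]
  have h1 := A2_norm_algMap_le (K := K) (c i)
  calc ‖algebraMap F K (c i)‖ * ‖θ‖ ^ (i : ℕ) ≤ 1 * ‖θ‖ ^ (i : ℕ) := by gcongr
    _ = ‖θ‖ ^ (i : ℕ) := one_mul _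
    _ < ‖θ‖ ^ n := pow_lt_pow_right₀ hθ i.2

theorem norm_Ssum_le {θ : K} (hθ : 1 < ‖θ‖) (n s : ℕ) :
    ‖Ssum F θ n s‖ ≤ (‖θ‖⁻¹) ^ (n * s) := by
  unfold Ssum
  refine IsUltrametricDist.norm_sum_le_of_forall_le_of_nonneg (by positivity) fun c _ => ?_
  rw [norm_inv, norm_pow, norm_mon hθ, ← pow_mul, inv_pow]

theorem norm_Slt {θ : K} (hθ : 1 < ‖θ‖) (n s : ℕ) (hn : 1 ≤ n) (hs : 1 ≤ s) :
    ‖Slt F θ n s‖ = 1 := by
  obtain ⟨m, rfl⟩ : ∃ m, n = m + 1 := ⟨n - 1, by omega⟩
  unfold Slt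
  rw [Finset.sum_range_succ', Ssum_zero, add_comm, A1_norm_add, norm_one]
  rw [norm_one]
  refine A1_sum_lt _ _ _ one_pos fun i _ => ?_
  refine lt_of_le_of_lt (norm_Ssum_le hθ (i + 1) s) ?_
  refine pow_lt_one₀ (by positivity) (inv_lt_one_of_one_lt₀ hθ) ?_
  have : 1 ≤ (i + 1) * s := Nat.succ_le_of_lt (Nat.mul_pos (Nat.succ_pos _) hs)
  omega

/-! ### The sums over the translates by constants -/

/-- the sum over the translates of `b` by constants -/
noncomputable def A1_T (F : Type*) [Field F] [Fintype F] {K : Type*} [Field K] [Algebra F K]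
    (b : K) (s : ℕ) : K := ∑ c : F, ((b + algebraMap F K c) ^ s)⁻¹

omit [CompleteSpace K] in
theorem A1_z (F : Type*) [Field F] [Fintype F] [Algebra F K] {b : K} (hb : 1 < ‖b‖) (c : F) :
    ‖b + algebraMap F K c‖ = ‖b‖ :=
  A1_norm_add (lt_of_le_of_lt (A2_norm_algMap_le c) hb)

theorem A1_pow_card {K : Type*} [Field K] [Algebra F K] (b : K) (c : F) :
    (b + algebraMap F K c) ^ Fintype.card F = b ^ Fintype.card F + algebraMap F K c := by
  have h1 := map_add (FiniteField.frobeniusAlgHom F K) b (algebraMap F K c)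
  rw [AlgHom.commutes] at h1
  exact h1

theorem A1_sum_pow_card (F : Type*) [Field F] [Fintype F] :
    ∑ c : F, c ^ (Fintype.card F - 1) = -1 := by
  classical
  have hq : 1 < Fintype.card F := Fintype.one_lt_card (α := F)
  have h1 : ∑ c : F, c ^ (Fintype.card F - 1) = ∑ c : F, (1 - if c = 0 then (1 : F) else 0) := by
    refine Finset.sum_congr rfl fun c _ => ?_
    by_cases hc : c = 0
    · rw [hc, if_pos rfl, zero_pow (by omega), sub_self]
    · rw [if_neg hc, FiniteField.pow_card_sub_one_eq_one c hc, sub_zero]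
  rw [h1, Finset.sum_sub_distrib, Finset.sum_ite_eq' Finset.univ (0 : F) (fun _ => (1 : F)),
    if_pos (Finset.mem_univ _), Finset.sum_const, nsmul_one, Finset.card_univ,
    Nat.cast_card_eq_zero, zero_sub]

/-- the power sums with non-negative exponents -/
theorem A1_pos_sum {K : Type*} [Field K] [Algebra F K] (b : K) (m : ℕ)
    (hm : m ≤ Fintype.card F - 1) : ∑ c : F, (b + algebraMap F K c) ^ m =
      if m = Fintype.card F - 1 then -1 else 0 := by
  classical
  have h1 : ∀ c : F, (b + algebraMap F K c) ^ m =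
      ∑ j ∈ Finset.range (m + 1), b ^ j * (m.choose j : K) * algebraMap F K (c ^ (m - j)) := by
    intro c
    rw [add_pow]
    refine Finset.sum_congr rfl fun j _ => ?_
    rw [map_pow]
    ring
  simp_rw [h1]
  rw [Finset.sum_comm]
  have h2 : ∀ j ∈ Finset.range (m + 1), ∑ c : F, b ^ j * (m.choose j : K) *
      algebraMap F K (c ^ (m - j)) =
      if j = 0 then (if m = Fintype.card F - 1 then -1 else 0) else 0 := by
    intro j hj
    rw [← Finset.mul_sum, ← map_sum]
    by_cases hj0 : j = 0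
    · subst hj0
      rw [if_pos rfl, pow_zero, Nat.choose_zero_right, Nat.cast_one, one_mul, one_mul, Nat.sub_zero]
      by_cases hmq : m = Fintype.card F - 1
      · rw [if_pos hmq, hmq, A1_sum_pow_card, map_neg, map_one]
      · rw [if_neg hmq, FiniteField.sum_pow_lt_card_sub_one F m (by omega), map_zero]
    · rw [if_neg hj0, FiniteField.sum_pow_lt_card_sub_one F (m - j) ?_, map_zero, mul_zero]
      have := Finset.mem_range.1 hj
      have hq : 1 < Fintype.card F := Fintype.one_lt_card (α := F)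
      omega
  rw [Finset.sum_congr rfl h2, Finset.sum_ite_eq' (Finset.range (m + 1)) 0,
    if_pos (Finset.mem_range.2 (Nat.succ_pos m))]

theorem A1_T_zero {K : Type*} [Field K] [Algebra F K] (b : K) : A1_T F b 0 = 0 := by
  unfold A1_T
  simp only [pow_zero, inv_one]
  rw [Finset.sum_const, nsmul_one, Finset.card_univ, ← map_natCast (algebraMap F K),
    Nat.cast_card_eq_zero, map_zero]

omit [CompleteSpace K] in
/-- the recursion -/
theorem A1_rec {b : K} (hb : 1 < ‖b‖) (s : ℕ) (hs : 1 ≤ s) :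
    (b - b ^ Fintype.card F) * A1_T F b s = A1_T F b (s - 1) -
      (if Fintype.card F ≤ s then A1_T F b (s - Fintype.card F) else 0) +
      (if s = 1 then 1 else 0) := by
  have hq : 1 < Fintype.card F := Fintype.one_lt_card (α := F)
  have hz : ∀ c : F, b + algebraMap F K c ≠ 0 := by
    intro c h0
    have h1 := A1_z F hb c
    rw [h0, norm_zero] at h1
    linarith
  have hl : ∀ c : F, b - b ^ Fintype.card F =
      (b + algebraMap F K c) - (b + algebraMap F K c) ^ Fintype.card F := by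
    intro c
    rw [A1_pow_card]
    ring
  by_cases hsq : Fintype.card F ≤ s
  · rw [if_pos hsq, if_neg (by omega), add_zero]
    unfold A1_T
    rw [Finset.mul_sum, ← Finset.sum_sub_distrib]
    refine Finset.sum_congr rfl fun c _ => ?_
    rw [hl c]
    have h0 := hz c
    obtain ⟨z, hz'⟩ : ∃ z, z = b + algebraMap F K c := ⟨_, rfl⟩
    rw [← hz'] at h0 ⊢
    have h1 : z ^ s = z * z ^ (s - 1) := by
      rw [← pow_succ']
      congr 1
      omega
    have h2 : z ^ s = z ^ Fintype.card F * z ^ (s - Fintype.card F) := by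
      rw [← pow_add]
      congr 1
      omega
    rw [sub_mul]
    congr 1
    · rw [h1, mul_inv, ← mul_assoc, mul_inv_cancel₀ h0, one_mul]
    · rw [h2, mul_inv, ← mul_assoc, mul_inv_cancel₀ (pow_ne_zero _ h0), one_mul]
  · rw [if_neg hsq, sub_zero]
    have h3 : (b - b ^ Fintype.card F) * A1_T F b s = A1_T F b (s - 1) -
        ∑ c : F, (b + algebraMap F K c) ^ (Fintype.card F - s) := by
      unfold A1_T
      rw [Finset.mul_sum, ← Finset.sum_sub_distrib]
      refine Finset.sum_congr rfl fun c _ => ?_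
      rw [hl c]
      have h0 := hz c
      obtain ⟨z, hz'⟩ : ∃ z, z = b + algebraMap F K c := ⟨_, rfl⟩
      rw [← hz'] at h0 ⊢
      have h1 : z ^ s = z * z ^ (s - 1) := by
        rw [← pow_succ']
        congr 1
        omega
      have h2 : z ^ Fintype.card F = z ^ s * z ^ (Fintype.card F - s) := by
        rw [← pow_add]
        congr 1
        omega
      rw [sub_mul]
      congr 1
      · rw [h1, mul_inv, ← mul_assoc, mul_inv_cancel₀ h0, one_mul]
      · rw [h2, mul_comm (z ^ s), mul_assoc, mul_inv_cancel₀ (pow_ne_zero _ h0), mul_one]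
    rw [h3, A1_pos_sum b _ (by omega)]
    by_cases hs1 : s = 1
    · rw [if_pos (by omega), if_pos hs1, sub_neg_eq_add]
    · rw [if_neg (by omega), if_neg hs1, sub_zero, add_zero]

omit [CompleteSpace K] in
theorem A1_norm_l (F : Type*) [Field F] [Fintype F] {K : Type*} [NormedField K]
    [IsUltrametricDist K] {b : K} (hb : 1 < ‖b‖) (k : ℕ) (hk : 1 ≤ k) :
    ‖b - b ^ (Fintype.card F ^ k)‖ = ‖b‖ ^ (Fintype.card F ^ k) := by
  have hq : 1 < Fintype.card F := Fintype.one_lt_card (α := F)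
  have h1 : ‖b‖ < ‖-b ^ (Fintype.card F ^ k)‖ := by
    rw [norm_neg, norm_pow]
    conv_lhs => rw [← pow_one ‖b‖]
    exact pow_lt_pow_right₀ hb (Nat.one_lt_pow (by omega) hq)
  rw [sub_eq_add_neg, add_comm, A1_norm_add h1, norm_neg, norm_pow]

omit [CompleteSpace K] in
/-- the sum is a polynomial in the inverse of `b - b^q` -/
theorem A1_poly (F : Type*) [Field F] [Fintype F] (K : Type*) [NormedField K]
    [IsUltrametricDist K] [Algebra F K] (s : ℕ) : ∃ P : F[X], P.coeff 0 = 0 ∧ P.natDegree ≤ s ∧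
    (1 ≤ s → P.coeff s = 1) ∧
    ∀ b : K, 1 < ‖b‖ → A1_T F b s = aeval (b - b ^ Fintype.card F)⁻¹ P := by
  have hq : 1 < Fintype.card F := Fintype.one_lt_card (α := F)
  induction s using Nat.strong_induction_on with
  | _ s ih =>
    rcases Nat.eq_zero_or_pos s with rfl | hs
    · refine ⟨0, by simp, by simp, by simp, fun b _ => ?_⟩
      rw [A1_T_zero, map_zero]
    · have hln : ∀ b : K, 1 < ‖b‖ → b - b ^ Fintype.card F ≠ 0 := by
        intro b hb h0
        have h1 := A1_norm_l F hb 1 le_rfl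
        rw [pow_one, h0, norm_zero] at h1
        have h2 : 0 < ‖b‖ ^ Fintype.card F := pow_pos (zero_lt_one.trans hb) _
        linarith
      obtain ⟨P, hP0, hPd, hP1, hP⟩ := ih (s - 1) (by omega)
      obtain ⟨Q, hQ0, hQd, hQ⟩ : ∃ Q : F[X], Q.coeff 0 = 0 ∧ Q.natDegree ≤ s - 2 ∧
          ∀ b : K, 1 < ‖b‖ → (if Fintype.card F ≤ s then A1_T F b (s - Fintype.card F) else 0) =
            aeval (b - b ^ Fintype.card F)⁻¹ Q := by
        by_cases hsq : Fintype.card F ≤ s
        · obtain ⟨Q, h1, h2, _, h4⟩ := ih (s - Fintype.card F) (by omega)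
          refine ⟨Q, h1, h2.trans (by omega), fun b hb => ?_⟩
          rw [if_pos hsq, h4 b hb]
        · refine ⟨0, by simp, by simp, fun b hb => ?_⟩
          rw [if_neg hsq, map_zero]
      refine ⟨X * (P - Q + if s = 1 then 1 else 0), ?_, ?_, ?_, ?_⟩
      · rw [mul_coeff_zero, coeff_X_zero, zero_mul]
      · refine natDegree_mul_le.trans ?_
        rw [natDegree_X]
        have h1 : (P - Q + if s = 1 then 1 else 0 : F[X]).natDegree ≤ s - 1 := by
          refine (natDegree_add_le _ _).trans (max_le ?_ ?_)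
          · exact (natDegree_sub_le _ _).trans (max_le hPd (hQd.trans (by omega)))
          · split_ifs
            · rw [natDegree_one]; omega
            · rw [natDegree_zero]; omega
        omega
      · intro _
        obtain ⟨r, rfl⟩ : ∃ r, s = r + 1 := ⟨s - 1, by omega⟩
        rw [coeff_X_mul, coeff_add, coeff_sub]
        by_cases hr : r = 0
        · subst hr
          rw [if_pos rfl, coeff_one_zero, hQ0, hP0, sub_zero, zero_add]
        · rw [if_neg (by omega), coeff_zero, add_zero,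
            coeff_eq_zero_of_natDegree_lt (lt_of_le_of_lt hQd (by omega)), sub_zero]
          exact hP1 (by omega)
      · intro b hb
        have h1 := A1_rec (F := F) hb s hs
        rw [hP b hb, hQ b hb] at h1
        have h2 := hln b hb
        rw [map_mul, aeval_X, map_add, map_sub]
        have h3 : aeval (b - b ^ Fintype.card F)⁻¹ (if s = 1 then 1 else 0 : F[X]) =
            (if s = 1 then 1 else 0 : K) := by
          split_ifs
          · exact map_one _
          · exact map_zero _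
        rw [h3, ← h1, ← mul_assoc, inv_mul_cancel₀ h2, one_mul]

omit [CompleteSpace K] in
theorem A1_aeval_le (F : Type*) [Field F] [Fintype F] {K : Type*} [NormedField K]
    [IsUltrametricDist K] [Algebra F K] {u : K} (hu : ‖u‖ ≤ 1) (P : F[X]) : ‖aeval u P‖ ≤ 1 := by
  rw [Polynomial.aeval_eq_sum_range]
  refine IsUltrametricDist.norm_sum_le_of_forall_le_of_nonneg zero_le_one fun j _ => ?_
  rw [Algebra.smul_def, norm_mul, norm_pow]
  exact mul_le_one₀ (A2_norm_algMap_le _) (by positivity) (pow_le_one₀ (norm_nonneg _) hu)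

/-- the size of a polynomial at a small point -/
theorem A1_aeval_eq (F : Type*) [Field F] [Fintype F] (K : Type*) [NormedField K]
    [IsUltrametricDist K] [CompleteSpace K] [Algebra F K] (P : F[X]) (hP : P ≠ 0)
    (hP0 : P.coeff 0 = 0) : ∃ k, 1 ≤ k ∧ ∀ u : K, ‖u‖ < 1 → ‖aeval u P‖ = ‖u‖ ^ k := by
  obtain ⟨Q, hQ, hQ0⟩ := exists_eq_pow_rootMultiplicity_mul_and_not_dvd P hP 0
  obtain ⟨k, hk⟩ : ∃ k, k = P.rootMultiplicity 0 := ⟨_, rfl⟩
  rw [← hk, C_0, sub_zero] at hQ
  rw [C_0, sub_zero] at hQ0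
  have hQc : Q.coeff 0 ≠ 0 := fun h => hQ0 (X_dvd_iff.2 h)
  refine ⟨k, ?_, fun u hu => ?_⟩
  · rcases Nat.eq_zero_or_pos k with h | h
    · exfalso
      rw [h, pow_zero, one_mul] at hQ
      rw [hQ] at hP0
      exact hQc hP0
    · exact h
  · have h1 : ‖aeval u Q‖ = 1 := by
      have h2 : aeval u Q = algebraMap F K (Q.coeff 0) + u * aeval u Q.divX := by
        conv_lhs => rw [← divX_mul_X_add Q]
        rw [map_add, map_mul, aeval_X, aeval_C]
        ring
      have h3 : ‖algebraMap F K (Q.coeff 0)‖ = 1 := norm_algMap _ hQc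
      rw [h2, A1_norm_add, h3]
      rw [h3, norm_mul]
      calc ‖u‖ * ‖aeval u Q.divX‖ ≤ ‖u‖ * 1 := by
            gcongr
            exact A1_aeval_le F hu.le _
        _ < 1 := by rw [mul_one]; exact hu
    rw [hQ, map_mul, map_pow, aeval_X, norm_mul, norm_pow, h1, mul_one]

/-- the exponent depends only on `s` -/
theorem A1_exp (F : Type*) [Field F] [Fintype F] (K : Type*) [NormedField K]
    [IsUltrametricDist K] [CompleteSpace K] [Algebra F K] (s : ℕ) (hs : 1 ≤ s) :
    ∃ k, 1 ≤ k ∧ ∀ b : K, 1 < ‖b‖ → ‖A1_T F b s‖ = (‖b‖⁻¹) ^ k := by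
  have hq : 1 < Fintype.card F := Fintype.one_lt_card (α := F)
  obtain ⟨P, hP0, _, hP1, hP⟩ := A1_poly F K s
  have hPne : P ≠ 0 := by
    rintro rfl
    have := hP1 hs
    rw [coeff_zero] at this
    exact zero_ne_one this
  obtain ⟨k, hk, hk2⟩ := A1_aeval_eq F K P hPne hP0
  refine ⟨Fintype.card F * k, Nat.mul_pos (by omega) hk, fun b hb => ?_⟩
  have h1 : ‖(b - b ^ Fintype.card F)⁻¹‖ = (‖b‖⁻¹) ^ Fintype.card F := by
    have h2 := A1_norm_l F hb 1 le_rfl
    rw [pow_one] at h2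
    rw [norm_inv, h2, inv_pow]
  rw [hP b hb, hk2 _ (by
    rw [h1]
    exact pow_lt_one₀ (by positivity) (inv_lt_one_of_one_lt₀ hb) (by omega)), h1, ← pow_mul]

/-- the power sums as sums of translates -/
theorem A1_Ssum {K : Type*} [Field K] [Algebra F K] (θ : K) (n s : ℕ) :
    Ssum F θ (n + 1) s = ∑ c : Fin n → F, A1_T F (θ * mon F θ c) s := by
  unfold Ssum
  rw [← (Fin.consEquiv (fun _ : Fin (n + 1) => F)).sum_comp, Fintype.sum_prod_type_right]
  refine Finset.sum_congr rfl fun c _ => ?_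
  unfold A1_T
  refine Finset.sum_congr rfl fun a _ => ?_
  congr 2
  unfold mon
  rw [Fin.sum_univ_succ]
  simp only [Fin.consEquiv_apply, Fin.cons_zero, Fin.cons_succ, Fin.val_zero, pow_zero, mul_one,
    Fin.val_succ]
  rw [mul_add, Finset.mul_sum, pow_succ']
  have h1 : ∀ i : Fin n, algebraMap F K (c i) * θ ^ ((i : ℕ) + 1) =
      θ * (algebraMap F K (c i) * θ ^ (i : ℕ)) := by
    intro i
    rw [pow_succ']
    ring
  simp_rw [h1]
  ring

/-- the sizes of the power sums decrease after `n = 1` -/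
theorem Ssum_decr {θ : K} (hθ : 1 < ‖θ‖) (s : ℕ) (hs : 1 ≤ s) :
    Ssum F θ 1 s ≠ 0 ∧ ∀ n, 2 ≤ n → ‖Ssum F θ n s‖ < ‖Ssum F θ 1 s‖ := by
  obtain ⟨k, hk, hk2⟩ := A1_exp F K s hs
  have h0 : 0 < ‖θ‖ := zero_lt_one.trans hθ
  have h1 : ‖Ssum F θ 1 s‖ = (‖θ‖⁻¹) ^ k := by
    have h2 : Ssum F θ 1 s = A1_T F θ s := by
      rw [A1_Ssum θ 0 s, Fintype.sum_unique]
      congr 1
      unfold mon
      simp
    rw [h2, hk2 θ hθ]
  have hpos : 0 < (‖θ‖⁻¹) ^ k := by positivity
  refine ⟨?_, ?_⟩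
  · intro h2
    rw [h2, norm_zero] at h1
    linarith
  · intro n hn
    obtain ⟨m, rfl⟩ : ∃ m, n = m + 2 := ⟨n - 2, by omega⟩
    rw [h1, A1_Ssum θ (m + 1) s]
    refine A1_sum_lt _ _ _ hpos fun c _ => ?_
    have h3 : ‖θ * mon F θ c‖ = ‖θ‖ ^ (m + 2) := by
      rw [norm_mul, norm_mon hθ, ← pow_succ']
    have h4 : 1 < ‖θ * mon F θ c‖ := by
      rw [h3]
      exact one_lt_pow₀ hθ (by omega)
    rw [hk2 _ h4, h3, ← inv_pow, ← pow_mul]
    refine pow_lt_pow_right_of_lt_one₀ (by positivity) (inv_lt_one_of_one_lt₀ hθ) ?_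
    nlinarith

theorem norm_sig {θ : K} (hθ : 1 < ‖θ‖) (D s1 s2 : ℕ) (hD : 2 ≤ D) (h1 : 1 ≤ s1) (h2 : 1 ≤ s2) :
    ‖sig F θ D s1 s2‖ = ‖Ssum F θ 1 s1‖ ∧ sig F θ D s1 s2 ≠ 0 := by
  obtain ⟨hne, hdec⟩ := Ssum_decr (F := F) hθ s1 h1
  have hpos : 0 < ‖Ssum F θ 1 s1‖ := norm_pos_iff.2 hne
  have h3 : ‖sig F θ D s1 s2‖ = ‖Ssum F θ 1 s1‖ := by
    obtain ⟨E, rfl⟩ : ∃ E, D = E + 2 := ⟨D - 2, by omega⟩
    unfold sig
    rw [Finset.sum_range_succ', Finset.sum_range_succ']
    have h4 : Slt F θ 0 s2 = 0 := by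
      unfold Slt
      simp
    have h5 : Slt F θ (0 + 1) s2 = 1 := by
      unfold Slt
      rw [Finset.sum_range_succ, Finset.sum_range_zero, zero_add, Ssum_zero]
    rw [h4, h5, mul_zero, add_zero, mul_one, add_comm]
    refine A1_norm_add ?_
    refine A1_sum_lt _ _ _ hpos fun i _ => ?_
    rw [norm_mul, norm_Slt hθ _ s2 (by omega) h2, mul_one]
    exact hdec (i + 1 + 1) (by omega)
  refine ⟨h3, fun h0 => ?_⟩
  rw [h0, norm_zero] at h3
  linarith

theorem norm_ell {θ : K} (hθ : 1 < ‖θ‖) (hF : 2 ≤ Fintype.card F) (n : ℕ) :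
    ‖ell F θ (n + 1)‖ = ‖ell F θ n‖ * ‖θ‖ ^ (Fintype.card F ^ (n + 1)) ∧ ell F θ n ≠ 0 := by
  constructor
  · unfold ell
    rw [Finset.prod_range_succ, norm_mul, A1_norm_l F hθ (n + 1) (by omega)]
  · unfold ell
    rw [Finset.prod_ne_zero_iff]
    intro j _ h0
    have h1 := A1_norm_l F hθ (j + 1) (by omega)
    rw [h0, norm_zero] at h1
    have h2 : 0 < ‖θ‖ ^ (Fintype.card F ^ (j + 1)) := pow_pos (zero_lt_one.trans hθ) _
    linarith

end Pool.Agent.MP33dd76
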