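import Mathlib
import Pool.Agent.Lib.MP_33dd76_nt.A15Size

set_option autoImplicit false

open Polynomial

namespace Pool.Agent.MP33dd76

/-! # Module A16: the multizeta value as an iterated sum -/

section A16poly

variable {F : Type*} [Field F]

/-- the monic polynomial with given lower coefficients -/
private noncomputable def A16_P {n : ℕ} (c : Fin n → F) : F[X] :=
  X ^ n + ∑ i : Fin n, C (c i) * X ^ (i : ℕ)

private theorem A16_low {n : ℕ} (c : Fin n → F) :
    (∑ i : Fin n, C (c i) * X ^ (i : ℕ) : F[X]).degree < n := by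
  exact degree_sum_fin_lt c

private theorem A16_monic {n : ℕ} (c : Fin n → F) : (A16_P c).Monic := by
  unfold A16_P
  exact monic_X_pow_add (A16_low c)

private theorem A16_deg {n : ℕ} (c : Fin n → F) : (A16_P c).natDegree = n := by
  have h : (A16_P c).degree = n := by
    unfold A16_P
    rw [degree_add_eq_left_of_degree_lt, degree_X_pow]
    rw [degree_X_pow]
    exact A16_low c
  exact natDegree_eq_of_degree_eq_some h

private theorem A16_coeff {n : ℕ} (c : Fin n → F) (j : Fin n) : (A16_P c).coeff j = c j := by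
  unfold A16_P
  rw [coeff_add, coeff_X_pow, if_neg (by have := j.2; omega), zero_add, finsetSum_coeff]
  rw [Finset.sum_eq_single j]
  · rw [coeff_C_mul, coeff_X_pow, if_pos rfl, mul_one]
  · intro i _ hij
    rw [coeff_C_mul, coeff_X_pow, if_neg, mul_zero]
    intro h
    exact hij (Fin.ext h.symm)
  · intro h
    exact absurd (Finset.mem_univ j) h

private theorem A16_inj {n m : ℕ} (c : Fin n → F) (d : Fin m → F) (h : A16_P c = A16_P d) :
    (⟨n, c⟩ : Σ n, (Fin n → F)) = ⟨m, d⟩ := by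
  have h1 : n = m := by rw [← A16_deg c, h, A16_deg d]
  subst h1
  have h2 : c = d := by
    funext j
    rw [← A16_coeff c j, h, A16_coeff d j]
  rw [h2]

private theorem A16_surj (a : F[X]) (ha : a.Monic) {n : ℕ} (hn : a.natDegree = n) :
    A16_P (fun i : Fin n => a.coeff i) = a := by
  subst hn
  ext k
  rcases lt_trichotomy k a.natDegree with h | h | h
  · exact A16_coeff (fun i : Fin a.natDegree => a.coeff i) ⟨k, h⟩
  · subst h
    have e1 := A16_monic (fun i : Fin a.natDegree => a.coeff i)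
    rw [Monic, leadingCoeff, A16_deg] at e1
    rw [e1]
    exact ha.symm
  · rw [coeff_eq_zero_of_natDegree_lt h, coeff_eq_zero_of_natDegree_lt]
    rw [A16_deg]
    exact h

private theorem A16_aeval {K : Type*} [Field K] [Algebra F K] (θ : K) {n : ℕ} (c : Fin n → F) :
    aeval θ (A16_P c) = mon F θ c := by
  unfold A16_P mon
  rw [map_add, map_pow, aeval_X, map_sum]
  congr 1
  refine Finset.sum_congr rfl fun i _ => ?_
  rw [map_mul, aeval_C, map_pow, aeval_X]

/-- the pair of monic polynomials -/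
private noncomputable def A16_pair {n m : ℕ} (h : m < n) (c : Fin n → F) (d : Fin m → F) :
    MPair F :=
  ⟨(A16_P c, A16_P d), A16_monic c, A16_monic d, by rw [A16_deg, A16_deg]; exact h⟩

/-- the index type sorted by the first degree -/
private abbrev A16_T1 (F : Type*) : Type _ :=
  Σ i : ℕ, Σ j : Fin i, (Fin i → F) × (Fin j.1 → F)

/-- the index type sorted by the second degree -/
private abbrev A16_T2 (F : Type*) : Type _ :=
  Σ d : ℕ, Σ i : ℕ, (Fin (d + 1 + i) → F) × (Fin d → F)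

private noncomputable def A16_f1 (x : A16_T1 F) : MPair F :=
  A16_pair x.2.1.2 x.2.2.1 x.2.2.2

private noncomputable def A16_f2 (x : A16_T2 F) : MPair F :=
  A16_pair (by omega) x.2.2.1 x.2.2.2

private theorem A16_bij1 : Function.Bijective (A16_f1 (F := F)) := by
  constructor
  · rintro ⟨i, ⟨j, hj⟩, c, d⟩ ⟨i', ⟨j', hj'⟩, c', d'⟩ h
    have h1 : A16_P c = A16_P c' := congrArg (fun x : MPair F => x.1.1) h
    have h2 : A16_P d = A16_P d' := congrArg (fun x : MPair F => x.1.2) h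
    have e1 := A16_inj _ _ h1
    have e2 := A16_inj _ _ h2
    simp only [Sigma.mk.injEq] at e1 e2
    obtain ⟨e3, e4⟩ := e1
    obtain ⟨e5, e6⟩ := e2
    subst e3
    subst e5
    cases e4
    cases e6
    rfl
  · rintro ⟨⟨a, b⟩, ha, hb, hab⟩
    refine ⟨⟨a.natDegree, ⟨b.natDegree, hab⟩, fun i => a.coeff i, fun i => b.coeff i⟩, ?_⟩
    apply Subtype.ext
    exact Prod.ext (A16_surj a ha rfl) (A16_surj b hb rfl)

private theorem A16_bij2 : Function.Bijective (A16_f2 (F := F)) := by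
  constructor
  · rintro ⟨d, i, c, e⟩ ⟨d', i', c', e'⟩ h
    have h1 : A16_P c = A16_P c' := congrArg (fun x : MPair F => x.1.1) h
    have h2 : A16_P e = A16_P e' := congrArg (fun x : MPair F => x.1.2) h
    have e1 := A16_inj _ _ h1
    have e2 := A16_inj _ _ h2
    simp only [Sigma.mk.injEq] at e1 e2
    obtain ⟨e3, e4⟩ := e1
    obtain ⟨e5, e6⟩ := e2
    subst e5
    have e7 : i = i' := by omega
    subst e7
    cases e4
    cases e6
    rfl
  · rintro ⟨⟨a, b⟩, ha, hb, hab⟩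
    have hab' : b.natDegree < a.natDegree := hab
    have hd : a.natDegree = b.natDegree + 1 + (a.natDegree - (b.natDegree + 1)) := by omega
    refine ⟨⟨b.natDegree, a.natDegree - (b.natDegree + 1), fun i => a.coeff i,
      fun i => b.coeff i⟩, ?_⟩
    apply Subtype.ext
    exact Prod.ext (A16_surj a ha hd) (A16_surj b hb rfl)

end A16poly

variable {F : Type*} [Field F] [Fintype F] {K : Type*} [NormedField K] [IsUltrametricDist K]
  [CompleteSpace K] [Algebra F K]

private theorem A16_norm {θ : K} (hθ : 1 < ‖θ‖) {a : F[X]} (ha : a.Monic) :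
    ‖aeval θ a‖ = ‖θ‖ ^ a.natDegree := by
  rw [← A16_surj a ha rfl, A16_aeval, norm_mon hθ, A16_deg]

private theorem A16_fin (N : ℕ) : {x : MPair F | x.1.1.natDegree < N}.Finite := by
  classical
  refine Set.Finite.of_injOn (f := fun x : MPair F => ((fun i : Fin N => x.1.1.coeff i),
    (fun i : Fin N => x.1.2.coeff i))) (t := Set.univ) (fun _ _ => Set.mem_univ _) ?_
    Set.finite_univ
  rintro ⟨⟨a, b⟩, ha, hb, hab⟩ hx ⟨⟨a', b'⟩, ha', hb', hab'⟩ hy h
  have hx' : a.natDegree < N := hx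
  have hy' : a'.natDegree < N := hy
  have hab1 : b.natDegree < a.natDegree := hab
  have hab2 : b'.natDegree < a'.natDegree := hab'
  have h1 : (fun i : Fin N => a.coeff i) = fun i : Fin N => a'.coeff i :=
    congrArg Prod.fst h
  have h2 : (fun i : Fin N => b.coeff i) = fun i : Fin N => b'.coeff i :=
    congrArg Prod.snd h
  have h3 : a = a' := by
    ext k
    by_cases hk : k < N
    · exact congrFun h1 ⟨k, hk⟩
    · rw [coeff_eq_zero_of_natDegree_lt (by omega), coeff_eq_zero_of_natDegree_lt (by omega)]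
  have h4 : b = b' := by
    ext k
    by_cases hk : k < N
    · exact congrFun h2 ⟨k, hk⟩
    · rw [coeff_eq_zero_of_natDegree_lt (by omega), coeff_eq_zero_of_natDegree_lt (by omega)]
  apply Subtype.ext
  exact Prod.ext h3 h4

theorem summable_mzv {θ : K} (hθ : 1 < ‖θ‖) (s1 s2 : ℕ) (h1 : 1 ≤ s1) (h2 : 1 ≤ s2) :
    Summable fun x : MPair F => (aeval θ x.1.1 ^ s1 * aeval θ x.1.2 ^ s2)⁻¹ := by
  have h0 : (0 : ℝ) ≤ ‖θ‖⁻¹ := by positivity
  have hlt : ‖θ‖⁻¹ < 1 := inv_lt_one_of_one_lt₀ hθ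
  refine NonarchimedeanAddGroup.summable_of_tendsto_cofinite_zero ?_
  rw [Metric.tendsto_nhds]
  intro ε hε
  obtain ⟨N, hN⟩ := exists_pow_lt_of_lt_one hε hlt
  rw [Filter.eventually_cofinite]
  refine (A16_fin N).subset ?_
  intro x hx
  rw [Set.mem_ofPred_eq] at hx ⊢
  by_contra hc
  rw [not_lt] at hc
  apply hx
  rw [dist_zero_right, norm_inv, norm_mul, norm_pow, norm_pow, A16_norm hθ x.2.1,
    A16_norm hθ x.2.2.1, ← pow_mul, ← pow_mul, ← pow_add, ← inv_pow]
  refine lt_of_le_of_lt ?_ hN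
  refine pow_le_pow_of_le_one h0 hlt.le ?_
  calc N ≤ x.1.1.natDegree * 1 := by omega
    _ ≤ x.1.1.natDegree * s1 := Nat.mul_le_mul_left _ h1
    _ ≤ _ := Nat.le_add_right _ _

private theorem A16_hasSum {θ : K} (hθ : 1 < ‖θ‖) (s1 s2 : ℕ) (h1 : 1 ≤ s1) (h2 : 1 ≤ s2) :
    HasSum (fun x : MPair F => (aeval θ x.1.1 ^ s1 * aeval θ x.1.2 ^ s2)⁻¹) (mzv F θ s1 s2) :=
  (summable_mzv hθ s1 s2 h1 h2).hasSum

theorem mzv_tendsto {θ : K} (hθ : 1 < ‖θ‖) (s1 s2 : ℕ) (h1 : 1 ≤ s1) (h2 : 1 ≤ s2) :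
    Filter.Tendsto (fun D => sig F θ D s1 s2) Filter.atTop (nhds (mzv F θ s1 s2)) := by
  have e1 : HasSum (fun x : A16_T1 F => (mon F θ x.2.2.1 ^ s1 * mon F θ x.2.2.2 ^ s2)⁻¹)
      (mzv F θ s1 s2) := by
    have e2 := (Equiv.hasSum_iff (Equiv.ofBijective _ (A16_bij1 (F := F)))).2
      (A16_hasSum (F := F) hθ s1 s2 h1 h2)
    have e3 : (fun x : A16_T1 F => (mon F θ x.2.2.1 ^ s1 * mon F θ x.2.2.2 ^ s2)⁻¹) =
        (fun x : MPair F => (aeval θ x.1.1 ^ s1 * aeval θ x.1.2 ^ s2)⁻¹) ∘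
          (Equiv.ofBijective _ (A16_bij1 (F := F))) := by
      funext x
      rw [Function.comp_apply, Equiv.ofBijective_apply]
      unfold A16_f1 A16_pair
      simp only [A16_aeval]
    rw [e3]
    exact e2
  have e4 : HasSum (fun i : ℕ => Ssum F θ i s1 * Slt F θ i s2) (mzv F θ s1 s2) := by
    refine e1.sigma fun i => ?_
    have e5 := hasSum_fintype (fun z : (Σ j : Fin i, (Fin i → F) × (Fin j.1 → F)) =>
      (mon F θ z.2.1 ^ s1 * mon F θ z.2.2 ^ s2)⁻¹)
    convert e5 using 1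
    rw [Fintype.sum_sigma]
    unfold Slt
    rw [Finset.mul_sum, Finset.sum_range]
    refine Finset.sum_congr rfl fun j _ => ?_
    rw [Fintype.sum_prod_type]
    unfold Ssum
    rw [Finset.sum_mul_sum]
    refine Finset.sum_congr rfl fun c _ => Finset.sum_congr rfl fun d _ => ?_
    rw [mul_inv]
  exact e4.tendsto_sum_nat

theorem mzv_iter {θ : K} (hθ : 1 < ‖θ‖) (s1 s2 : ℕ) (h1 : 1 ≤ s1) (h2 : 1 ≤ s2) (T : ℕ → K)
    (hT : ∀ d, HasSum (fun i => Ssum F θ (d + 1 + i) s1) (T d)) :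
    HasSum (fun d => Ssum F θ d s2 * T d) (mzv F θ s1 s2) := by
  have e1 : HasSum (fun x : A16_T2 F => (mon F θ x.2.2.1 ^ s1 * mon F θ x.2.2.2 ^ s2)⁻¹)
      (mzv F θ s1 s2) := by
    have e2 := (Equiv.hasSum_iff (Equiv.ofBijective _ (A16_bij2 (F := F)))).2
      (A16_hasSum (F := F) hθ s1 s2 h1 h2)
    have e3 : (fun x : A16_T2 F => (mon F θ x.2.2.1 ^ s1 * mon F θ x.2.2.2 ^ s2)⁻¹) =
        (fun x : MPair F => (aeval θ x.1.1 ^ s1 * aeval θ x.1.2 ^ s2)⁻¹) ∘
          (Equiv.ofBijective _ (A16_bij2 (F := F))) := by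
      funext x
      rw [Function.comp_apply, Equiv.ofBijective_apply]
      unfold A16_f2 A16_pair
      simp only [A16_aeval]
    rw [e3]
    exact e2
  refine e1.sigma fun d => ?_
  obtain ⟨S, hS⟩ : Summable (fun z : (Σ i : ℕ, (Fin (d + 1 + i) → F) × (Fin d → F)) =>
      (mon F θ z.2.1 ^ s1 * mon F θ z.2.2 ^ s2)⁻¹) := e1.summable.sigma_factor d
  have e4 : HasSum (fun i : ℕ => Ssum F θ (d + 1 + i) s1 * Ssum F θ d s2) S := by
    refine hS.sigma fun i => ?_
    have e5 := hasSum_fintype (fun z : ((Fin (d + 1 + i) → F) × (Fin d → F)) =>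
      (mon F θ z.1 ^ s1 * mon F θ z.2 ^ s2)⁻¹)
    convert e5 using 1
    rw [Fintype.sum_prod_type]
    unfold Ssum
    rw [Finset.sum_mul_sum]
    refine Finset.sum_congr rfl fun c _ => Finset.sum_congr rfl fun d _ => ?_
    rw [mul_inv]
  have e6 := (hT d).mul_right (Ssum F θ d s2)
  have e7 := e4.unique e6
  rw [mul_comm, ← e7]
  exact hS

theorem zeta_ne {θ : K} (hθ : 1 < ‖θ‖) (s : ℕ) (hs : 1 ≤ s) (Z : K)
    (hZ : HasSum (fun i => Ssum F θ i s) Z) : Z ≠ 0 := by
  have h1 := hZ.tendsto_sum_nat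
  have h2 : Filter.Tendsto (fun n => ‖∑ i ∈ Finset.range n, Ssum F θ i s‖) Filter.atTop
      (nhds ‖Z‖) := h1.norm
  have h3 : Filter.Tendsto (fun n => ‖∑ i ∈ Finset.range n, Ssum F θ i s‖) Filter.atTop
      (nhds (1 : ℝ)) := by
    refine tendsto_const_nhds.congr' ?_
    filter_upwards [Filter.eventually_ge_atTop 1] with n hn
    exact (norm_Slt hθ n s hn hs).symm
  have h4 := tendsto_nhds_unique h2 h3
  intro h
  rw [h, norm_zero] at h4
  exact zero_ne_one h4

end Pool.Agent.MP33dd76
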