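import Mathlib
import Pool.Agent.Lib.MP_33dd76_nt.A11Omega
import Pool.Agent.Lib.MP_33dd76_nt.A12Sol
import Pool.Agent.Lib.MP_33dd76_nt.A14Pow
import Pool.Agent.Lib.MP_33dd76_nt.A16Mzv

set_option autoImplicit false
set_option linter.unusedSectionVars false

open Polynomial

namespace Pool.Agent.MP33dd76

/-! # Module A17: construction of the system -/

variable {F : Type*} [Field F] [Fintype F] {K : Type*} [NormedField K] [IsUltrametricDist K]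
  [CompleteSpace K] [Algebra F K]

/-- the embedding `F(t) → K`, `t ↦ θ`, exists -/
theorem exists_emb {θ : K} (hθ : 1 < ‖θ‖) :
    ∃ j : RatFunc F →+* K, (∀ P : F[X], j (algebraMap F[X] (RatFunc F) P) = aeval θ P) := by
  have hinj : Function.Injective ((aeval θ : F[X] →ₐ[F] K) : F[X] →+* K) := by
    rw [injective_iff_map_eq_zero]
    intro P hP
    by_contra hne
    exact aeval_ne_zero hθ P hne hP
  exact ⟨IsFractionRing.lift hinj, fun P => IsFractionRing.lift_algebraMap hinj P⟩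

/-- `tt - X^q`, i.e. `t - θ^q` -/
noncomputable def TT (F : Type*) [Field F] [Fintype F] : A2 F := tt F - X ^ Fintype.card F

private theorem A17_TD (H : A2 F) : ∃ n, TD n H := by
  refine ⟨H.support.sup fun k => (H.coeff k).natDegree, fun k => ?_⟩
  by_cases hk : k ∈ H.support
  · exact Finset.le_sup (f := fun k => (H.coeff k).natDegree) hk
  · rw [notMem_support_iff.1 hk, natDegree_zero]
    exact Nat.zero_le _

private theorem A17_j_alg {θ : K} {j : RatFunc F →+* K}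
    (hj : ∀ P : F[X], j (algebraMap F[X] (RatFunc F) P) = aeval θ P) (a : F) :
    j (algebraMap F (RatFunc F) a) = algebraMap F K a := by
  have h1 : algebraMap F (RatFunc F) a = algebraMap F[X] (RatFunc F) (C a) := by
    rw [← Polynomial.algebraMap_eq]
    exact IsScalarTower.algebraMap_apply F F[X] (RatFunc F) a
  rw [h1, hj, aeval_C]

private theorem A17_j_X {θ : K} {j : RatFunc F →+* K}
    (hj : ∀ P : F[X], j (algebraMap F[X] (RatFunc F) P) = aeval θ P) :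
    j RatFunc.X = θ := by
  rw [← RatFunc.algebraMap_X, hj, aeval_X]

private theorem A17_j_ell {θ : K} {j : RatFunc F →+* K}
    (hj : ∀ P : F[X], j (algebraMap F[X] (RatFunc F) P) = aeval θ P) (n : ℕ) :
    j (ell F RatFunc.X n) = ell F θ n := by
  unfold ell
  rw [map_prod]
  refine Finset.prod_congr rfl fun i _ => ?_
  rw [map_sub, map_pow, A17_j_X hj]

private theorem A17_j_Ssum {θ : K} {j : RatFunc F →+* K}
    (hj : ∀ P : F[X], j (algebraMap F[X] (RatFunc F) P) = aeval θ P) (n s : ℕ) :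
    j (Ssum F RatFunc.X n s) = Ssum F θ n s := by
  unfold Ssum mon
  rw [map_sum]
  refine Finset.sum_congr rfl fun c _ => ?_
  rw [map_inv₀, map_pow, map_add, map_pow, map_sum, A17_j_X hj]
  congr 3
  refine Finset.sum_congr rfl fun i _ => ?_
  rw [map_mul, map_pow, A17_j_X hj, A17_j_alg hj]

private theorem A17_transc : Transcendental F (RatFunc.X : RatFunc F) := by
  rw [transcendental_iff_injective, injective_iff_map_eq_zero]
  intro P hP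
  have h1 : aeval (RatFunc.X : RatFunc F) P = algebraMap F[X] (RatFunc F) P := by
    rw [← RatFunc.algebraMap_X, aeval_algebraMap_apply, aeval_X_left_apply]
  rw [h1] at hP
  exact (map_eq_zero_iff _ (IsFractionRing.injective F[X] (RatFunc F))).1 hP

private theorem A17_val {θ : K} (hθ : 1 < ‖θ‖) (s k : ℕ) (hs : 1 ≤ s) (g : F[X]) (Q : A2 F)
    (hQ : Q.map (algebraMap F[X] (RatFunc F)) =
      C (algebraMap F[X] (RatFunc F) g) * hy F RatFunc.X (s - 1)) :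
    val F (θ ^ (Fintype.card F ^ (k + 1))) θ Q =
      aeval θ g * (ell F θ k ^ s * Ssum F θ k s) := by
  obtain ⟨j, hj⟩ := exists_emb (F := F) hθ
  have h1 : val F (θ ^ (Fintype.card F ^ (k + 1))) θ Q =
      Q.eval₂ (j.comp (algebraMap F[X] (RatFunc F))) (θ ^ (Fintype.card F ^ (k + 1))) := by
    have h2 : ((aeval θ : F[X] →ₐ[F] K) : F[X] →+* K) =
        j.comp (algebraMap F[X] (RatFunc F)) :=
      RingHom.ext fun P => (hj P).symm
    show Q.eval₂ ((aeval θ : F[X] →ₐ[F] K) : F[X] →+* K) _ = _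
    rw [h2]
  have h3 : θ ^ (Fintype.card F ^ (k + 1)) =
      j (RatFunc.X ^ (Fintype.card F ^ (k + 1))) := by
    rw [map_pow, A17_j_X hj]
  rw [h1, ← eval₂_map, hQ, eval₂_mul, eval₂_C, hj, h3, eval₂_at_apply,
    pow_sum _ A17_transc k s hs, map_mul, map_pow, A17_j_ell hj, A17_j_Ssum hj]

private theorem A17_TT_val (θ : K) (k : ℕ) : val F θ θ (tA F k (TT F)) =
    θ - θ ^ (Fintype.card F ^ (k + 1)) := by
  rw [val_tA]
  unfold TT tt val
  rw [map_sub, map_pow]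
  simp only [coe_eval₂RingHom, eval₂_C, eval₂_X]
  rw [← pow_mul, pow_succ]
  simp

/-- the values of the twists of Omega -/
private theorem A17_Omega_val {θ ϖ : K} {Ω : PowerSeries K} (hE : Ent Ω)
    (hΩ : Ω = iota F θ (TT F) * tw F 1 Ω) (h0 : ev θ Ω = ϖ⁻¹) (k : ℕ) :
    ev θ (tw F k Ω) * ell F θ k = ϖ⁻¹ := by
  induction k with
  | zero =>
    rw [tw_zero, h0]
    simp [ell]
  | succ k ih =>
    have h1 : ev θ (tw F k Ω) = (θ - θ ^ (Fintype.card F ^ (k + 1))) * ev θ (tw F (k + 1) Ω) := by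
      conv_lhs => rw [hΩ]
      rw [map_mul, tw_iota, tw_tw, ev_mul θ (Ent.iota θ _) (hE.tw _), ev_iota, A17_TT_val]
    have h2 : ell F θ (k + 1) = ell F θ k * (θ - θ ^ (Fintype.card F ^ (k + 1))) := by
      unfold ell
      rw [Finset.prod_range_succ]
    rw [h2, ← ih, h1]
    ring

/-- a radius larger than `1` -/
private theorem A17_radius {a b M : ℝ} (ha : a < 1) (hb : b < 1) (hM : 1 < M) (m n : ℕ) :
    ∃ R : ℝ, 1 < R ∧ R ≤ M ∧ a * R ^ m < 1 ∧ b * R ^ n < 1 := by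
  have h1 : ∀ᶠ R : ℝ in nhdsWithin 1 (Set.Ioi 1), a * R ^ m < 1 := by
    have hc : Continuous fun R : ℝ => a * R ^ m := by fun_prop
    have h2 : Filter.Tendsto (fun R : ℝ => a * R ^ m) (nhds 1) (nhds a) := by
      have := hc.tendsto 1
      simpa using this
    exact (h2.eventually_lt_const ha).filter_mono nhdsWithin_le_nhds
  have h2 : ∀ᶠ R : ℝ in nhdsWithin 1 (Set.Ioi 1), b * R ^ n < 1 := by
    have hc : Continuous fun R : ℝ => b * R ^ n := by fun_prop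
    have h2 : Filter.Tendsto (fun R : ℝ => b * R ^ n) (nhds 1) (nhds b) := by
      have := hc.tendsto 1
      simpa using this
    exact (h2.eventually_lt_const hb).filter_mono nhdsWithin_le_nhds
  have h3 : ∀ᶠ R : ℝ in nhdsWithin 1 (Set.Ioi 1), R < M :=
    (eventually_lt_nhds hM).filter_mono nhdsWithin_le_nhds
  have h4 : ∀ᶠ R : ℝ in nhdsWithin 1 (Set.Ioi 1), 1 < R := eventually_mem_nhdsWithin
  obtain ⟨R, hR⟩ := (h1.and (h2.and (h3.and h4))).exists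
  exact ⟨R, hR.2.2.2, hR.2.2.1.le, hR.1, hR.2.1⟩

/-- the size of the factor -/
private theorem A17_size {θ : K} (hθ : 1 < ‖θ‖) {c : ℝ} {q s e : ℕ} (hq : 2 < q)
    (hs : 1 ≤ s) (hcq : c ^ (q - 1) = (‖θ‖⁻¹) ^ q) (he : (q - 1) * e ≤ s - 1) :
    c ^ s * ‖θ‖ ^ (q * e) < 1 := by
  have hθ0 : 0 < ‖θ‖ := by linarith
  have h1 : (c ^ s * ‖θ‖ ^ (q * e)) ^ (q - 1) < 1 := by
    have h2 : (c ^ s * ‖θ‖ ^ (q * e)) ^ (q - 1) =
        (‖θ‖⁻¹) ^ (q * s) * ‖θ‖ ^ (q * ((q - 1) * e)) := by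
      rw [mul_pow, ← pow_mul, mul_comm s (q - 1), pow_mul, hcq, ← pow_mul, ← pow_mul]
      congr 2
      ring
    rw [h2, inv_pow, inv_mul_lt_iff₀ (pow_pos hθ0 _), mul_one]
    refine pow_lt_pow_right₀ hθ ?_
    exact Nat.mul_lt_mul_of_pos_left (by omega) (by omega)
  by_contra hge
  push Not at hge
  exact absurd (one_le_pow₀ (n := q - 1) hge) (by linarith)

private theorem A17_deg (s : ℕ) (g : F[X]) (hg : g ≠ 0) (Q : A2 F)
    (hQ : Q.map (algebraMap F[X] (RatFunc F)) =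
      C (algebraMap F[X] (RatFunc F) g) * hy F RatFunc.X (s - 1)) :
    (Fintype.card F - 1) * Q.natDegree ≤ s - 1 := by
  have hinj := IsFractionRing.injective F[X] (RatFunc F)
  have h1 : Q.natDegree = (hy F (RatFunc.X : RatFunc F) (s - 1)).natDegree := by
    rw [← natDegree_map_eq_of_injective hinj Q, hQ,
      natDegree_C_mul ((map_ne_zero_iff _ hinj).2 hg)]
  rw [h1]
  exact hy_deg _ _

theorem exists_psi {θ ϖ : K} (hθ : 1 < ‖θ‖) (hF : 2 < Fintype.card F) (hϖ : IsPeriod F θ ϖ)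
    (s1 s2 : ℕ) (h1 : 1 ≤ s1) (h2 : 1 ≤ s2) (g1 g2 : F[X]) (hg1 : g1 ≠ 0) (hg2 : g2 ≠ 0)
    (Q1 Q2 : A2 F)
    (hQ1 : Q1.map (algebraMap F[X] (RatFunc F)) =
      C (algebraMap F[X] (RatFunc F) g1) * hy F RatFunc.X (s1 - 1))
    (hQ2 : Q2.map (algebraMap F[X] (RatFunc F)) =
      C (algebraMap F[X] (RatFunc F) g2) * hy F RatFunc.X (s2 - 1))
    (n d : F[X]) (hd : d ≠ 0) (hz : aeval θ d * mzv F θ s1 s2 = aeval θ n * ϖ ^ (s1 + s2)) :
    ∃ ψ : Fin 3 → PowerSeries K, (∀ i, Ent (ψ i)) ∧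
      ψ 0 = iota F θ (TT F ^ (s1 + s2)) * tw F 1 (ψ 0) ∧
      ψ 1 = iota F θ (tA F 1 Q1 * TT F ^ (s1 + s2)) * tw F 1 (ψ 0) +
        iota F θ (TT F ^ s2) * tw F 1 (ψ 1) ∧
      ψ 2 = iota F θ (tA F 1 (C d * Q2) * TT F ^ s2) * tw F 1 (ψ 1) + tw F 1 (ψ 2) ∧
      ev θ (ψ 2) = 0 ∧ ψ 0 ≠ 0 ∧ ev θ (ψ 1) ≠ 0 := by
  obtain ⟨Ω, hE, hΩ, hΩ0, hϖ0, hev, c, hc, hcq, hB⟩ := exists_Omega hθ hF hϖ
  change Ω = iota F θ (TT F) * tw F 1 Ω at hΩ
  have hθ0 : 0 < ‖θ‖ := by linarith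
  set q := Fintype.card F with hq
  obtain ⟨n1, hn1⟩ := A17_TD (tA F 1 Q1)
  obtain ⟨n2, hn2⟩ := A17_TD (tA F 1 (C d * Q2))
  -- sizes
  have hd1 : (tA F 1 Q1).natDegree ≤ q * Q1.natDegree := by
    show (expand F[X] (q ^ 1) Q1).natDegree ≤ _
    rw [natDegree_expand, pow_one, mul_comm]
  have hd2 : (tA F 1 (C d * Q2)).natDegree ≤ q * Q2.natDegree := by
    show (expand F[X] (q ^ 1) (C d * Q2)).natDegree ≤ _
    rw [natDegree_expand, pow_one, mul_comm]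
    exact Nat.mul_le_mul_left q (natDegree_C_mul_le _ _)
  have ha1 : c ^ s1 * ‖θ‖ ^ (q * Q1.natDegree) < 1 :=
    A17_size hθ hF h1 hcq (A17_deg s1 g1 hg1 Q1 hQ1)
  have ha2 : c ^ s2 * ‖θ‖ ^ (q * Q2.natDegree) < 1 :=
    A17_size hθ hF h2 hcq (A17_deg s2 g2 hg2 Q2 hQ2)
  obtain ⟨R, hR1, hRM, hRa, hRb⟩ := A17_radius ha1 ha2
    (one_lt_pow₀ hθ (n := q) (by omega)) n1 n2
  have hR0 : 0 ≤ R := by linarith
  have hBR : Bd Ω R c := hB.radius hR0 hRM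
  have hBp : ∀ s : ℕ, Bd (Ω ^ s) R (c ^ s) := by
    intro s
    induction s with
    | zero =>
      rw [pow_zero, pow_zero]
      intro k
      rw [PowerSeries.coeff_one]
      by_cases hk : k = 0
      · simp [hk]
      · simp [hk]
    | succ s ih =>
      rw [pow_succ, pow_succ]
      exact ih.mul hR0 hBR
  -- the first function
  set G1 : PowerSeries K := Ω ^ s1 * iota F θ (tA F 1 Q1) with hG1
  have hEG1 : Ent G1 := (hE.pow s1).mul (Ent.iota θ _)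
  have hBG1 : Bd G1 R (c ^ s1 * ‖θ‖ ^ (q * Q1.natDegree) * R ^ n1) := by
    rw [mul_assoc]
    exact (hBp s1).mul hR0 (Bd_iota hθ hR1.le _ _ _ hd1 hn1)
  obtain ⟨Z, hEZ, hZ, hBZ, hvZ⟩ :=
    exists_sol hθ G1 hEG1 hR1 hRa hBG1 (by omega : 2 ≤ Fintype.card F)
  -- the second function
  set G2 : PowerSeries K := Ω ^ s2 * iota F θ (tA F 1 (C d * Q2)) * tw F 1 Z with hG2
  have hEG2 : Ent G2 := ((hE.pow s2).mul (Ent.iota θ _)).mul (hEZ.tw 1)
  have hBtZ : Bd (tw F 1 Z) R 1 := by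
    have h3 := (hBZ.tw (F := F) 1 hR0).radius hR0 (by
      rw [pow_one]
      exact le_self_pow₀ hR1.le (by omega))
    refine h3.mono ?_
    exact pow_le_one₀ hBZ.nonneg hRa.le
  have hBG2 : Bd G2 R (c ^ s2 * ‖θ‖ ^ (q * Q2.natDegree) * R ^ n2) := by
    have h3 := ((hBp s2).mul hR0 (Bd_iota hθ hR1.le _ _ _ hd2 hn2)).mul hR0 hBtZ
    rw [mul_one, ← mul_assoc] at h3
    exact h3
  obtain ⟨W, hEW, hW, _, hvW⟩ :=
    exists_sol hθ G2 hEG2 hR1 hRb hBG2 (by omega : 2 ≤ Fintype.card F)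
  -- values
  have hw : ∀ k, ev θ (tw F k Ω) * ell F θ k = ϖ⁻¹ := A17_Omega_val hE hΩ hev
  have hg1' : aeval θ g1 ≠ 0 := aeval_ne_zero hθ g1 hg1
  have hg2' : aeval θ g2 ≠ 0 := aeval_ne_zero hθ g2 hg2
  have hd' : aeval θ d ≠ 0 := aeval_ne_zero hθ d hd
  have hy : ∀ k, (θ ^ q ^ k) ^ q ^ 1 = θ ^ q ^ (k + 1) := by
    intro k
    rw [← pow_mul, ← pow_add]
  have hvG1 : ∀ k, ev θ (tw F k G1) = (ϖ⁻¹ ^ s1 * aeval θ g1) * Ssum F θ k s1 := by
    intro k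
    rw [hG1, map_mul, map_pow, ev_mul θ ((hE.tw k).pow s1) ((Ent.iota θ _).tw k),
      ev_pow θ (hE.tw k), tw_iota, ev_iota, val_tA, val_tA, hy, A17_val hθ s1 k h1 g1 Q1 hQ1,
      ← hw k]
    ring
  have hT : ∀ k, HasSum (fun i => Ssum F θ (k + i) s1)
      (ev θ (tw F k Z) / (ϖ⁻¹ ^ s1 * aeval θ g1)) := by
    intro k
    have h3 := (hvZ k).div_const (ϖ⁻¹ ^ s1 * aeval θ g1)
    have hne : ϖ⁻¹ ^ s1 * aeval θ g1 ≠ 0 := mul_ne_zero (pow_ne_zero _ (inv_ne_zero hϖ0)) hg1'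
    convert h3 using 1
    funext i
    rw [hvG1, mul_div_assoc, mul_comm, div_mul_cancel₀ _ hne]
  have hvG2 : ∀ k, ev θ (tw F k G2) = (ϖ⁻¹ ^ s2 * (aeval θ d * aeval θ g2)) *
      (ϖ⁻¹ ^ s1 * aeval θ g1) *
        (Ssum F θ k s2 * (ev θ (tw F (k + 1) Z) / (ϖ⁻¹ ^ s1 * aeval θ g1))) := by
    intro k
    have hne : ϖ⁻¹ ^ s1 * aeval θ g1 ≠ 0 := mul_ne_zero (pow_ne_zero _ (inv_ne_zero hϖ0)) hg1'
    have h3 : val F (θ ^ q ^ (k + 1)) θ (C d * Q2) =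
        aeval θ d * (aeval θ g2 * (ell F θ k ^ s2 * Ssum F θ k s2)) := by
      rw [map_mul, A17_val hθ s2 k h2 g2 Q2 hQ2]
      congr 1
      show eval₂ ((aeval θ : F[X] →ₐ[F] K) : F[X] →+* K) _ (C d) = _
      rw [eval₂_C]
      rfl
    have h4 : ev θ (tw F k G2) = ev θ (tw F k Ω) ^ s2 *
        (aeval θ d * (aeval θ g2 * (ell F θ k ^ s2 * Ssum F θ k s2))) *
          ev θ (tw F (k + 1) Z) := by
      rw [hG2, map_mul, map_mul, map_pow, tw_tw,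
        ev_mul θ (((hE.tw k).pow s2).mul ((Ent.iota θ _).tw k)) (hEZ.tw _),
        ev_mul θ ((hE.tw k).pow s2) ((Ent.iota θ _).tw k), ev_pow θ (hE.tw k), tw_iota, ev_iota,
        val_tA, val_tA, hy, h3]
    rw [h4, ← hw k]
    have h5 : ev θ (tw F (k + 1) Z) = (ev θ (tw F (k + 1) Z) /
        ((ev θ (tw F k Ω) * ell F θ k) ^ s1 * aeval θ g1)) *
          ((ev θ (tw F k Ω) * ell F θ k) ^ s1 * aeval θ g1) := by
      rw [hw k, div_mul_cancel₀ _ hne]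
    conv_lhs => rw [h5]
    ring
  have hmz := mzv_iter hθ s1 s2 h1 h2 (fun k => ev θ (tw F (k + 1) Z) /
    (ϖ⁻¹ ^ s1 * aeval θ g1)) (fun k => hT (k + 1))
  have hWv : ev θ W = (ϖ⁻¹ ^ s2 * (aeval θ d * aeval θ g2)) * (ϖ⁻¹ ^ s1 * aeval θ g1) *
      mzv F θ s1 s2 := by
    have h3 := hvW 0
    rw [tw_zero] at h3
    have h6 := hmz.mul_left
      ((ϖ⁻¹ ^ s2 * (aeval θ d * aeval θ g2)) * (ϖ⁻¹ ^ s1 * aeval θ g1))
    have h7 : (fun k => (ϖ⁻¹ ^ s2 * (aeval θ d * aeval θ g2)) * (ϖ⁻¹ ^ s1 * aeval θ g1) *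
        (Ssum F θ k s2 * (ev θ (tw F (k + 1) Z) / (ϖ⁻¹ ^ s1 * aeval θ g1)))) =
        fun k => ev θ (tw F (0 + k) G2) := by
      funext k
      rw [zero_add, hvG2]
    rw [h7] at h6
    exact h3.unique h6
  have hWv' : ev θ W = aeval θ (g1 * g2 * n) := by
    have h3 : ϖ⁻¹ ^ (s1 + s2) * ϖ ^ (s1 + s2) = 1 := by
      rw [← mul_pow, inv_mul_cancel₀ hϖ0, one_pow]
    have h4 : ev θ W = ϖ⁻¹ ^ (s1 + s2) * (aeval θ g1 * aeval θ g2) *
        (aeval θ d * mzv F θ s1 s2) := by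
      rw [hWv, pow_add]
      ring
    rw [h4, hz, map_mul, map_mul]
    calc ϖ⁻¹ ^ (s1 + s2) * (aeval θ g1 * aeval θ g2) * (aeval θ n * ϖ ^ (s1 + s2))
        = (aeval θ g1 * aeval θ g2 * aeval θ n) * (ϖ⁻¹ ^ (s1 + s2) * ϖ ^ (s1 + s2)) := by ring
      _ = aeval θ g1 * aeval θ g2 * aeval θ n := by rw [h3, mul_one]
  -- the functions
  have hΩp : ∀ s : ℕ, Ω ^ s = iota F θ (TT F ^ s) * tw F 1 (Ω ^ s) := by
    intro s
    rw [map_pow, map_pow, ← mul_pow, ← hΩ]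
  set B : PowerSeries K := iota F θ (C (g1 * g2 * n)) with hBdef
  have hEB : Ent B := Ent.iota θ _
  have hBt : tw F 1 B = B := by
    rw [hBdef, tw_iota]
    congr 1
    exact expand_C _ _
  have hBv : ev θ B = aeval θ (g1 * g2 * n) := by
    rw [hBdef, ev_iota]
    show eval₂ ((aeval θ : F[X] →ₐ[F] K) : F[X] →+* K) _ (C (g1 * g2 * n)) = _
    rw [eval₂_C]
    rfl
  refine ⟨![Ω ^ (s1 + s2), Ω ^ s2 * Z, W - B], ?_, ?_, ?_, ?_, ?_, ?_, ?_⟩
  · intro i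
    fin_cases i
    · exact hE.pow _
    · exact (hE.pow _).mul hEZ
    · exact hEW.sub hEB
  · exact hΩp _
  · show Ω ^ s2 * Z = iota F θ (tA F 1 Q1 * TT F ^ (s1 + s2)) * tw F 1 (Ω ^ (s1 + s2)) +
      iota F θ (TT F ^ s2) * tw F 1 (Ω ^ s2 * Z)
    have h3 : iota F θ (tA F 1 Q1 * TT F ^ (s1 + s2)) * tw F 1 (Ω ^ (s1 + s2)) =
        iota F θ (tA F 1 Q1) * Ω ^ (s1 + s2) := by
      rw [map_mul, mul_assoc, ← hΩp]
    have h4 : iota F θ (TT F ^ s2) * tw F 1 (Ω ^ s2 * Z) = Ω ^ s2 * tw F 1 Z := by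
      rw [map_mul (tw F 1), ← mul_assoc, ← hΩp]
    rw [h3, h4]
    conv_lhs => rw [hZ]
    rw [hG1, pow_add]
    ring
  · show W - B = iota F θ (tA F 1 (C d * Q2) * TT F ^ s2) * tw F 1 (Ω ^ s2 * Z) +
      tw F 1 (W - B)
    have h4 : iota F θ (tA F 1 (C d * Q2) * TT F ^ s2) * tw F 1 (Ω ^ s2 * Z) = G2 := by
      rw [map_mul (iota F θ), map_mul (tw F 1), hG2]
      conv_rhs => rw [hΩp s2]
      ring
    rw [h4, map_sub, hBt]
    conv_lhs => rw [hW]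
    ring
  · show ev θ (W - B) = 0
    rw [ev_sub θ hEW hEB, hWv', hBv, sub_self]
  · show Ω ^ (s1 + s2) ≠ 0
    exact pow_ne_zero _ hΩ0
  · show ev θ (Ω ^ s2 * Z) ≠ 0
    rw [ev_mul θ (hE.pow s2) hEZ, ev_pow θ hE, hev]
    refine mul_ne_zero (pow_ne_zero _ (inv_ne_zero hϖ0)) ?_
    have h3 := hT 0
    simp only [zero_add] at h3
    have h4 := zeta_ne hθ s1 h1 _ h3
    rw [tw_zero] at h4
    exact fun h5 => h4 (by rw [h5, zero_div])

end Pool.Agent.MP33dd76
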