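import Mathlib
import Pool.Agent.Lib.MP_33dd76_nt.A17Sys

set_option autoImplicit false

open Polynomial

namespace Pool.Agent.MP33dd76

/-! # Module A18: descent of the relation to level 0 -/

variable {F : Type*} [Field F] [Fintype F] {K : Type*} [NormedField K] [IsUltrametricDist K]
  [CompleteSpace K] [Algebra F K]

private theorem A18_TT_ne (F : Type*) [Field F] [Fintype F] : TT F ≠ 0 := by
  intro h
  have h1 := congrArg (fun p : A2 F => p.coeff (Fintype.card F)) h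
  have h2 : Fintype.card F ≠ 0 := Fintype.card_ne_zero
  simp only [TT, tt, coeff_sub, coeff_C, coeff_X_pow, if_neg h2, coeff_zero] at h1
  simp at h1

private theorem A18_T_ne (F : Type*) [Field F] [Fintype F] (n : ℕ) : tA F n (TT F) ≠ 0 := by
  intro h
  have hpos : 0 < Fintype.card F ^ n := pow_pos Fintype.card_pos n
  have h1 : Polynomial.expand (Polynomial F) (Fintype.card F ^ n) (TT F) = 0 := h
  exact A18_TT_ne F ((Polynomial.expand_eq_zero hpos).1 h1)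

private theorem A18_step {θ : K} (s1 s2 : ℕ) (Q1 Q2 : A2 F) (ψ : Fin 3 → PowerSeries K)
    (e0 : ψ 0 = iota F θ (TT F ^ (s1 + s2)) * tw F 1 (ψ 0))
    (e1 : ψ 1 = iota F θ (tA F 1 Q1 * TT F ^ (s1 + s2)) * tw F 1 (ψ 0) +
        iota F θ (TT F ^ s2) * tw F 1 (ψ 1))
    (e2 : ψ 2 = iota F θ (tA F 1 Q2 * TT F ^ s2) * tw F 1 (ψ 1) + tw F 1 (ψ 2))
    (n : ℕ) (H : Fin 3 → A2 F) (hH : H ≠ 0)
    (h : ∑ i, iota F θ (H i) * tw F (n + 1) (ψ i) = 0) :
    ∃ G : Fin 3 → A2 F, G ≠ 0 ∧ ∑ i, iota F θ (G i) * tw F n (ψ i) = 0 := by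
  set T : A2 F := tA F n (TT F) with hT
  set P1 : A2 F := tA F n (tA F 1 Q1) with hP1
  set P2 : A2 F := tA F n (tA F 1 Q2) with hP2
  have hT0 : T ≠ 0 := A18_T_ne F n
  -- the equations at level `n`
  have a0 : tw F n (ψ 0) = iota F θ T ^ (s1 + s2) * tw F (n + 1) (ψ 0) := by
    have h1 := congrArg (tw F n) e0
    rw [map_mul, tw_iota, tw_tw, map_pow, map_pow] at h1
    exact h1
  have a1 : tw F n (ψ 1) = iota F θ P1 * iota F θ T ^ (s1 + s2) * tw F (n + 1) (ψ 0) +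
      iota F θ T ^ s2 * tw F (n + 1) (ψ 1) := by
    have h1 := congrArg (tw F n) e1
    simp only [map_add, map_mul, map_pow, tw_iota, tw_tw] at h1
    exact h1
  have a2 : tw F n (ψ 2) = iota F θ P2 * iota F θ T ^ s2 * tw F (n + 1) (ψ 1) +
      tw F (n + 1) (ψ 2) := by
    have h1 := congrArg (tw F n) e2
    simp only [map_add, map_mul, map_pow, tw_iota, tw_tw] at h1
    exact h1
  rw [Fin.sum_univ_three] at h
  refine ⟨![T ^ s2 * H 0 - T ^ (s1 + s2) * H 1 * P1 + T ^ (s1 + s2) * T ^ s2 * H 2 * P1 * P2,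
    T ^ (s1 + s2) * H 1 - T ^ (s1 + s2) * T ^ s2 * H 2 * P2,
    T ^ (s1 + s2) * T ^ s2 * H 2], ?_, ?_⟩
  · intro h0
    apply hH
    have g0 := congrFun h0 0
    have g1 := congrFun h0 1
    have g2 := congrFun h0 2
    simp only [Matrix.cons_val_zero, Matrix.cons_val_one, Matrix.cons_val,
      Pi.zero_apply] at g0 g1 g2
    have hp1 : T ^ (s1 + s2) ≠ 0 := pow_ne_zero _ hT0
    have hp2 : T ^ s2 ≠ 0 := pow_ne_zero _ hT0
    have k2 : H 2 = 0 := (mul_eq_zero.1 g2).resolve_left (mul_ne_zero hp1 hp2)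
    have k1 : H 1 = 0 := by
      rw [k2] at g1
      have g1' : T ^ (s1 + s2) * H 1 = 0 := by linear_combination g1
      exact (mul_eq_zero.1 g1').resolve_left hp1
    have k0 : H 0 = 0 := by
      rw [k2, k1] at g0
      have g0' : T ^ s2 * H 0 = 0 := by linear_combination g0
      exact (mul_eq_zero.1 g0').resolve_left hp2
    funext i
    fin_cases i
    · exact k0
    · exact k1
    · exact k2
  · rw [Fin.sum_univ_three]
    simp only [Matrix.cons_val_zero, Matrix.cons_val_one, Matrix.cons_val,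
      map_add, map_sub, map_mul, map_pow]
    rw [a2, a1, a0]
    linear_combination (iota F θ T ^ (s1 + s2) * iota F θ T ^ s2) * h

theorem descend {θ : K} (hθ : 1 < ‖θ‖) (s1 s2 : ℕ) (Q1 Q2 : A2 F) (ψ : Fin 3 → PowerSeries K)
    (e0 : ψ 0 = iota F θ (TT F ^ (s1 + s2)) * tw F 1 (ψ 0))
    (e1 : ψ 1 = iota F θ (tA F 1 Q1 * TT F ^ (s1 + s2)) * tw F 1 (ψ 0) +
        iota F θ (TT F ^ s2) * tw F 1 (ψ 1))
    (e2 : ψ 2 = iota F θ (tA F 1 Q2 * TT F ^ s2) * tw F 1 (ψ 1) + tw F 1 (ψ 2))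
    (N : ℕ) (H : Fin 3 → A2 F) (hH : H ≠ 0) (h : ∑ i, iota F θ (H i) * tw F N (ψ i) = 0) :
    ∃ G : Fin 3 → A2 F, G ≠ 0 ∧ ∑ i, iota F θ (G i) * ψ i = 0 := by
  induction N generalizing H with
  | zero =>
    refine ⟨H, hH, ?_⟩
    simpa only [tw_zero] using h
  | succ n ih =>
    obtain ⟨G, hG, hG'⟩ := A18_step s1 s2 Q1 Q2 ψ e0 e1 e2 n H hH h
    exact ih G hG hG'

end Pool.Agent.MP33dd76
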