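import Mathlib
import Pool.Agent.Lib.MP_33dd76_nt.Defs

set_option autoImplicit false

open Polynomial

namespace Pool.Agent.MP33dd76

/-! # Module A19: rational solutions are polynomials -/

/-- the case `H = 1` -/
theorem A1_one {k : Type*} [Field k] (q : ℕ) (hq : 2 ≤ q) (t : k) (r : ℕ) (G P : k[X])
    (h : (G + expand k q P) * (C t - X ^ q) ^ r = expand k q G) :
    ∃ f : k[X], G = expand k q f ∧ expand k q f = (C t - X) ^ r * (f + P) := by
  have hq0 : 0 < q := by omega
  set b : k[X] := (C t - X) ^ r with hb
  have hb0 : b ≠ 0 := by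
    rw [hb]
    apply pow_ne_zero
    intro h0
    have h1 := congrArg (fun p : k[X] => p.coeff 1) h0
    simp [coeff_C] at h1
  have heb : expand k q b = (C t - X ^ q) ^ r := by
    rw [hb, map_pow, map_sub, expand_C, expand_X]
  have heb0 : expand k q b ≠ 0 := by
    rwa [Ne, expand_eq_zero hq0]
  have hdiv : b * (G / b) + G % b = G := EuclideanDomain.div_add_mod G b
  set c := G / b with hc
  set r0 := G % b with hr0
  have hdeg : r0.degree < b.degree := EuclideanDomain.mod_lt G hb0
  have h1 : expand k q b * (G + expand k q P - expand k q c) = expand k q r0 := by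
    have h2 : expand k q G = expand k q b * expand k q c + expand k q r0 := by
      rw [← map_mul, ← map_add, hdiv]
    rw [← heb, h2] at h
    linear_combination h
  have h3 : G + expand k q P - expand k q c = 0 := by
    by_contra hne
    have h4 : (expand k q b).natDegree ≤ (expand k q r0).natDegree := by
      rw [← h1, natDegree_mul heb0 hne]
      omega
    have hr00 : r0 ≠ 0 := by
      intro h5
      rw [h5, map_zero] at h1
      exact mul_ne_zero heb0 hne h1
    rw [natDegree_expand, natDegree_expand] at h4
    have h5 : r0.natDegree < b.natDegree := natDegree_lt_natDegree hr00 hdeg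
    have h6 := Nat.le_of_mul_le_mul_right h4 hq0
    omega
  have hr00 : r0 = 0 := by
    rw [h3, mul_zero] at h1
    exact (expand_eq_zero hq0).1 h1.symm
  have hG : G = expand k q (c - P) := by
    rw [map_sub]
    linear_combination h3
  refine ⟨c - P, hG, ?_⟩
  rw [← hG, sub_add_cancel, ← hdiv, hr00, add_zero]

theorem poly_sol {k : Type*} [Field k] (q : ℕ) (hq : 2 ≤ q) (t : k) (r : ℕ) (G H P : k[X])
    (hH : H ≠ 0)
    (h : (G + H * expand k q P) * expand k q H * (C t - X ^ q) ^ r = H * expand k q G) :
    ∃ f : k[X], G = H * expand k q f ∧ expand k q f = (C t - X) ^ r * (f + P) := by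
  classical
  have hq0 : 0 < q := by omega
  have hg0 : EuclideanDomain.gcd G H ≠ 0 := by
    intro h0
    exact hH (EuclideanDomain.gcd_eq_zero_iff.1 h0).2
  obtain ⟨G', hG'⟩ := EuclideanDomain.gcd_dvd_left G H
  obtain ⟨H', hH'⟩ := EuclideanDomain.gcd_dvd_right G H
  have hbez := EuclideanDomain.gcd_eq_gcd_ab G H
  set g := EuclideanDomain.gcd G H with hg
  have hcop : IsCoprime G' H' := by
    refine ⟨EuclideanDomain.gcdA G H, EuclideanDomain.gcdB G H, ?_⟩
    apply mul_left_cancel₀ hg0
    calc g * (EuclideanDomain.gcdA G H * G' + EuclideanDomain.gcdB G H * H')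
        = (g * G') * EuclideanDomain.gcdA G H + (g * H') * EuclideanDomain.gcdB G H := by ring
      _ = G * EuclideanDomain.gcdA G H + H * EuclideanDomain.gcdB G H := by rw [← hG', ← hH']
      _ = g * 1 := by rw [← hbez, mul_one]
  have hH0 : H' ≠ 0 := by
    rintro rfl
    exact hH (by rw [hH', mul_zero])
  have heg0 : expand k q g ≠ 0 := by
    rwa [Ne, expand_eq_zero hq0]
  have h1 : (G' + H' * expand k q P) * expand k q H' * (C t - X ^ q) ^ r
      = H' * expand k q G' := by
    apply mul_left_cancel₀ (mul_ne_zero hg0 heg0)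
    have e1 : expand k q G = expand k q g * expand k q G' := by rw [← map_mul, ← hG']
    have e2 : expand k q H = expand k q g * expand k q H' := by rw [← map_mul, ← hH']
    rw [e1, e2] at h
    calc g * expand k q g * ((G' + H' * expand k q P) * expand k q H' * (C t - X ^ q) ^ r)
        = (g * G' + g * H' * expand k q P) * (expand k q g * expand k q H') *
            (C t - X ^ q) ^ r := by ring
      _ = (G + H * expand k q P) * (expand k q g * expand k q H') * (C t - X ^ q) ^ r := by
          rw [← hG', ← hH']
      _ = H * (expand k q g * expand k q G') := h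
      _ = g * H' * (expand k q g * expand k q G') := by rw [← hH']
      _ = g * expand k q g * (H' * expand k q G') := by ring
  have hecop : IsCoprime (expand k q H') (expand k q G') := by
    obtain ⟨u, v, huv⟩ := hcop
    refine ⟨expand k q v, expand k q u, ?_⟩
    rw [← map_mul, ← map_mul, ← map_add, add_comm, huv, map_one]
  have hdvd : expand k q H' ∣ H' := by
    apply hecop.dvd_of_dvd_mul_right
    rw [← h1]
    exact ⟨(G' + H' * expand k q P) * (C t - X ^ q) ^ r, by ring⟩
  have hnd := natDegree_le_of_dvd hdvd hH0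
  rw [natDegree_expand] at hnd
  have hnd0 : H'.natDegree = 0 := by
    by_contra h0
    have : H'.natDegree * 2 ≤ H'.natDegree * q := Nat.mul_le_mul_left _ hq
    omega
  obtain ⟨c, hc⟩ := natDegree_eq_zero.1 hnd0
  have hc0 : c ≠ 0 := by
    rintro rfl
    exact hH0 (by rw [← hc, C_0])
  have hCc : (C c : k[X]) ≠ 0 := C_ne_zero.2 hc0
  set G2 : k[X] := C c⁻¹ * G' with hG2
  have hG2' : G' = C c * G2 := by
    rw [hG2, ← mul_assoc, ← C_mul, mul_inv_cancel₀ hc0, C_1, one_mul]
  have h2 : (G2 + expand k q P) * (C t - X ^ q) ^ r = expand k q G2 := by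
    rw [← hc, expand_C, hG2', map_mul, expand_C] at h1
    apply mul_left_cancel₀ (mul_ne_zero hCc hCc)
    linear_combination h1
  obtain ⟨f, hf1, hf2⟩ := A1_one q hq t r G2 P h2
  refine ⟨f, ?_, hf2⟩
  rw [hG', hG2', hH', ← hc, ← hf1]
  ring

end Pool.Agent.MP33dd76
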