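import Mathlib
import Pool.Agent.Lib.MP_33dd76_nt.A18Desc
import Pool.Agent.Lib.MP_33dd76_nt.A19Poly
import Pool.Agent.Lib.MP_33dd76_nt.A10ABP

set_option autoImplicit false

open Polynomial

namespace Pool.Agent.MP33dd76

/-! # Module A20: Theorem A -/

set_option linter.unusedSectionVars false

variable {F : Type*} [Field F] [Fintype F] {K : Type*} [NormedField K] [IsUltrametricDist K]
  [CompleteSpace K] [Algebra F K]

/-- the embedding `F[t] → F(t)` -/
noncomputable def A20_a (F : Type*) [Field F] : F[X] →+* RatFunc F := algebraMap F[X] (RatFunc F)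

theorem A20_a_inj : Function.Injective (A20_a F) := IsFractionRing.injective F[X] (RatFunc F)

theorem A20_map_inj : Function.Injective (Polynomial.map (A20_a F)) :=
  Polynomial.map_injective _ A20_a_inj

theorem A20_a_X : A20_a F X = RatFunc.X := RatFunc.algebraMap_X

theorem A20_map_tA (H : A2 F) :
    (tA F 1 H).map (A20_a F) = expand (RatFunc F) (Fintype.card F) (H.map (A20_a F)) := by
  show ((expand F[X] (Fintype.card F ^ 1)) H).map (A20_a F) = _
  rw [pow_one, Polynomial.map_expand]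

theorem A20_map_TT : (TT F).map (A20_a F) = C RatFunc.X - X ^ Fintype.card F := by
  unfold TT tt
  rw [Polynomial.map_sub, Polynomial.map_pow, Polynomial.map_X, Polynomial.map_C, A20_a_X]

theorem A20_TT_ne : TT F ≠ 0 := by
  intro h
  have h1 := congrArg (fun p : A2 F => p.coeff 0) h
  have hq : Fintype.card F ≠ 0 := Fintype.card_ne_zero
  simp only [TT, tt, coeff_sub, coeff_C_zero, coeff_X_pow, coeff_zero] at h1
  rw [if_neg (Ne.symm hq), sub_zero] at h1
  exact X_ne_zero h1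

theorem A20_tA_ne {H : A2 F} (h : H ≠ 0) : tA F 1 H ≠ 0 := by
  intro h0
  apply h
  have h1 := congrArg (Polynomial.map (A20_a F)) h0
  rw [A20_map_tA, Polynomial.map_zero,
    Polynomial.expand_eq_zero (Nat.pos_of_ne_zero Fintype.card_ne_zero)] at h1
  exact A20_map_inj (by rw [h1, Polynomial.map_zero])

/-- clearing denominators -/
theorem A20_clear (f : (RatFunc F)[X]) :
    ∃ (c : F[X]) (g : A2 F), c ≠ 0 ∧ g.map (A20_a F) = C (A20_a F c) * f := by
  obtain ⟨b, hb0, hb⟩ := IsLocalization.integerNormalization_spec (nonZeroDivisors F[X]) f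
  refine ⟨b, IsLocalization.integerNormalization (nonZeroDivisors F[X]) f,
    nonZeroDivisors.ne_zero hb0, ?_⟩
  show Polynomial.map (algebraMap F[X] (RatFunc F)) _ = _
  rw [hb]
  ext n
  rw [coeff_C_mul, Polynomial.coeff_smul, Algebra.smul_def]
  rfl

/-- the polynomial solution, on the level of `A2` -/
theorem A20_poly (r : ℕ) (G H : A2 F) (P : (RatFunc F)[X]) (hH : H ≠ 0)
    (h : (G.map (A20_a F) + H.map (A20_a F) * expand (RatFunc F) (Fintype.card F) P) *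
      (tA F 1 H * TT F ^ r).map (A20_a F) = (H * tA F 1 G).map (A20_a F)) :
    ∃ f : (RatFunc F)[X], G.map (A20_a F) =
        H.map (A20_a F) * expand (RatFunc F) (Fintype.card F) f ∧
      expand (RatFunc F) (Fintype.card F) f = (C RatFunc.X - X) ^ r * (f + P) := by
  refine poly_sol (Fintype.card F) Fintype.one_lt_card RatFunc.X r (G.map (A20_a F))
    (H.map (A20_a F)) P ?_ ?_
  · intro h0
    exact hH (A20_map_inj (by rw [h0, Polynomial.map_zero]))
  · rw [Polynomial.map_mul, Polynomial.map_pow, A20_map_TT, A20_map_tA, Polynomial.map_mul,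
      A20_map_tA] at h
    rw [mul_assoc]
    exact h

theorem A20_tw_ne {ψ : PowerSeries K} (h : ψ ≠ 0) : tw F 1 ψ ≠ 0 := by
  intro h0
  apply h
  ext k
  have h1 := congrArg (PowerSeries.coeff k) h0
  rw [coeff_tw, map_zero] at h1
  rw [map_zero]
  exact pow_eq_zero_iff (pow_ne_zero _ Fintype.card_ne_zero) |>.1 h1

/-- the two first functions are independent -/
theorem indep {θ : K} (hθ : 1 < ‖θ‖) (hF : 2 < Fintype.card F) (s1 s2 : ℕ) (h1 : 1 ≤ s1)
    (h2 : 1 ≤ s2) (Q1 : A2 F) (ψ0 ψ1 : PowerSeries K) (E0 : Ent ψ0) (E1 : Ent ψ1)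
    (e0 : ψ0 = iota F θ (TT F ^ (s1 + s2)) * tw F 1 ψ0)
    (e1 : ψ1 = iota F θ (tA F 1 Q1 * TT F ^ (s1 + s2)) * tw F 1 ψ0 +
        iota F θ (TT F ^ s2) * tw F 1 ψ1)
    (hne : ψ0 ≠ 0) (hne1 : ev θ ψ1 ≠ 0) (G0 G1 : A2 F)
    (h : iota F θ G0 * ψ0 + iota F θ G1 * ψ1 = 0) : G0 = 0 ∧ G1 = 0 := by
  have hinj := iota_injective (F := F) hθ
  have hi0 : ∀ H : A2 F, iota F θ H = 0 → H = 0 := fun H hH =>
    hinj (by rw [hH, map_zero])
  by_cases hG1 : G1 = 0
  · refine ⟨?_, hG1⟩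
    rw [hG1, map_zero, zero_mul, add_zero] at h
    rcases mul_eq_zero.1 h with h3 | h3
    · exact hi0 _ h3
    · exact absurd h3 hne
  exfalso
  -- the relation after the twist
  have ht : iota F θ (tA F 1 G0) * tw F 1 ψ0 + iota F θ (tA F 1 G1) * tw F 1 ψ1 = 0 := by
    have h3 := congrArg (tw F 1) h
    rw [map_add, map_mul, map_mul, tw_iota, tw_iota, map_zero] at h3
    exact h3
  have hkey : (G0 + G1 * tA F 1 Q1) * (tA F 1 G1 * TT F ^ s1) = G1 * tA F 1 G0 := by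
    have h3 : iota F θ (TT F ^ s2 * ((G0 + G1 * tA F 1 Q1) * (tA F 1 G1 * TT F ^ s1) -
        G1 * tA F 1 G0)) * tw F 1 ψ0 = 0 := by
      have h4 : iota F θ G0 * (iota F θ (TT F ^ (s1 + s2)) * tw F 1 ψ0) +
          iota F θ G1 * (iota F θ (tA F 1 Q1 * TT F ^ (s1 + s2)) * tw F 1 ψ0 +
            iota F θ (TT F ^ s2) * tw F 1 ψ1) = 0 := by
        rw [← e0, ← e1]
        exact h
      simp only [map_mul, map_add, map_sub, map_pow, pow_add] at h4 ht ⊢
      linear_combination iota F θ (tA F 1 G1) * h4 - iota F θ G1 * iota F θ (TT F) ^ s2 * ht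
    rcases mul_eq_zero.1 h3 with h4 | h4
    · have h5 := hi0 _ h4
      rcases mul_eq_zero.1 h5 with h6 | h6
      · exact absurd h6 (pow_ne_zero _ A20_TT_ne)
      · exact sub_eq_zero.1 h6
    · exact absurd h4 (A20_tw_ne hne)
  obtain ⟨f, hf1, hf2⟩ := A20_poly s1 G0 G1 (Q1.map (A20_a F)) hG1 (by
    have h3 := congrArg (Polynomial.map (A20_a F)) hkey
    rw [Polynomial.map_mul, Polynomial.map_add, Polynomial.map_mul (A20_a F) (p := G1), A20_map_tA] at h3
    exact h3)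
  obtain ⟨c, g, hc, hg⟩ := A20_clear f
  have hg1 : C c * G0 = G1 * tA F 1 g := by
    apply A20_map_inj
    rw [Polynomial.map_mul, Polynomial.map_mul, Polynomial.map_C, A20_map_tA, hg, hf1, map_mul,
      expand_C]
    ring
  have hg2 : tA F 1 g = (tt F - X) ^ s1 * (g + C c * Q1) := by
    apply A20_map_inj
    rw [A20_map_tA, hg, map_mul, expand_C, hf2, Polynomial.map_mul, Polynomial.map_pow,
      Polynomial.map_sub, Polynomial.map_add, Polynomial.map_mul, Polynomial.map_C,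
      Polynomial.map_X, hg]
    unfold tt
    rw [Polynomial.map_C, A20_a_X]
    ring
  have hrel : iota F θ (C c) * ψ1 = - (iota F θ (tA F 1 g) * ψ0) := by
    have h3 : iota F θ G1 * (iota F θ (C c) * ψ1 + iota F θ (tA F 1 g) * ψ0) = 0 := by
      have h4 : iota F θ (C c) * iota F θ G0 = iota F θ G1 * iota F θ (tA F 1 g) := by
        rw [← map_mul, ← map_mul, hg1]
      linear_combination iota F θ (C c) * h - ψ0 * h4
    rcases mul_eq_zero.1 h3 with h4 | h4
    · exact absurd (hi0 _ h4) hG1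
    · exact eq_neg_of_add_eq_zero_left h4
  have hval : val F θ θ (tA F 1 g) = 0 := by
    rw [hg2, map_mul, map_pow, map_sub]
    have h3 : val F θ θ (tt F) = θ := by
      unfold val tt
      simp
    have h4 : val F θ θ (X : A2 F) = θ := by
      unfold val
      simp
    rw [h3, h4, sub_self, zero_pow (by omega), zero_mul]
  have hev := congrArg (ev θ) hrel
  have hneg : ev θ (-(iota F θ (tA F 1 g) * ψ0)) = 0 := by
    have h3 : -(iota F θ (tA F 1 g) * ψ0) = iota F θ (-(tA F 1 g)) * ψ0 := by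
      rw [map_neg, neg_mul]
    rw [h3, ev_mul θ (Ent.iota θ _) E0, ev_iota, map_neg, hval, neg_zero, zero_mul]
  rw [hneg, ev_mul θ (Ent.iota θ _) E1, ev_iota] at hev
  rcases mul_eq_zero.1 hev with h3 | h3
  · have h4 : val F θ θ (C c) = aeval θ c := by
      unfold val
      simp
    rw [h4] at h3
    exact aeval_ne_zero hθ c hc h3
  · exact hne1 h3

/-- Theorem A -/
theorem thmA {θ ϖ : K} (hθ : 1 < ‖θ‖) (hF : 2 < Fintype.card F) (hϖ : IsPeriod F θ ϖ)
    (s1 s2 : ℕ) (h1 : 1 ≤ s1) (h2 : 1 ≤ s2)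
    (n d : F[X]) (hd : d ≠ 0) (hz : aeval θ d * mzv F θ s1 s2 = aeval θ n * ϖ ^ (s1 + s2)) :
    ∃ B U : (RatFunc F)[X],
      expand (RatFunc F) (Fintype.card F) B =
        (C RatFunc.X - X) ^ s2 * (B + hy F RatFunc.X (s2 - 1)) ∧
      expand (RatFunc F) (Fintype.card F) U =
        (C RatFunc.X - X) ^ (s1 + s2) * (U + hy F RatFunc.X (s1 - 1) * B) := by
  obtain ⟨g1, Q1, hg1, hQ1⟩ := A20_clear (hy F (RatFunc.X : RatFunc F) (s1 - 1))
  obtain ⟨g2, Q2, hg2, hQ2⟩ := A20_clear (hy F (RatFunc.X : RatFunc F) (s2 - 1))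
  obtain ⟨ψ, hE, e0, e1, e2, hz2, hne0, hne1⟩ := exists_psi hθ hF hϖ s1 s2 h1 h2 g1 g2 hg1 hg2
    Q1 Q2 hQ1 hQ2 n d hd hz
  have hinj := iota_injective (F := F) hθ
  have hi0 : ∀ H : A2 F, iota F θ H = 0 → H = 0 := fun H hH =>
    hinj (by rw [hH, map_zero])
  -- the system
  have hsys : Sys θ !![TT F ^ (s1 + s2), 0, 0; tA F 1 Q1 * TT F ^ (s1 + s2), TT F ^ s2, 0;
      0, tA F 1 (C d * Q2) * TT F ^ s2, 1] ψ := by
    refine ⟨hE, ?_, rfl, rfl, rfl, hz2⟩
    intro i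
    rw [Fin.sum_univ_three]
    fin_cases i
    · show ψ 0 = iota F θ (TT F ^ (s1 + s2)) * tw F 1 (ψ 0) + iota F θ 0 * tw F 1 (ψ 1) +
        iota F θ 0 * tw F 1 (ψ 2)
      rw [map_zero, zero_mul, zero_mul, add_zero, add_zero]
      exact e0
    · show ψ 1 = iota F θ (tA F 1 Q1 * TT F ^ (s1 + s2)) * tw F 1 (ψ 0) +
        iota F θ (TT F ^ s2) * tw F 1 (ψ 1) + iota F θ 0 * tw F 1 (ψ 2)
      rw [map_zero, zero_mul, add_zero]
      exact e1
    · show ψ 2 = iota F θ 0 * tw F 1 (ψ 0) +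
        iota F θ (tA F 1 (C d * Q2) * TT F ^ s2) * tw F 1 (ψ 1) + iota F θ 1 * tw F 1 (ψ 2)
      rw [map_zero, zero_mul, zero_add, map_one, one_mul]
      exact e2
  obtain ⟨N, H, hH, hrelN⟩ := abp hθ hsys
  obtain ⟨G, hG, hrel⟩ := descend hθ s1 s2 Q1 (C d * Q2) ψ e0 e1 e2 N H hH hrelN
  rw [Fin.sum_univ_three] at hrel
  have hG2 : G 2 ≠ 0 := by
    intro h0
    rw [h0, map_zero, zero_mul, add_zero] at hrel
    obtain ⟨h3, h4⟩ := indep hθ hF s1 s2 h1 h2 Q1 (ψ 0) (ψ 1) (hE 0) (hE 1) e0 e1 hne0 hne1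
      (G 0) (G 1) hrel
    apply hG
    funext i
    fin_cases i
    · exact h3
    · exact h4
    · exact h0
  -- the relation after the twist
  have ht : iota F θ (tA F 1 (G 0)) * tw F 1 (ψ 0) + iota F θ (tA F 1 (G 1)) * tw F 1 (ψ 1) +
      iota F θ (tA F 1 (G 2)) * tw F 1 (ψ 2) = 0 := by
    have h3 := congrArg (tw F 1) hrel
    rw [map_add, map_add, map_mul, map_mul, map_mul, tw_iota, tw_iota, tw_iota, map_zero] at h3
    exact h3
  have h0 : iota F θ (G 0) * (iota F θ (TT F ^ (s1 + s2)) * tw F 1 (ψ 0)) +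
      iota F θ (G 1) * (iota F θ (tA F 1 Q1 * TT F ^ (s1 + s2)) * tw F 1 (ψ 0) +
        iota F θ (TT F ^ s2) * tw F 1 (ψ 1)) +
      iota F θ (G 2) * (iota F θ (tA F 1 (C d * Q2) * TT F ^ s2) * tw F 1 (ψ 1) +
        tw F 1 (ψ 2)) = 0 := by
    rw [← e0, ← e1, ← e2]
    exact hrel
  -- independence of the twisted functions
  have hind : ∀ A B : A2 F, iota F θ A * tw F 1 (ψ 0) + iota F θ B * tw F 1 (ψ 1) = 0 →
      A = 0 ∧ B = 0 := by
    intro A B hAB
    have h3 : iota F θ (A * TT F ^ s2 - B * TT F ^ (s1 + s2) * tA F 1 Q1) * ψ 0 +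
        iota F θ (B * TT F ^ (s1 + s2)) * ψ 1 = 0 := by
      have h4 : iota F θ (TT F ^ (s1 + s2)) * iota F θ (TT F ^ s2) *
          (iota F θ A * tw F 1 (ψ 0) + iota F θ B * tw F 1 (ψ 1)) = 0 := by
        rw [hAB, mul_zero]
      have e0' := e0
      have e1' := e1
      simp only [map_mul, map_sub] at h4 e0' e1' ⊢
      linear_combination h4 + (iota F θ A * iota F θ (TT F ^ s2) - iota F θ B *
        iota F θ (TT F ^ (s1 + s2)) * iota F θ (tA F 1 Q1)) * e0' +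
          iota F θ B * iota F θ (TT F ^ (s1 + s2)) * e1'
    obtain ⟨h5, h6⟩ := indep hθ hF s1 s2 h1 h2 Q1 (ψ 0) (ψ 1) (hE 0) (hE 1) e0 e1 hne0 hne1
      _ _ h3
    have hB : B = 0 := by
      rcases mul_eq_zero.1 h6 with h7 | h7
      · exact h7
      · exact absurd h7 (pow_ne_zero _ A20_TT_ne)
    refine ⟨?_, hB⟩
    rw [hB, zero_mul, zero_mul, sub_zero] at h5
    rcases mul_eq_zero.1 h5 with h7 | h7
    · exact h7
    · exact absurd h7 (pow_ne_zero _ A20_TT_ne)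
  obtain ⟨hA, hB⟩ := hind
    ((G 0 + G 1 * tA F 1 Q1) * (tA F 1 (G 2) * TT F ^ (s1 + s2)) - G 2 * tA F 1 (G 0))
    ((G 1 + G 2 * tA F 1 (C d * Q2)) * (tA F 1 (G 2) * TT F ^ s2) - G 2 * tA F 1 (G 1)) (by
      simp only [map_mul, map_add, map_sub] at h0 ht ⊢
      linear_combination iota F θ (tA F 1 (G 2)) * h0 - iota F θ (G 2) * ht)
  rw [sub_eq_zero] at hA hB
  obtain ⟨f2, hf2, hf2'⟩ := A20_poly s2 (G 1) (G 2) ((C d * Q2).map (A20_a F)) hG2 (by
    have h3 := congrArg (Polynomial.map (A20_a F)) hB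
    rw [Polynomial.map_mul, Polynomial.map_add, Polynomial.map_mul (A20_a F) (p := G 2), A20_map_tA] at h3
    exact h3)
  obtain ⟨f1, hf1, hf1'⟩ := A20_poly (s1 + s2) (G 0) (G 2) (f2 * Q1.map (A20_a F)) hG2 (by
    have h3 := congrArg (Polynomial.map (A20_a F)) hA
    rw [Polynomial.map_mul, Polynomial.map_add, Polynomial.map_mul (A20_a F) (p := G 1), A20_map_tA Q1,
      hf2] at h3
    rw [map_mul, ← mul_assoc (map (A20_a F) (G 2))]
    exact h3)
  have hQ1' : Q1.map (A20_a F) = C (A20_a F g1) * hy F RatFunc.X (s1 - 1) := hQ1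
  have hQ2' : Q2.map (A20_a F) = C (A20_a F g2) * hy F RatFunc.X (s2 - 1) := hQ2
  have hane : ∀ P : F[X], P ≠ 0 → A20_a F P ≠ 0 := fun P hP =>
    (map_ne_zero_iff _ A20_a_inj).2 hP
  have hu1 := hane g1 hg1
  have hu2 := hane g2 hg2
  have hud := hane d hd
  have hC1 : C ((A20_a F d)⁻¹ * (A20_a F g2)⁻¹) * (C (A20_a F d) * C (A20_a F g2)) =
      (1 : (RatFunc F)[X]) := by
    rw [← C_mul, ← C_mul, ← C_1]
    congr 1
    field_simp
  have hC2 : C ((A20_a F d)⁻¹ * (A20_a F g2)⁻¹ * (A20_a F g1)⁻¹) =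
      C ((A20_a F d)⁻¹ * (A20_a F g2)⁻¹) * C (A20_a F g1)⁻¹ := by
    rw [← C_mul]
  have hC3 : C (A20_a F g1)⁻¹ * C (A20_a F g1) = (1 : (RatFunc F)[X]) := by
    rw [← C_mul, inv_mul_cancel₀ hu1, C_1]
  refine ⟨C ((A20_a F d)⁻¹ * (A20_a F g2)⁻¹) * f2,
    C ((A20_a F d)⁻¹ * (A20_a F g2)⁻¹ * (A20_a F g1)⁻¹) * f1, ?_, ?_⟩
  · rw [map_mul, expand_C, hf2', Polynomial.map_mul, Polynomial.map_C, hQ2']
    linear_combination (C RatFunc.X - X) ^ s2 * hy F RatFunc.X (s2 - 1) * hC1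
  · rw [map_mul, expand_C, hf1', hQ1', hC2]
    linear_combination (C RatFunc.X - X) ^ (s1 + s2) * f2 * hy F RatFunc.X (s1 - 1) *
      C ((A20_a F d)⁻¹ * (A20_a F g2)⁻¹) * hC3

end Pool.Agent.MP33dd76
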