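import Mathlib
import Pool.Agent.Lib.MP_33dd76_nt.A20ThmA

set_option autoImplicit false

open Polynomial

namespace Pool.Agent.MP33dd76

/-! # Module A21: parity, identification of `B` -/

variable {F : Type*} [Field F] [Fintype F] {K : Type*} [NormedField K] [IsUltrametricDist K]
  [CompleteSpace K] [Algebra F K]

/-! ## The embedding -/

private theorem A2_j_alg {θ : K} {j : RatFunc F →+* K}
    (hj : ∀ P : F[X], j (algebraMap F[X] (RatFunc F) P) = aeval θ P) (a : F) :
    j (algebraMap F (RatFunc F) a) = algebraMap F K a := by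
  have h1 : algebraMap F (RatFunc F) a = algebraMap F[X] (RatFunc F) (C a) := by
    rw [← Polynomial.algebraMap_eq]
    exact IsScalarTower.algebraMap_apply F F[X] (RatFunc F) a
  rw [h1, hj, aeval_C]

private theorem A2_j_X {θ : K} {j : RatFunc F →+* K}
    (hj : ∀ P : F[X], j (algebraMap F[X] (RatFunc F) P) = aeval θ P) :
    j RatFunc.X = θ := by
  rw [← RatFunc.algebraMap_X, hj, aeval_X]

private theorem A2_j_ell {θ : K} {j : RatFunc F →+* K}
    (hj : ∀ P : F[X], j (algebraMap F[X] (RatFunc F) P) = aeval θ P) (n : ℕ) :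
    j (ell F RatFunc.X n) = ell F θ n := by
  unfold ell
  rw [map_prod]
  refine Finset.prod_congr rfl fun i _ => ?_
  rw [map_sub, map_pow, A2_j_X hj]

private theorem A2_j_Ssum {θ : K} {j : RatFunc F →+* K}
    (hj : ∀ P : F[X], j (algebraMap F[X] (RatFunc F) P) = aeval θ P) (n s : ℕ) :
    j (Ssum F RatFunc.X n s) = Ssum F θ n s := by
  unfold Ssum mon
  rw [map_sum]
  refine Finset.sum_congr rfl fun c _ => ?_
  rw [map_inv₀, map_pow, map_add, map_pow, map_sum, A2_j_X hj]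
  congr 3
  refine Finset.sum_congr rfl fun i _ => ?_
  rw [map_mul, map_pow, A2_j_X hj, A2_j_alg hj]

private theorem A2_transc : Transcendental F (RatFunc.X : RatFunc F) := by
  rw [transcendental_iff_injective, injective_iff_map_eq_zero]
  intro P hP
  have h1 : aeval (RatFunc.X : RatFunc F) P = algebraMap F[X] (RatFunc F) P := by
    rw [← RatFunc.algebraMap_X, aeval_algebraMap_apply, aeval_X_left_apply]
  rw [h1] at hP
  exact (map_eq_zero_iff _ (IsFractionRing.injective F[X] (RatFunc F))).1 hP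

/-! ## Values -/

section values

variable {L : Type*} [Field L] [Algebra F L]

/-- the values of a solution of the twisted equation -/
private theorem A2_rec (t : L) (r : ℕ) (hr : 1 ≤ r) (f g : L[X])
    (h : expand L (Fintype.card F) f = (C t - X) ^ r * (f + g)) (c : ℕ → L)
    (hg : ∀ n, g.eval (t ^ (Fintype.card F ^ (n + 1))) = ell F t n ^ r * c n) (n : ℕ) :
    f.eval (t ^ (Fintype.card F ^ (n + 1))) = ell F t n ^ r * ∑ i ∈ Finset.range n, c i := by
  have key : ∀ x : L, f.eval (x ^ Fintype.card F) = (t - x) ^ r * (f.eval x + g.eval x) := by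
    intro x
    rw [← expand_eval, h, eval_mul, eval_pow, eval_sub, eval_C, eval_X, eval_add]
  induction n with
  | zero =>
    have h1 := key t
    rw [sub_self, zero_pow (by omega), zero_mul] at h1
    rw [Finset.sum_range_zero, mul_zero, zero_add, pow_one]
    exact h1
  | succ n ih =>
    have h1 := key (t ^ (Fintype.card F ^ (n + 1)))
    rw [← pow_mul, ← pow_succ, ih, hg n] at h1
    rw [h1, Finset.sum_range_succ]
    have h2 : ell F t (n + 1) = ell F t n * (t - t ^ (Fintype.card F ^ (n + 1))) := by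
      unfold ell
      rw [Finset.prod_range_succ]
    rw [h2, mul_pow]
    ring

end values

/-! ## Sizes -/

/-- the leading term dominates -/
private theorem A2_dom (a : ℕ → K) (k : ℕ) (Z : K) (h1 : 1 ≤ ‖Z‖)
    (hZ : ∀ i, i < k → ‖a i‖ < ‖a k‖ * ‖Z‖) :
    ‖∑ i ∈ Finset.range (k + 1), a i * Z ^ i‖ = ‖a k‖ * ‖Z‖ ^ k := by
  rcases Nat.eq_zero_or_pos k with hk | hk
  · subst hk
    simp
  · have hZ0 : 0 < ‖Z‖ := by linarith
    rw [Finset.sum_range_succ]
    have hne : (Finset.range k).Nonempty := ⟨0, Finset.mem_range.2 hk⟩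
    obtain ⟨i, hi, hle⟩ := IsUltrametricDist.exists_norm_finsetSum_le_of_nonempty hne
      (fun i => a i * Z ^ i)
    rw [Finset.mem_range] at hi
    have h2 : ‖a i * Z ^ i‖ < ‖a k * Z ^ k‖ := by
      rw [norm_mul, norm_pow, norm_mul, norm_pow]
      have h3 : ‖a i‖ * ‖Z‖ ^ i < ‖a k‖ * ‖Z‖ * ‖Z‖ ^ i :=
        mul_lt_mul_of_pos_right (hZ i hi) (pow_pos hZ0 _)
      have h4 : ‖Z‖ ^ (i + 1) ≤ ‖Z‖ ^ k := pow_le_pow_right₀ h1 (by omega)
      calc ‖a i‖ * ‖Z‖ ^ i < ‖a k‖ * ‖Z‖ * ‖Z‖ ^ i := h3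
        _ = ‖a k‖ * ‖Z‖ ^ (i + 1) := by ring
        _ ≤ ‖a k‖ * ‖Z‖ ^ k := mul_le_mul_of_nonneg_left h4 (norm_nonneg _)
    have h3 : ‖∑ i ∈ Finset.range k, a i * Z ^ i‖ < ‖a k * Z ^ k‖ := lt_of_le_of_lt hle h2
    rw [IsUltrametricDist.norm_add_eq_max_of_norm_ne_norm h3.ne, max_eq_right h3.le, norm_mul,
      norm_pow]

/-- the degree of a solution -/
private theorem A2_degree {θ : K} (hθ : 1 < ‖θ‖) (hF : 2 < Fintype.card F) {j : RatFunc F →+* K}
    (hj : ∀ P : F[X], j (algebraMap F[X] (RatFunc F) P) = aeval θ P) (r : ℕ)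
    (f : (RatFunc F)[X]) (c : ℕ → RatFunc F) (κ : ℝ) (hκ : 0 < κ)
    (hc : ∀ n, 2 ≤ n → ‖j (c n)‖ = κ)
    (hf : ∀ n, f.eval (RatFunc.X ^ (Fintype.card F ^ (n + 1))) = ell F RatFunc.X n ^ r * c n) :
    (Fintype.card F - 1) * f.natDegree = r := by
  set q := Fintype.card F with hq
  have hval : ∀ n, ∑ i ∈ Finset.range (f.natDegree + 1), j (f.coeff i) * (θ ^ (q ^ (n + 1))) ^ i =
      ell F θ n ^ r * j (c n) := by
    intro n
    have h1 := congrArg j (hf n)
    rw [eval_eq_sum_range, map_sum, map_mul, map_pow, A2_j_ell hj] at h1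
    rw [← h1]
    refine Finset.sum_congr rfl fun i _ => ?_
    rw [map_mul, map_pow, map_pow, A2_j_X hj]
  have hell : ∀ n, ell F θ n ≠ 0 := fun n => (norm_ell (F := F) hθ (by omega) n).2
  have hf0 : f ≠ 0 := by
    intro h0
    have h1 := hval 2
    rw [h0] at h1
    simp only [coeff_zero, map_zero, zero_mul, Finset.sum_const_zero] at h1
    have h2 : j (c 2) = 0 := (mul_eq_zero.1 h1.symm).resolve_left (pow_ne_zero _ (hell 2))
    have h3 := hc 2 le_rfl
    rw [h2, norm_zero] at h3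
    linarith
  have hlead : 0 < ‖j (f.coeff f.natDegree)‖ := by
    rw [norm_pos_iff]
    intro h0
    rw [map_eq_zero] at h0
    exact hf0 (leadingCoeff_eq_zero.1 h0)
  -- `n` large
  obtain ⟨N, hN⟩ : ∃ N : ℕ, ∀ n, N ≤ n → ∀ i, i < f.natDegree →
      ‖j (f.coeff i)‖ < ‖j (f.coeff f.natDegree)‖ * ‖θ ^ (q ^ (n + 1))‖ := by
    have h1 : ∀ i, ∃ N : ℕ, ∀ n, N ≤ n →
        ‖j (f.coeff i)‖ < ‖j (f.coeff f.natDegree)‖ * ‖θ ^ (q ^ (n + 1))‖ := by
      intro i
      obtain ⟨N, hN⟩ := pow_unbounded_of_one_lt (‖j (f.coeff i)‖ / ‖j (f.coeff f.natDegree)‖) hθ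
      refine ⟨N, fun n hn => ?_⟩
      rw [norm_pow]
      have h2 : N ≤ q ^ (n + 1) := by
        have h3 : n + 1 < q ^ (n + 1) := Nat.lt_pow_self (by omega)
        omega
      have h3 : ‖θ‖ ^ N ≤ ‖θ‖ ^ (q ^ (n + 1)) := pow_le_pow_right₀ hθ.le h2
      rw [div_lt_iff₀ hlead] at hN
      nlinarith
    choose M hM using h1
    refine ⟨∑ i ∈ Finset.range f.natDegree, M i, fun n hn i hi => hM i n ?_⟩
    exact (Finset.single_le_sum (f := M) (fun _ _ => Nat.zero_le _)
      (Finset.mem_range.2 hi)).trans hn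
  have hsz : ∀ n, N ≤ n → 2 ≤ n → ‖j (f.coeff f.natDegree)‖ * ‖θ‖ ^ (q ^ (n + 1) * f.natDegree) =
      ‖ell F θ n‖ ^ r * κ := by
    intro n hn h2
    have h3 := A2_dom (fun i => j (f.coeff i)) f.natDegree (θ ^ (q ^ (n + 1))) (by
      rw [norm_pow]
      exact one_le_pow₀ hθ.le) (hN n hn)
    rw [hval n, norm_mul, norm_pow, hc n h2, norm_pow, ← pow_mul] at h3
    exact h3.symm
  set n := N + 2 with hn
  have e1 := hsz n (by omega) (by omega)
  have e2 := hsz (n + 1) (by omega) (by omega)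
  rw [(norm_ell (F := F) hθ (by omega) n).1, mul_pow] at e2
  have e3 : ‖j (f.coeff f.natDegree)‖ * ‖θ‖ ^ (q ^ (n + 1 + 1) * f.natDegree) =
      ‖j (f.coeff f.natDegree)‖ * (‖θ‖ ^ (q ^ (n + 1) * f.natDegree + q ^ (n + 1) * r)) := by
    have e7 : ‖θ‖ ^ (q ^ (n + 1) * f.natDegree + q ^ (n + 1) * r) =
        ‖θ‖ ^ (q ^ (n + 1) * f.natDegree) * (‖θ‖ ^ (q ^ (n + 1))) ^ r := by
      rw [pow_add, pow_mul ‖θ‖ (q ^ (n + 1)) r]
    rw [e2, e7, ← mul_assoc ‖j (f.coeff f.natDegree)‖, e1]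
    ring
  have e4 := mul_left_cancel₀ hlead.ne' e3
  have e5 : q ^ (n + 1 + 1) * f.natDegree = q ^ (n + 1) * f.natDegree + q ^ (n + 1) * r :=
    pow_right_injective₀ (zero_lt_one.trans hθ) hθ.ne' e4
  have hq0 : 0 < q ^ (n + 1) := by positivity
  have e6 : q * f.natDegree = f.natDegree + r := by
    have h1 : q ^ (n + 1) * (q * f.natDegree) = q ^ (n + 1) * (f.natDegree + r) := by
      rw [mul_add, ← e5, pow_succ q (n + 1)]
      ring
    exact Nat.eq_of_mul_eq_mul_left hq0 h1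
  rw [Nat.sub_mul, one_mul]
  omega

theorem parity {θ : K} (hθ : 1 < ‖θ‖) (hF : 2 < Fintype.card F) (s1 s2 : ℕ) (h1 : 1 ≤ s1)
    (h2 : 1 ≤ s2) (B U : (RatFunc F)[X])
    (hB : expand (RatFunc F) (Fintype.card F) B =
        (C RatFunc.X - X) ^ s2 * (B + hy F RatFunc.X (s2 - 1)))
    (hU : expand (RatFunc F) (Fintype.card F) U =
        (C RatFunc.X - X) ^ (s1 + s2) * (U + hy F RatFunc.X (s1 - 1) * B)) :
    ∃ a m, 1 ≤ a ∧ 1 ≤ m ∧ s1 = (Fintype.card F - 1) * a ∧ s2 = (Fintype.card F - 1) * m ∧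
      B = Bs (Fintype.card F) (Ey F (RatFunc.X : RatFunc F)) m ∧
      expand (RatFunc F) (Fintype.card F) U = (C RatFunc.X - X) ^ ((Fintype.card F - 1) * (a + m)) *
        (U + As (Fintype.card F) (Ey F RatFunc.X) 1 a * Bs (Fintype.card F) (Ey F RatFunc.X) m) := by
  obtain ⟨j, hj⟩ := exists_emb (F := F) hθ
  have htr := A2_transc (F := F)
  -- the powers of `t`
  have hinj : ∀ i k : ℕ, (RatFunc.X : RatFunc F) ^ (Fintype.card F ^ i) =
      RatFunc.X ^ (Fintype.card F ^ k) → i = k := by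
    intro i k h
    have h3 := congrArg j h
    rw [map_pow, map_pow, A2_j_X hj] at h3
    exact theta_pow_inj (F := F) hθ i k h3
  have ht : ∀ n, 1 ≤ n → (RatFunc.X : RatFunc F) ^ (Fintype.card F ^ n) ≠ RatFunc.X := by
    intro n hn h
    have h3 : n = 0 := hinj n 0 (by rw [pow_zero, pow_one]; exact h)
    omega
  -- values
  have hBv : ∀ n, B.eval ((RatFunc.X : RatFunc F) ^ (Fintype.card F ^ (n + 1))) =
      ell F RatFunc.X n ^ s2 * Slt F RatFunc.X n s2 := by
    intro n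
    exact A2_rec RatFunc.X s2 h2 B _ hB (fun n => Ssum F RatFunc.X n s2)
      (fun n => pow_sum _ htr n s2 h2) n
  have hUv : ∀ n, U.eval ((RatFunc.X : RatFunc F) ^ (Fintype.card F ^ (n + 1))) =
      ell F RatFunc.X n ^ (s1 + s2) * sig F RatFunc.X n s1 s2 := by
    intro n
    refine A2_rec RatFunc.X (s1 + s2) (by omega) U _ hU
      (fun n => Ssum F RatFunc.X n s1 * Slt F RatFunc.X n s2) (fun n => ?_) n
    rw [eval_mul, pow_sum _ htr n s1 h1, hBv n, pow_add]
    ring
  have hjS : ∀ n s, j (Slt F RatFunc.X n s) = Slt F θ n s := by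
    intro n s
    unfold Slt
    rw [map_sum]
    exact Finset.sum_congr rfl fun i _ => A2_j_Ssum hj i s
  have hjsig : ∀ n, j (sig F RatFunc.X n s1 s2) = sig F θ n s1 s2 := by
    intro n
    unfold sig
    rw [map_sum]
    refine Finset.sum_congr rfl fun i _ => ?_
    rw [map_mul, A2_j_Ssum hj, hjS]
  -- degrees
  have hBd : (Fintype.card F - 1) * B.natDegree = s2 :=
    A2_degree hθ hF hj s2 B _ 1 one_pos (fun n hn => by
      rw [hjS]
      exact norm_Slt hθ n s2 (by omega) h2) hBv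
  have hUd : (Fintype.card F - 1) * U.natDegree = s1 + s2 := by
    refine A2_degree hθ hF hj (s1 + s2) U _ ‖Ssum F θ 1 s1‖ ?_ (fun n hn => by
      rw [hjsig]
      exact (norm_sig hθ n s1 s2 hn h1 h2).1) hUv
    exact norm_pos_iff.2 (Ssum_decr hθ s1 h1).1
  -- the integers
  obtain ⟨q', hq'⟩ : ∃ q', Fintype.card F - 1 = q' := ⟨_, rfl⟩
  have hq2 : 2 ≤ q' := by omega
  rw [hq'] at hBd hUd
  have hlt : B.natDegree < U.natDegree := by
    by_contra hcon
    push Not at hcon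
    have h3 := Nat.mul_le_mul_left q' hcon
    omega
  obtain ⟨a, ha⟩ : ∃ a, U.natDegree = B.natDegree + a := ⟨U.natDegree - B.natDegree, by omega⟩
  have ha1 : 1 ≤ a := by omega
  have hm1 : 1 ≤ B.natDegree := by
    rcases Nat.eq_zero_or_pos B.natDegree with h0 | h0
    · rw [h0, mul_zero] at hBd
      omega
    · exact h0
  have hs1 : s1 = q' * a := by
    rw [ha, mul_add, hBd] at hUd
    omega
  have hs2 : s2 = q' * B.natDegree := hBd.symm
  have hA1 : hy F (RatFunc.X : RatFunc F) (s1 - 1) = As (Fintype.card F) (Ey F RatFunc.X) 1 a := by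
    have h3 := hy_eq_As hF (RatFunc.X : RatFunc F) a ha1
    rw [hq', ← hs1] at h3
    exact h3
  have hA2 : hy F (RatFunc.X : RatFunc F) (s2 - 1) =
      As (Fintype.card F) (Ey F RatFunc.X) 1 B.natDegree := by
    have h3 := hy_eq_As hF (RatFunc.X : RatFunc F) B.natDegree hm1
    rw [hq', ← hs2] at h3
    exact h3
  have hBB : B = Bs (Fintype.card F) (Ey F (RatFunc.X : RatFunc F)) B.natDegree := by
    have h3 := Bs_twist hF (RatFunc.X : RatFunc F) ht B.natDegree
    rw [hq', ← hs2] at h3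
    rw [hA2] at hB
    set Bm := Bs (Fintype.card F) (Ey F (RatFunc.X : RatFunc F)) B.natDegree with hBm
    have h4 : expand (RatFunc F) (Fintype.card F) (B - Bm) =
        (C RatFunc.X - X) ^ s2 * ((B - Bm) + 0) := by
      rw [map_sub, hB, h3]
      ring
    have h5 : ∀ n, (B - Bm).eval ((RatFunc.X : RatFunc F) ^ (Fintype.card F ^ (n + 1))) = 0 := by
      intro n
      have h6 := A2_rec (F := F) RatFunc.X s2 h2 (B - Bm) 0 h4 (fun _ => 0) (fun n => by simp) n
      rw [Finset.sum_const_zero, mul_zero] at h6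
      exact h6
    have h6 : B - Bm = 0 := by
      refine eq_zero_of_infinite_isRoot _ ?_
      refine Set.infinite_of_injective_forall_mem
        (f := fun n : ℕ => (RatFunc.X : RatFunc F) ^ (Fintype.card F ^ (n + 1))) ?_ ?_
      · intro a b hab
        have := hinj _ _ hab
        omega
      · intro n
        exact h5 n
    exact sub_eq_zero.1 h6
  refine ⟨a, B.natDegree, ha1, hm1, by rw [hq']; exact hs1, by rw [hq']; exact hs2, hBB, ?_⟩
  have hs12 : q' * (a + B.natDegree) = s1 + s2 := by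
    rw [Nat.mul_add, ← hs1, ← hs2]
  rw [← hBB, hq', hs12, ← hA1]
  exact hU

end Pool.Agent.MP33dd76
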