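import Mathlib
import Pool.Agent.Lib.MP_33dd76_nt.B1Inv

set_option autoImplicit false

open Polynomial

namespace Pool.Agent.MP33dd76

/-! # Module B2: sizes and degrees of `gh`, `Bh`, `Ah` -/

variable {K : Type*} [NormedField K] [IsUltrametricDist K] {p q : ℕ} {π : K}

private lemma B2_br_succ (q k : ℕ) : br q (k + 1) = 1 + q * br q k := by
  unfold br
  rw [Finset.sum_range_succ', Finset.mul_sum, pow_zero, add_comm]
  congr 1
  exact Finset.sum_congr rfl fun i _ => by rw [pow_succ']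

private lemma B2_br_zero (q : ℕ) : br q 0 = 0 := by simp [br]

omit [IsUltrametricDist K] in
private lemma B2_pos (H : Hyp K p q π) : 0 < ‖π‖ := norm_pos_iff.2 H.ne

theorem norm_sq_succ (H : Hyp K p q π) (k : ℕ) : ‖sq q π (k + 1)‖ = (‖π‖⁻¹) ^ (br q k) := by
  have hq : q ≠ 0 := by have := H.two; omega
  induction k with
  | zero => simp [sq, B2_br_zero, hq]
  | succ k ih =>
    have e : sq q π (k + 1 + 1) = 1 + π⁻¹ * (sq q π (k + 1)) ^ q := rfl
    have h1 : ‖π⁻¹ * (sq q π (k + 1)) ^ q‖ = (‖π‖⁻¹) ^ (br q (k + 1)) := by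
      rw [norm_mul, norm_inv, norm_pow, ih, ← pow_mul, B2_br_succ, pow_add, pow_one,
        mul_comm (br q k) q]
    have hgt : 1 < (‖π‖⁻¹) ^ (br q (k + 1)) := by
      have h2 : 1 < ‖π‖⁻¹ := (one_lt_inv₀ (B2_pos H)).2 H.lt
      refine one_lt_pow₀ h2 ?_
      rw [B2_br_succ]
      omega
    rw [e, IsUltrametricDist.norm_add_eq_max_of_norm_ne_norm, h1, norm_one, max_eq_right hgt.le]
    rw [h1, norm_one]
    exact hgt.ne

theorem Fil.mul {k l : ℕ} {f g : K[X]} (h : ‖π‖ ≤ 1) (hf : Fil π k f) (hg : Fil π l g) :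
    Fil π (k + l) (f * g) := by
  intro n
  rw [coeff_mul]
  refine IsUltrametricDist.norm_sum_le_of_forall_le_of_nonneg (by positivity) ?_
  rintro ⟨i, j⟩ hij
  rw [Finset.HasAntidiagonal.mem_antidiagonal] at hij
  simp only at hij ⊢
  rw [norm_mul]
  calc ‖f.coeff i‖ * ‖g.coeff j‖ ≤ ‖π‖ ^ (k - i) * ‖π‖ ^ (l - j) :=
        mul_le_mul (hf i) (hg j) (norm_nonneg _) (by positivity)
    _ = ‖π‖ ^ ((k - i) + (l - j)) := by rw [pow_add]
    _ ≤ ‖π‖ ^ (k + l - n) := pow_le_pow_of_le_one (norm_nonneg _) h (by omega)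

theorem Fil.add {k : ℕ} {f g : K[X]} (hf : Fil π k f) (hg : Fil π k g) : Fil π k (f + g) := by
  intro n
  rw [coeff_add]
  exact (IsUltrametricDist.norm_add_le_max _ _).trans (max_le (hf n) (hg n))

theorem Fil.mono {k l : ℕ} {f : K[X]} (h : ‖π‖ ≤ 1) (hf : Fil π k f) (hl : l ≤ k) :
    Fil π l f := by
  intro n
  exact (hf n).trans (pow_le_pow_of_le_one (norm_nonneg _) h (by omega))

private lemma B2_norm_sub (a b : K) : ‖a - b‖ ≤ max ‖a‖ ‖b‖ := by
  rw [sub_eq_add_neg]
  refine (IsUltrametricDist.norm_add_le_max _ _).trans ?_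
  rw [norm_neg]

omit [IsUltrametricDist K] in
private lemma B2_fil_zero (k : ℕ) : Fil π k (0 : K[X]) := by
  intro n
  rw [coeff_zero, norm_zero]
  positivity

omit [IsUltrametricDist K] in
private lemma B2_fil_one : Fil π 0 (1 : K[X]) := by
  intro n
  rw [coeff_one]
  split_ifs <;> simp

omit [IsUltrametricDist K] in
private lemma B2_fil_neg {k : ℕ} {f : K[X]} (hf : Fil π k f) : Fil π k (-f) := by
  intro n
  rw [coeff_neg, norm_neg]
  exact hf n

private lemma B2_fil_pow {k : ℕ} {f : K[X]} (h : ‖π‖ ≤ 1) (hf : Fil π k f) (n : ℕ) :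
    Fil π (n * k) (f ^ n) := by
  induction n with
  | zero =>
    rw [zero_mul, pow_zero]
    exact B2_fil_one
  | succ n ih =>
    rw [pow_succ, add_mul, one_mul]
    exact ih.mul h hf

omit [IsUltrametricDist K] in
private lemma B2_fil_X (i : ℕ) : Fil π i (X ^ i : K[X]) := by
  intro n
  rw [coeff_X_pow]
  split_ifs with h
  · subst h; simp
  · rw [norm_zero]; positivity

private lemma B2_gh_one (H : Hyp K p q π) : gh q π 1 = -1 := by
  have hq : q ≠ 0 := by have := H.two; omega
  have e : gh q π (0 + 1) = (X - (1 + X) * C (sq q π (0 + 1))⁻¹) * (gh q π 0) ^ q := rfl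
  have e2 : sq q π (0 + 1) = 1 := by simp [sq, hq]
  rw [zero_add] at e e2
  rw [e, e2]
  simp [gh]

private lemma B2_fac (H : Hyp K p q π) (k : ℕ) :
    Fil π 1 (X - (1 + X) * C (sq q π (k + 1 + 1))⁻¹ : K[X]) := by
  have hs : ‖(sq q π (k + 1 + 1))⁻¹‖ = ‖π‖ ^ (br q (k + 1)) := by
    rw [norm_inv, norm_sq_succ H, inv_pow, inv_inv]
  have h1 : ‖(sq q π (k + 1 + 1))⁻¹‖ ≤ ‖π‖ := by
    rw [hs]
    exact pow_le_of_le_one (norm_nonneg _) H.lt.le (by rw [B2_br_succ]; omega)
  intro n
  rw [coeff_sub, coeff_mul_C, coeff_add, coeff_one, coeff_X]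
  rcases n with _ | _ | n
  · simpa using h1
  · simp only [zero_add, ↓reduceIte, one_ne_zero, one_mul, Nat.sub_self, pow_zero]
    refine (B2_norm_sub _ _).trans (max_le ?_ ?_)
    · rw [norm_one]
    · exact h1.trans H.lt.le
  · have e1 : ¬ (n + 1 + 1 = 0) := by omega
    have e2 : ¬ (1 = n + 1 + 1) := by omega
    rw [if_neg e1, if_neg e2]
    simp

theorem gh_fil (H : Hyp K p q π) (k : ℕ) : Fil π (br q k) (gh q π (k + 1)) := by
  induction k with
  | zero =>
    rw [zero_add, B2_gh_one H, B2_br_zero]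
    exact B2_fil_neg B2_fil_one
  | succ k ih =>
    have e : gh q π (k + 1 + 1) =
      (X - (1 + X) * C (sq q π (k + 1 + 1))⁻¹) * (gh q π (k + 1)) ^ q := rfl
    rw [e, B2_br_succ]
    exact (B2_fac H k).mul H.lt.le (B2_fil_pow H.lt.le ih q)

omit [IsUltrametricDist K] in
private lemma B2_fac_deg (c : K) : (X - (1 + X) * C c : K[X]).natDegree ≤ 1 := by
  refine (natDegree_sub_le _ _).trans (max_le natDegree_X_le ?_)
  refine (natDegree_mul_C_le _ _).trans ?_
  refine (natDegree_add_le _ _).trans (max_le ?_ natDegree_X_le)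
  rw [natDegree_one]
  omega

theorem gh_deg (H : Hyp K p q π) (k : ℕ) : (gh q π (k + 1)).natDegree ≤ br q k := by
  induction k with
  | zero =>
    rw [zero_add, B2_gh_one H, B2_br_zero, natDegree_neg, natDegree_one]
  | succ k ih =>
    have e : gh q π (k + 1 + 1) =
      (X - (1 + X) * C (sq q π (k + 1 + 1))⁻¹) * (gh q π (k + 1)) ^ q := rfl
    rw [e, B2_br_succ]
    refine natDegree_mul_le.trans (add_le_add (B2_fac_deg _) ?_)
    exact natDegree_pow_le.trans (Nat.mul_le_mul_left _ ih)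

/-! ### the coefficients of `ser q gh` -/

private lemma B2_coeff (H : Hyp K p q π) (n : ℕ) :
    (n = 0 ∧ PowerSeries.coeff n (ser q (gh q π)) = 1) ∨
    (∃ k, n = br q (k + 1) ∧ PowerSeries.coeff n (ser q (gh q π)) = gh q π (k + 1)) ∨
    (PowerSeries.coeff n (ser q (gh q π)) = 0) := by
  have hq : 2 ≤ q := H.two.le
  by_cases h : ∃ k, br q k = n
  · obtain ⟨k, rfl⟩ := h
    rcases k with _ | k
    · left
      exact ⟨B2_br_zero q, by rw [ser_coeff_br q hq]; rfl⟩
    · right; left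
      exact ⟨k, rfl, ser_coeff_br q hq _ _⟩
  · right; right
    push Not at h
    exact ser_coeff_ne q _ n h

private lemma B2_Bh_zero (H : Hyp K p q π) : Bh q π 0 = 1 := by
  unfold Bh Bs
  rw [PowerSeries.coeff_invOfUnit]
  simp

private lemma B2_rec (H : Hyp K p q π) (n : ℕ) : Bh q π (n + 1) =
    -∑ x ∈ Finset.HasAntidiagonal.antidiagonal n, PowerSeries.coeff (x.1 + 1) (ser q (gh q π)) * Bh q π x.2 := by
  have hc : PowerSeries.constantCoeff (ser q (gh q π)) = ((1 : (K[X])ˣ) : K[X]) := by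
    rw [ser_const]; rfl
  have h1 := PowerSeries.mul_invOfUnit (ser q (gh q π)) 1 hc
  have h2 := congrArg (PowerSeries.coeff (n + 1)) h1
  rw [PowerSeries.coeff_mul, PowerSeries.coeff_one, if_neg (by omega),
    Finset.Nat.sum_antidiagonal_succ] at h2
  have h0 : PowerSeries.coeff 0 (ser q (gh q π)) = 1 := by
    rw [PowerSeries.coeff_zero_eq_constantCoeff, ser_const]; rfl
  rw [h0, one_mul] at h2
  exact eq_neg_of_add_eq_zero_left h2

/-- a principle of induction for `Bh` -/
private lemma B2_ind (H : Hyp K p q π) (P : ℕ → K[X] → Prop) (h0 : ∀ n, P n 0)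
    (hadd : ∀ n f g, P n f → P n g → P n (f + g)) (hneg : ∀ n f, P n f → P n (-f))
    (hmul : ∀ a b f g, P a f → P b g → P (a + b) (f * g)) (h1 : P 0 1)
    (hE : ∀ n, P n (PowerSeries.coeff n (ser q (gh q π)))) (n : ℕ) : P n (Bh q π n) := by
  induction n using Nat.strong_induction_on with
  | _ n ih =>
    rcases n with _ | n
    · rw [B2_Bh_zero H]; exact h1
    · rw [B2_rec H]
      refine hneg _ _ (Finset.sum_induction _ (P (n + 1)) (hadd _) (h0 _) ?_)
      rintro ⟨i, j⟩ hij
      rw [Finset.HasAntidiagonal.mem_antidiagonal] at hij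
      simp only at hij ⊢
      have e : n + 1 = (i + 1) + j := by omega
      rw [e]
      exact hmul _ _ _ _ (hE _) (ih j (by omega))

/-- a principle of induction for the powers -/
private lemma B2_indpow (P : ℕ → K[X] → Prop) (h0 : ∀ n, P n 0)
    (hadd : ∀ n f g, P n f → P n g → P n (f + g))
    (hmul : ∀ a b f g, P a f → P b g → P (a + b) (f * g)) (h1 : P 0 1)
    (hE : ∀ n, P n (PowerSeries.coeff n (ser q (gh q π)))) (N : ℕ) :
    ∀ n, P n (PowerSeries.coeff n (ser q (gh q π) ^ N)) := by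
  induction N with
  | zero =>
    intro n
    rw [pow_zero, PowerSeries.coeff_one]
    split_ifs with h
    · subst h; exact h1
    · exact h0 n
  | succ N ih =>
    intro n
    rw [pow_succ', PowerSeries.coeff_mul]
    refine Finset.sum_induction _ (P n) (hadd _) (h0 _) ?_
    rintro ⟨i, j⟩ hij
    rw [Finset.HasAntidiagonal.mem_antidiagonal] at hij
    simp only at hij ⊢
    rw [← hij]
    exact hmul _ _ _ _ (hE _) (ih j)

/-- the degree predicate -/
private def B2_PD (q : ℕ) (n : ℕ) (f : K[X]) : Prop := q * f.natDegree ≤ n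

omit [IsUltrametricDist K] in
private lemma B2_PD_zero (n : ℕ) : B2_PD q n (0 : K[X]) := by
  unfold B2_PD; simp

omit [IsUltrametricDist K] in
private lemma B2_PD_one : B2_PD q 0 (1 : K[X]) := by
  unfold B2_PD; simp

omit [IsUltrametricDist K] in
private lemma B2_PD_add (n : ℕ) (f g : K[X]) (hf : B2_PD q n f) (hg : B2_PD q n g) :
    B2_PD q n (f + g) := by
  unfold B2_PD at *
  have h := natDegree_add_le f g
  rcases le_max_iff.1 h with h | h
  · exact (Nat.mul_le_mul_left _ h).trans hf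
  · exact (Nat.mul_le_mul_left _ h).trans hg

omit [IsUltrametricDist K] in
private lemma B2_PD_neg (n : ℕ) (f : K[X]) (hf : B2_PD q n f) : B2_PD q n (-f) := by
  unfold B2_PD at *
  rwa [natDegree_neg]

omit [IsUltrametricDist K] in
private lemma B2_PD_mul (a b : ℕ) (f g : K[X]) (hf : B2_PD q a f) (hg : B2_PD q b g) :
    B2_PD q (a + b) (f * g) := by
  unfold B2_PD at *
  have h := natDegree_mul_le (p := f) (q := g)
  calc q * (f * g).natDegree ≤ q * (f.natDegree + g.natDegree) := Nat.mul_le_mul_left _ h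
    _ = q * f.natDegree + q * g.natDegree := by ring
    _ ≤ a + b := add_le_add hf hg

private lemma B2_PD_E (H : Hyp K p q π) (n : ℕ) :
    B2_PD q n (PowerSeries.coeff n (ser q (gh q π))) := by
  rcases B2_coeff H n with ⟨h, e⟩ | ⟨k, h, e⟩ | e
  · rw [e, h]; exact B2_PD_one
  · rw [e, h, B2_br_succ]
    unfold B2_PD
    have := Nat.mul_le_mul_left q (gh_deg H k)
    omega
  · rw [e]; exact B2_PD_zero n

theorem Bh_deg (H : Hyp K p q π) (m : ℕ) : (Bh q π m).natDegree ≤ m / q := by
  have h := B2_ind H (B2_PD q) B2_PD_zero B2_PD_add B2_PD_neg B2_PD_mul B2_PD_one (B2_PD_E H) m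
  rw [Nat.le_div_iff_mul_le (by have := H.two; omega), mul_comm]
  exact h

private lemma B2_fil_E (H : Hyp K p q π) (n : ℕ) :
    Fil π 0 (PowerSeries.coeff n (ser q (gh q π))) := by
  rcases B2_coeff H n with ⟨h, e⟩ | ⟨k, h, e⟩ | e
  · rw [e]; exact B2_fil_one
  · rw [e]; exact (gh_fil H k).mono H.lt.le (Nat.zero_le _)
  · rw [e]; exact B2_fil_zero 0

theorem Bh_fil (H : Hyp K p q π) (m : ℕ) : Fil π 0 (Bh q π m) :=
  B2_ind H (fun _ f => Fil π 0 f) (fun _ => B2_fil_zero 0) (fun _ _ _ hf hg => hf.add hg)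
    (fun _ _ hf => B2_fil_neg hf) (fun _ _ _ _ hf hg => Fil.mul H.lt.le hf hg) B2_fil_one
    (B2_fil_E H) m

private lemma B2_fil_Epow (H : Hyp K p q π) (N n : ℕ) :
    Fil π 0 (PowerSeries.coeff n (ser q (gh q π) ^ N)) :=
  B2_indpow (fun _ f => Fil π 0 f) (fun _ => B2_fil_zero 0) (fun _ _ _ hf hg => hf.add hg)
    (fun _ _ _ _ hf hg => Fil.mul H.lt.le hf hg) B2_fil_one (B2_fil_E H) N n

theorem Bh_zero (H : Hyp K p q π) (m : ℕ) : ‖(Bh q π m).coeff 0 - 1‖ < 1 := by
  have hq : 2 ≤ q := H.two.le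
  refine lt_of_le_of_lt ?_ H.lt
  induction m with
  | zero =>
    rw [B2_Bh_zero H, coeff_one_zero, sub_self, norm_zero]
    exact norm_nonneg _
  | succ n ih =>
    -- the term with `i = 1`
    have hmem : ((0, n) : ℕ × ℕ) ∈ Finset.HasAntidiagonal.antidiagonal n := by
      rw [Finset.HasAntidiagonal.mem_antidiagonal]; simp
    have hbr1 : br q 1 = 1 := by
      have := B2_br_succ q 0
      rw [B2_br_zero] at this
      simpa using this
    have hE1 : PowerSeries.coeff (0 + 1) (ser q (gh q π)) = -1 := by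
      have h2 := ser_coeff_br q hq (gh q π) 1
      rw [hbr1] at h2
      rw [zero_add, h2, B2_gh_one H]
    have e1 : (Bh q π (n + 1)).coeff 0 - 1 = ((Bh q π n).coeff 0 - 1) -
        ∑ x ∈ (Finset.HasAntidiagonal.antidiagonal n).erase (0, n),
          (PowerSeries.coeff (x.1 + 1) (ser q (gh q π)) * Bh q π x.2).coeff 0 := by
      rw [B2_rec H, ← Finset.add_sum_erase _ _ hmem]
      simp only
      rw [hE1, coeff_neg, coeff_add, finsetSum_coeff]
      simp only [neg_mul, one_mul, coeff_neg]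
      ring
    rw [e1]
    refine (B2_norm_sub _ _).trans (max_le ih ?_)
    refine IsUltrametricDist.norm_sum_le_of_forall_le_of_nonneg (norm_nonneg _) ?_
    rintro ⟨i, j⟩ hij
    rw [Finset.mem_erase, Finset.HasAntidiagonal.mem_antidiagonal] at hij
    simp only at hij ⊢
    rw [mul_coeff_zero, norm_mul]
    have hB : ‖(Bh q π j).coeff 0‖ ≤ 1 := by simpa using Bh_fil H j 0
    have hi : i ≠ 0 := by
      rintro rfl
      apply hij.1
      rw [← hij.2, zero_add]
    have hE : ‖(PowerSeries.coeff (i + 1) (ser q (gh q π))).coeff 0‖ ≤ ‖π‖ := by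
      rcases B2_coeff H (i + 1) with ⟨h, e⟩ | ⟨k, h, e⟩ | e
      · omega
      · rw [e]
        rcases k with _ | k
        · rw [zero_add, hbr1] at h
          omega
        · refine (gh_fil H (k + 1) 0).trans ?_
          refine pow_le_of_le_one (norm_nonneg _) H.lt.le ?_
          rw [B2_br_succ]
          omega
      · rw [e, coeff_zero, norm_zero]
        exact norm_nonneg _
    calc ‖(PowerSeries.coeff (i + 1) (ser q (gh q π))).coeff 0‖ * ‖(Bh q π j).coeff 0‖
        ≤ ‖π‖ * 1 := mul_le_mul hE hB (norm_nonneg _) (norm_nonneg _)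
      _ = ‖π‖ := mul_one _

/-- the filtration of the coefficients of the powers -/
private lemma B2_key (H : Hyp K p q π) (N : ℕ) : ∀ n j : ℕ, q * j + N < n + q →
    Fil π j (PowerSeries.coeff n (ser q (gh q π) ^ N)) := by
  induction N with
  | zero =>
    intro n j h
    rw [pow_zero, PowerSeries.coeff_one]
    split_ifs with h0
    · subst h0
      have hj : j = 0 := by
        by_contra hj
        have : q * 1 ≤ q * j := Nat.mul_le_mul_left _ (Nat.one_le_iff_ne_zero.2 hj)
        omega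
      subst hj
      exact B2_fil_one
    · exact B2_fil_zero j
  | succ N ih =>
    intro n j h
    rw [pow_succ', PowerSeries.coeff_mul]
    refine Finset.sum_induction _ (Fil π j) (fun _ _ hf hg => hf.add hg) (B2_fil_zero _) ?_
    rintro ⟨i, l⟩ hij
    rw [Finset.HasAntidiagonal.mem_antidiagonal] at hij
    simp only at hij ⊢
    rcases B2_coeff H i with ⟨h1, e⟩ | ⟨k, h1, e⟩ | e
    · rw [e, one_mul]
      exact ih l j (by omega)
    · rw [e]
      rw [B2_br_succ] at h1
      rcases Nat.lt_or_ge j (br q k) with hj | hj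
      · have h2 := Fil.mul H.lt.le (gh_fil H k) (B2_fil_Epow H N l)
        exact h2.mono H.lt.le (by omega)
      · obtain ⟨j', rfl⟩ : ∃ j', j = br q k + j' := ⟨j - br q k, by omega⟩
        refine Fil.mul H.lt.le (gh_fil H k) (ih l j' ?_)
        rw [mul_add] at h
        omega
    · rw [e, zero_mul]
      exact B2_fil_zero j

theorem Ah_fil (H : Hyp K p q π) (m : ℕ) (hm : 1 ≤ m) : Fil π (m / q + 1) (Ah q π m) := by
  have hq : 2 < q := H.two
  unfold Ah As
  refine Finset.sum_induction _ (Fil π (m / q + 1)) (fun _ _ hf hg => hf.add hg)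
    (B2_fil_zero _) ?_
  intro i hi
  rw [Finset.mem_Icc] at hi
  rcases Nat.lt_or_ge (m / q + 1) i with h1 | h1
  · exact (Fil.mul H.lt.le (B2_fil_X i) (B2_fil_Epow H _ _)).mono H.lt.le (by omega)
  · obtain ⟨j, hj⟩ : ∃ j, m / q + 1 = i + j := ⟨m / q + 1 - i, by omega⟩
    rw [hj]
    refine Fil.mul H.lt.le (B2_fil_X i) (B2_key H _ _ _ ?_)
    have h2 : q * (m / q + 1) ≤ m + q := by
      have := Nat.mul_div_le m q
      rw [mul_add]
      omega
    rw [hj, mul_add] at h2
    have h3 : (q - 1) * i + i = q * i := by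
      obtain ⟨r, rfl⟩ : ∃ r, q = r + 1 := ⟨q - 1, by omega⟩
      rw [Nat.add_sub_cancel]
      ring
    have h4 : i ≤ (q - 1) * i := Nat.le_mul_of_pos_left i (by omega)
    omega

theorem Ah_deg (H : Hyp K p q π) (m : ℕ) (hm : 1 ≤ m) :
    (Ah q π m).natDegree ≤ m ∧ (Ah q π m).coeff m = 1 := by
  have hq : 2 < q := H.two
  have hdeg : ∀ N l, q * (PowerSeries.coeff l (ser q (gh q π) ^ N)).natDegree ≤ l := fun N l =>
    B2_indpow (B2_PD q) B2_PD_zero B2_PD_add B2_PD_mul B2_PD_one (B2_PD_E H) N l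
  have hdeg2 : ∀ N l, (PowerSeries.coeff l (ser q (gh q π) ^ N)).natDegree ≤ l := fun N l =>
    (Nat.le_mul_of_pos_left _ (by omega)).trans (hdeg N l)
  have hterm : ∀ i ∈ Finset.Icc 1 m, (X ^ i * PowerSeries.coeff (m - i)
      (ser q (gh q π) ^ ((q - 1) * i - 1))).natDegree ≤ m := by
    intro i hi
    rw [Finset.mem_Icc] at hi
    refine natDegree_mul_le.trans ?_
    rw [natDegree_X_pow]
    have := hdeg2 ((q - 1) * i - 1) (m - i)
    omega
  constructor
  · unfold Ah As
    exact natDegree_sum_le_of_forall_le _ _ hterm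
  · unfold Ah As
    rw [finsetSum_coeff, Finset.sum_eq_single m]
    · rw [Nat.sub_self, PowerSeries.coeff_zero_eq_constantCoeff, map_pow, ser_const]
      have e : gh q π 0 = 1 := rfl
      rw [e, one_pow, mul_one, coeff_X_pow_self]
    · intro i hi him
      rw [Finset.mem_Icc] at hi
      refine coeff_eq_zero_of_natDegree_lt ?_
      refine lt_of_le_of_lt natDegree_mul_le ?_
      rw [natDegree_X_pow]
      have h1 := hdeg ((q - 1) * i - 1) (m - i)
      rcases Nat.eq_zero_or_pos (PowerSeries.coeff (m - i)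
        (ser q (gh q π) ^ ((q - 1) * i - 1))).natDegree with h2 | h2
      · omega
      · have h3 : 2 * (PowerSeries.coeff (m - i)
            (ser q (gh q π) ^ ((q - 1) * i - 1))).natDegree ≤ m - i :=
          (Nat.mul_le_mul_right _ hq.le).trans h1
        omega
    · intro h
      exact absurd (Finset.mem_Icc.2 ⟨hm, le_rfl⟩) h

end Pool.Agent.MP33dd76
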