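import Mathlib
import Pool.Agent.Lib.MP_33dd76_nt.ADefs
import Pool.Agent.Lib.MP_33dd76_nt.A13Ey
import Pool.Agent.Lib.MP_33dd76_nt.B2Size

set_option autoImplicit false

open Polynomial

namespace Pool.Agent.MP33dd76

/-! # Module A22: the bridge to the variable `v` -/

variable {F : Type*} [Field F] [Fintype F] {K : Type*} [NormedField K] [IsUltrametricDist K]
  [CompleteSpace K] [Algebra F K]

/-! ### change of coefficients and scaling for `Bs` and `As` -/

private theorem A2_inv_unique {R : Type*} [CommRing R] (e e' : PowerSeries R)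
    (he : PowerSeries.constantCoeff e = 1) (h : e * e' = 1) : e' = PowerSeries.invOfUnit e 1 := by
  have h1 : e * PowerSeries.invOfUnit e 1 = 1 :=
    PowerSeries.mul_invOfUnit e 1 (by rw [he]; rfl)
  calc e' = e' * (e * PowerSeries.invOfUnit e 1) := by rw [h1, mul_one]
    _ = (e * e') * PowerSeries.invOfUnit e 1 := by ring
    _ = _ := by rw [h, one_mul]

private theorem A2_ser_map {R S : Type*} [CommRing R] [CommRing S] (q : ℕ) (f : R →+* S)
    (g : ℕ → R) : PowerSeries.map f (ser q g) = ser q (fun k => f (g k)) := by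
  ext n
  rw [PowerSeries.coeff_map]
  unfold ser
  rw [PowerSeries.coeff_mk, PowerSeries.coeff_mk, map_sum]
  refine Finset.sum_congr rfl fun k _ => ?_
  split_ifs <;> simp

private theorem A2_ser_scale {S : Type*} [CommRing S] (q : ℕ) (v : S)
    (g : ℕ → S) : PowerSeries.rescale v (ser q g) = ser q (fun k => v ^ (br q k) * g k) := by
  ext n
  rw [PowerSeries.coeff_rescale]
  unfold ser
  rw [PowerSeries.coeff_mk, PowerSeries.coeff_mk, Finset.mul_sum]
  refine Finset.sum_congr rfl fun k _ => ?_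
  split_ifs with h
  · rw [← h]
  · rw [mul_zero]

private theorem A2_Bs_map {R S : Type*} [CommRing R] [CommRing S] (q : ℕ) (f : R →+* S)
    (g : ℕ → R) (hg : g 0 = 1) (m : ℕ) : f (Bs q g m) = Bs q (fun k => f (g k)) m := by
  unfold Bs
  rw [← PowerSeries.coeff_map]
  congr 1
  apply A2_inv_unique
  · rw [ser_const, hg, map_one]
  · rw [← A2_ser_map, ← map_mul, PowerSeries.mul_invOfUnit, map_one]
    rw [ser_const, hg]
    rfl

private theorem A2_As_map {R S : Type*} [CommRing R] [CommRing S] (q : ℕ) (f : R →+* S)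
    (g : ℕ → R) (z : R) (m : ℕ) : f (As q g z m) = As q (fun k => f (g k)) (f z) m := by
  unfold As
  rw [map_sum]
  refine Finset.sum_congr rfl fun i _ => ?_
  rw [map_mul, map_pow, ← PowerSeries.coeff_map, map_pow, A2_ser_map]

private theorem A2_br_zero (q : ℕ) : br q 0 = 0 := by simp [br]

private theorem A2_br_succ (q k : ℕ) : br q (k + 1) = 1 + q * br q k := by
  unfold br
  rw [Finset.sum_range_succ', Finset.mul_sum, pow_zero, add_comm]
  congr 1
  exact Finset.sum_congr rfl fun i _ => by rw [pow_succ']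

private theorem A2_Bs_scale {S : Type*} [CommRing S] (q : ℕ) (v : S)
    (g : ℕ → S) (hg : g 0 = 1) (m : ℕ) :
    v ^ m * Bs q g m = Bs q (fun k => v ^ (br q k) * g k) m := by
  unfold Bs
  rw [← PowerSeries.coeff_rescale]
  congr 1
  apply A2_inv_unique
  · rw [ser_const, hg, A2_br_zero, pow_zero, mul_one]
  · rw [← A2_ser_scale, ← map_mul, PowerSeries.mul_invOfUnit, map_one]
    rw [ser_const, hg]
    rfl

private theorem A2_As_scale {S : Type*} [CommRing S] (q : ℕ) (v : S)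
    (g : ℕ → S) (z : S) (m : ℕ) :
    v ^ m * As q g z m = As q (fun k => v ^ (br q k) * g k) (v * z) m := by
  unfold As
  rw [Finset.mul_sum]
  refine Finset.sum_congr rfl fun i hi => ?_
  rw [← A2_ser_scale, ← map_pow, PowerSeries.coeff_rescale, mul_pow]
  have hi' := (Finset.mem_Icc.mp hi).2
  have : v ^ m = v ^ i * v ^ (m - i) := by
    rw [← pow_add]
    congr 1
    omega
  rw [this]
  ring

/-! ### Frobenius -/

private theorem A2_add_pow {F : Type*} [Field F] [Fintype F] {R : Type*} [CommRing R]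
    (f : F →+* R) (x y : R) :
    (x + y) ^ Fintype.card F = x ^ Fintype.card F + y ^ Fintype.card F := by
  letI := f.toAlgebra
  have := map_add (FiniteField.frobeniusAlgHom F R) x y
  simpa using this

private theorem A2_sub_pow {F : Type*} [Field F] [Fintype F] {R : Type*} [CommRing R]
    (f : F →+* R) (x y : R) :
    (x - y) ^ Fintype.card F = x ^ Fintype.card F - y ^ Fintype.card F := by
  letI := f.toAlgebra
  have := map_sub (FiniteField.frobeniusAlgHom F R) x y
  simpa using this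

private theorem A2_neg_one_pow {F : Type*} [Field F] [Fintype F] {R : Type*} [CommRing R]
    (f : F →+* R) : (-1 : R) ^ (Fintype.card F - 1) = 1 := by
  have h := FiniteField.pow_card_sub_one_eq_one (-1 : F) (neg_ne_zero.2 one_ne_zero)
  have h2 := congrArg f h
  rw [map_pow, map_neg, map_one] at h2
  exact h2

/-! ### the structure of `U` -/

private theorem A2_struct {L : Type*} [Field L] (q M : ℕ) (hq : 2 < q) (ϖ : L) (hϖ : ϖ ≠ 0)
    (Ut W P : L[X]) (hW : W.natDegree ≤ Ut.natDegree) (hP : P.natDegree ≤ M)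
    (h : Ut.comp (C ϖ * X ^ q) = C (ϖ ^ M) * (X ^ ((q - 1) * M) * (W + P))) :
    Ut.natDegree ≤ M ∧ ∀ j, q * j < (q - 1) * M → Ut.coeff j = 0 := by
  constructor
  · by_contra hcon
    push Not at hcon
    have h1 := congrArg Polynomial.natDegree h
    rw [Polynomial.natDegree_comp, Polynomial.natDegree_C_mul_X_pow q ϖ hϖ] at h1
    have h2 : (C (ϖ ^ M) * (X ^ ((q - 1) * M) * (W + P))).natDegree ≤
        (q - 1) * M + Ut.natDegree := by
      refine (Polynomial.natDegree_C_mul_le _ _).trans ?_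
      refine Polynomial.natDegree_mul_le.trans ?_
      rw [Polynomial.natDegree_X_pow]
      refine Nat.add_le_add_left ?_ _
      refine (Polynomial.natDegree_add_le _ _).trans ?_
      exact max_le hW (hP.trans hcon.le)
    rw [← h1] at h2
    obtain ⟨r, rfl⟩ : ∃ r, q = r + 1 := ⟨q - 1, by omega⟩
    rw [Nat.add_sub_cancel] at h2
    have h3 : r * M < r * Ut.natDegree := Nat.mul_lt_mul_of_pos_left hcon (by omega)
    nlinarith
  · intro j hj
    have h1 : Ut.comp (C ϖ * X ^ q) = expand L q (Ut.comp (C ϖ * X)) := by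
      rw [Polynomial.expand_eq_comp_X_pow, Polynomial.comp_assoc]
      simp
    rw [h1] at h
    have h2 := congrArg (fun f => Polynomial.coeff f (j * q)) h
    rw [Polynomial.coeff_expand_mul (by omega), Polynomial.comp_C_mul_X_coeff,
      Polynomial.coeff_C_mul, Polynomial.coeff_X_pow_mul', if_neg (by rw [mul_comm j q]; omega),
      mul_zero] at h2
    exact (mul_eq_zero.1 h2).resolve_right (pow_ne_zero _ hϖ)

private theorem A2_eval {L E : Type*} [Field L] [Field E] (k0 : L →+* E) (q M : ℕ) (hq : 2 < q)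
    (Ut : L[X]) (hd : Ut.natDegree ≤ M) (h0 : ∀ j, q * j < (q - 1) * M → Ut.coeff j = 0) (x : E) :
    eval₂ k0 x Ut = ∑ i ∈ Finset.range (M / q + 1), k0 (Ut.coeff (M - i)) * x ^ (M - i) := by
  rw [Polynomial.eval₂_eq_sum_range' k0 (Nat.lt_succ_of_le hd) x, ← Finset.sum_range_reflect]
  symm
  have e : ∀ j, M + 1 - 1 - j = M - j := fun j => by omega
  have hsub : Finset.range (M / q + 1) ⊆ Finset.range (M + 1) := by
    intro i hi
    rw [Finset.mem_range] at hi ⊢
    have := Nat.div_le_self M q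
    omega
  have h1 : ∑ j ∈ Finset.range M.succ, k0 (Ut.coeff (M.succ - 1 - j)) * x ^ (M.succ - 1 - j) =
      ∑ j ∈ Finset.range (M + 1), k0 (Ut.coeff (M - j)) * x ^ (M - j) := by
    refine Finset.sum_congr rfl fun j _ => ?_
    rw [Nat.succ_sub_one]
  rw [h1]
  refine Finset.sum_subset hsub fun i hi hi' => ?_
  rw [Finset.mem_range] at hi hi'
  rw [h0, map_zero, zero_mul]
  have h2 : M / q < i := by omega
  rw [Nat.div_lt_iff_lt_mul (by omega)] at h2
  obtain ⟨r, rfl⟩ : ∃ r, q = r + 1 := ⟨q - 1, by omega⟩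
  obtain ⟨s, rfl⟩ : ∃ s, M = i + s := ⟨M - i, by omega⟩
  rw [Nat.add_sub_cancel, Nat.add_sub_cancel_left]
  nlinarith

private theorem A2_sq_eq {L : Type*} [Field L] [Algebra F L] (t : L)
    (ht : t ^ Fintype.card F - t ≠ 0) (k : ℕ) :
    sq (Fintype.card F) (((t ^ Fintype.card F - t) ^ (Fintype.card F - 1))⁻¹) k =
      (t ^ (Fintype.card F ^ k) - t) / (t ^ Fintype.card F - t) := by
  have hq1 : 1 < Fintype.card F := Fintype.one_lt_card
  induction k with
  | zero => simp [sq]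
  | succ k ih =>
    have e1 : sq (Fintype.card F) (((t ^ Fintype.card F - t) ^ (Fintype.card F - 1))⁻¹) (k + 1) =
      1 + (((t ^ Fintype.card F - t) ^ (Fintype.card F - 1))⁻¹)⁻¹ *
        (sq (Fintype.card F) (((t ^ Fintype.card F - t) ^ (Fintype.card F - 1))⁻¹) k) ^
          Fintype.card F := rfl
    rw [e1, ih, inv_inv, div_pow, A2_sub_pow (algebraMap F L) (t ^ (Fintype.card F ^ k)) t,
      ← pow_mul, ← pow_succ]
    obtain ⟨r, hr⟩ : ∃ r, Fintype.card F = r + 1 := ⟨Fintype.card F - 1, by omega⟩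
    have h2 : (t ^ Fintype.card F - t) ^ Fintype.card F =
        (t ^ Fintype.card F - t) ^ (Fintype.card F - 1) * (t ^ Fintype.card F - t) := by
      rw [← pow_succ]
      congr 1
      omega
    rw [h2]
    have h3 := pow_ne_zero (Fintype.card F - 1) ht
    field_simp
    ring

/-- the main computation -/
private theorem A2_key {L E : Type*} [Field L] [Algebra F L] [Field E] (t : L)
    (ht : ∀ n, 1 ≤ n → t ^ (Fintype.card F ^ n) ≠ t) (k0 : L →+* E) (V : E) (hV : V ≠ 0) (k : ℕ) :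
    V ^ (br (Fintype.card F) k) *
      eval₂ k0 (k0 (t ^ Fintype.card F) + k0 (t ^ Fintype.card F - t) * V⁻¹) (Ey F t k) =
      eval₂ k0 V (gh (Fintype.card F)
        (((t ^ Fintype.card F - t) ^ (Fintype.card F - 1))⁻¹) k) := by
  have hc : t ^ Fintype.card F - t ≠ 0 := sub_ne_zero.2 (by simpa using ht 1 le_rfl)
  induction k with
  | zero => simp [br, Ey, gh]
  | succ k ih =>
    set q := Fintype.card F with hq
    have e1 : Ey F t (k + 1) = C ((t ^ (q ^ (k + 1)) - t)⁻¹) *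
      (C (t ^ (q ^ (k + 1))) - X) * (Ey F t k) ^ q := rfl
    have e2 : gh q (((t ^ q - t) ^ (q - 1))⁻¹) (k + 1) =
      (X - (1 + X) * C (sq q (((t ^ q - t) ^ (q - 1))⁻¹) (k + 1))⁻¹) *
        (gh q (((t ^ q - t) ^ (q - 1))⁻¹) k) ^ q := rfl
    rw [e1, e2]
    simp only [Polynomial.eval₂_mul, Polynomial.eval₂_pow, Polynomial.eval₂_sub,
      Polynomial.eval₂_add, Polynomial.eval₂_C, Polynomial.eval₂_X, Polynomial.eval₂_one]
    rw [← ih, A2_sq_eq t hc, A2_br_succ, pow_add, pow_one, mul_pow, ← pow_mul, mul_comm (br q k) q]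
    have hT : t ^ (q ^ (k + 1)) - t ≠ 0 := sub_ne_zero.2 (ht (k + 1) (by omega))
    have hT' : k0 (t ^ (q ^ (k + 1)) - t) ≠ 0 := by
      rw [Ne, map_eq_zero]
      exact hT
    have hc' : k0 (t ^ q - t) ≠ 0 := by
      rw [Ne, map_eq_zero]
      exact hc
    have e3 : V * (k0 ((t ^ (q ^ (k + 1)) - t)⁻¹) * (k0 (t ^ (q ^ (k + 1))) -
        (k0 (t ^ q) + k0 (t ^ q - t) * V⁻¹))) =
        V - (1 + V) * k0 (((t ^ (q ^ (k + 1)) - t) / (t ^ q - t))⁻¹) := by
      rw [map_inv₀, map_inv₀, map_div₀]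
      rw [map_sub] at hT' hc' ⊢
      rw [map_sub] at ⊢
      field_simp
      ring
    rw [← e3]
    ring

private theorem A2_bridge_E {L E : Type*} [Field L] [Algebra F L] [Field E]
    (hF : 2 < Fintype.card F) (t : L)
    (ht : ∀ n, 1 ≤ n → t ^ (Fintype.card F ^ n) ≠ t) (a m : ℕ) (U : L[X])
    (hU : expand L (Fintype.card F) U = (C t - X) ^ ((Fintype.card F - 1) * (a + m)) *
        (U + As (Fintype.card F) (Ey F t) 1 a * Bs (Fintype.card F) (Ey F t) m))
    (ι : L[X] →+* E) (hιinj : Function.Injective ι) :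
    ∃ υ : ℕ → L, Star (Fintype.card F) (((t ^ Fintype.card F - t) ^ (Fintype.card F - 1))⁻¹)
      a m υ := by
  classical
  have hc : t ^ Fintype.card F - t ≠ 0 := sub_ne_zero.2 (by simpa using ht 1 le_rfl)
  have hAd := As_deg hF t a
  have hBd := Bs_deg hF t m
  have hkey := fun (k0 : L →+* E) (V : E) (hV : V ≠ 0) (k : ℕ) =>
    A2_key (E := E) t ht k0 V hV k
  set q := Fintype.card F with hq
  obtain ⟨c0, hc0⟩ : ∃ c0, c0 = t ^ q - t := ⟨_, rfl⟩
  rw [← hc0] at hc
  obtain ⟨ϖ, hϖ⟩ : ∃ ϖ, ϖ = c0 ^ (q - 1) := ⟨_, rfl⟩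
  have hϖ0 : ϖ ≠ 0 := by rw [hϖ]; exact pow_ne_zero _ hc
  obtain ⟨M, hM⟩ : ∃ M, M = a + m := ⟨_, rfl⟩
  set A := As q (Ey F t) 1 a with hA
  set B := Bs q (Ey F t) m with hB
  have hcq : c0 * ϖ = c0 ^ q := by
    rw [hϖ, ← pow_succ']
    congr 1
    omega
  have hcq2 : c0 ^ q = t ^ (q ^ 2) - t ^ q := by
    rw [hc0, A2_sub_pow (algebraMap F L), ← hq, ← pow_mul, pow_two]
  -- the polynomial in the variable `u`
  set Ut := U.comp (C (t ^ q) + C c0 * X) with hUt
  set W := U.comp (C t + C c0 * X) with hW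
  set P := A.comp (C t + C c0 * X) * B.comp (C t + C c0 * X) with hP
  have hlin : ∀ s : L, (C s + C c0 * X : L[X]).natDegree = 1 := by
    intro s
    rw [add_comm]
    exact Polynomial.natDegree_linear hc
  have hstruct : Ut.comp (C ϖ * X ^ q) = C (ϖ ^ M) * (X ^ ((q - 1) * M) * (W + P)) := by
    have h1 := congrArg (fun f => Polynomial.comp f (C t + C c0 * X)) hU
    rw [Polynomial.expand_eq_comp_X_pow, Polynomial.comp_assoc, Polynomial.mul_comp,
      Polynomial.add_comp, Polynomial.mul_comp, Polynomial.pow_comp, Polynomial.pow_comp,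
      Polynomial.sub_comp, Polynomial.X_comp, Polynomial.C_comp] at h1
    have h2 : (C t + C c0 * X : L[X]) ^ q = C (t ^ q) + C c0 * (C ϖ * X ^ q) := by
      rw [A2_add_pow ((C : L →+* L[X]).comp (algebraMap F L)), ← hq, mul_pow, ← C_pow, ← C_pow,
        ← hcq, C_mul, mul_assoc]
    have h3 : (C t - (C t + C c0 * X) : L[X]) ^ ((q - 1) * (a + m)) =
        C (ϖ ^ M) * X ^ ((q - 1) * M) := by
      have h4 : (C t - (C t + C c0 * X) : L[X]) = (-1) * (C c0 * X) := by ring
      rw [h4, mul_pow, pow_mul, A2_neg_one_pow ((C : L →+* L[X]).comp (algebraMap F L)), one_pow,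
        one_mul, mul_pow, ← hM, ← C_pow, pow_mul, ← hϖ]
    rw [h2, h3] at h1
    rw [hUt, Polynomial.comp_assoc, Polynomial.add_comp, Polynomial.mul_comp, Polynomial.C_comp,
      Polynomial.C_comp, Polynomial.X_comp, h1]
    ring
  have hdU : Ut.natDegree = U.natDegree := by
    rw [hUt, Polynomial.natDegree_comp, hlin, mul_one]
  have hdW : W.natDegree = U.natDegree := by
    rw [hW, Polynomial.natDegree_comp, hlin, mul_one]
  have hdP : P.natDegree ≤ M := by
    rw [hP, hM]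
    refine Polynomial.natDegree_mul_le.trans ?_
    rw [Polynomial.natDegree_comp, Polynomial.natDegree_comp, hlin, mul_one, mul_one]
    exact add_le_add hAd hBd
  obtain ⟨hd, h0⟩ := A2_struct q M hF ϖ hϖ0 Ut W P (by rw [hdU, hdW]) hdP hstruct
  refine ⟨fun i => Ut.coeff (M - i), ?_⟩
  -- the field of rational functions
  obtain ⟨k0, hk0⟩ : ∃ k0 : L →+* E, k0 = ι.comp C := ⟨_, rfl⟩
  obtain ⟨V, hV⟩ : ∃ V : E, V = ι X := ⟨_, rfl⟩
  have hιe : ∀ f : L[X], ι f = eval₂ k0 V f := by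
    intro f
    rw [hk0, hV]
    have := Polynomial.hom_eval₂ f C ι X
    rw [← this, Polynomial.eval₂_C_X]
  have hV0 : V ≠ 0 := by
    rw [hV, Ne, map_eq_zero_iff ι hιinj]
    exact Polynomial.X_ne_zero
  have hV1 : 1 + V ≠ 0 := by
    have h5 : (1 + V) = ι (C 1 + C 1 * X) := by
      rw [hV, map_add]
      simp
    rw [h5, Ne, map_eq_zero_iff ι hιinj]
    intro h6
    have h7 := congrArg Polynomial.natDegree h6
    rw [add_comm, Polynomial.natDegree_linear one_ne_zero] at h7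
    simp at h7
  obtain ⟨ρ, hρ⟩ : ∃ ρ : L[X] →+* E, ρ = Polynomial.eval₂RingHom k0
    (k0 (t ^ q) + k0 c0 * V⁻¹) := ⟨_, rfl⟩
  have hρe : ∀ f, ρ f = eval₂ k0 (k0 (t ^ q) + k0 c0 * V⁻¹) f := by
    intro f
    rw [hρ]
    rfl
  have hgk : ∀ k, V ^ (br q k) * ρ (Ey F t k) = ι (gh q (((t ^ q - t) ^ (q - 1))⁻¹) k) := by
    intro k
    rw [hρe, hιe, hc0]
    exact hkey k0 V hV0 k
  have hBh : V ^ m * ρ B = ι (Bh q (((t ^ q - t) ^ (q - 1))⁻¹) m) := by
    unfold Bh
    rw [hB, A2_Bs_map q ρ (Ey F t) rfl, A2_Bs_scale q V _ (by simp [Ey]), A2_Bs_map q ι _ rfl]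
    congr 1
    funext k
    exact hgk k
  have hAh : V ^ a * ρ A = ι (Ah q (((t ^ q - t) ^ (q - 1))⁻¹) a) := by
    unfold Ah
    rw [hA, A2_As_map q ρ (Ey F t), A2_As_scale q V, A2_As_map q ι, map_one, mul_one, ← hV]
    congr 1
    funext k
    exact hgk k
  -- the equation
  obtain ⟨w, hw⟩ : ∃ w : E, w = 1 + V⁻¹ := ⟨_, rfl⟩
  have hwV : w * V = 1 + V := by
    rw [hw]
    field_simp
    ring
  have hw0 : w ≠ 0 := by
    intro h8
    rw [h8, zero_mul] at hwV
    exact hV1 hwV.symm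
  have hρU : ρ U = ∑ i ∈ Finset.range (M / q + 1), k0 (Ut.coeff (M - i)) * (V⁻¹) ^ (M - i) := by
    rw [← A2_eval k0 q M hF Ut hd h0, hUt, Polynomial.eval₂_comp, hρe, Polynomial.eval₂_add,
      Polynomial.eval₂_mul, Polynomial.eval₂_C, Polynomial.eval₂_C, Polynomial.eval₂_X]
  have hyq : (k0 (t ^ q) + k0 c0 * V⁻¹) ^ q = k0 (t ^ q) + k0 c0 * (k0 ϖ * w ^ q) := by
    rw [A2_add_pow (k0.comp (algebraMap F L)), ← hq, hw,
      A2_add_pow (k0.comp (algebraMap F L)) 1 (V⁻¹), ← hq, one_pow, mul_pow, ← map_pow, ← map_pow,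
      ← mul_assoc, ← map_mul, hcq, mul_add, mul_one, ← add_assoc, ← map_add, ← pow_mul]
    congr 2
    rw [hcq2, pow_two]
    ring
  have hρX : ρ (expand L q U) =
      ∑ i ∈ Finset.range (M / q + 1), k0 (Ut.coeff (M - i)) * (k0 ϖ * w ^ q) ^ (M - i) := by
    rw [← A2_eval k0 q M hF Ut hd h0, hUt, Polynomial.eval₂_comp, hρe,
      Polynomial.expand_eq_comp_X_pow, Polynomial.eval₂_comp, Polynomial.eval₂_X_pow, hyq,
      Polynomial.eval₂_add, Polynomial.eval₂_mul, Polynomial.eval₂_C, Polynomial.eval₂_C,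
      Polynomial.eval₂_X]
  have hρt : ρ ((C t - X) ^ ((q - 1) * (a + m))) = k0 ϖ ^ M * w ^ ((q - 1) * M) := by
    rw [map_pow, hρe]
    have h4 : eval₂ k0 (k0 (t ^ q) + k0 c0 * V⁻¹) (C t - X) = (-1) * (k0 c0 * w) := by
      rw [Polynomial.eval₂_sub, Polynomial.eval₂_C, Polynomial.eval₂_X, hw, hc0, map_sub]
      ring
    rw [h4, ← hM, mul_pow, pow_mul, A2_neg_one_pow (k0.comp (algebraMap F L)), one_pow, one_mul,
      mul_pow, pow_mul (k0 c0), ← map_pow, ← hϖ]
  have heq := congrArg ρ hU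
  rw [map_mul, map_add, map_mul, hρX, hρt, hρU] at heq
  -- multiply by `V ^ M`
  have hterm : ∀ i ∈ Finset.range (M / q + 1),
      k0 (Ut.coeff (M - i)) * (k0 ϖ * w ^ q) ^ (M - i) * V ^ M =
      (k0 ϖ ^ M * w ^ ((q - 1) * M)) *
        (k0 (Ut.coeff (M - i)) * (k0 ϖ)⁻¹ ^ i * (V ^ (q * i) * (1 + V) ^ (M - q * i))) := by
    intro i hi
    rw [Finset.mem_range] at hi
    have hk0ϖ : k0 ϖ ≠ 0 := by
      rw [Ne, map_eq_zero]
      exact hϖ0
    have hi' : i ≤ M / q := by omega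
    rw [Nat.le_div_iff_mul_le (by omega)] at hi'
    obtain ⟨s, hs⟩ : ∃ s, M = q * i + s := ⟨M - q * i, by rw [mul_comm i q] at hi'; omega⟩
    have hiM : i ≤ M := by
      have : i ≤ i * q := Nat.le_mul_of_pos_right i (by omega)
      omega
    obtain ⟨r, hr⟩ : ∃ r, M = i + r := ⟨M - i, by omega⟩
    have e4 : M - q * i = s := by omega
    have e5 : M - i = r := by omega
    rw [e4, e5, ← hwV]
    have e6 : k0 ϖ ^ M = k0 ϖ ^ i * k0 ϖ ^ r := by
      rw [hr, pow_add]
    have e7 : (w ^ q) ^ r = w ^ ((q - 1) * M) * w ^ s := by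
      rw [← pow_mul, ← pow_add]
      congr 1
      obtain ⟨q', hq'⟩ : ∃ q', q = q' + 1 := ⟨q - 1, by omega⟩
      rw [hq'] at hs ⊢
      rw [Nat.add_sub_cancel]
      have : (q' + 1) * M = q' * M + M := by ring
      have h9 : (q' + 1) * r + (q' + 1) * i = (q' + 1) * M := by rw [hr]; ring
      omega
    have e8 : V ^ M = V ^ (q * i) * V ^ s := by rw [hs, pow_add]
    rw [mul_pow, e6, e7, e8, mul_pow, inv_pow]
    field_simp
  have hterm2 : ∀ i ∈ Finset.range (M / q + 1),
      k0 (Ut.coeff (M - i)) * (V⁻¹) ^ (M - i) * V ^ M = k0 (Ut.coeff (M - i)) * V ^ i := by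
    intro i hi
    rw [Finset.mem_range] at hi
    have hiM : i ≤ M := by
      have := Nat.div_le_self M q
      omega
    have e9 : V ^ M = V ^ (M - i) * V ^ i := by
      rw [← pow_add]
      congr 1
      omega
    rw [e9, inv_pow]
    have := pow_ne_zero (M - i) hV0
    field_simp
  have hfac : k0 ϖ ^ M * w ^ ((q - 1) * M) ≠ 0 := by
    refine mul_ne_zero (pow_ne_zero _ ?_) (pow_ne_zero _ hw0)
    rw [Ne, map_eq_zero]
    exact hϖ0
  have h10 := congrArg (fun x => x * V ^ M) heq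
  rw [Finset.sum_mul, Finset.sum_congr rfl hterm, ← Finset.mul_sum,
    mul_assoc (k0 ϖ ^ M * w ^ ((q - 1) * M))] at h10
  have h11 := mul_left_cancel₀ hfac h10
  rw [add_mul, Finset.sum_mul, Finset.sum_congr rfl hterm2] at h11
  unfold Star
  apply hιinj
  rw [map_mul, ← hAh, ← hBh, map_sub]
  have h12 : V ^ a * ρ A * (V ^ m * ρ B) = ρ A * ρ B * V ^ M := by
    rw [hM, pow_add]
    ring
  rw [h12]
  have h13 : ι (Ph q (((t ^ q - t) ^ (q - 1))⁻¹) (fun i => Ut.coeff (M - i)) (a + m)) =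
      ∑ i ∈ Finset.range (M / q + 1),
        k0 (Ut.coeff (M - i)) * (k0 ϖ)⁻¹ ^ i * (V ^ (q * i) * (1 + V) ^ (M - q * i)) := by
    unfold Ph
    rw [map_sum, ← hM]
    refine Finset.sum_congr rfl fun i _ => ?_
    rw [hιe]
    simp only [Polynomial.eval₂_mul, Polynomial.eval₂_pow, Polynomial.eval₂_add,
      Polynomial.eval₂_C, Polynomial.eval₂_X, Polynomial.eval₂_one]
    rw [← hc0, ← hϖ, map_mul, map_pow, map_inv₀]
  have h14 : ι (∑ i ∈ Finset.range ((a + m) / q + 1), C (Ut.coeff (M - i)) * X ^ i) =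
      ∑ i ∈ Finset.range (M / q + 1), k0 (Ut.coeff (M - i)) * V ^ i := by
    rw [map_sum, ← hM]
    refine Finset.sum_congr rfl fun i _ => ?_
    rw [hιe]
    simp
  rw [h13, h14, h11]
  ring

/-- part III, over any field `L` with `t^(q^n) ≠ t` -/
theorem bridge_L {L : Type*} [Field L] [Algebra F L] (hF : 2 < Fintype.card F) (t : L)
    (ht : ∀ n, 1 ≤ n → t ^ (Fintype.card F ^ n) ≠ t) (a m : ℕ) (ha : 1 ≤ a) (hm : 1 ≤ m) (U : L[X])
    (hU : expand L (Fintype.card F) U = (C t - X) ^ ((Fintype.card F - 1) * (a + m)) *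
        (U + As (Fintype.card F) (Ey F t) 1 a * Bs (Fintype.card F) (Ey F t) m)) :
    ∃ υ : ℕ → L, Star (Fintype.card F) (((t ^ Fintype.card F - t) ^ (Fintype.card F - 1))⁻¹)
      a m υ :=
  A2_bridge_E (E := FractionRing L[X]) hF t ht a m U hU (algebraMap L[X] (FractionRing L[X]))
    (IsFractionRing.injective L[X] (FractionRing L[X]))

/-! ### the equation (*) is preserved by field homomorphisms -/

private theorem A2_sq_map {L L' : Type*} [Field L] [Field L'] (j : L →+* L') (q : ℕ) (π : L)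
    (k : ℕ) : j (sq q π k) = sq q (j π) k := by
  induction k with
  | zero => simp [sq]
  | succ k ih =>
    have e1 : sq q π (k + 1) = 1 + π⁻¹ * (sq q π k) ^ q := rfl
    have e2 : sq q (j π) (k + 1) = 1 + (j π)⁻¹ * (sq q (j π) k) ^ q := rfl
    rw [e1, e2, map_add, map_one, map_mul, map_pow, ih, map_inv₀]

private theorem A2_gh_map {L L' : Type*} [Field L] [Field L'] (j : L →+* L') (q : ℕ) (π : L)
    (k : ℕ) : Polynomial.mapRingHom j (gh q π k) = gh q (j π) k := by
  induction k with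
  | zero => simp [gh]
  | succ k ih =>
    have e1 : gh q π (k + 1) = (X - (1 + X) * C (sq q π (k + 1))⁻¹) * (gh q π k) ^ q := rfl
    have e2 : gh q (j π) (k + 1) =
      (X - (1 + X) * C (sq q (j π) (k + 1))⁻¹) * (gh q (j π) k) ^ q := rfl
    rw [e1, e2, map_mul, map_pow, ih, map_sub, map_mul, map_add, map_one]
    simp only [Polynomial.coe_mapRingHom, Polynomial.map_X, Polynomial.map_C]
    rw [map_inv₀, A2_sq_map]

/-- the equation (*) is preserved by field homomorphisms -/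
theorem Star_map {L L' : Type*} [Field L] [Field L'] (j : L →+* L') (q : ℕ) (π : L) (a m : ℕ)
    (υ : ℕ → L) (h : Star q π a m υ) : Star q (j π) a m (fun i => j (υ i)) := by
  unfold Star at h ⊢
  have h1 := congrArg (Polynomial.mapRingHom j) h
  rw [map_mul, map_sub, map_sum] at h1
  unfold Ah Bh at h1 ⊢
  rw [A2_Bs_map q _ (gh q π) rfl, A2_As_map] at h1
  simp only [A2_gh_map] at h1
  unfold Ph at h1 ⊢
  rw [map_sum] at h1
  simpa using h1

end Pool.Agent.MP33dd76
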