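import Mathlib
import Pool.Agent.Lib.MP_33dd76_nt.B1Inv
import Pool.Agent.Lib.MP_33dd76_nt.B2Size

set_option autoImplicit false

open Polynomial

namespace Pool.Agent.MP33dd76

/-! # Module B3: the functional equation -/

theorem B3_inv_unique {R : Type*} [CommRing R] (f g : PowerSeries R)
    (hf : PowerSeries.constantCoeff f = 1) (h : f * g = 1) : g = PowerSeries.invOfUnit f 1 := by
  have h1 : f * PowerSeries.invOfUnit f 1 = 1 :=
    PowerSeries.mul_invOfUnit f 1 (by rw [hf]; rfl)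
  calc g = (f * PowerSeries.invOfUnit f 1) * g := by rw [h1, one_mul]
    _ = (f * g) * PowerSeries.invOfUnit f 1 := by ring
    _ = PowerSeries.invOfUnit f 1 := by rw [h, one_mul]

theorem B3_map_inv {R S : Type*} [CommRing R] [CommRing S] (φ : R →+* S) (f : PowerSeries R)
    (hf : PowerSeries.constantCoeff f = 1) :
    PowerSeries.map φ (PowerSeries.invOfUnit f 1) =
      PowerSeries.invOfUnit (PowerSeries.map φ f) 1 := by
  apply B3_inv_unique
  · rw [← PowerSeries.coeff_zero_eq_constantCoeff_apply, PowerSeries.coeff_map,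
      PowerSeries.coeff_zero_eq_constantCoeff_apply, hf, map_one]
  · rw [← map_mul, PowerSeries.mul_invOfUnit f 1 (by rw [hf]; rfl), map_one]

theorem B3_rescale_inv {R : Type*} [CommRing R] (a : R) (f : PowerSeries R)
    (hf : PowerSeries.constantCoeff f = 1) :
    PowerSeries.rescale a (PowerSeries.invOfUnit f 1) =
      PowerSeries.invOfUnit (PowerSeries.rescale a f) 1 := by
  apply B3_inv_unique
  · rw [← PowerSeries.coeff_zero_eq_constantCoeff_apply, PowerSeries.coeff_rescale,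
      PowerSeries.coeff_zero_eq_constantCoeff_apply, hf, pow_zero, one_mul]
  · rw [← map_mul, PowerSeries.mul_invOfUnit f 1 (by rw [hf]; rfl), map_one]

theorem B3_map_ser {R S : Type*} [CommRing R] [CommRing S] (φ : R →+* S) (q : ℕ) (g : ℕ → R) :
    PowerSeries.map φ (ser q g) = ser q (fun k => φ (g k)) := by
  ext n
  rw [PowerSeries.coeff_map]
  simp only [ser, PowerSeries.coeff_mk]
  rw [map_sum]
  refine Finset.sum_congr rfl fun k _ => ?_
  split_ifs <;> simp

theorem B3_rescale_ser {R : Type*} [CommRing R] (a : R) (q : ℕ) (g : ℕ → R) :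
    PowerSeries.rescale a (ser q g) = ser q (fun k => g k * a ^ br q k) := by
  ext n
  rw [PowerSeries.coeff_rescale]
  simp only [ser, PowerSeries.coeff_mk]
  rw [Finset.mul_sum]
  refine Finset.sum_congr rfl fun k _ => ?_
  split_ifs with h
  · rw [h]; ring
  · simp

theorem B3_map_Bs {R S : Type*} [CommRing R] [CommRing S] (φ : R →+* S) (q : ℕ) (g : ℕ → R)
    (h0 : g 0 = 1) (m : ℕ) : φ (Bs q g m) = Bs q (fun k => φ (g k)) m := by
  unfold Bs
  rw [← B3_map_ser, ← B3_map_inv φ _ (by rw [ser_const, h0]), PowerSeries.coeff_map]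

theorem B3_map_As {R S : Type*} [CommRing R] [CommRing S] (φ : R →+* S) (q : ℕ) (g : ℕ → R)
    (z : R) (m : ℕ) : φ (As q g z m) = As q (fun k => φ (g k)) (φ z) m := by
  unfold As
  rw [map_sum]
  refine Finset.sum_congr rfl fun i _ => ?_
  rw [map_mul, map_pow φ z i, ← B3_map_ser, ← map_pow (PowerSeries.map φ), PowerSeries.coeff_map]

theorem B3_br_succ (q k : ℕ) : br q (k + 1) = 1 + q * br q k := by
  unfold br
  rw [Finset.sum_range_succ', Finset.mul_sum, pow_zero, add_comm]
  congr 1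
  exact Finset.sum_congr rfl fun i _ => by rw [pow_succ, mul_comm]

variable {K : Type*} [NormedField K] [IsUltrametricDist K] {p q : ℕ} {π : K}

theorem B3_sq_ne (H : Hyp K p q π) (k : ℕ) : sq q π (k + 1) ≠ 0 := by
  intro h
  have h1 := norm_sq_succ H k
  rw [h, norm_zero] at h1
  have h2 : (‖π‖⁻¹) ^ (br q k) ≠ 0 := pow_ne_zero _ (inv_ne_zero (norm_ne_zero_iff.2 H.ne))
  exact h2 h1.symm

theorem Bh_add_Ah (H : Hyp K p q π) (m : ℕ) :
    Bh q π m + Ah q π m = Ph q π (fun i => (Bh q π m).coeff i) m := by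
  classical
  obtain ⟨s, hs⟩ := H.pow
  have := H.char
  have : Fact p.Prime := ⟨H.prime⟩
  have hq2 : 2 ≤ q := H.two.le
  have hq0 : q ≠ 0 := by omega
  have hKF : Function.Injective (algebraMap K (RatFunc K)) :=
    (algebraMap K (RatFunc K)).injective
  have : CharP (RatFunc K) p := charP_of_injective_algebraMap hKF p
  have : ExpChar (RatFunc K) p := ExpChar.prime H.prime
  set F := RatFunc K with hF
  set ι : K[X] →+* F := algebraMap K[X] (RatFunc K) with hι
  have hιinj : Function.Injective ι := IsFractionRing.injective K[X] (RatFunc K)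
  set v : F := ι X with hv
  have hv1 : (1 + v) ≠ 0 := by
    have : (1 + v) = ι (X + C 1) := by rw [map_add, map_one, map_one, add_comm]
    rw [this, Ne, map_eq_zero_iff _ hιinj]
    exact X_add_C_ne_zero 1
  set κ : K →+* F := ι.comp C with hκ
  set v1 : F := κ π * v ^ q / (1 + v) ^ q with hv1d
  set φ : K[X] →+* F := eval₂RingHom κ v1 with hφ
  have hφX : φ X = v1 := by rw [hφ]; simp
  have hφC : ∀ a : K, φ (C a) = κ a := fun a => by rw [hφ]; simp
  set G : ℕ → F := fun k => ι (gh q π k) with hG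
  set g' : ℕ → F := fun k => φ (gh q π k) * (1 + v) ^ br q k with hg'
  have hfrob : ∀ a b : F, (a - b) ^ q = a ^ q - b ^ q := fun a b => by
    rw [hs]; exact sub_pow_char_pow a b s
  have hneg : (-1 : F) ^ q = -1 := by
    have := hfrob 0 1
    rw [zero_sub, one_pow, zero_pow hq0, zero_sub] at this
    exact this
  have hghs : ∀ k, gh q π (k + 1) =
      (X - (1 + X) * C (sq q π (k + 1))⁻¹) * (gh q π k) ^ q := fun k => rfl
  have hsqs : ∀ k, sq q π (k + 1) = 1 + π⁻¹ * (sq q π k) ^ q := fun k => rfl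
  have hs1 : sq q π 1 = 1 := by
    rw [hsqs 0]
    show 1 + π⁻¹ * (0 : K) ^ q = 1
    rw [zero_pow hq0]; ring
  have hg'0 : g' 0 = 1 := by
    show φ (1 : K[X]) * (1 + v) ^ br q 0 = 1
    simp [br]
  have hG0 : G 0 = 1 := by
    show ι (1 : K[X]) = 1
    rw [map_one]
  have hv1q : v1 * (1 + v) ^ q = κ π * v ^ q := by
    rw [hv1d]
    exact div_mul_cancel₀ _ (pow_ne_zero _ hv1)
  have hGs : ∀ k, G (k + 1) = (v - (1 + v) * κ (sq q π (k + 1))⁻¹) * (G k) ^ q := fun k => by
    show ι (gh q π (k + 1)) = _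
    rw [hghs k, map_mul, map_sub, map_mul, map_add, map_one, map_pow]
    rfl
  have hg's : ∀ k, g' (k + 1) =
      (v1 - (1 + v1) * κ (sq q π (k + 1))⁻¹) * (1 + v) * (g' k) ^ q := fun k => by
    show φ (gh q π (k + 1)) * (1 + v) ^ br q (k + 1) = _
    rw [hghs k, map_mul, map_sub, map_mul, map_add, map_one, map_pow, hφX, hφC, B3_br_succ,
      pow_add, pow_one]
    show _ = (v1 - (1 + v1) * κ (sq q π (k + 1))⁻¹) * (1 + v) *
      (φ (gh q π k) * (1 + v) ^ br q k) ^ q
    rw [mul_pow, ← pow_mul, mul_comm (br q k) q]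
    ring
  have hkey : ∀ k, g' (k + 1) = -((1 + v) * κ (sq q π (k + 1))⁻¹ * (G k) ^ q) := by
    intro k
    induction k with
    | zero =>
      rw [hg's 0, hg'0, hG0]
      show (v1 - (1 + v1) * κ (sq q π 1)⁻¹) * (1 + v) * 1 ^ q =
        -((1 + v) * κ (sq q π 1)⁻¹ * 1 ^ q)
      rw [hs1, inv_one, map_one, one_pow]
      ring
    | succ k ih =>
      rw [hg's (k + 1), ih, hGs k]
      have e1 : (-((1 + v) * κ (sq q π (k + 1))⁻¹ * (G k) ^ q)) ^ q =
          -((1 + v) ^ q * (κ (sq q π (k + 1))⁻¹) ^ q * ((G k) ^ q) ^ q) := by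
        rw [neg_eq_neg_one_mul, mul_pow, hneg, mul_pow, mul_pow]
        ring
      have e2 : ((v - (1 + v) * κ (sq q π (k + 1))⁻¹) * (G k) ^ q) ^ q =
          (v ^ q - (1 + v) ^ q * (κ (sq q π (k + 1))⁻¹) ^ q) * ((G k) ^ q) ^ q := by
        rw [mul_pow, hfrob, mul_pow]
      rw [e1, e2]
      have hK : κ π * (κ (sq q π (k + 1))⁻¹) ^ q * (1 - κ (sq q π (k + 1 + 1))⁻¹) =
          κ (sq q π (k + 1 + 1))⁻¹ := by
        rw [← map_one κ, ← map_sub, ← map_pow, ← map_mul, ← map_mul]
        congr 1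
        have n1 := B3_sq_ne H k
        have n2 := B3_sq_ne H (k + 1)
        have n3 := hsqs (k + 1)
        have n4 : sq q π (k + 1 + 1) * π = π + (sq q π (k + 1)) ^ q := by
          rw [n3]; field_simp [H.ne]
        rw [inv_pow]
        have n5 : (sq q π (k + 1)) ^ q ≠ 0 := pow_ne_zero _ n1
        field_simp
        linear_combination n4
      set a := κ (sq q π (k + 1))⁻¹ with ha
      set b := κ (sq q π (k + 1 + 1))⁻¹ with hb
      set W := ((G k) ^ q) ^ q with hW
      have e3 : (v1 - (1 + v1) * b) * (1 + v) * -((1 + v) ^ q * a ^ q * W) =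
          -(((v1 * (1 + v) ^ q) * a ^ q * (1 - b) - (1 + v) ^ q * a ^ q * b) * W * (1 + v)) := by
        ring
      rw [e3, hv1q]
      linear_combination (-(v ^ q * W * (1 + v))) * hK
  have hcl : ∀ k, g' (k + 1) = G (k + 1) - v * (G k) ^ q := fun k => by
    rw [hkey k, hGs k]; ring
  have hB := Bs_frob p s q H.prime hs hq2 G g' v hG0 hg'0 hcl m
  have hBG : Bs q G m = ι (Bh q π m) := (B3_map_Bs ι q (gh q π) rfl m).symm
  have hAG : As q G v m = ι (Ah q π m) := (B3_map_As ι q (gh q π) X m).symm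
  have hBg : Bs q g' m = (1 + v) ^ m * φ (Bh q π m) := by
    have h1 : ser q g' = PowerSeries.rescale (1 + v) (PowerSeries.map φ (ser q (gh q π))) := by
      rw [B3_map_ser, B3_rescale_ser]
    have hc0 : PowerSeries.constantCoeff (ser q (gh q π)) = 1 := by
      rw [ser_const]; rfl
    have hc1 : PowerSeries.constantCoeff (PowerSeries.map φ (ser q (gh q π))) = 1 := by
      rw [B3_map_ser, ser_const]
      show φ (1 : K[X]) = 1
      rw [map_one]
    unfold Bs
    rw [h1, ← B3_rescale_inv _ _ hc1, ← B3_map_inv φ _ hc0, PowerSeries.coeff_rescale,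
      PowerSeries.coeff_map]
    rfl
  apply hιinj
  rw [map_add, ← hBG, ← hAG, ← hB, hBg]
  unfold Ph
  rw [map_sum]
  have hdeg := Bh_deg H m
  have hexp : φ (Bh q π m) =
      ∑ i ∈ Finset.range (m / q + 1), κ ((Bh q π m).coeff i) * v1 ^ i := by
    rw [hφ]
    show eval₂ κ v1 (Bh q π m) = _
    exact eval₂_eq_sum_range' κ (by omega) v1
  rw [hexp, Finset.mul_sum]
  refine Finset.sum_congr rfl fun i hi => ?_
  have hi' : q * i ≤ m := by
    have h1 : i ≤ m / q := by have := Finset.mem_range.1 hi; omega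
    calc q * i ≤ q * (m / q) := Nat.mul_le_mul_left _ h1
      _ ≤ m := Nat.mul_div_le m q
  rw [map_mul ι, map_mul ι, map_pow ι, map_pow ι, map_add ι, map_one ι]
  show (1 + v) ^ m * (κ ((Bh q π m).coeff i) * v1 ^ i) =
    κ ((Bh q π m).coeff i * π ^ i) * (v ^ (q * i) * (1 + v) ^ (m - q * i))
  rw [map_mul, map_pow]
  have h2 : v1 ^ i * (1 + v) ^ (q * i) = κ π ^ i * v ^ (q * i) := by
    rw [pow_mul, ← mul_pow, hv1q, mul_pow, pow_mul]
  have h3 : (1 + v) ^ m = (1 + v) ^ (q * i) * (1 + v) ^ (m - q * i) := by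
    rw [← pow_add]; congr 1; omega
  rw [h3]
  linear_combination (κ ((Bh q π m).coeff i) * (1 + v) ^ (m - q * i)) * h2

end Pool.Agent.MP33dd76
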