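import Mathlib
import Pool.Agent.Lib.MP_33dd76_nt.B1Inv
import Pool.Agent.Lib.MP_33dd76_nt.B2Size

set_option autoImplicit false

open Polynomial

namespace Pool.Agent.MP33dd76

/-! # Module B4: values at `v = π` -/

variable {K : Type*} [NormedField K] [IsUltrametricDist K] {p q : ℕ} {π : K}

omit [IsUltrametricDist K] in
private lemma B4_ne (H : Hyp K p q π) : (1 : K) + π ≠ 0 := by
  intro h
  have h1 : π = -1 := (eq_neg_of_add_eq_zero_right h)
  have h2 := H.lt
  rw [h1, norm_neg, norm_one] at h2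
  exact lt_irrefl _ h2

omit [IsUltrametricDist K] in
private lemma B4_sq_one (H : Hyp K p q π) : sq q π 1 = 1 := by
  have hq : q ≠ 0 := by have := H.two; omega
  have e : sq q π (0 + 1) = 1 + π⁻¹ * (sq q π 0) ^ q := rfl
  have e0 : sq q π 0 = 0 := rfl
  rw [zero_add] at e
  rw [e, e0, zero_pow hq, mul_zero, add_zero]

omit [IsUltrametricDist K] in
private lemma B4_gh_one (H : Hyp K p q π) : gh q π 1 = -1 := by
  have e : gh q π (0 + 1) = (X - (1 + X) * C (sq q π (0 + 1))⁻¹) * (gh q π 0) ^ q := rfl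
  have e0 : gh q π 0 = 1 := rfl
  rw [zero_add] at e
  rw [e, B4_sq_one H, e0]
  simp

private lemma B4_gh_eval (H : Hyp K p q π) (k : ℕ) : (gh q π (k + 2)).eval π = 0 := by
  have hq : q ≠ 0 := by have := H.two; omega
  induction k with
  | zero =>
    have e : gh q π (1 + 1) = (X - (1 + X) * C (sq q π (1 + 1))⁻¹) * (gh q π 1) ^ q := rfl
    have es : sq q π (1 + 1) = 1 + π⁻¹ * (sq q π 1) ^ q := rfl
    rw [B4_sq_one H, one_pow, mul_one] at es
    have h0 : π ≠ 0 := H.ne
    have h1 := B4_ne H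
    have h2 : (1 : K) + π⁻¹ = (1 + π) / π := by
      field_simp
      ring
    have h3 : π - (1 + π) * (1 + π⁻¹)⁻¹ = 0 := by
      rw [h2, inv_div]
      field_simp
      ring
    change (gh q π (1 + 1)).eval π = 0
    rw [e, es, eval_mul, eval_sub, eval_mul, eval_X, eval_C, eval_add, eval_one, eval_X, h3,
      zero_mul]
  | succ k ih =>
    have e : gh q π (k + 2 + 1) =
      (X - (1 + X) * C (sq q π (k + 2 + 1))⁻¹) * (gh q π (k + 2)) ^ q := rfl
    change (gh q π (k + 2 + 1)).eval π = 0
    rw [e, eval_mul, eval_pow, ih, zero_pow hq, mul_zero]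

theorem gh_eval (H : Hyp K p q π) (k : ℕ) : (gh q π (k + 2)).eval π = 0 := B4_gh_eval H k

private lemma B4_br_zero (q : ℕ) : br q 0 = 0 := by simp [br]

private lemma B4_br_one (q : ℕ) : br q 1 = 1 := by simp [br]

private lemma B4_br_two (q k : ℕ) (hq : q ≠ 0) : 2 ≤ br q (k + 2) := by
  unfold br
  rw [Finset.sum_range_succ', Finset.sum_range_succ']
  have : 0 < q ^ (0 + 1) := pow_pos (Nat.pos_of_ne_zero hq) _
  rw [pow_zero]
  omega

/-- the evaluated series -/
private lemma B4_map (H : Hyp K p q π) :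
    PowerSeries.map (evalRingHom π) (ser q (gh q π)) = 1 - PowerSeries.X := by
  have hq2 : 2 ≤ q := H.two.le
  have hq0 : q ≠ 0 := by omega
  ext n
  rw [PowerSeries.coeff_map, map_sub, PowerSeries.coeff_one, PowerSeries.coeff_X]
  by_cases hn : ∃ k, br q k = n
  · obtain ⟨k, rfl⟩ := hn
    rw [ser_coeff_br q hq2]
    rcases k with _ | _ | k
    · rw [B4_br_zero]
      have e0 : gh q π 0 = 1 := rfl
      simp [e0]
    · rw [zero_add, B4_br_one, B4_gh_one H]
      simp
    · have h2 := B4_br_two q k hq0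
      change eval π (gh q π (k + 2)) = _
      rw [B4_gh_eval H]
      change (0 : K) = (if br q (k + 2) = 0 then 1 else 0) - if br q (k + 2) = 1 then 1 else 0
      rw [if_neg (by omega), if_neg (by omega), sub_zero]
  · push Not at hn
    rw [ser_coeff_ne q _ n hn, map_zero]
    have h0 : n ≠ 0 := fun h => hn 0 (by rw [B4_br_zero, h])
    have h1 : n ≠ 1 := fun h => hn 1 (by rw [B4_br_one, h])
    rw [if_neg h0, if_neg h1, sub_zero]

theorem Bh_eval (H : Hyp K p q π) (m : ℕ) : (Bh q π m).eval π = 1 := by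
  have hc : PowerSeries.constantCoeff (ser q (gh q π)) = ((1 : (K[X])ˣ) : K[X]) := by
    rw [ser_const]; rfl
  have h1 := PowerSeries.mul_invOfUnit (ser q (gh q π)) 1 hc
  have h2 := congrArg (PowerSeries.map (evalRingHom π)) h1
  rw [map_mul, B4_map H, map_one] at h2
  have h3 : PowerSeries.map (evalRingHom π) (PowerSeries.invOfUnit (ser q (gh q π)) 1) =
      PowerSeries.mk 1 := by
    have h4 : (PowerSeries.mk 1 : PowerSeries K) * (1 - PowerSeries.X) = 1 :=
      PowerSeries.mk_one_mul_one_sub_eq_one K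
    calc _ = (PowerSeries.mk 1 * (1 - PowerSeries.X)) *
          PowerSeries.map (evalRingHom π) (PowerSeries.invOfUnit (ser q (gh q π)) 1) := by
            rw [h4, one_mul]
      _ = _ := by rw [mul_assoc, h2, mul_one]
  have h5 := congrArg (PowerSeries.coeff m) h3
  rw [PowerSeries.coeff_map, PowerSeries.coeff_mk] at h5
  exact h5

private lemma B4_coeff (N n : ℕ) :
    PowerSeries.coeff n ((1 - PowerSeries.X : PowerSeries K) ^ N) =
      (-1) ^ n * ((N.choose n : ℕ) : K) := by
  have h1 : PowerSeries.rescale (-1 : K) ((1 + PowerSeries.X) ^ N) =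
      (1 - PowerSeries.X : PowerSeries K) ^ N := by
    rw [map_pow]
    congr 1
    ext n
    rw [PowerSeries.coeff_rescale]
    simp only [map_add, map_sub, PowerSeries.coeff_one, PowerSeries.coeff_X]
    by_cases h0 : n = 0
    · subst h0; simp
    · by_cases h1 : n = 1
      · subst h1; simp
      · simp [h0, h1]
  rw [← h1, PowerSeries.coeff_rescale]
  congr 1
  have h2 : ((1 + PowerSeries.X : PowerSeries K) ^ N) = (((1 + X : K[X]) ^ N : K[X]) : PowerSeries K) := by
    rw [Polynomial.coe_pow, Polynomial.coe_add, Polynomial.coe_one, Polynomial.coe_X]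
  rw [h2, Polynomial.coeff_coe, Polynomial.coeff_one_add_X_pow]

theorem Ah_eval (H : Hyp K p q π) (m : ℕ) :
    (Ah q π m).eval π =
      ∑ i ∈ Finset.Icc 1 m, (-1) ^ (m - i) * ((((q - 1) * i - 1).choose (m - i) : ℕ) : K) * π ^ i := by
  unfold Ah As
  rw [eval_finset_sum]
  refine Finset.sum_congr rfl fun i _ => ?_
  rw [eval_mul, eval_pow, eval_X, mul_comm]
  congr 1
  have h1 : eval π (PowerSeries.coeff (m - i) (ser q (gh q π) ^ ((q - 1) * i - 1))) =
      PowerSeries.coeff (m - i) (PowerSeries.map (evalRingHom π)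
        (ser q (gh q π) ^ ((q - 1) * i - 1))) := by
    rw [PowerSeries.coeff_map]
    rfl
  rw [h1, map_pow, B4_map H, B4_coeff]

end Pool.Agent.MP33dd76
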