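import Mathlib
import Pool.Agent.Lib.MP_33dd76_nt.B2Size
import Pool.Agent.Lib.MP_33dd76_nt.B3Fun

set_option autoImplicit false

open Polynomial

namespace Pool.Agent.MP33dd76

/-! # Module B5: reduction modulo the maximal ideal -/

variable {K : Type*} [NormedField K] [IsUltrametricDist K] {p q : ℕ} {π : K}

private lemma B5_nat (n : ℕ) : ‖(n : K)‖ ≤ 1 := IsUltrametricDist.norm_natCast_le_one K n

private lemma B5_add_lt {a b : K} (ha : ‖a‖ < 1) (hb : ‖b‖ < 1) : ‖a + b‖ < 1 :=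
  lt_of_le_of_lt (IsUltrametricDist.norm_add_le_max a b) (max_lt ha hb)

private lemma B5_key (H : Hyp K p q π) (m i : ℕ) :
    ‖(Bh q π m).coeff i + (Ah q π m).coeff i - ((m.choose i : ℕ) : K)‖ < 1 := by
  rw [← coeff_add, Bh_add_Ah H m]
  unfold Ph
  rw [Finset.sum_range_succ', coeff_add, finsetSum_coeff]
  have h0 : (C ((Bh q π m).coeff 0 * π ^ 0) * (X ^ (q * 0) * (1 + X) ^ (m - q * 0)) :
      K[X]).coeff i = (Bh q π m).coeff 0 * ((m.choose i : ℕ) : K) := by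
    rw [coeff_C_mul, mul_zero, pow_zero, pow_zero, one_mul, Nat.sub_zero, mul_one,
      coeff_one_add_X_pow]
  rw [h0]
  have e : ∀ (s b c : K), s + b * c - c = s + (b - 1) * c := fun s b c => by ring
  rw [e]
  refine B5_add_lt ?_ ?_
  · refine lt_of_le_of_lt ?_ H.lt
    refine IsUltrametricDist.norm_sum_le_of_forall_le_of_nonneg (norm_nonneg _) ?_
    intro l _
    rw [coeff_C_mul, norm_mul, norm_mul, norm_pow]
    have hB : ‖(Bh q π m).coeff (l + 1)‖ ≤ 1 := by simpa using Bh_fil H m (l + 1)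
    have hP : ‖π‖ ^ (l + 1) ≤ ‖π‖ := pow_le_of_le_one (norm_nonneg _) H.lt.le (by omega)
    have hc : ‖(X ^ (q * (l + 1)) * (1 + X) ^ (m - q * (l + 1)) : K[X]).coeff i‖ ≤ 1 := by
      rw [coeff_X_pow_mul']
      split_ifs
      · rw [coeff_one_add_X_pow]
        exact B5_nat _
      · rw [norm_zero]; exact zero_le_one
    calc ‖(Bh q π m).coeff (l + 1)‖ * ‖π‖ ^ (l + 1) *
          ‖(X ^ (q * (l + 1)) * (1 + X) ^ (m - q * (l + 1)) : K[X]).coeff i‖
        ≤ 1 * ‖π‖ * 1 := by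
          refine mul_le_mul (mul_le_mul hB hP (by positivity) zero_le_one) hc (norm_nonneg _) ?_
          positivity
      _ = ‖π‖ := by ring
  · rw [norm_mul]
    calc ‖(Bh q π m).coeff 0 - 1‖ * ‖((m.choose i : ℕ) : K)‖
        ≤ ‖(Bh q π m).coeff 0 - 1‖ * 1 := mul_le_mul_of_nonneg_left (B5_nat _) (norm_nonneg _)
      _ < 1 := by rw [mul_one]; exact Bh_zero H m

private lemma B5_Ah_lt (H : Hyp K p q π) (m i : ℕ) (hm : 1 ≤ m) (hi : i ≤ m / q) :
    ‖(Ah q π m).coeff i‖ < 1 := by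
  refine lt_of_le_of_lt (Ah_fil H m hm i) ?_
  refine pow_lt_one₀ (norm_nonneg _) H.lt ?_
  omega

theorem Bh_res (H : Hyp K p q π) (m i : ℕ) (hi : i ≤ m / q) :
    ‖(Bh q π m).coeff i - ((m.choose i : ℕ) : K)‖ < 1 := by
  rcases Nat.eq_zero_or_pos m with rfl | hm
  · have hi0 : i = 0 := by simpa using hi
    subst hi0
    have := Bh_zero H 0
    simpa using this
  · have h1 := B5_key H m i
    have h2 := B5_Ah_lt H m i hm hi
    have e : (Bh q π m).coeff i - ((m.choose i : ℕ) : K) =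
        ((Bh q π m).coeff i + (Ah q π m).coeff i - ((m.choose i : ℕ) : K)) +
          -(Ah q π m).coeff i := by ring
    rw [e]
    exact B5_add_lt h1 (by rw [norm_neg]; exact h2)

theorem Ah_res_lt (H : Hyp K p q π) (m i : ℕ) (hm : 1 ≤ m) (hi : i ≤ m / q) :
    ‖(Ah q π m).coeff i‖ < 1 := B5_Ah_lt H m i hm hi

theorem Ah_res (H : Hyp K p q π) (m i : ℕ) (hm : 1 ≤ m) (hi : m / q < i) :
    ‖(Ah q π m).coeff i - ((m.choose i : ℕ) : K)‖ < 1 := by
  have h1 := B5_key H m i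
  have h2 : (Bh q π m).coeff i = 0 :=
    coeff_eq_zero_of_natDegree_lt (lt_of_le_of_lt (Bh_deg H m) hi)
  rwa [h2, zero_add] at h1

end Pool.Agent.MP33dd76
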