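import Mathlib
import Pool.Agent.Lib.MP_33dd76_nt.B2Size
import Pool.Agent.Lib.MP_33dd76_nt.B5Res

set_option autoImplicit false

open Polynomial

namespace Pool.Agent.MP33dd76

/-! # Module B6: integrality of `υ` and the condition (N1) -/

variable {K : Type*} [NormedField K] [IsUltrametricDist K] {p q : ℕ} {π : K}

private lemma B6_sub (a b : K) : ‖a - b‖ ≤ max ‖a‖ ‖b‖ := by
  rw [sub_eq_add_neg]
  refine (IsUltrametricDist.norm_add_le_max _ _).trans ?_
  rw [norm_neg]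

private lemma B6_nat (n : ℕ) : ‖(n : K)‖ ≤ 1 := IsUltrametricDist.norm_natCast_le_one K n

omit [IsUltrametricDist K] in
private lemma B6_unit (H : Hyp K p q π) (n : ℕ) (hn : ¬ p ∣ n) : ‖(n : K)‖ = 1 := by
  have hchar := H.char
  have hfact : Fact p.Prime := ⟨H.prime⟩
  have h1 : (n : ZMod p) ≠ 0 := by
    rwa [Ne, ZMod.natCast_eq_zero_iff]
  have h2 : (n : ZMod p) ^ (p - 1) = 1 := ZMod.pow_card_sub_one_eq_one h1
  have h3 : (n : K) ^ (p - 1) = 1 := by
    have h4 := congrArg (ZMod.castHom (dvd_refl p) K) h2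
    rwa [map_pow, map_natCast, map_one] at h4
  have h5 : ‖(n : K)‖ ^ (p - 1) = 1 := by rw [← norm_pow, h3, norm_one]
  have hp : p - 1 ≠ 0 := by have := H.prime.two_le; omega
  exact (pow_eq_one_iff_of_nonneg (norm_nonneg _) hp).1 h5

omit [IsUltrametricDist K] in
private lemma B6_zero (H : Hyp K p q π) (n : ℕ) (hn : p ∣ n) : (n : K) = 0 := by
  have hchar := H.char
  exact (CharP.cast_eq_zero_iff K p n).2 hn

/-- the coefficients of `X^a (1+X)^b` are integers -/
private lemma B6_mono (a b j : ℕ) : ‖((X ^ a * (1 + X) ^ b : K[X])).coeff j‖ ≤ 1 := by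
  rw [coeff_X_pow_mul']
  split_ifs with h
  · rw [add_comm, coeff_X_add_one_pow]
    exact B6_nat _
  · rw [norm_zero]; exact zero_le_one

omit [IsUltrametricDist K] in
private lemma B6_top (a b : ℕ) : ((X ^ a * (1 + X) ^ b : K[X])).coeff (a + b) = 1 := by
  rw [coeff_X_pow_mul', if_pos (by omega), add_comm (1 : K[X]) X, coeff_X_add_one_pow,
    Nat.add_sub_cancel_left, Nat.choose_self, Nat.cast_one]

omit [IsUltrametricDist K] in
private lemma B6_Ph_coeff (υ : ℕ → K) (M j : ℕ) :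
    (Ph q π υ M).coeff j = ∑ i ∈ Finset.range (M / q + 1),
      υ i * π ^ i * ((X ^ (q * i) * (1 + X) ^ (M - q * i) : K[X])).coeff j := by
  unfold Ph
  rw [finsetSum_coeff]
  exact Finset.sum_congr rfl fun i _ => by rw [coeff_C_mul]

omit [IsUltrametricDist K] in
private lemma B6_low_coeff (υ : ℕ → K) (N j : ℕ) :
    (∑ i ∈ Finset.range (N + 1), C (υ i) * X ^ i : K[X]).coeff j = if j ≤ N then υ j else 0 := by
  rw [finsetSum_coeff]
  simp only [coeff_C_mul, coeff_X_pow, mul_ite, mul_one, mul_zero]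
  rw [Finset.sum_ite_eq]
  simp only [Finset.mem_range, Nat.lt_succ_iff]

theorem sum_ups (H : Hyp K p q π) {a m : ℕ} {υ : ℕ → K} (ha : 1 ≤ a) (hm : 1 ≤ m)
    (hS : Star q π a m υ) : ∑ i ∈ Finset.range ((a + m) / q + 1), υ i * π ^ i = 0 := by
  have hq : 2 < q := H.two
  have h1 := congrArg (fun f : K[X] => f.coeff (a + m)) hS
  have hlt : m / q < m := Nat.div_lt_self (by omega) (by omega)
  have hlt2 : (a + m) / q < a + m := Nat.div_lt_self (by omega) (by omega)
  have h2 : (Ah q π a * Bh q π m).coeff (a + m) = 0 := by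
    apply coeff_eq_zero_of_natDegree_lt
    refine lt_of_le_of_lt natDegree_mul_le ?_
    have := (Ah_deg H a ha).1
    have := Bh_deg H m
    omega
  rw [h2, coeff_sub, B6_low_coeff, if_neg (by omega), sub_zero, B6_Ph_coeff] at h1
  rw [h1]
  refine Finset.sum_congr rfl fun i hi => ?_
  rw [Finset.mem_range, Nat.lt_succ_iff, Nat.le_div_iff_mul_le (by omega)] at hi
  have e : a + m = q * i + (a + m - q * i) := by rw [mul_comm q i]; omega
  have h3 := B6_top (K := K) (q * i) (a + m - q * i)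
  rw [← e] at h3
  rw [h3, mul_one]

private lemma B6_zero_le (H : Hyp K p q π) {a m : ℕ} {υ : ℕ → K} (ha : 1 ≤ a) (hm : 1 ≤ m)
    (hS : Star q π a m υ) (c : ℝ) (hc : 0 ≤ c) (hυ : ∀ i ≤ (a + m) / q, ‖υ i‖ ≤ c) :
    ‖υ 0‖ ≤ ‖π‖ * c := by
  have h := sum_ups H ha hm hS
  rw [Finset.sum_range_succ', pow_zero, mul_one] at h
  rw [eq_neg_of_add_eq_zero_right h, norm_neg]
  refine IsUltrametricDist.norm_sum_le_of_forall_le_of_nonneg (by positivity) fun i hi => ?_
  rw [Finset.mem_range] at hi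
  rw [norm_mul, norm_pow, mul_comm]
  refine mul_le_mul ?_ (hυ _ (by omega)) (norm_nonneg _) (norm_nonneg _)
  exact pow_le_of_le_one (norm_nonneg _) H.lt.le (by omega)

private lemma B6_Ph_le (H : Hyp K p q π) {a m : ℕ} {υ : ℕ → K} (ha : 1 ≤ a) (hm : 1 ≤ m)
    (hS : Star q π a m υ) (c : ℝ) (hc : 0 ≤ c) (hυ : ∀ i ≤ (a + m) / q, ‖υ i‖ ≤ c) (j : ℕ) :
    ‖(Ph q π υ (a + m)).coeff j‖ ≤ ‖π‖ * c := by
  rw [B6_Ph_coeff]
  refine IsUltrametricDist.norm_sum_le_of_forall_le_of_nonneg (by positivity) fun i hi => ?_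
  rw [Finset.mem_range, Nat.lt_succ_iff] at hi
  rw [norm_mul, norm_mul, norm_pow]
  have h0 : ‖υ i‖ * ‖π‖ ^ i ≤ ‖π‖ * c := by
    rcases Nat.eq_zero_or_pos i with h | h
    · subst h
      rw [pow_zero, mul_one]
      exact B6_zero_le H ha hm hS c hc hυ
    · rw [mul_comm]
      refine mul_le_mul ?_ (hυ _ hi) (norm_nonneg _) (norm_nonneg _)
      exact pow_le_of_le_one (norm_nonneg _) H.lt.le (by omega)
  calc ‖υ i‖ * ‖π‖ ^ i * ‖((X ^ (q * i) * (1 + X) ^ (a + m - q * i) : K[X])).coeff j‖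
      ≤ (‖π‖ * c) * 1 := mul_le_mul h0 (B6_mono _ _ _) (norm_nonneg _) (by positivity)
    _ = ‖π‖ * c := mul_one _

private lemma B6_AB (H : Hyp K p q π) {a m : ℕ} (ha : 1 ≤ a) (j : ℕ) :
    ‖(Ah q π a * Bh q π m).coeff j‖ ≤ 1 := by
  have h1 : Fil π 0 (Ah q π a) := (Ah_fil H a ha).mono H.lt.le (Nat.zero_le _)
  have h2 : Fil π (0 + 0) (Ah q π a * Bh q π m) := h1.mul H.lt.le (Bh_fil H m)
  have h3 := h2 j
  simpa using h3

private lemma B6_res (H : Hyp K p q π) {a m : ℕ} {υ : ℕ → K} (ha : 1 ≤ a) (hm : 1 ≤ m)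
    (hS : Star q π a m υ) (c : ℝ) (hc : 0 ≤ c) (hυ : ∀ i ≤ (a + m) / q, ‖υ i‖ ≤ c) (j : ℕ)
    (hj : j ≤ (a + m) / q) :
    ‖(Ah q π a * Bh q π m).coeff j + υ j‖ ≤ ‖π‖ * c := by
  have h1 := congrArg (fun f : K[X] => f.coeff j) hS
  rw [coeff_sub, B6_low_coeff, if_pos hj] at h1
  rw [h1, sub_add_cancel]
  exact B6_Ph_le H ha hm hS c hc hυ j

theorem ups_le (H : Hyp K p q π) {a m : ℕ} {υ : ℕ → K} (ha : 1 ≤ a) (hm : 1 ≤ m)
    (hS : Star q π a m υ) : (∀ i ≤ (a + m) / q, ‖υ i‖ ≤ 1) ∧ ‖υ 0‖ < 1 := by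
  have hmain : ∀ i ≤ (a + m) / q, ‖υ i‖ ≤ 1 := by
    obtain ⟨j, hj, hmax⟩ := Finset.exists_max_image (Finset.range ((a + m) / q + 1))
      (fun i => ‖υ i‖) ⟨0, by simp⟩
    rw [Finset.mem_range, Nat.lt_succ_iff] at hj
    have hυ : ∀ i ≤ (a + m) / q, ‖υ i‖ ≤ ‖υ j‖ := fun i hi =>
      hmax i (by rw [Finset.mem_range]; omega)
    suffices h : ‖υ j‖ ≤ 1 from fun i hi => (hυ i hi).trans h
    by_contra hgt
    rw [not_le] at hgt
    have h1 := B6_res H ha hm hS _ (norm_nonneg (υ j)) hυ j hj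
    have h2 : ‖υ j‖ ≤ max (‖π‖ * ‖υ j‖) 1 := by
      have e : υ j = ((Ah q π a * Bh q π m).coeff j + υ j) - (Ah q π a * Bh q π m).coeff j := by
        ring
      calc ‖υ j‖ = ‖((Ah q π a * Bh q π m).coeff j + υ j) - (Ah q π a * Bh q π m).coeff j‖ := by
            rw [← e]
        _ ≤ max _ _ := B6_sub _ _
        _ ≤ _ := max_le_max h1 (B6_AB H ha j)
    rcases le_max_iff.1 h2 with h3 | h3
    · have h4 : ‖π‖ * ‖υ j‖ < 1 * ‖υ j‖ := mul_lt_mul_of_pos_right H.lt (by linarith)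
      linarith
    · linarith
  refine ⟨hmain, ?_⟩
  have h := B6_zero_le H ha hm hS 1 zero_le_one hmain
  rw [mul_one] at h
  exact lt_of_le_of_lt h H.lt

/-- the coefficients of (*) modulo the maximal ideal, `1 ≤ i ≤ M/q` -/
theorem ups_res (H : Hyp K p q π) {a m : ℕ} {υ : ℕ → K} (ha : 1 ≤ a) (hm : 1 ≤ m)
    (hS : Star q π a m υ) (i : ℕ) (hi : 1 ≤ i) (hi' : i ≤ (a + m) / q) :
    ‖(Ah q π a * Bh q π m).coeff i + υ i‖ < 1 := by
  have h := B6_res H ha hm hS 1 zero_le_one (ups_le H ha hm hS).1 i hi'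
  rw [mul_one] at h
  exact lt_of_le_of_lt h H.lt

private lemma B6_lead (H : Hyp K p q π) {a m : ℕ} (ha : 1 ≤ a) (j : ℕ) (hj : j ≤ m / q)
    (hmax : ∀ y, j < y → y ≤ m / q → p ∣ m.choose y) :
    ‖(Ah q π a * Bh q π m).coeff (a + j) - ((m.choose j : ℕ) : K)‖ < 1 := by
  have hmem : ((a, j) : ℕ × ℕ) ∈ Finset.HasAntidiagonal.antidiagonal (a + j) := by
    rw [Finset.HasAntidiagonal.mem_antidiagonal]
  rw [coeff_mul, ← Finset.add_sum_erase _ _ hmem]
  simp only
  rw [(Ah_deg H a ha).2, one_mul]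
  have h1 := Bh_res H m j hj
  have h2 : ‖∑ x ∈ (Finset.HasAntidiagonal.antidiagonal (a + j)).erase (a, j),
      (Ah q π a).coeff x.1 * (Bh q π m).coeff x.2‖ < 1 := by
    have key : ∀ x ∈ (Finset.HasAntidiagonal.antidiagonal (a + j)).erase (a, j),
        ‖(Ah q π a).coeff x.1 * (Bh q π m).coeff x.2‖ < 1 := by
      rintro ⟨x, y⟩ hxy
      rw [Finset.mem_erase, Finset.HasAntidiagonal.mem_antidiagonal] at hxy
      obtain ⟨hne, hsum⟩ := hxy
      simp only at hsum ⊢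
      rcases lt_trichotomy x a with hx | hx | hx
      · have hy : j < y := by omega
        have hA : ‖(Ah q π a).coeff x‖ ≤ 1 := by
          have h1 : Fil π 0 (Ah q π a) := (Ah_fil H a ha).mono H.lt.le (Nat.zero_le _)
          simpa using h1 x
        have hB : ‖(Bh q π m).coeff y‖ < 1 := by
          rcases le_or_gt y (m / q) with hy2 | hy2
          · have h3 := Bh_res H m y hy2
            rw [B6_zero H _ (hmax y hy hy2), sub_zero] at h3
            exact h3
          · rw [coeff_eq_zero_of_natDegree_lt (lt_of_le_of_lt (Bh_deg H m) hy2), norm_zero]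
            exact zero_lt_one
        rw [norm_mul]
        calc ‖(Ah q π a).coeff x‖ * ‖(Bh q π m).coeff y‖ ≤ 1 * ‖(Bh q π m).coeff y‖ :=
              mul_le_mul_of_nonneg_right hA (norm_nonneg _)
          _ < 1 := by rw [one_mul]; exact hB
      · exfalso
        apply hne
        have : y = j := by omega
        rw [hx, this]
      · rw [coeff_eq_zero_of_natDegree_lt (lt_of_le_of_lt (Ah_deg H a ha).1 hx), zero_mul,
          norm_zero]
        exact zero_lt_one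
    rcases Finset.eq_empty_or_nonempty ((Finset.HasAntidiagonal.antidiagonal (a + j)).erase (a, j)) with he | he
    · rw [he, Finset.sum_empty, norm_zero]
      exact zero_lt_one
    · obtain ⟨x, hx, hle⟩ := IsUltrametricDist.exists_norm_finsetSum_le_of_nonempty he
        (fun x : ℕ × ℕ => (Ah q π a).coeff x.1 * (Bh q π m).coeff x.2)
      exact lt_of_le_of_lt hle (key x hx)
  have e : (Bh q π m).coeff j + ∑ x ∈ (Finset.HasAntidiagonal.antidiagonal (a + j)).erase (a, j),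
      (Ah q π a).coeff x.1 * (Bh q π m).coeff x.2 - ((m.choose j : ℕ) : K) =
      ((Bh q π m).coeff j - ((m.choose j : ℕ) : K)) +
      ∑ x ∈ (Finset.HasAntidiagonal.antidiagonal (a + j)).erase (a, j),
      (Ah q π a).coeff x.1 * (Bh q π m).coeff x.2 := by ring
  rw [e]
  exact lt_of_le_of_lt (IsUltrametricDist.norm_add_le_max _ _) (max_lt h1 h2)

theorem crit_N1 (H : Hyp K p q π) {a m : ℕ} {υ : ℕ → K} (ha : 1 ≤ a) (hm : 1 ≤ m)
    (hS : Star q π a m υ) (i : ℕ) (hi : i ≤ m / q) (hp : ¬ p ∣ m.choose i) :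
    q * (a + i) ≤ a + m := by
  classical
  have hq : 2 < q := H.two
  obtain ⟨j, hj, hmax⟩ := Finset.exists_max_image
    ((Finset.range (m / q + 1)).filter fun y => ¬ p ∣ m.choose y) id
    ⟨i, by rw [Finset.mem_filter, Finset.mem_range]; exact ⟨by omega, hp⟩⟩
  rw [Finset.mem_filter, Finset.mem_range, Nat.lt_succ_iff] at hj
  obtain ⟨hj1, hj2⟩ := hj
  have hij : i ≤ j := hmax i (by rw [Finset.mem_filter, Finset.mem_range]; exact ⟨by omega, hp⟩)
  have hmax2 : ∀ y, j < y → y ≤ m / q → p ∣ m.choose y := by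
    intro y hy hy2
    by_contra hcon
    have h := hmax y (by rw [Finset.mem_filter, Finset.mem_range]; exact ⟨by omega, hcon⟩)
    simp only [id] at h
    omega
  have h1 := B6_lead H ha j hj1 hmax2
  have h2 := B6_unit H _ hj2
  have hle : a + j ≤ (a + m) / q := by
    by_contra hgt
    rw [not_le] at hgt
    have h3 := congrArg (fun f : K[X] => f.coeff (a + j)) hS
    rw [coeff_sub, B6_low_coeff, if_neg (by omega), sub_zero] at h3
    have h4 := B6_Ph_le H ha hm hS 1 zero_le_one (ups_le H ha hm hS).1 (a + j)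
    rw [mul_one, ← h3] at h4
    have h5 : ‖(Ah q π a * Bh q π m).coeff (a + j)‖ < 1 := lt_of_le_of_lt h4 H.lt
    have h6 : ‖((m.choose j : ℕ) : K)‖ < 1 := by
      have e : ((m.choose j : ℕ) : K) = (Ah q π a * Bh q π m).coeff (a + j) -
          ((Ah q π a * Bh q π m).coeff (a + j) - ((m.choose j : ℕ) : K)) := by ring
      rw [e]
      exact lt_of_le_of_lt (B6_sub _ _) (max_lt h5 h1)
    rw [h2] at h6
    exact lt_irrefl _ h6
  rw [Nat.le_div_iff_mul_le (by omega)] at hle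
  calc q * (a + i) ≤ q * (a + j) := Nat.mul_le_mul_left _ (by omega)
    _ = (a + j) * q := mul_comm _ _
    _ ≤ a + m := hle

end Pool.Agent.MP33dd76
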