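import Mathlib
import Pool.Agent.Lib.MP_33dd76_nt.B2Size
import Pool.Agent.Lib.MP_33dd76_nt.B6Crit1

set_option autoImplicit false

open Polynomial

namespace Pool.Agent.MP33dd76

/-! # Module B7: the coefficients `υ_i π^i` are divisible by `π^e0` -/

variable {K : Type*} [NormedField K] [IsUltrametricDist K] {p q : ℕ} {π : K}

/-- the linear substitution `T = Z / (1 - Z)` for polynomials of degree at most `N` -/
private noncomputable def B7_lam {F : Type*} [Field F] (N : ℕ) (f : F[X]) : F[X] :=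
  ∑ n ∈ Finset.range (N + 1), C (f.coeff n) * (X ^ n * (1 - X) ^ (N - n))

private lemma B7_lam_mono {F : Type*} [Field F] (N i : ℕ) (hi : i ≤ N) :
    B7_lam N (X ^ i * (1 + X) ^ (N - i) : F[X]) = X ^ i := by
  obtain ⟨k, rfl⟩ : ∃ k, N = i + k := ⟨N - i, by omega⟩
  unfold B7_lam
  have e1 : i + k + 1 = i + (k + 1) := by omega
  rw [e1, Finset.sum_range_add]
  have h0 : ∑ n ∈ Finset.range i, C ((X ^ i * (1 + X) ^ (i + k - i) : F[X]).coeff n) *
      (X ^ n * (1 - X) ^ (i + k - n)) = 0 := by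
    refine Finset.sum_eq_zero fun n hn => ?_
    rw [Finset.mem_range] at hn
    rw [coeff_X_pow_mul', if_neg (by omega), C_0, zero_mul]
  rw [h0, zero_add]
  have h1 : (X ^ i * (X + (1 - X)) ^ k : F[X]) = X ^ i := by
    rw [add_sub_cancel, one_pow, mul_one]
  rw [add_pow, Finset.mul_sum] at h1
  refine Eq.trans ?_ h1
  refine Finset.sum_congr rfl fun j hj => ?_
  rw [Finset.mem_range] at hj
  have e2 : i + j = j + i := by omega
  have e3 : i + k - i = k := by omega
  have e4 : i + k - (j + i) = k - j := by omega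
  rw [e2, e3, e4, coeff_X_pow_mul, add_comm (1 : F[X]) X, coeff_X_add_one_pow, C_eq_natCast]
  ring

private lemma B7_lam_sum {F : Type*} [Field F] (N : ℕ) (c : ℕ → F) :
    B7_lam N (∑ i ∈ Finset.range (N + 1), C (c i) * (X ^ i * (1 + X) ^ (N - i))) =
      ∑ i ∈ Finset.range (N + 1), C (c i) * X ^ i := by
  have h1 : B7_lam N (∑ i ∈ Finset.range (N + 1), C (c i) * (X ^ i * (1 + X) ^ (N - i))) =
      ∑ i ∈ Finset.range (N + 1), C (c i) * B7_lam N (X ^ i * (1 + X) ^ (N - i)) := by
    unfold B7_lam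
    simp only [finsetSum_coeff, map_sum, Finset.sum_mul, Finset.mul_sum, coeff_C_mul, map_mul]
    rw [Finset.sum_comm]
    refine Finset.sum_congr rfl fun i _ => Finset.sum_congr rfl fun n _ => ?_
    ring
  rw [h1]
  refine Finset.sum_congr rfl fun i hi => ?_
  rw [Finset.mem_range] at hi
  rw [B7_lam_mono N i (by omega)]

private lemma B7_lam_dvd {F : Type*} [Field F] (N e : ℕ) (f : F[X])
    (h : ∀ n, N < n + e → f.coeff n = 0) : ∃ g : F[X], B7_lam N f = (1 - X) ^ e * g := by
  refine ⟨∑ n ∈ Finset.range (N + 1), C (f.coeff n) * (X ^ n * (1 - X) ^ (N - n - e)), ?_⟩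
  unfold B7_lam
  rw [Finset.mul_sum]
  refine Finset.sum_congr rfl fun n _ => ?_
  rcases Nat.lt_or_ge N (n + e) with h1 | h1
  · rw [h n h1, C_0, zero_mul, zero_mul, mul_zero]
  · have e1 : N - n = e + (N - n - e) := by omega
    rw [e1, pow_add]
    have e2 : e + (N - n - e) - e = N - n - e := by omega
    rw [e2]
    ring

omit [IsUltrametricDist K] in
private lemma B7_fac (H : Hyp K p q π) (c : ℕ → K) (M : ℕ) :
    Ph q π c M = (1 + X) ^ (M % q) * expand K q
      (∑ i ∈ Finset.range (M / q + 1), C (c i * π ^ i) * (X ^ i * (1 + X) ^ (M / q - i))) := by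
  have hchar := H.char
  have hfact : Fact p.Prime := ⟨H.prime⟩
  obtain ⟨s, hs⟩ := H.pow
  unfold Ph
  rw [map_sum, Finset.mul_sum]
  refine Finset.sum_congr rfl fun i hi => ?_
  rw [Finset.mem_range] at hi
  have h1 : (1 + X : K[X]) ^ q = 1 + X ^ q := by
    rw [hs, add_pow_char_pow, one_pow]
  have h2 : M - q * i = M % q + q * (M / q - i) := by
    have := Nat.div_add_mod M q
    have h3 : q * i ≤ q * (M / q) := Nat.mul_le_mul_left _ (by omega)
    rw [Nat.mul_sub]
    omega
  have h3 : expand K q (C (c i * π ^ i) * (X ^ i * (1 + X) ^ (M / q - i))) =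
      C (c i * π ^ i) * ((X ^ q) ^ i * (1 + X ^ q) ^ (M / q - i)) := by
    rw [map_mul (expand K q), expand_C, map_mul (expand K q), map_pow (expand K q),
      map_pow (expand K q), expand_X, map_add (expand K q), map_one (expand K q), expand_X]
  rw [h3, h2, pow_add, pow_mul (1 + X : K[X]) q, h1, ← pow_mul X q i]
  ring

private lemma B7_sub (a b : K) : ‖a - b‖ ≤ max ‖a‖ ‖b‖ := by
  rw [sub_eq_add_neg]
  refine (IsUltrametricDist.norm_add_le_max _ _).trans ?_
  rw [norm_neg]

omit [IsUltrametricDist K] in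
private lemma B7_coeff_succ (f : K[X]) (i : ℕ) :
    ((1 - X) * f).coeff (i + 1) = f.coeff (i + 1) - f.coeff i := by
  rw [sub_mul, one_mul, coeff_sub, coeff_X_mul]

omit [IsUltrametricDist K] in
private lemma B7_coeff_zero (f : K[X]) : ((1 - X) * f).coeff 0 = f.coeff 0 := by
  rw [sub_mul, one_mul, coeff_sub, coeff_X_mul_zero, sub_zero]

private lemma B7_div (hπ : ‖π‖ ≤ 1) (f : K[X]) (B : ℝ) (hB : 0 ≤ B)
    (h : ∀ i, ‖((1 - X) * f).coeff i‖ ≤ B * ‖π‖ ^ i) (i : ℕ) : ‖f.coeff i‖ ≤ B * ‖π‖ ^ (i + 1) := by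
  have key : ∀ k i, f.natDegree < i + k → ‖f.coeff i‖ ≤ B * ‖π‖ ^ (i + 1) := by
    intro k
    induction k with
    | zero =>
      intro i hi
      rw [coeff_eq_zero_of_natDegree_lt (by omega), norm_zero]
      positivity
    | succ k ih =>
      intro i hi
      have h1 := ih (i + 1) (by omega)
      have h2 := h (i + 1)
      have h3 : f.coeff i = f.coeff (i + 1) - ((1 - X) * f).coeff (i + 1) := by
        rw [B7_coeff_succ]; ring
      rw [h3]
      refine (B7_sub _ _).trans (max_le (h1.trans ?_) h2)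
      exact mul_le_mul_of_nonneg_left
        (pow_le_pow_of_le_one (norm_nonneg _) hπ (by omega)) hB
  exact key (f.natDegree + 1) i (by omega)

private lemma B7_divs (hπ : ‖π‖ ≤ 1) (e : ℕ) : ∀ (f : K[X]) (B : ℝ), 0 ≤ B →
    (∀ i, ‖((1 - X) ^ e * f).coeff i‖ ≤ B * ‖π‖ ^ i) →
    ∀ i, ‖f.coeff i‖ ≤ B * ‖π‖ ^ (i + e) := by
  induction e with
  | zero =>
    intro f B _ h i
    have := h i
    rwa [pow_zero, one_mul] at this
  | succ e ih =>
    intro f B hB h i
    have h1 := ih ((1 - X) * f) B hB (by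
      intro j
      have := h j
      rwa [pow_succ, mul_assoc] at this)
    have h2 := B7_div hπ f (B * ‖π‖ ^ e) (by positivity) (by
      intro j
      have := h1 j
      rwa [pow_add, ← mul_assoc, mul_right_comm] at this) i
    calc ‖f.coeff i‖ ≤ B * ‖π‖ ^ e * ‖π‖ ^ (i + 1) := h2
      _ = B * ‖π‖ ^ (i + (e + 1)) := by ring

private lemma B7_mul (e : ℕ) (f : K[X]) (B : ℝ) (h : ∀ i, ‖f.coeff i‖ ≤ B) :
    ∀ i, ‖((1 - X) ^ e * f).coeff i‖ ≤ B := by
  induction e with
  | zero => simpa using h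
  | succ e ih =>
    intro i
    rw [pow_succ', mul_assoc]
    rcases i with _ | i
    · rw [B7_coeff_zero]; exact ih 0
    · rw [B7_coeff_succ]
      exact (B7_sub _ _).trans (max_le (ih _) (ih _))

omit [IsUltrametricDist K] in
private lemma B7_sum_coeff (c : ℕ → K) (N j : ℕ) :
    (∑ i ∈ Finset.range (N + 1), C (c i) * X ^ i : K[X]).coeff j = if j ≤ N then c j else 0 := by
  rw [finsetSum_coeff]
  simp only [coeff_C_mul, coeff_X_pow, mul_ite, mul_one, mul_zero]
  rw [Finset.sum_ite_eq]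
  simp only [Finset.mem_range, Nat.lt_succ_iff]

theorem ups_e0 (H : Hyp K p q π) {a m : ℕ} {υ : ℕ → K} (ha : 1 ≤ a) (hm : 1 ≤ m)
    (hS : Star q π a m υ) (i : ℕ) (hi : i ≤ (a + m) / q) :
    ‖υ i * π ^ i‖ ≤ ‖π‖ ^ e0 q m := by
  have hq : 2 < q := H.two
  have hle := (ups_le H ha hm hS).1
  -- the degree of `Ph`
  have hdeg : (Ph q π υ (a + m)).natDegree ≤ a + m / q := by
    have h1 : Ph q π υ (a + m) = Ah q π a * Bh q π m +
        ∑ i ∈ Finset.range ((a + m) / q + 1), C (υ i) * X ^ i := by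
      have := hS
      unfold Star at this
      rw [this, sub_add_cancel]
    rw [h1]
    refine (natDegree_add_le _ _).trans (max_le ?_ ?_)
    · refine natDegree_mul_le.trans ?_
      have := (Ah_deg H a ha).1
      have := Bh_deg H m
      omega
    · refine natDegree_sum_le_of_forall_le _ _ fun j hj => ?_
      rw [Finset.mem_range] at hj
      refine (natDegree_C_mul_X_pow_le _ _).trans ?_
      have h2 : (a + m) / q ≤ a + m / q := by
        rw [Nat.div_le_iff_le_mul_add_pred (by omega)]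
        have := Nat.div_add_mod m q
        have h3 := Nat.mod_lt m (show 0 < q by omega)
        have h4 : a ≤ q * a := Nat.le_mul_of_pos_left a (by omega)
        rw [mul_add]
        omega
      omega
  set Ψ : K[X] := ∑ i ∈ Finset.range ((a + m) / q + 1), C (υ i * π ^ i) *
    (X ^ i * (1 + X) ^ ((a + m) / q - i)) with hΨ
  have hfac := B7_fac H υ (a + m)
  rw [← hΨ] at hfac
  -- vanishing of the top coefficients
  have hvan : ∀ n, (a + m) / q < n + e0 q m → Ψ.coeff n = 0 := by
    intro n hn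
    by_cases h0 : Ψ = 0
    · rw [h0, coeff_zero]
    · apply coeff_eq_zero_of_natDegree_lt
      have hexp : expand K q Ψ ≠ 0 := (expand_ne_zero (by omega)).2 h0
      have hmonic : ((1 + X : K[X]) ^ ((a + m) % q)).Monic := by
        rw [add_comm]
        exact (monic_X_add_C (1 : K)).pow _
      have hnat : ((1 + X : K[X]) ^ ((a + m) % q)).natDegree = (a + m) % q := by
        rw [add_comm, natDegree_pow]
        have : (X + 1 : K[X]).natDegree = 1 := natDegree_X_add_C (1 : K)
        rw [this, mul_one]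
      rw [hfac, hmonic.natDegree_mul' hexp, hnat, natDegree_expand] at hdeg
      have h1 := Nat.div_add_mod (a + m) q
      have h2 : q * e0 q m ≤ m - m / q + q - 1 := by
        unfold e0
        exact Nat.mul_div_le _ _
      have h5 : m / q ≤ m := Nat.div_le_self m q
      by_contra hcon
      rw [not_lt] at hcon
      have h6 : q * (n + e0 q m) ≤ q * (Ψ.natDegree + e0 q m) :=
        Nat.mul_le_mul_left _ (by omega)
      have h7 : q * ((a + m) / q + 1) ≤ q * (n + e0 q m) := Nat.mul_le_mul_left _ (by omega)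
      simp only [mul_add] at h6 h7
      rw [mul_comm Ψ.natDegree q] at hdeg
      omega
  obtain ⟨g, hg⟩ := B7_lam_dvd ((a + m) / q) (e0 q m) Ψ hvan
  rw [hΨ, B7_lam_sum ((a + m) / q) (fun i => υ i * π ^ i)] at hg
  have hco : ∀ j, ‖((1 - X) ^ e0 q m * g).coeff j‖ ≤ 1 * ‖π‖ ^ j := by
    intro j
    rw [← hg, B7_sum_coeff, one_mul]
    split_ifs with h
    · rw [norm_mul, norm_pow]
      exact mul_le_of_le_one_left (by positivity) (hle j h)
    · rw [norm_zero]; positivity
  have h1 := B7_divs H.lt.le (e0 q m) g 1 zero_le_one hco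
  have h2 : ∀ j, ‖g.coeff j‖ ≤ ‖π‖ ^ e0 q m := by
    intro j
    refine (h1 j).trans ?_
    rw [one_mul]
    exact pow_le_pow_of_le_one (norm_nonneg _) H.lt.le (by omega)
  have h3 := B7_mul (e0 q m) g _ h2 i
  rw [← hg, B7_sum_coeff, if_pos hi] at h3
  exact h3

end Pool.Agent.MP33dd76
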