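import Mathlib
import Pool.Agent.Lib.MP_33dd76_nt.B2Size
import Pool.Agent.Lib.MP_33dd76_nt.B4Ev
import Pool.Agent.Lib.MP_33dd76_nt.B5Res
import Pool.Agent.Lib.MP_33dd76_nt.B6Crit1
import Pool.Agent.Lib.MP_33dd76_nt.B7Crit2

set_option autoImplicit false

open Polynomial

namespace Pool.Agent.MP33dd76

/-! # Module B8: the conditions (N3), (T0), (N) -/

variable {K : Type*} [NormedField K] [IsUltrametricDist K] {p q : ℕ} {π : K}

theorem B8_sum_lt {ι : Type*} (s : Finset ι) (f : ι → K) {C : ℝ} (hC : 0 < C)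
    (h : ∀ i ∈ s, ‖f i‖ < C) : ‖∑ i ∈ s, f i‖ < C := by
  classical
  induction s using Finset.induction_on with
  | empty => simpa using hC
  | insert a s ha ih =>
    rw [Finset.sum_insert ha]
    refine lt_of_le_of_lt (IsUltrametricDist.norm_add_le_max _ _) (max_lt ?_ ?_)
    · exact h a (Finset.mem_insert_self a s)
    · exact ih fun i hi => h i (Finset.mem_insert_of_mem hi)

theorem B8_sum_le {ι : Type*} (s : Finset ι) (f : ι → K) {C : ℝ} (hC : 0 ≤ C)
    (h : ∀ i ∈ s, ‖f i‖ ≤ C) : ‖∑ i ∈ s, f i‖ ≤ C := by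
  classical
  induction s using Finset.induction_on with
  | empty => simpa using hC
  | insert a s ha ih =>
    rw [Finset.sum_insert ha]
    refine le_trans (IsUltrametricDist.norm_add_le_max _ _) (max_le ?_ ?_)
    · exact h a (Finset.mem_insert_self a s)
    · exact ih fun i hi => h i (Finset.mem_insert_of_mem hi)

theorem B8_norm_one {x y : K} (hy : ‖y‖ = 1) (h : ‖x - y‖ < 1) : ‖x‖ = 1 := by
  have h1 : ‖x‖ ≤ 1 := by
    have h2 : x = (x - y) + y := by ring
    rw [h2]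
    exact le_trans (IsUltrametricDist.norm_add_le_max _ _) (max_le h.le hy.le)
  have h3 : (1 : ℝ) ≤ ‖x‖ := by
    by_contra hlt
    rw [not_le] at hlt
    have h4 : ‖y‖ < 1 := by
      have h2 : y = x + -(x - y) := by ring
      rw [h2]
      refine lt_of_le_of_lt (IsUltrametricDist.norm_add_le_max _ _) (max_lt hlt ?_)
      rw [norm_neg]
      exact h
    rw [hy] at h4
    exact lt_irrefl _ h4
  exact le_antisymm h1 h3

/-- `x + y` has norm `‖y‖` if `‖x‖ < ‖y‖` -/
theorem B8_norm_add {x y : K} (h : ‖x‖ < ‖y‖) : ‖x + y‖ = ‖y‖ := by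
  have h1 : ‖x + y‖ ≤ ‖y‖ :=
    le_trans (IsUltrametricDist.norm_add_le_max _ _) (max_le h.le le_rfl)
  have h2 : ‖y‖ ≤ ‖x + y‖ := by
    by_contra hlt
    rw [not_le] at hlt
    have h3 : ‖y‖ < ‖y‖ := by
      have h4 : y = (x + y) + -x := by ring
      have h5 : ‖(x + y) + -x‖ < ‖y‖ := by
        refine lt_of_le_of_lt (IsUltrametricDist.norm_add_le_max _ _) (max_lt hlt ?_)
        rw [norm_neg]
        exact h
      rwa [← h4] at h5
    exact lt_irrefl _ h3
  exact le_antisymm h1 h2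

theorem B8_cast_le (n : ℕ) : ‖(n : K)‖ ≤ 1 := IsUltrametricDist.norm_natCast_le_one K n

omit [IsUltrametricDist K] in
theorem B8_cast_one (H : Hyp K p q π) {n : ℕ} (h : ¬ p ∣ n) : ‖(n : K)‖ = 1 := by
  have hp := H.prime
  have := H.char
  have := Fact.mk hp
  have h1 : ((n : ZMod p)) ≠ 0 := by
    intro h2
    exact h ((ZMod.natCast_eq_zero_iff n p).1 h2)
  have h3 : ((n : ZMod p)) ^ (p - 1) = 1 := ZMod.pow_card_sub_one_eq_one h1
  have h4 : ((n : K)) ^ (p - 1) = 1 := by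
    have h5 := congrArg (ZMod.castHom (dvd_refl p) K) h3
    simpa using h5
  have h6 : ‖(n : K)‖ ^ (p - 1) = 1 := by
    rw [← norm_pow, h4, norm_one]
  have h7 : p - 1 ≠ 0 := by
    have := hp.two_le
    omega
  exact (pow_eq_one_iff_of_nonneg (norm_nonneg _) h7).1 h6

omit [IsUltrametricDist K] in
theorem B8_cast_zero (H : Hyp K p q π) {n : ℕ} (h : p ∣ n) : (n : K) = 0 := by
  have := H.char
  exact (CharP.cast_eq_zero_iff K p n).2 h

omit [IsUltrametricDist K] in
theorem B8_pi_pos (H : Hyp K p q π) : 0 < ‖π‖ := norm_pos_iff.2 H.ne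

theorem B8_Bh_le (H : Hyp K p q π) (m i : ℕ) : ‖(Bh q π m).coeff i‖ ≤ 1 := by
  have h := Bh_fil H m i
  simpa using h

theorem B8_Ah_le (H : Hyp K p q π) (m i : ℕ) (hm : 1 ≤ m) : ‖(Ah q π m).coeff i‖ ≤ 1 := by
  have h := Ah_fil H m hm i
  exact le_trans h (pow_le_one₀ (norm_nonneg _) H.lt.le)

theorem crit_N3 (H : Hyp K p q π) {a m : ℕ} {υ : ℕ → K} (ha : 1 ≤ a) (hm : 1 ≤ m)
    (hS : Star q π a m υ) (i : ℕ) (hi : a < q * i) (hp : ¬ p ∣ a.choose i) : e0 q m ≤ i := by
  classical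
  have hex : ∃ n, a < q * n ∧ ¬ p ∣ a.choose n := ⟨i, hi, hp⟩
  obtain ⟨i0, hi0⟩ : ∃ i0, i0 = Nat.find hex := ⟨_, rfl⟩
  have h1 : a < q * i0 ∧ ¬ p ∣ a.choose i0 := by
    rw [hi0]
    exact Nat.find_spec hex
  have h2 : i0 ≤ i := by
    rw [hi0]
    exact Nat.find_min' hex ⟨hi, hp⟩
  have h3 : ∀ n < i0, a < q * n → p ∣ a.choose n := by
    intro n hn hn'
    by_contra hc
    rw [hi0] at hn
    exact Nat.find_min hex hn ⟨hn', hc⟩
  refine le_trans ?_ h2
  have hq0 : 0 < q := by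
    have := H.two
    omega
  have h4 : i0 ≤ a := by
    by_contra hc
    rw [not_le] at hc
    exact h1.2 (by rw [Nat.choose_eq_zero_of_lt hc]; exact dvd_zero p)
  have h5 : 1 ≤ i0 := by
    rcases Nat.eq_zero_or_pos i0 with h | h
    · rw [h] at h1
      simp at h1
    · exact h
  have h6 : a ≤ (a + m) / q := by
    have h7 := crit_N1 H ha hm hS 0 (Nat.zero_le _) (by
      rw [Nat.choose_zero_right]
      exact fun h => H.prime.one_lt.ne' (Nat.dvd_one.1 h))
    rw [Nat.le_div_iff_mul_le hq0, mul_comm]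
    simpa using h7
  have h7 : ‖(Ah q π a * Bh q π m).coeff i0 - (Ah q π a).coeff i0 * (Bh q π m).coeff 0‖ < 1 := by
    rw [coeff_mul, ← Finset.sum_erase_eq_sub (a := (i0, 0)) (by simp)]
    refine B8_sum_lt _ _ one_pos ?_
    rintro ⟨x, y⟩ hxy
    rw [Finset.mem_erase, Finset.HasAntidiagonal.mem_antidiagonal] at hxy
    have hx : x < i0 := by
      rcases hxy with ⟨h8, h9⟩
      simp only at h9
      rcases Nat.lt_or_ge x i0 with h | h
      · exact h
      · exact absurd (Prod.ext (by simp only; omega) (by simp only; omega)) h8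
    rw [norm_mul]
    have h8 : ‖(Ah q π a).coeff x‖ < 1 := by
      rcases Nat.lt_or_ge (a / q) x with h | h
      · have h9 : p ∣ a.choose x := h3 x hx (by
          rw [Nat.div_lt_iff_lt_mul hq0] at h
          rwa [mul_comm])
        have h10 := Ah_res H a x ha h
        rw [B8_cast_zero H h9, sub_zero] at h10
        exact h10
      · exact Ah_res_lt H a x ha h
    exact mul_lt_one_of_nonneg_of_lt_one_left (norm_nonneg _) h8 (B8_Bh_le H m y)
  have h8 : ‖(Ah q π a).coeff i0‖ = 1 :=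
    B8_norm_one (B8_cast_one H h1.2) (Ah_res H a i0 ha (by
      rw [Nat.div_lt_iff_lt_mul hq0, mul_comm]
      exact h1.1))
  have h9 : ‖(Bh q π m).coeff 0‖ = 1 := B8_norm_one norm_one (Bh_zero H m)
  have h10 : ‖(Ah q π a * Bh q π m).coeff i0‖ = 1 :=
    B8_norm_one (by rw [norm_mul, h8, h9, mul_one]) h7
  have h11 : ‖υ i0‖ = 1 := by
    have h12 := ups_res H ha hm hS i0 h5 (h4.trans h6)
    have h13 : ‖υ i0 - (-(Ah q π a * Bh q π m).coeff i0)‖ < 1 := by
      rw [sub_neg_eq_add, add_comm]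
      exact h12
    exact B8_norm_one (by rw [norm_neg, h10]) h13
  have h12 := ups_e0 H ha hm hS i0 (h4.trans h6)
  rw [norm_mul, h11, one_mul, norm_pow] at h12
  exact (pow_le_pow_iff_right_of_lt_one₀ (B8_pi_pos H) H.lt).1 h12

theorem B8_coeff (n b i : ℕ) : ‖((X : K[X]) ^ n * (1 + X) ^ b).coeff i‖ ≤ 1 := by
  rw [coeff_X_pow_mul']
  split_ifs
  · rw [coeff_one_add_X_pow]
    exact B8_cast_le _
  · simp

theorem B8_Ph_coeff (H : Hyp K p q π) {a m : ℕ} {υ : ℕ → K} (ha : 1 ≤ a) (hm : 1 ≤ m)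
    (hS : Star q π a m υ) (n : ℕ) : ‖(Ph q π υ (a + m)).coeff n‖ ≤ ‖π‖ ^ e0 q m := by
  unfold Ph
  rw [finsetSum_coeff]
  refine B8_sum_le _ _ (by positivity) ?_
  intro i hi
  rw [Finset.mem_range, Nat.lt_succ_iff] at hi
  rw [coeff_C_mul, norm_mul]
  refine le_trans (mul_le_mul (ups_e0 H ha hm hS i hi) (B8_coeff _ _ _) (norm_nonneg _)
    (by positivity)) ?_
  rw [mul_one]

theorem B8_Ph_eval (H : Hyp K p q π) {a m : ℕ} {υ : ℕ → K} (ha : 1 ≤ a) (hm : 1 ≤ m)
    (hS : Star q π a m υ) : ‖(Ph q π υ (a + m)).eval π‖ ≤ ‖π‖ ^ e0 q m := by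
  unfold Ph
  rw [eval_finsetSum]
  refine B8_sum_le _ _ (by positivity) ?_
  intro i hi
  rw [Finset.mem_range, Nat.lt_succ_iff] at hi
  simp only [eval_mul, eval_C, eval_pow, eval_X, eval_add, eval_one]
  rw [norm_mul]
  have h1 : ‖π ^ (q * i) * (1 + π) ^ (a + m - q * i)‖ ≤ 1 := by
    rw [norm_mul, norm_pow, norm_pow]
    have h2 : ‖1 + π‖ ≤ 1 :=
      le_trans (IsUltrametricDist.norm_add_le_max _ _) (max_le norm_one.le H.lt.le)
    exact mul_le_one₀ (pow_le_one₀ (norm_nonneg _) H.lt.le) (by positivity)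
      (pow_le_one₀ (norm_nonneg _) h2)
  refine le_trans (mul_le_mul (ups_e0 H ha hm hS i hi) h1 (norm_nonneg _) (by positivity)) ?_
  rw [mul_one]

theorem crit_T0 (H : Hyp K p q π) {a m : ℕ} {υ : ℕ → K} (ha : 1 ≤ a) (hm : 1 ≤ m)
    (hS : Star q π a m υ) (i : ℕ) (hi : 1 ≤ i) (hia : i ≤ a) (hie : i < e0 q m) :
    p ∣ ((q - 1) * i - 1).choose (a - i) := by
  classical
  by_contra hc
  have hex : ∃ n, 1 ≤ n ∧ ¬ p ∣ ((q - 1) * n - 1).choose (a - n) := ⟨i, hi, hc⟩
  obtain ⟨i0, hi0⟩ : ∃ i0, i0 = Nat.find hex := ⟨_, rfl⟩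
  have h1 : 1 ≤ i0 ∧ ¬ p ∣ ((q - 1) * i0 - 1).choose (a - i0) := by
    rw [hi0]
    exact Nat.find_spec hex
  have h2 : i0 ≤ i := by
    rw [hi0]
    exact Nat.find_min' hex ⟨hi, hc⟩
  have h3 : ∀ n < i0, 1 ≤ n → p ∣ ((q - 1) * n - 1).choose (a - n) := by
    intro n hn hn'
    by_contra hc
    rw [hi0] at hn
    exact Nat.find_min hex hn ⟨hn', hc⟩
  have hpos := B8_pi_pos H
  have h4 : (Ah q π a).eval π = (Ph q π υ (a + m)).eval π := by
    have h5 := congrArg (eval π) (show Ah q π a * Bh q π m = _ from hS)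
    rw [eval_mul, Bh_eval H m, mul_one, eval_sub, eval_finsetSum] at h5
    rw [h5]
    have h6 := sum_ups H ha hm hS
    simp only [eval_mul, eval_C, eval_pow, eval_X]
    rw [h6, sub_zero]
  have h5 : ‖(Ah q π a).eval π‖ ≤ ‖π‖ ^ e0 q m := by
    rw [h4]
    exact B8_Ph_eval H ha hm hS
  have h6 : ‖(Ah q π a).eval π‖ = ‖π‖ ^ i0 := by
    obtain ⟨T, hT⟩ : ∃ T : ℕ → K, T = fun i =>
      (-1) ^ (a - i) * ((((q - 1) * i - 1).choose (a - i) : ℕ) : K) * π ^ i := ⟨_, rfl⟩
    have h7 : (Ah q π a).eval π = ∑ i ∈ Finset.Icc 1 a, T i := by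
      rw [Ah_eval H a, hT]
    have hmem : i0 ∈ Finset.Icc 1 a := Finset.mem_Icc.2 ⟨h1.1, h2.trans hia⟩
    have h8 : ‖T i0‖ = ‖π‖ ^ i0 := by
      rw [hT]
      simp only [norm_mul, norm_pow, norm_neg, norm_one, one_pow, one_mul]
      rw [B8_cast_one H h1.2, one_mul]
    have h9 : ‖∑ i ∈ (Finset.Icc 1 a).erase i0, T i‖ < ‖T i0‖ := by
      refine B8_sum_lt _ _ (by rw [h8]; positivity) ?_
      intro n hn
      rw [Finset.mem_erase, Finset.mem_Icc] at hn
      rcases Nat.lt_or_ge n i0 with h | h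
      · have h10 : T n = 0 := by
          rw [hT]
          simp only
          rw [B8_cast_zero H (h3 n h hn.2.1), mul_zero, zero_mul]
        rw [h10, norm_zero, h8]
        positivity
      · have h10 : i0 < n := lt_of_le_of_ne h (Ne.symm hn.1)
        have h11 : ‖T n‖ ≤ ‖π‖ ^ n := by
          rw [hT]
          simp only [norm_mul, norm_pow, norm_neg, norm_one, one_pow, one_mul]
          exact mul_le_of_le_one_left (by positivity) (B8_cast_le _)
        rw [h8]
        exact lt_of_le_of_lt h11 (pow_lt_pow_right_of_lt_one₀ hpos H.lt h10)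
    rw [h7, ← Finset.sum_erase_add _ _ hmem, B8_norm_add h9, h8]
  rw [h6] at h5
  have h7 := (pow_le_pow_iff_right_of_lt_one₀ hpos H.lt).1 h5
  omega

theorem crit_N (H : Hyp K p q π) {a m : ℕ} {υ : ℕ → K} (ha : 1 ≤ a) (hm : 1 ≤ m)
    (hS : Star q π a m υ) (j : ℕ) (hj : (a + m) / q < a + j) :
    ‖(Bh q π m).coeff j‖ ≤ ‖π‖ ^ e0 q m := by
  classical
  have key : ∀ d j : ℕ, (Bh q π m).natDegree < j + d → (a + m) / q < a + j →
      ‖(Bh q π m).coeff j‖ ≤ ‖π‖ ^ e0 q m := by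
    intro d
    induction d with
    | zero =>
      intro j h1 _
      rw [coeff_eq_zero_of_natDegree_lt (by simpa using h1), norm_zero]
      positivity
    | succ d ih =>
      intro j h1 h2
      have h3 : (Ah q π a * Bh q π m).coeff (a + j) = (Ph q π υ (a + m)).coeff (a + j) := by
        have h4 := congrArg (fun f => coeff f (a + j)) (show Ah q π a * Bh q π m = _ from hS)
        simp only [coeff_sub, finsetSum_coeff] at h4
        rw [h4]
        have h5 : ∑ i ∈ Finset.range ((a + m) / q + 1), (C (υ i) * X ^ i).coeff (a + j) = 0 := by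
          refine Finset.sum_eq_zero fun i hi => ?_
          rw [Finset.mem_range] at hi
          rw [coeff_C_mul_X_pow, if_neg (by omega)]
        rw [h5, sub_zero]
      have h4 : ‖(Ah q π a * Bh q π m).coeff (a + j)‖ ≤ ‖π‖ ^ e0 q m := by
        rw [h3]
        exact B8_Ph_coeff H ha hm hS _
      rw [coeff_mul, ← Finset.sum_erase_add _ _ (show (a, j) ∈ Finset.HasAntidiagonal.antidiagonal (a + j) by
        simp)] at h4
      have h5 : ‖∑ x ∈ (Finset.HasAntidiagonal.antidiagonal (a + j)).erase (a, j),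
          (Ah q π a).coeff x.1 * (Bh q π m).coeff x.2‖ ≤ ‖π‖ ^ e0 q m := by
        refine B8_sum_le _ _ (by positivity) ?_
        rintro ⟨x, y⟩ hxy
        rw [Finset.mem_erase, Finset.HasAntidiagonal.mem_antidiagonal] at hxy
        obtain ⟨h6, h7⟩ := hxy
        simp only at h7 ⊢
        rcases Nat.lt_or_ge a x with h | h
        · rw [coeff_eq_zero_of_natDegree_lt (lt_of_le_of_lt (Ah_deg H a ha).1 h), zero_mul,
            norm_zero]
          positivity
        · have h8 : x ≠ a := by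
            intro h9
            exact h6 (Prod.ext (by simpa using h9) (by simp only; omega))
          have h9 : j + 1 ≤ y := by omega
          have h10 := ih y (by omega) (by omega)
          rw [norm_mul]
          exact le_trans (mul_le_of_le_one_left (norm_nonneg _) (B8_Ah_le H a x ha)) h10
      have h6 : ‖(Ah q π a).coeff a * (Bh q π m).coeff j‖ ≤ ‖π‖ ^ e0 q m := by
        obtain ⟨S, hSS⟩ : ∃ S, S = ∑ x ∈ (Finset.HasAntidiagonal.antidiagonal (a + j)).erase (a, j),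
          (Ah q π a).coeff x.1 * (Bh q π m).coeff x.2 := ⟨_, rfl⟩
        rw [← hSS] at h4 h5
        have h7 : (Ah q π a).coeff a * (Bh q π m).coeff j =
            (S + (Ah q π a).coeff a * (Bh q π m).coeff j) + -S := by ring
        rw [h7]
        refine le_trans (IsUltrametricDist.norm_add_le_max _ _) (max_le h4 ?_)
        rw [norm_neg]
        exact h5
      rwa [(Ah_deg H a ha).2, one_mul] at h6
  exact key ((Bh q π m).natDegree + 1) j (by omega) hj

end Pool.Agent.MP33dd76
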