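import Mathlib
import Pool.Agent.Lib.MP_33dd76_nt.B2Size
import Pool.Agent.Lib.MP_33dd76_nt.B3Fun

set_option autoImplicit false

open Polynomial

namespace Pool.Agent.MP33dd76

/-! # Module B9: the polynomials `T_j` -/

theorem Tj_zero (p q : ℕ) (b : ℤ) : Tj p q b 0 = 1 := by
  rw [Tj]

theorem Tj_rec (p q : ℕ) (hq : 2 ≤ q) (b : ℤ) (j : ℕ) (hj : 1 ≤ j) :
    Tj p q b j = ∑ l ∈ Finset.range (j / q + 1),
      X ^ l * Tj p q b l * C (bin p (b - q * l) (j - q * l)) := by
  obtain ⟨j, rfl⟩ : ∃ i, j = i + 1 := ⟨j - 1, by omega⟩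
  rw [Tj]
  rw [Fin.sum_univ_eq_sum_range (fun l : ℕ => if q * l ≤ j + 1 then
    X ^ l * Tj p q b l * C (bin p (b - q * l) (j + 1 - q * l)) else 0) (j + 1)]
  have hlt : (j + 1) / q + 1 ≤ j + 1 := by
    have : (j + 1) / q < j + 1 := Nat.div_lt_self (by omega) (by omega)
    omega
  symm
  refine (Finset.sum_congr rfl fun l hl => ?_).trans
    (Finset.sum_subset (Finset.range_mono hlt) fun l hl hl' => ?_)
  · rw [if_pos]
    rw [Finset.mem_range] at hl
    calc q * l ≤ q * ((j + 1) / q) := Nat.mul_le_mul_left _ (by omega)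
      _ ≤ j + 1 := Nat.mul_div_le _ _
  · rw [if_neg]
    rw [Finset.mem_range] at hl'
    intro h
    have : l ≤ (j + 1) / q := (Nat.le_div_iff_mul_le (by omega)).2 (by rw [mul_comm]; exact h)
    omega

theorem bin_nat (p n k : ℕ) : bin p n k = ((n.choose k : ℕ) : ZMod p) := by
  unfold bin
  rw [Ring.choose_natCast]
  simp

theorem bin_period (p N : ℕ) (hp : p.Prime) (x : ℤ) (k : ℕ) (hk : k < p ^ N) :
    bin p (x + (p : ℤ) ^ N) k = bin p x k := by
  unfold bin
  rw [Ring.add_choose_eq k (Commute.all x ((p : ℤ) ^ N)), Int.cast_sum]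
  rw [Finset.sum_eq_single (k, 0)]
  · simp
  · rintro ⟨i, l⟩ hil hne
    rw [Finset.HasAntidiagonal.mem_antidiagonal] at hil
    simp only at hil ⊢
    have hl : l ≠ 0 := by
      rintro rfl
      apply hne
      rw [add_zero] at hil
      rw [hil]
    have h1 : ((p : ℤ) ^ N) = (((p ^ N : ℕ)) : ℤ) := by push_cast; rfl
    have h2 : (((p ^ N).choose l : ℕ) : ZMod p) = 0 := by
      rw [ZMod.natCast_eq_zero_iff]
      exact hp.dvd_choose_pow hl (by omega)
    rw [h1, Ring.choose_natCast, Int.cast_mul]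
    push_cast at h2 ⊢
    rw [h2, mul_zero]
  · intro h
    exact absurd (Finset.HasAntidiagonal.mem_antidiagonal.2 (add_zero k)) h

theorem Tj_period (p q N : ℕ) (hp : p.Prime) (hq : 2 ≤ q) (b : ℤ) (j : ℕ) (hj : j < p ^ N) :
    Tj p q (b + (p : ℤ) ^ N) j = Tj p q b j := by
  induction j using Nat.strong_induction_on with
  | _ j ih =>
    rcases Nat.eq_zero_or_pos j with rfl | h
    · rw [Tj_zero, Tj_zero]
    · rw [Tj_rec p q hq _ j h, Tj_rec p q hq _ j h]
      refine Finset.sum_congr rfl fun l hl => ?_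
      rw [Finset.mem_range] at hl
      have h1 : j / q < j := Nat.div_lt_self h (by omega)
      rw [ih l (by omega) (by omega)]
      have h2 : b + (p : ℤ) ^ N - q * l = (b - q * l) + (p : ℤ) ^ N := by ring
      rw [h2, bin_period p N hp _ _ (by omega)]

private lemma B9_norm_le {K : Type*} [NormedField K] {p : ℕ} (hp : p.Prime)
    [CharP K p] (x : ZMod p) (hx : x ≠ 0) : ‖ZMod.castHom (dvd_refl p) K x‖ = 1 := by
  have : Fact p.Prime := ⟨hp⟩
  have h1 : x ^ (p - 1) = 1 := ZMod.pow_card_sub_one_eq_one hx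
  have h2 : ‖ZMod.castHom (dvd_refl p) K x‖ ^ (p - 1) = 1 := by
    rw [← norm_pow, ← map_pow, h1, map_one, norm_one]
  exact (pow_eq_one_iff_of_nonneg (norm_nonneg _) (by have := hp.two_le; omega)).1 h2

private lemma B9_norm_le' {K : Type*} [NormedField K] {p : ℕ} (hp : p.Prime)
    [CharP K p] (x : ZMod p) : ‖ZMod.castHom (dvd_refl p) K x‖ ≤ 1 := by
  by_cases hx : x = 0
  · rw [hx, map_zero, norm_zero]
    exact zero_le_one
  · exact (B9_norm_le hp x hx).le

private lemma B9_eval_le {K : Type*} [NormedField K] [IsUltrametricDist K] {p : ℕ} (hp : p.Prime)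
    [CharP K p] {π : K} (h1 : ‖π‖ < 1) (T : (ZMod p)[X]) :
    ‖T.eval₂ (ZMod.castHom (dvd_refl p) K) π‖ ≤ 1 := by
  rw [eval₂_eq_sum_range]
  refine IsUltrametricDist.norm_sum_le_of_forall_le_of_nonneg zero_le_one fun i _ => ?_
  rw [norm_mul, norm_pow]
  calc _ ≤ 1 * 1 := mul_le_mul (B9_norm_le' hp _) (pow_le_one₀ (norm_nonneg _) h1.le)
        (by positivity) zero_le_one
    _ = 1 := one_mul 1

/-- the norm of the value at `π` of a polynomial over `F_p` -/
theorem norm_eval_T {K : Type*} [NormedField K] [IsUltrametricDist K] {p : ℕ} (hp : p.Prime)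
    [CharP K p] {π : K} (h0 : π ≠ 0) (h1 : ‖π‖ < 1) (T : (ZMod p)[X]) (n : ℕ)
    (hn : T.coeff n ≠ 0) (hn' : ∀ i < n, T.coeff i = 0) :
    ‖T.eval₂ (ZMod.castHom (dvd_refl p) K) π‖ = ‖π‖ ^ n := by
  obtain ⟨U, hU⟩ : X ^ n ∣ T := X_pow_dvd_iff.2 hn'
  have hU0 : U.coeff 0 ≠ 0 := by
    have h2 : T.coeff n = U.coeff 0 := by
      rw [hU]
      have := coeff_X_pow_mul U n 0
      rwa [zero_add] at this
    rwa [h2] at hn
  have h3 : ‖U.eval₂ (ZMod.castHom (dvd_refl p) K) π‖ = 1 := by
    have h4 : U = X * divX U + C (U.coeff 0) := by rw [X_mul_divX_add]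
    rw [h4, eval₂_add, eval₂_mul, eval₂_X, eval₂_C]
    have h5 : ‖π * (divX U).eval₂ (ZMod.castHom (dvd_refl p) K) π‖ < 1 := by
      rw [norm_mul]
      calc _ ≤ ‖π‖ * 1 := mul_le_mul_of_nonneg_left (B9_eval_le hp h1 _) (norm_nonneg _)
        _ < 1 := by rw [mul_one]; exact h1
    have h6 : ‖ZMod.castHom (dvd_refl p) K (U.coeff 0)‖ = 1 := B9_norm_le hp _ hU0
    rw [IsUltrametricDist.norm_add_eq_max_of_norm_ne_norm, h6, max_eq_right h5.le]
    rw [h6]
    exact h5.ne
  rw [hU, eval₂_mul, eval₂_pow, eval₂_X, norm_mul, norm_pow, h3, mul_one]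

theorem beta_T {K : Type*} [NormedField K] [IsUltrametricDist K] {p q : ℕ} [CharP K p] {π : K}
    (H : Hyp K p q π) (m j : ℕ) (hm : 1 ≤ m) (hj : j ≤ m / q) :
    ‖(Bh q π m).coeff j -
      (Bh q π m).coeff 0 * (Tj p q m j).eval₂ (ZMod.castHom (dvd_refl p) K) π‖ ≤
        ‖π‖ ^ (m / q + 1 - j) := by
  have hq : 2 ≤ q := H.two.le
  induction j using Nat.strong_induction_on with
  | _ j ih =>
    rcases Nat.eq_zero_or_pos j with rfl | h
    · rw [Tj_zero, eval₂_one, mul_one, sub_self, norm_zero]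
      positivity
    · have hjm : j ≤ m := hj.trans (Nat.div_le_self _ _)
      have hjq : j / q < j := Nat.div_lt_self h (by omega)
      have e1 := congrArg (fun f : K[X] => f.coeff j) (Bh_add_Ah H m)
      simp only [coeff_add] at e1
      have e2 : (Ph q π (fun i => (Bh q π m).coeff i) m).coeff j =
          ∑ l ∈ Finset.range (j / q + 1), (Bh q π m).coeff l * π ^ l *
            (((m - q * l).choose (j - q * l) : ℕ) : K) := by
        unfold Ph
        rw [finsetSum_coeff]
        symm
        have hle : j / q + 1 ≤ m / q + 1 := by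
          have := Nat.div_le_div_right (c := q) hjm
          omega
        refine (Finset.sum_congr rfl fun l hl => ?_).trans
          (Finset.sum_subset (Finset.range_mono hle) fun l hl hl' => ?_)
        · rw [Finset.mem_range] at hl
          have h1 : q * l ≤ j := by
            calc q * l ≤ q * (j / q) := Nat.mul_le_mul_left _ (by omega)
              _ ≤ j := Nat.mul_div_le _ _
          rw [coeff_C_mul, coeff_X_pow_mul', if_pos h1, coeff_one_add_X_pow]
        · rw [Finset.mem_range] at hl'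
          rw [coeff_C_mul, coeff_X_pow_mul', if_neg, mul_zero]
          intro h2
          have : l ≤ j / q := (Nat.le_div_iff_mul_le (by omega)).2 (by rw [mul_comm]; exact h2)
          omega
      have e3 : (Tj p q m j).eval₂ (ZMod.castHom (dvd_refl p) K) π =
          ∑ l ∈ Finset.range (j / q + 1), π ^ l *
            (Tj p q m l).eval₂ (ZMod.castHom (dvd_refl p) K) π *
            (((m - q * l).choose (j - q * l) : ℕ) : K) := by
        rw [Tj_rec p q hq _ j h, eval₂_finsetSum]
        refine Finset.sum_congr rfl fun l hl => ?_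
        rw [Finset.mem_range] at hl
        have h1 : q * l ≤ j := by
          calc q * l ≤ q * (j / q) := Nat.mul_le_mul_left _ (by omega)
            _ ≤ j := Nat.mul_div_le _ _
        have h2 : ((m : ℕ) : ℤ) - q * l = (((m - q * l : ℕ)) : ℤ) := by
          push_cast [Nat.cast_sub (h1.trans hjm)]
          ring
        rw [eval₂_mul, eval₂_mul, eval₂_pow, eval₂_X, eval₂_C, h2, bin_nat, map_natCast]
      have e4 : (Bh q π m).coeff j -
          (Bh q π m).coeff 0 * (Tj p q m j).eval₂ (ZMod.castHom (dvd_refl p) K) π =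
          -(Ah q π m).coeff j + ∑ l ∈ Finset.range (j / q + 1),
            π ^ l * ((Bh q π m).coeff l -
              (Bh q π m).coeff 0 * (Tj p q m l).eval₂ (ZMod.castHom (dvd_refl p) K) π) *
              (((m - q * l).choose (j - q * l) : ℕ) : K) := by
        rw [e3, Finset.mul_sum]
        rw [e2] at e1
        rw [eq_sub_of_add_eq e1]
        have e5 : ∀ a b c : K, a - b - c = -b + (a - c) := fun a b c => by ring
        rw [e5, ← Finset.sum_sub_distrib]
        congr 1
        refine Finset.sum_congr rfl fun l _ => ?_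
        ring
      rw [e4]
      refine (IsUltrametricDist.norm_add_le_max _ _).trans (max_le ?_ ?_)
      · rw [norm_neg]
        exact Ah_fil H m hm j
      · refine IsUltrametricDist.norm_sum_le_of_forall_le_of_nonneg (by positivity) fun l hl => ?_
        rw [Finset.mem_range] at hl
        have h1 := ih l (by omega) (by omega)
        have h2 : ‖(((m - q * l).choose (j - q * l) : ℕ) : K)‖ ≤ 1 := by
          have := B9_norm_le' (K := K) H.prime (((m - q * l).choose (j - q * l) : ℕ) : ZMod p)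
          rwa [map_natCast] at this
        rw [norm_mul, norm_mul, norm_pow]
        calc ‖π‖ ^ l * ‖(Bh q π m).coeff l -
              (Bh q π m).coeff 0 * (Tj p q m l).eval₂ (ZMod.castHom (dvd_refl p) K) π‖ *
              ‖(((m - q * l).choose (j - q * l) : ℕ) : K)‖
            ≤ (‖π‖ ^ l * ‖π‖ ^ (m / q + 1 - l)) * 1 :=
              mul_le_mul (mul_le_mul_of_nonneg_left h1 (by positivity)) h2 (norm_nonneg _)
                (by positivity)
          _ = ‖π‖ ^ (l + (m / q + 1 - l)) := by rw [mul_one, pow_add]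
          _ ≤ ‖π‖ ^ (m / q + 1 - j) :=
              pow_le_pow_of_le_one (norm_nonneg _) H.lt.le (by omega)

end Pool.Agent.MP33dd76
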