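import Mathlib
import Pool.Agent.Lib.MP_33dd76_nt.Defs

set_option autoImplicit false

open Polynomial

namespace Pool.Agent.MP33dd76

/-! # Module C1: digits -/

/-- Lucas in base `p ^ R` -/
theorem C1_lucas (p : ℕ) (hp : p.Prime) (R : ℕ) : ∀ n k : ℕ,
    n.choose k ≡ (n / p ^ R).choose (k / p ^ R) * (n % p ^ R).choose (k % p ^ R) [MOD p] := by
  haveI : Fact p.Prime := ⟨hp⟩
  induction R with
  | zero =>
    intro n k
    simp [Nat.mod_one]
    exact Nat.ModEq.refl _
  | succ R ih =>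
    intro n k
    have e1 : ∀ x : ℕ, (x % p ^ (R + 1)) % p = x % p := fun x =>
      Nat.mod_mod_of_dvd x (Dvd.intro_left (p ^ R) (by rw [pow_succ]))
    have e2 : ∀ x : ℕ, (x % p ^ (R + 1)) / p = (x / p) % p ^ R := fun x => by
      rw [pow_succ, mul_comm, Nat.mod_mul_right_div_self]
    have e3 : ∀ x : ℕ, x / p ^ (R + 1) = (x / p) / p ^ R := fun x => by
      rw [pow_succ, mul_comm, Nat.div_div_eq_div_mul]
    have h1 := Choose.choose_modEq_choose_mod_mul_choose_div_nat (n := n) (k := k) (p := p)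
    have h2 := Choose.choose_modEq_choose_mod_mul_choose_div_nat
      (n := n % p ^ (R + 1)) (k := k % p ^ (R + 1)) (p := p)
    rw [e1, e1, e2, e2] at h2
    have h3 := ih (n / p) (k / p)
    rw [e3, e3]
    calc n.choose k ≡ (n % p).choose (k % p) * (n / p).choose (k / p) [MOD p] := h1
      _ ≡ (n % p).choose (k % p) * ((n / p / p ^ R).choose (k / p / p ^ R) *
          (n / p % p ^ R).choose (k / p % p ^ R)) [MOD p] := Nat.ModEq.mul_left _ h3
      _ = (n / p / p ^ R).choose (k / p / p ^ R) * ((n % p).choose (k % p) *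
          (n / p % p ^ R).choose (k / p % p ^ R)) := by ring
      _ ≡ (n / p / p ^ R).choose (k / p / p ^ R) *
          (n % p ^ (R + 1)).choose (k % p ^ (R + 1)) [MOD p] := Nat.ModEq.mul_left _ h2.symm

/-- Lucas in base `Q = p ^ R` with explicit digits -/
theorem C1_lucas' (p : ℕ) (hp : p.Prime) (R x y z w : ℕ) (hy : y < p ^ R) (hw : w < p ^ R) :
    (x * p ^ R + y).choose (z * p ^ R + w) ≡ x.choose z * y.choose w [MOD p] := by
  have hQ : 0 < p ^ R := pow_pos hp.pos R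
  have h := C1_lucas p hp R (x * p ^ R + y) (z * p ^ R + w)
  have e1 : ∀ x y : ℕ, y < p ^ R → (x * p ^ R + y) / p ^ R = x := fun x y hy => by
    rw [add_comm, Nat.add_mul_div_right _ _ hQ, Nat.div_eq_of_lt hy, zero_add]
  have e2 : ∀ x y : ℕ, y < p ^ R → (x * p ^ R + y) % p ^ R = y := fun x y hy => by
    rw [add_comm, Nat.add_mul_mod_self_right, Nat.mod_eq_of_lt hy]
  rw [e1 x y hy, e1 z w hw, e2 x y hy, e2 z w hw] at h
  exact h

theorem C1_ndvd (p : ℕ) (hp : p.Prime) (A B : ℕ) (h : A ≡ B [MOD p]) (hB : ¬ p ∣ B) : ¬ p ∣ A :=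
  fun hA => hB ((Nat.ModEq.dvd_iff h dvd_rfl).1 hA)

theorem digits (p s q : ℕ) (hp : p.Prime) (hq : q = p ^ s) (h2 : 2 < q) (a m : ℕ) (ha : 1 ≤ a)
    (hm : 1 ≤ m)
    (N1 : ∀ i ≤ m / q, ¬ p ∣ m.choose i → q * (a + i) ≤ a + m)
    (N3 : ∀ i, a < q * i → ¬ p ∣ a.choose i → e0 q m ≤ i) :
    (∃ R, a = p ^ R ∧ m = (q - 1) * p ^ R) ∨
    (∃ R α β, a = p ^ R + α ∧ m = q * p ^ R + β ∧ (q - 1) * (α + β) ≤ p ^ R) := by
  have hp1 : ¬ p ∣ 1 := fun h => hp.one_lt.ne' (Nat.dvd_one.1 h)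
  have hs : s ≠ 0 := by
    rintro rfl
    rw [pow_zero] at hq
    omega
  have hpq : p ∣ q := hq ▸ dvd_pow_self p hs
  have hple : p ≤ q := Nat.le_of_dvd (by omega) hpq
  obtain ⟨R, hR1, hR2⟩ : ∃ R, p ^ R ≤ a ∧ a < p ^ (R + 1) :=
    ⟨Nat.log p a, Nat.pow_log_le_self p (by omega), Nat.lt_pow_succ_log_self hp.one_lt a⟩
  obtain ⟨Q, hQdef⟩ : ∃ Q, Q = p ^ R := ⟨_, rfl⟩
  have hQ : 0 < Q := hQdef ▸ pow_pos hp.pos R
  rw [pow_succ, ← hQdef] at hR2
  rw [← hQdef] at hR1
  -- binom(a, Q)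
  have hbin : ¬ p ∣ a.choose Q := by
    have ea : a = (a / Q) * p ^ R + a % Q := by rw [← hQdef]; exact (Nat.div_add_mod' a Q).symm
    have h := C1_lucas' p hp R (a / Q) (a % Q) 1 0 (hQdef ▸ Nat.mod_lt a hQ) (hQdef ▸ hQ)
    rw [← ea, one_mul, add_zero, Nat.choose_one_right, Nat.choose_zero_right, mul_one,
      ← hQdef] at h
    refine C1_ndvd p hp _ _ h ?_
    have h1 : 1 ≤ a / Q := (Nat.one_le_div_iff hQ).2 hR1
    have h2 : a / Q < p := (Nat.div_lt_iff_lt_mul hQ).2 (by rwa [mul_comm] at hR2)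
    exact Nat.not_dvd_of_pos_of_lt h1 h2
  have haq : a < q * Q := lt_of_lt_of_le hR2 (by rw [mul_comm]; exact Nat.mul_le_mul_right Q hple)
  have hN3 : m - m / q ≤ q * Q := by
    have h := N3 Q haq hbin
    unfold e0 at h
    have h' := (Nat.div_le_iff_le_mul_add_pred (by omega : 0 < q)).1 h
    omega
  by_cases hmQ : q * Q ≤ m
  · -- second alternative
    obtain ⟨β, rfl⟩ : ∃ β, m = q * Q + β := ⟨m - q * Q, by omega⟩
    have hdiv : (q * Q + β) / q = Q + β / q := by
      rw [Nat.mul_add_div (by omega)]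
    rw [hdiv] at hN3
    have hb3 : q * (β / q) ≤ β := Nat.mul_div_le β q
    have hb4 : 3 * (β / q) ≤ q * (β / q) := Nat.mul_le_mul_right _ h2
    have hβ2 : β < 2 * Q := by omega
    have hβQ : β < Q := by
      by_contra hcon
      have e : q * Q + β = (q + 1) * p ^ R + (β - Q) := by
        rw [← hQdef]
        have : (q + 1) * Q = q * Q + Q := by ring
        omega
      have hl := C1_lucas' p hp R (q + 1) (β - Q) 1 0 (by rw [← hQdef]; omega) (hQdef ▸ hQ)
      rw [← e, one_mul, add_zero, Nat.choose_one_right, Nat.choose_zero_right, mul_one,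
        ← hQdef] at hl
      have hnd : ¬ p ∣ (q * Q + β).choose Q := by
        refine C1_ndvd p hp _ _ hl ?_
        intro h
        exact hp1 ((Nat.dvd_add_right hpq).1 h)
      have := N1 Q (by rw [hdiv]; omega) hnd
      have h5 : q * (a + Q) = q * a + q * Q := by ring
      have h6 : 3 * a ≤ q * a := Nat.mul_le_mul_right _ h2
      omega
    have hl := C1_lucas' p hp R q β 0 β (by rw [← hQdef]; omega) (by rw [← hQdef]; omega)
    rw [zero_mul, zero_add, Nat.choose_zero_right, Nat.choose_self, mul_one, ← hQdef] at hl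
    have h7 := N1 β (by rw [hdiv]; omega) (C1_ndvd p hp _ _ hl hp1)
    right
    refine ⟨R, a - Q, β, by rw [← hQdef]; omega, by rw [hQdef], ?_⟩
    rw [← hQdef]
    obtain ⟨α, rfl⟩ : ∃ α, a = Q + α := ⟨a - Q, by omega⟩
    obtain ⟨r, rfl⟩ : ∃ r, q = r + 1 := ⟨q - 1, by omega⟩
    have e8 : Q + α - Q = α := by omega
    rw [e8, Nat.add_sub_cancel]
    nlinarith
  · -- first alternative
    have h0 := N1 0 (Nat.zero_le _) (by rw [Nat.choose_zero_right]; exact hp1)
    rw [add_zero] at h0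
    obtain ⟨r, rfl⟩ : ∃ r, q = r + 1 := ⟨q - 1, by omega⟩
    have h1 : r * Q ≤ m := by
      have : r * Q ≤ r * a := Nat.mul_le_mul_left _ hR1
      have e : (r + 1) * a = r * a + a := by ring
      omega
    obtain ⟨β, rfl⟩ : ∃ β, m = r * Q + β := ⟨m - r * Q, by omega⟩
    have hβQ : β < Q := by
      have e : (r + 1) * Q = r * Q + Q := by ring
      omega
    have hle : β ≤ (r * Q + β) / (r + 1) := by
      rw [Nat.le_div_iff_mul_le (by omega)]
      have : β * r ≤ Q * r := Nat.mul_le_mul_right _ hβQ.le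
      nlinarith
    have hl := C1_lucas' p hp R r β 0 β (by rw [← hQdef]; omega) (by rw [← hQdef]; omega)
    rw [zero_mul, zero_add, Nat.choose_zero_right, Nat.choose_self, mul_one, ← hQdef] at hl
    have h7 := N1 β hle (C1_ndvd p hp _ _ hl hp1)
    have h8 : a + β ≤ Q := by
      have e : (r + 1) * (a + β) = r * (a + β) + a + β := by ring
      have h9 : r * (a + β) ≤ r * Q := by omega
      exact Nat.le_of_mul_le_mul_left h9 (by omega)
    left
    refine ⟨R, by rw [← hQdef]; omega, ?_⟩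
    rw [← hQdef, Nat.add_sub_cancel]
    omega

end Pool.Agent.MP33dd76
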