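import Mathlib
import Pool.Agent.Lib.MP_33dd76_nt.Defs

set_option autoImplicit false

open Polynomial

namespace Pool.Agent.MP33dd76

/-! # Module C2: the combinatorial lemma for `α` -/

theorem C2_lucas (p : ℕ) (hp : p.Prime) (e : ℕ) : ∀ (a b c d : ℕ), c < p ^ e → d < p ^ e →
    (a * p ^ e + c).choose (b * p ^ e + d) ≡ a.choose b * c.choose d [MOD p] := by
  have : Fact p.Prime := ⟨hp⟩
  induction e with
  | zero =>
    intro a b c d hc hd
    have hc0 : c = 0 := by simpa using hc
    have hd0 : d = 0 := by simpa using hd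
    subst hc0; subst hd0
    simpa using Nat.ModEq.refl _
  | succ e ih =>
    intro a b c d hc hd
    have hp0 : 0 < p := hp.pos
    have key : ∀ u v : ℕ, (u * p ^ (e + 1) + v) % p = v % p ∧
        (u * p ^ (e + 1) + v) / p = u * p ^ e + v / p := by
      intro u v
      have h1 : u * p ^ (e + 1) + v = v + p * (u * p ^ e) := by rw [pow_succ]; ring
      constructor
      · rw [h1, Nat.add_mul_mod_self_left]
      · rw [h1, Nat.add_mul_div_left _ _ hp0]; ring
    have hc' : c / p < p ^ e := by
      rw [Nat.div_lt_iff_lt_mul hp0]; rwa [pow_succ] at hc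
    have hd' : d / p < p ^ e := by
      rw [Nat.div_lt_iff_lt_mul hp0]; rwa [pow_succ] at hd
    have h1 := Choose.choose_modEq_choose_mod_mul_choose_div_nat (p := p)
      (n := a * p ^ (e + 1) + c) (k := b * p ^ (e + 1) + d)
    rw [(key a c).1, (key a c).2, (key b d).1, (key b d).2] at h1
    have h2 := ih a b (c / p) (d / p) hc' hd'
    have h3 := Choose.choose_modEq_choose_mod_mul_choose_div_nat (p := p) (n := c) (k := d)
    calc (a * p ^ (e + 1) + c).choose (b * p ^ (e + 1) + d)
        ≡ (c % p).choose (d % p) * (a * p ^ e + c / p).choose (b * p ^ e + d / p) [MOD p] := h1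
      _ ≡ (c % p).choose (d % p) * (a.choose b * (c / p).choose (d / p)) [MOD p] :=
          Nat.ModEq.mul_left _ h2
      _ = a.choose b * ((c % p).choose (d % p) * (c / p).choose (d / p)) := by ring
      _ ≡ a.choose b * c.choose d [MOD p] := Nat.ModEq.mul_left _ h3.symm

theorem C2_pm (p : ℕ) (hp : p.Prime) (e : ℕ) : ∀ j, j < p ^ e → ¬ p ∣ (p ^ e - 1).choose j := by
  intro j
  induction j with
  | zero => intro _ h; rw [Nat.choose_zero_right] at h; exact hp.one_lt.ne' (Nat.dvd_one.1 h)
  | succ j ih =>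
    intro hj h
    apply ih (by omega)
    have h1 : (p ^ e).choose (j + 1) = (p ^ e - 1).choose j + (p ^ e - 1).choose (j + 1) := by
      have h2 : p ^ e = (p ^ e - 1) + 1 := by omega
      conv_lhs => rw [h2]
      rw [Nat.choose_succ_succ]
    have h3 : p ∣ (p ^ e).choose (j + 1) := hp.dvd_choose_pow (by omega) (by omega)
    rw [h1] at h3
    exact (Nat.dvd_add_left h).1 h3

/-- Lucas, non-divisibility form -/
theorem C2_nd (p : ℕ) (hp : p.Prime) (e a b c d : ℕ) (hc : c < p ^ e) (hd : d < p ^ e) :
    p ∣ (a * p ^ e + c).choose (b * p ^ e + d) ↔ p ∣ a.choose b * c.choose d :=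
  (C2_lucas p hp e a b c d hc hd).dvd_iff dvd_rfl

/-- `binom(κ q + (q-1), q-1-κ)` is a unit mod `p` -/
theorem C2_kap (p s q κ : ℕ) (hp : p.Prime) (hq : q = p ^ s) (hκ : κ ≤ q - 1) :
    ¬ p ∣ (κ * q + (q - 1)).choose (q - 1 - κ) := by
  have hq0 : 0 < q := by rw [hq]; exact pow_pos hp.pos _
  have h := C2_nd p hp s κ 0 (q - 1) (q - 1 - κ) (by omega) (by omega)
  rw [← hq] at h
  simp only [zero_mul, zero_add, Nat.choose_zero_right, one_mul] at h
  rw [h, hq]
  exact C2_pm p hp s _ (by omega)

theorem C2_D (p s q : ℕ) (hp : p.Prime) (hq : q = p ^ s) (h2 : 2 < q) (R : ℕ) : ∀ α : ℕ, 1 ≤ α →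
    (q - 1) * α ≤ p ^ R → ¬ Sp q (p ^ R) α →
    ∃ x y, q * x + y + 1 = (q - 1) * (p ^ R + α) ∧ ¬ p ∣ (x + y).choose x ∧
      α + p ^ R / q < x ∧ y < (q - 2) * p ^ R := by
  induction R using Nat.strong_induction_on with
  | _ R ih =>
  intro α hα hle hsp
  have hs : 1 ≤ s := by
    by_contra h
    have : s = 0 := by omega
    subst this
    simp at hq; omega
  have hp2 : 2 ≤ p := hp.two_le
  have hge : ∀ e : ℕ, q - 1 ≤ p ^ e → s ≤ e := by
    intro e he
    by_contra hlt
    push Not at hlt
    have h1 : p ^ e * 2 ≤ q := by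
      rw [hq]
      calc p ^ e * 2 ≤ p ^ e * p := Nat.mul_le_mul_left _ hp2
        _ = p ^ (e + 1) := (pow_succ _ _).symm
        _ ≤ p ^ s := Nat.pow_le_pow_right hp.pos hlt
    omega
  have hsR : s ≤ R := hge R (le_trans (by nlinarith) hle)
  obtain ⟨e, rfl⟩ := Nat.exists_eq_add_of_le' hsR
  -- `Q = q G`
  set G := p ^ e with hG
  have hQ : p ^ (e + s) = q * G := by rw [pow_add, ← hq, mul_comm]
  have hq0 : 0 < q := by omega
  have hG0 : 0 < G := pow_pos hp.pos _
  rw [hQ] at hle hsp ⊢
  rw [Nat.mul_div_cancel_left _ hq0]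
  obtain ⟨r, hr⟩ : ∃ r, q = r + 3 := ⟨q - 3, by omega⟩
  have hq1 : q - 1 = r + 2 := by omega
  have hq2 : q - 2 = r + 1 := by omega
  obtain ⟨z, hz⟩ : ∃ z, (q - 1) * α = z + 1 := by
    have : 0 < (q - 1) * α := Nat.mul_pos (by omega) hα
    exact ⟨(q - 1) * α - 1, by omega⟩
  have hzQ : z + 1 ≤ q * G := by rw [← hz]; exact hle
  have hGq : q * G ≤ (q - 2) * (q * G) := by
    rw [hq2]; nlinarith [Nat.zero_le (r * (q * G))]
  by_cases hcase : z < (q - 2) * G
  · -- (i)
    have hκ : z / G < q - 2 := by rwa [Nat.div_lt_iff_lt_mul hG0]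
    have hzd := Nat.div_add_mod z G
    have hzm := Nat.mod_lt z hG0
    set κ := z / G with hκdef
    set z' := z % G with hz'
    obtain ⟨w, hw⟩ : ∃ w, q - 1 = κ + w := ⟨q - 1 - κ, by omega⟩
    have hwκ : q - 1 - κ = w := by omega
    have hw2 : 2 ≤ w := by omega
    refine ⟨w * G, κ * (q * G) + z, ?_, ?_, ?_, ?_⟩
    · rw [mul_add, hz, hw]; ring
    · have e1 : w * G + (κ * (q * G) + z) = (κ * q + (q - 1)) * G + z' := by
        rw [hw, ← hzd]; ring
      rw [e1]
      have h := C2_nd p hp e (κ * q + (q - 1)) w z' 0 hzm (by rw [← hG]; exact hG0)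
      rw [← hG, add_zero, Nat.choose_zero_right, mul_one] at h
      rw [h]
      have h' := C2_kap p s q κ hp hq (by omega)
      rwa [hwκ] at h'
    · have hαG : α < G := by
        by_contra hge'
        push Not at hge'
        have : (q - 1) * G ≤ (q - 1) * α := Nat.mul_le_mul_left _ hge'
        rw [hz, hq1] at this
        rw [hq2] at hcase
        nlinarith
      nlinarith
    · have : z < q * G := by omega
      have h3 : (κ + 1) * (q * G) ≤ (q - 2) * (q * G) := Nat.mul_le_mul_right _ hκ
      nlinarith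
  · push Not at hcase
    by_cases hαG : α < G
    · -- (ii)
      obtain ⟨ρ, hρ⟩ := Nat.exists_eq_add_of_lt hαG
      -- G = α + ρ + 1
      have hρ' : (q - 1) * (ρ + 1) < G := by
        have h1 : (q - 1) * G = (q - 1) * α + (q - 1) * (ρ + 1) := by rw [hρ]; ring
        rw [hz] at h1
        rw [hq1] at h1 ⊢
        rw [hq2] at hcase
        nlinarith
      have hse : s ≤ e := by
        apply hge e
        rw [← hG]
        nlinarith
      obtain ⟨f, rfl⟩ := Nat.exists_eq_add_of_le' hse
      have hGg : G = q * p ^ f := by rw [hG, pow_add, ← hq, mul_comm]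
      set g := p ^ f with hg
      have hg0 : 0 < g := pow_pos hp.pos _
      -- x', y'
      have hxy : ∃ x' y', q * x' + y' = z ∧ x' + y' < G ∧ ¬ p ∣ (x' + y').choose x' := by
        by_cases hρg : ρ + 1 ≤ g
        · obtain ⟨x', hx'⟩ : ∃ x', (q - 1) * g = x' + (ρ + 1) :=
            ⟨(q - 1) * g - (ρ + 1), by
              have : g ≤ (q - 1) * g := Nat.le_mul_of_pos_left _ (by omega)
              omega⟩
          refine ⟨x', ρ, ?_, ?_, ?_⟩
          · have h1 : (q - 1) * G = z + 1 + (q - 1) * (ρ + 1) := by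
              rw [← hz, hρ]; ring
            have h2 : (q - 1) * G = q * x' + q * (ρ + 1) := by
              rw [hGg]
              calc (q - 1) * (q * g) = q * ((q - 1) * g) := by ring
                _ = q * x' + q * (ρ + 1) := by rw [hx']; ring
            have h3 : q * (ρ + 1) = (q - 1) * (ρ + 1) + (ρ + 1) := by
              rw [hq1, hr]; ring
            omega
          · have : (q - 1) * g < q * g := Nat.mul_lt_mul_of_pos_right (by omega) hg0
            rw [hGg]; omega
          · have h1 : x' + ρ = (q - 2) * g + (g - 1) := by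
              have h2 : (q - 1) * g = (q - 2) * g + g := by rw [hq1, hq2]; ring
              omega
            have h4 : (x' + ρ).choose x' = (x' + ρ).choose ρ := Nat.choose_symm_add
            rw [h4, h1]
            have h := C2_nd p hp f (q - 2) 0 (g - 1) ρ (by rw [← hg]; omega) (by rw [← hg]; omega)
            rw [← hg, zero_mul, zero_add, Nat.choose_zero_right, one_mul] at h
            rw [h, hg]
            exact C2_pm p hp f _ (by rw [← hg]; omega)
        · push Not at hρg
          obtain ⟨y', hy'⟩ : ∃ y', G = y' + 1 + (q - 1) * (ρ + 1) :=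
            ⟨G - 1 - (q - 1) * (ρ + 1), by omega⟩
          have hy'g : y' < g := by
            have h1 : (q - 1) * g ≤ (q - 1) * (ρ + 1) := Nat.mul_le_mul_left _ (by omega)
            have h2 : G = (q - 1) * g + g := by rw [hGg, hq1, hr]; ring
            omega
          refine ⟨(q - 2) * g, y', ?_, ?_, ?_⟩
          · have h1 : (q - 1) * G = z + 1 + (q - 1) * (ρ + 1) := by
              rw [← hz, hρ]; ring
            have h2 : (q - 1) * G = (q - 2) * G + G := by rw [hq1, hq2]; ring
            have h3 : (q - 2) * G = q * ((q - 2) * g) := by rw [hGg]; ring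
            omega
          · have h2 : G = (q - 2) * g + 2 * g := by rw [hGg, hq2, hr]; ring
            omega
          · have h := C2_nd p hp f (q - 2) (q - 2) y' 0 (by rw [← hg]; omega) (by rw [← hg]; omega)
            rw [← hg, add_zero, Nat.choose_zero_right, mul_one, Nat.choose_self] at h
            rw [h]
            intro h'
            exact hp.one_lt.ne' (Nat.dvd_one.1 h')
      obtain ⟨x', y', hx1, hx2, hx3⟩ := hxy
      refine ⟨(q - 1) * G + x', y', ?_, ?_, ?_, ?_⟩
      · rw [mul_add (q - 1), hz, ← hx1]; ring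
      · have e1 : (q - 1) * G + x' + y' = (q - 1) * G + (x' + y') := by ring
        rw [e1]
        have h := C2_nd p hp (f + s) (q - 1) (q - 1) (x' + y') x' (by rw [← hG]; exact hx2)
          (by rw [← hG]; omega)
        rw [← hG, Nat.choose_self, one_mul] at h
        rwa [h]
      · have : 2 * G ≤ (q - 1) * G := Nat.mul_le_mul_right _ (by omega)
        omega
      · have h1 : G ≤ q * G := Nat.le_mul_of_pos_left _ hq0
        omega
    · -- (iii)
      push Not at hαG
      obtain ⟨α₁, rfl⟩ := Nat.exists_eq_add_of_le hαG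
      have hns : ¬ Sp q G α₁ := by
        intro h
        apply hsp
        have h1 := Sp.step (q := q) (q * G) α₁ (dvd_mul_right _ _) (Nat.mul_pos hq0 hG0)
          (by rwa [Nat.mul_div_cancel_left _ hq0])
        rwa [Nat.mul_div_cancel_left _ hq0] at h1
      have hα1 : 1 ≤ α₁ := by
        rcases Nat.eq_zero_or_pos α₁ with h | h
        · subst h; exact absurd (Sp.zero _) hns
        · exact h
      have hle1 : (q - 1) * α₁ ≤ G := by
        rw [mul_add] at hle
        have : q * G = (q - 1) * G + G := by rw [hq1, hr]; ring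
        omega
      obtain ⟨x', y', hxy, hnd, hx', hy'⟩ := ih e (by omega) α₁ hα1 hle1 hns
      rw [← hG] at hxy hx' hy'
      have hzxy : q * x' + y' = z := by rw [hz] at hxy; omega
      have hx'G : x' < G := by
        have : q * x' < q * G := by omega
        exact Nat.lt_of_mul_lt_mul_left this
      have hκ : y' / G < q - 2 := by rwa [Nat.div_lt_iff_lt_mul hG0]
      have hyd := Nat.div_add_mod y' G
      have hym := Nat.mod_lt y' hG0
      set κ := y' / G with hκdef
      set y'' := y' % G with hy''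
      obtain ⟨w, hw⟩ : ∃ w, q - 1 = κ + w := ⟨q - 1 - κ, by omega⟩
      have hwκ : q - 1 - κ = w := by omega
      have hw2 : 2 ≤ w := by omega
      have hsum : x' + y'' < G := by
        by_contra hge'
        push Not at hge'
        obtain ⟨t, ht⟩ := Nat.exists_eq_add_of_le hge'
        apply hnd
        have e1 : x' + y' = (κ + 1) * G + t := by
          have : (κ + 1) * G = G * κ + G := by ring
          omega
        rw [e1]
        have h := C2_nd p hp e (κ + 1) 0 t x' (by rw [← hG]; omega) (by rw [← hG]; omega)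
        rw [← hG, zero_mul, zero_add, Nat.choose_zero_right, one_mul] at h
        rw [h, Nat.choose_eq_zero_of_lt (by omega)]
        exact dvd_zero _
      have hnd' : ¬ p ∣ (x' + y'').choose x' := by
        have e1 : x' + y' = κ * G + (x' + y'') := by
          have : κ * G = G * κ := by ring
          omega
        rw [e1] at hnd
        have h := C2_nd p hp e κ 0 (x' + y'') x' (by rw [← hG]; omega) (by rw [← hG]; omega)
        rw [← hG, zero_mul, zero_add, Nat.choose_zero_right, one_mul] at h
        rwa [h] at hnd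
      refine ⟨w * G + x', κ * (q * G) + y', ?_, ?_, ?_, ?_⟩
      · rw [mul_add (q - 1) (q * G), hz, ← hzxy, hw]; ring
      · have e1 : w * G + x' + (κ * (q * G) + y') = (κ * q + (q - 1)) * G + (x' + y'') := by
          rw [hw]
          calc w * G + x' + (κ * (q * G) + y') = w * G + x' + (κ * (q * G) + (G * κ + y'')) := by
                rw [hyd]
            _ = (κ * q + (κ + w)) * G + (x' + y'') := by ring
        rw [e1]
        have h := C2_nd p hp e (κ * q + (q - 1)) w (x' + y'') x' (by rw [← hG]; omega)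
          (by rw [← hG]; omega)
        rw [← hG] at h
        rw [h, hp.dvd_mul]
        have h' := C2_kap p s q κ hp hq (by omega)
        rw [hwκ] at h'
        tauto
      · have h1 : 2 * G ≤ w * G := Nat.mul_le_mul_right _ hw2
        have h5 : α₁ < x' := lt_of_le_of_lt (Nat.le_add_right _ _) hx'
        clear hx' hxy hle hz
        omega
      · have h3 : (κ + 1) * (q * G) ≤ (q - 2) * (q * G) := Nat.mul_le_mul_right _ hκ
        have h4 : (q - 2) * G ≤ q * G := Nat.mul_le_mul_right _ (by omega)
        nlinarith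

theorem t0comb (p s q : ℕ) (hp : p.Prime) (hq : q = p ^ s) (h2 : 2 < q) (R α : ℕ) (hα : 1 ≤ α)
    (hle : (q - 1) * α ≤ p ^ R) (hsp : ¬ Sp q (p ^ R) α) :
    ∃ i, 1 ≤ i ∧ i ≤ p ^ R + α ∧ i < p ^ R - p ^ R / q ∧
      ¬ p ∣ ((q - 1) * i - 1).choose (p ^ R + α - i) := by
  obtain ⟨x, y, hxy, hnd, hx, _⟩ := C2_D p s q hp hq h2 R α hα hle hsp
  have hxlt : x < p ^ R + α := by
    have h1 : (q - 1) * (p ^ R + α) ≤ q * (p ^ R + α) := Nat.mul_le_mul_right _ (by omega)
    have : q * x < q * (p ^ R + α) := by omega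
    exact Nat.lt_of_mul_lt_mul_left this
  obtain ⟨i, hi⟩ := Nat.exists_eq_add_of_lt hxlt
  refine ⟨i + 1, by omega, by omega, by omega, ?_⟩
  have e2 : p ^ R + α - (i + 1) = x := by omega
  have e1 : (q - 1) * (i + 1) - 1 = x + y := by
    rw [hi] at hxy
    have h3 : (q - 1) * (x + i + 1) = (q - 1) * x + (q - 1) * (i + 1) := by ring
    have h4 : q * x = (q - 1) * x + x := by
      obtain ⟨r, hr⟩ : ∃ r, q = r + 1 := ⟨q - 1, by omega⟩
      rw [hr, Nat.add_sub_cancel]; ring
    omega
  rw [e1, e2]
  exact hnd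

end Pool.Agent.MP33dd76
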