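import Mathlib
import Pool.Agent.Lib.MP_33dd76_nt.B9Tj

set_option autoImplicit false

open Polynomial

namespace Pool.Agent.MP33dd76

/-! # Module C3: Lemma R -/

/-- the coefficient `n - l` of `T_l`, for the indices with `b < q * l` -/
noncomputable def C3_g (p q b n l : ℕ) : ZMod p :=
  if b < q * l ∧ l ≤ n then (Tj p q b l).coeff (n - l) else 0

theorem C3_two (p s q : ℕ) (hp : p.Prime) (hq : q = p ^ s) (h2 : 2 < q) : p ≤ q := by
  rcases Nat.eq_zero_or_pos s with h0 | h0
  · subst h0; simp at hq; omega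
  · rw [hq]
    exact Nat.le_self_pow (by omega) p

theorem C3_bin_zero (p q b l j : ℕ) (hl : q * l ≤ b) (hj : b < j) :
    bin p ((b : ℤ) - (q : ℤ) * (l : ℤ)) (j - q * l) = 0 := by
  have h1 : ((b : ℤ) - (q : ℤ) * (l : ℤ)) = ((b - q * l : ℕ) : ℤ) := by
    rw [Nat.cast_sub hl]; push_cast; ring
  rw [h1, bin_nat, Nat.choose_eq_zero_of_lt (by omega)]
  simp

theorem C3_rec (p q : ℕ) (hq : 2 ≤ q) (b j n : ℕ) (hj : b < j) :
    (Tj p q b j).coeff n = ∑ l ∈ Finset.range (j / q + 1),
      C3_g p q b n l * bin p ((b : ℤ) - (q : ℤ) * (l : ℤ)) (j - q * l) := by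
  rw [Tj_rec p q hq b j (by omega), Polynomial.finsetSum_coeff]
  refine Finset.sum_congr rfl ?_
  intro l _
  rw [Polynomial.coeff_mul_C, Polynomial.coeff_X_pow_mul']
  unfold C3_g
  by_cases h1 : b < q * l
  · by_cases h2 : l ≤ n
    · rw [if_pos h2, if_pos ⟨h1, h2⟩]
    · rw [if_neg h2, if_neg (by tauto)]
  · rw [C3_bin_zero p q b l j (by omega) hj]
    simp

theorem C3_coeff_zero (p q : ℕ) (hq : 2 ≤ q) (b : ℤ) (j : ℕ) (hj : 1 ≤ j) :
    (Tj p q b j).coeff 0 = bin p b j := by
  rw [Tj_rec p q hq b j hj, Polynomial.finsetSum_coeff]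
  rw [Finset.sum_eq_single 0]
  · simp [Tj_zero]
  · intro l _ hl
    rw [Polynomial.coeff_mul_C, Polynomial.coeff_X_pow_mul', if_neg (by omega)]
    simp
  · intro h
    simp at h

theorem C3_lucas (p : ℕ) (hp : p.Prime) (k : ℕ) : ∀ b : ℕ, p ^ k ≤ b → b < p ^ (k + 1) →
    ((b.choose (p ^ k) : ℕ) : ZMod p) ≠ 0 := by
  haveI : Fact p.Prime := ⟨hp⟩
  induction k with
  | zero =>
    intro b h1 h2
    simp only [pow_zero, Nat.choose_one_right]
    intro h
    rw [ZMod.natCast_eq_zero_iff] at h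
    have := Nat.le_of_dvd (by simp at h1; omega) h
    simp at h2
    omega
  | succ k ih =>
    intro b h1 h2
    have hpp := hp.pos
    have h3 := @Choose.choose_modEq_choose_mod_mul_choose_div_nat b (p ^ (k + 1)) p _
    rw [← ZMod.natCast_eq_natCast_iff] at h3
    rw [h3]
    have h4 : p ^ (k + 1) % p = 0 := by
      rw [pow_succ]; simp
    have h5 : p ^ (k + 1) / p = p ^ k := by
      rw [pow_succ]; exact Nat.mul_div_cancel _ hpp
    rw [h4, h5]
    simp only [Nat.choose_zero_right, one_mul]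
    apply ih
    · rw [Nat.le_div_iff_mul_le hpp, ← pow_succ]; exact h1
    · rw [Nat.div_lt_iff_lt_mul hpp, ← pow_succ]; exact h2

theorem exists_LN (p s q : ℕ) (hp : p.Prime) (hq : q = p ^ s) (h2 : 2 < q) (b : ℕ) (hb : 1 ≤ b) :
    ∃ lam nu, LN p q b lam nu ∧ ∀ k, p ^ k ≤ b → b < p ^ (k + 1) → nu ≤ p ^ k := by
  classical
  have hpq := C3_two p s q hp hq h2
  have key : ∀ k, p ^ k ≤ b → b < p ^ (k + 1) →
      b < q * p ^ k ∧ (Tj p q b (p ^ k)).coeff 0 ≠ 0 := by
    intro k h1 h3
    refine ⟨?_, ?_⟩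
    · calc b < p ^ (k + 1) := h3
        _ = p * p ^ k := by rw [pow_succ]; ring
        _ ≤ q * p ^ k := Nat.mul_le_mul_right _ hpq
    · rw [C3_coeff_zero p q (by omega) b _ (Nat.one_le_pow _ _ hp.pos), bin_nat]
      exact C3_lucas p hp k b h1 h3
  have hex : ∃ m, ∃ l n, b < q * l ∧ (Tj p q b l).coeff n ≠ 0 ∧ l + n = m := by
    refine ⟨p ^ (Nat.log p b), p ^ (Nat.log p b), 0, ?_, ?_, by simp⟩
    · exact (key _ (Nat.pow_log_le_self p (by omega))
        (Nat.lt_pow_succ_log_self hp.one_lt b)).1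
    · exact (key _ (Nat.pow_log_le_self p (by omega))
        (Nat.lt_pow_succ_log_self hp.one_lt b)).2
  set nu := Nat.find hex with hnu
  have hmin : ∀ l n, b < q * l → (Tj p q b l).coeff n ≠ 0 → nu ≤ l + n := by
    intro l n h1 h3
    exact Nat.find_min' hex ⟨l, n, h1, h3, rfl⟩
  obtain ⟨l0, n0, h1, h3, h4⟩ := Nat.find_spec hex
  let S := (Finset.range (nu + 1)).filter (fun l => b < q * l ∧ (Tj p q b l).coeff (nu - l) ≠ 0)
  have hS : S.Nonempty := by
    refine ⟨l0, ?_⟩
    simp only [S, Finset.mem_filter, Finset.mem_range]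
    refine ⟨by omega, h1, ?_⟩
    have : nu - l0 = n0 := by omega
    rw [this]; exact h3
  obtain ⟨lam, hlam, hmax⟩ := S.exists_max_image id hS
  simp only [S, Finset.mem_filter, Finset.mem_range, id] at hlam hmax
  refine ⟨lam, nu, ⟨hlam.2.1, by omega, hlam.2.2, hmin, ?_⟩, ?_⟩
  · intro l n h5 h6 h7
    apply hmax
    refine ⟨by omega, h5, ?_⟩
    have : nu - l = n := by omega
    rw [this]; exact h6
  · intro k h5 h6
    have := key k h5 h6
    exact hmin _ 0 this.1 this.2

theorem lemR1 (p s q : ℕ) (hp : p.Prime) (hq : q = p ^ s) (h2 : 2 < q) (b lam nu : ℕ)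
    (hb : 1 ≤ b) (h : LN p q b lam nu) (j : ℕ) (hj : b < j) (n : ℕ) (hn : n < nu) :
    (Tj p q b j).coeff n = 0 := by
  rw [C3_rec p q (by omega) b j n hj]
  apply Finset.sum_eq_zero
  intro l _
  have : C3_g p q b n l = 0 := by
    unfold C3_g
    split_ifs with h1
    · by_contra h3
      have := h.min l (n - l) h1.1 h3
      omega
    · rfl
  rw [this, zero_mul]

/-- `ε_l` is zero above `λ` -/
theorem C3_g_zero (p q b lam nu : ℕ) (h : LN p q b lam nu) (l : ℕ) (hl : lam < l) :
    C3_g p q b nu l = 0 := by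
  unfold C3_g
  split_ifs with h1
  · by_contra h3
    have := h.max l (nu - l) h1.1 h3 (by omega)
    omega
  · rfl

theorem C3_g_ne (p q b lam nu : ℕ) (h : LN p q b lam nu) : C3_g p q b nu lam ≠ 0 := by
  unfold C3_g
  rw [if_pos ⟨h.lt, h.le⟩]
  exact h.ne

/-- the generating series -/
noncomputable def C3_R (p q b lam nu : ℕ) : PowerSeries (ZMod p) :=
  ∑ l ∈ Finset.range (lam + 1), PowerSeries.C (C3_g p q b nu l) * (PowerSeries.X ^ (q * l) *
    PowerSeries.binomialSeries (ZMod p) ((b : ℤ) - (q : ℤ) * (l : ℤ)))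

theorem C3_R_coeff (p q b lam nu : ℕ) (hq : 2 ≤ q) (h : LN p q b lam nu) (j : ℕ) (hj : b < j) :
    PowerSeries.coeff j (C3_R p q b lam nu) = (Tj p q b j).coeff nu := by
  have e1 : ∀ l, PowerSeries.coeff j (PowerSeries.C (C3_g p q b nu l) * (PowerSeries.X ^ (q * l) *
      PowerSeries.binomialSeries (ZMod p) ((b : ℤ) - (q : ℤ) * (l : ℤ)))) =
      if q * l ≤ j then C3_g p q b nu l * bin p ((b : ℤ) - (q : ℤ) * (l : ℤ)) (j - q * l)
      else 0 := by
    intro l
    rw [PowerSeries.coeff_C_mul, PowerSeries.coeff_X_pow_mul']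
    split_ifs with h1
    · rw [PowerSeries.binomialSeries_coeff]
      unfold bin
      simp
    · simp
  unfold C3_R
  rw [map_sum, Finset.sum_congr rfl (fun l _ => e1 l), C3_rec p q hq b j nu hj]
  have e2 : ∑ l ∈ Finset.range (lam + 1), (if q * l ≤ j then C3_g p q b nu l *
      bin p ((b : ℤ) - (q : ℤ) * (l : ℤ)) (j - q * l) else 0) =
      ∑ l ∈ Finset.range (lam + 1 + (j / q + 1)), (if q * l ≤ j then C3_g p q b nu l *
      bin p ((b : ℤ) - (q : ℤ) * (l : ℤ)) (j - q * l) else 0) := by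
    apply Finset.sum_subset
    · intro x hx
      simp only [Finset.mem_range] at hx ⊢
      exact lt_of_lt_of_le hx (Nat.le_add_right _ _)
    · intro x _ hx
      simp only [Finset.mem_range] at hx
      rw [C3_g_zero p q b lam nu h x (by omega)]
      simp
  have e3 : ∑ l ∈ Finset.range (j / q + 1), C3_g p q b nu l *
      bin p ((b : ℤ) - (q : ℤ) * (l : ℤ)) (j - q * l) =
      ∑ l ∈ Finset.range (j / q + 1), (if q * l ≤ j then C3_g p q b nu l *
      bin p ((b : ℤ) - (q : ℤ) * (l : ℤ)) (j - q * l) else 0) := by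
    apply Finset.sum_congr rfl
    intro l hl
    simp only [Finset.mem_range] at hl
    have : l ≤ j / q := by omega
    rw [Nat.le_div_iff_mul_le (by omega)] at this
    rw [if_pos (by linarith [mul_comm l q])]
  rw [e2, e3]
  symm
  apply Finset.sum_subset
  · intro x hx
    simp only [Finset.mem_range] at hx ⊢
    exact lt_of_lt_of_le hx (Nat.le_add_left _ _)
  · intro x _ hx
    simp only [Finset.mem_range] at hx
    rw [if_neg]
    intro h1
    have : x ≤ j / q := by
      rw [Nat.le_div_iff_mul_le (by omega)]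
      linarith [mul_comm x q]
    omega

/-- the polynomial `N` -/
noncomputable def C3_N (p q b lam nu : ℕ) : (ZMod p)[X] :=
  ∑ l ∈ Finset.range (lam + 1), C (C3_g p q b nu l) * (X ^ (q * l) *
    (1 + X) ^ (q * (lam - l)))

theorem C3_N_natDegree (p q b lam nu : ℕ) : (C3_N p q b lam nu).natDegree ≤ q * lam := by
  unfold C3_N
  apply Polynomial.natDegree_sum_le_of_forall_le
  intro l hl
  simp only [Finset.mem_range] at hl
  have h1 : q * l + q * (lam - l) = q * lam := by
    rw [← mul_add]; congr 1; omega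
  have h2 : ((1 + X : (ZMod p)[X])).natDegree ≤ 1 := by
    compute_degree
  calc (C (C3_g p q b nu l) * (X ^ (q * l) * (1 + X) ^ (q * (lam - l)))).natDegree
      ≤ (X ^ (q * l) * (1 + X : (ZMod p)[X]) ^ (q * (lam - l))).natDegree :=
        Polynomial.natDegree_C_mul_le _ _
    _ ≤ (X ^ (q * l) : (ZMod p)[X]).natDegree + ((1 + X : (ZMod p)[X]) ^ (q * (lam - l))).natDegree :=
        Polynomial.natDegree_mul_le
    _ ≤ q * l + (q * (lam - l)) * 1 := by
        apply add_le_add (Polynomial.natDegree_X_pow_le _)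
        exact Polynomial.natDegree_pow_le_of_le _ h2
    _ = q * lam := by rw [mul_one]; exact h1

theorem C3_N_coe (p q b lam nu : ℕ) (h : LN p q b lam nu) :
    ((1 + PowerSeries.X : PowerSeries (ZMod p)) ^ (q * lam - b)) * C3_R p q b lam nu =
      (C3_N p q b lam nu : PowerSeries (ZMod p)) := by
  unfold C3_R C3_N
  rw [← Polynomial.coeToPowerSeries.ringHom_apply, map_sum, Finset.mul_sum]
  apply Finset.sum_congr rfl
  intro l hl
  simp only [Finset.mem_range] at hl
  rw [map_mul, map_mul, map_pow, map_pow, map_add, map_one]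
  simp only [Polynomial.coeToPowerSeries.ringHom_apply, Polynomial.coe_C, Polynomial.coe_X]
  have h1 : ((1 + PowerSeries.X : PowerSeries (ZMod p)) ^ (q * lam - b)) *
      PowerSeries.binomialSeries (ZMod p) ((b : ℤ) - (q : ℤ) * (l : ℤ)) =
      (1 + PowerSeries.X) ^ (q * (lam - l)) := by
    rw [← PowerSeries.binomialSeries_nat (R := ℤ), ← PowerSeries.binomialSeries_nat (R := ℤ),
      ← PowerSeries.binomialSeries_add]
    congr 1
    have := h.lt
    rw [Nat.cast_sub (by omega), Nat.cast_mul, Nat.cast_mul, Nat.cast_sub (by omega)]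
    ring
  rw [← h1]
  ring

theorem lemR2 (p s q : ℕ) (hp : p.Prime) (hq : q = p ^ s) (h2 : 2 < q) (b lam nu : ℕ)
    (hb : 1 ≤ b) (h : LN p q b lam nu) (D : ℕ) (hD : b ≤ D) :
    ∃ j, D < j ∧ j ≤ D + (q * lam - b) ∧ (Tj p q b j).coeff nu ≠ 0 := by
  haveI : Fact p.Prime := ⟨hp⟩
  by_contra hcon
  push Not at hcon
  have hlt := h.lt
  set n := q * lam - b with hn
  set R := C3_R p q b lam nu with hR
  set P : (ZMod p)[X] := PowerSeries.trunc (D + 1) R with hP
  have hPR : ∀ j, j ≤ D + n → P.coeff j = PowerSeries.coeff j R := by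
    intro j hj
    rw [hP, PowerSeries.coeff_trunc]
    split_ifs with h3
    · rfl
    · rw [hR, C3_R_coeff p q b lam nu (by omega) h j (by omega), hcon j (by omega) hj]
  have hPd : P.natDegree ≤ D := by
    rw [Polynomial.natDegree_le_iff_coeff_eq_zero]
    intro m hm
    rw [hP, PowerSeries.coeff_trunc, if_neg (by omega)]
  have hmain : C3_N p q b lam nu = (1 + X) ^ n * P := by
    ext m
    by_cases hm : m ≤ D + n
    · have h3 := C3_N_coe p q b lam nu h
      have h4 : (C3_N p q b lam nu).coeff m = PowerSeries.coeff m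
          (C3_N p q b lam nu : PowerSeries (ZMod p)) := (Polynomial.coeff_coe _ _).symm
      rw [h4, ← h3, ← hn, ← hR]
      have h5 : ((1 + PowerSeries.X : PowerSeries (ZMod p)) ^ n) =
          (((1 + X : (ZMod p)[X]) ^ n : (ZMod p)[X]) : PowerSeries (ZMod p)) := by
        simp
      rw [h5, PowerSeries.coeff_mul, Polynomial.coeff_mul]
      apply Finset.sum_congr rfl
      intro x hx
      rw [Finset.HasAntidiagonal.mem_antidiagonal] at hx
      rw [Polynomial.coeff_coe, hPR x.2 (by omega)]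
    · rw [Polynomial.coeff_eq_zero_of_natDegree_lt, Polynomial.coeff_eq_zero_of_natDegree_lt]
      · have h6 : ((1 + X : (ZMod p)[X])).natDegree ≤ 1 := by
          compute_degree
        have h7 : ((1 + X : (ZMod p)[X]) ^ n).natDegree ≤ n * 1 :=
          Polynomial.natDegree_pow_le_of_le _ h6
        have h8 := Polynomial.natDegree_mul_le (p := (1 + X : (ZMod p)[X]) ^ n) (q := P)
        omega
      · have := C3_N_natDegree p q b lam nu
        omega
  have hev := congrArg (Polynomial.eval (-1 : ZMod p)) hmain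
  rw [Polynomial.eval_mul, Polynomial.eval_pow] at hev
  simp only [Polynomial.eval_add, Polynomial.eval_one, Polynomial.eval_X] at hev
  rw [add_neg_cancel, zero_pow (by omega), zero_mul] at hev
  unfold C3_N at hev
  rw [Polynomial.eval_finsetSum, Finset.sum_eq_single lam] at hev
  · simp only [Polynomial.eval_mul, Polynomial.eval_C, Polynomial.eval_pow, Polynomial.eval_X,
      Nat.sub_self, mul_zero, pow_zero, mul_one] at hev
    rcases mul_eq_zero.mp hev with h9 | h9
    · exact C3_g_ne p q b lam nu h h9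
    · have := pow_eq_zero_iff (n := q * lam) (by omega) |>.mp h9
      simp at this
  · intro l hl hne
    simp only [Finset.mem_range] at hl
    simp only [Polynomial.eval_mul, Polynomial.eval_C, Polynomial.eval_pow, Polynomial.eval_X,
      Polynomial.eval_add, Polynomial.eval_one]
    rw [add_neg_cancel, zero_pow, mul_zero, mul_zero]
    have : 0 < q * (lam - l) := Nat.mul_pos (by omega) (by omega)
    omega
  · intro hl
    simp at hl

end Pool.Agent.MP33dd76
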