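import Mathlib
import Pool.Agent.Lib.MP_33dd76_nt.C3LemR

set_option autoImplicit false

open Polynomial

namespace Pool.Agent.MP33dd76

/-! # Module C4: the chain step -/

/-- the polynomials `T_j` of `p ^ k + b` and of `b` agree below `p ^ k` -/
theorem C4_period (p q k : ℕ) (hp : p.Prime) (hq : 2 ≤ q) (b j : ℕ) (hj : j < p ^ k) :
    Tj p q ((p ^ k + b : ℕ) : ℤ) j = Tj p q (b : ℤ) j := by
  have h1 : ((p ^ k + b : ℕ) : ℤ) = (b : ℤ) + (p : ℤ) ^ k := by
    push_cast
    ring
  rw [h1]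
  exact Tj_period p q k hp hq (b : ℤ) j hj

theorem chain (p s q : ℕ) (hp : p.Prime) (hq : q = p ^ s) (h2 : 2 < q) (k b lam nu : ℕ)
    (hk : q ∣ p ^ k) (hb : 1 ≤ b) (h : LN p q b lam nu) (hd : b - b / q ≤ p ^ k / q)
    (hY : (p ^ k / q - (b - b / q)) + q * lam + nu < p ^ k) :
    ∃ lam' nu', LN p q (p ^ k + b) lam' nu' ∧
      lam' ≤ (p ^ k / q - (b - b / q)) + q * lam ∧
      nu' ≤ (p ^ k / q - (b - b / q)) + q * lam + nu := by
  have hq0 : 0 < q := by omega
  have hbq : b / q ≤ b := Nat.div_le_self b q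
  have hD : (p ^ k + b) / q = p ^ k / q + b / q := Nat.add_div_of_dvd_right hk
  have hlt : b < q * lam := h.lt
  obtain ⟨j, hj1, hj2, hj3⟩ := lemR2 p s q hp hq h2 b lam nu hb h ((p ^ k + b) / q)
    (by omega)
  have hjG : j < p ^ k := by omega
  have hjB : p ^ k + b < q * j := by
    have h3 := Nat.lt_mul_div_succ (p ^ k + b) hq0
    calc p ^ k + b < q * ((p ^ k + b) / q + 1) := h3
      _ ≤ q * j := Nat.mul_le_mul_left q hj1
  obtain ⟨lam', nu', hLN, -⟩ := exists_LN p s q hp hq h2 (p ^ k + b) (by omega)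
  have hper := C4_period p q k hp (by omega) b j hjG
  have hnu : nu' ≤ j + nu := by
    refine hLN.min j nu hjB ?_
    rw [hper]
    exact hj3
  have hle : lam' ≤ nu' := hLN.le
  have hlamG : lam' < p ^ k := by omega
  have hper2 := C4_period p q k hp (by omega) b lam' hlamG
  have hne := hLN.ne
  rw [hper2] at hne
  have hlamD : (p ^ k + b) / q < lam' := (Nat.div_lt_iff_lt_mul hq0).2 (by
    have := hLN.lt
    rw [Nat.mul_comm] at this
    exact this)
  have hge : nu ≤ nu' - lam' := by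
    by_contra hcon
    exact hne (lemR1 p s q hp hq h2 b lam nu hb h lam' (by omega) (nu' - lam') (by omega))
  refine ⟨lam', nu', hLN, ?_, ?_⟩ <;> omega

end Pool.Agent.MP33dd76
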