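import Mathlib
import Pool.Agent.Lib.MP_33dd76_nt.C4Chain

set_option autoImplicit false

open Polynomial

namespace Pool.Agent.MP33dd76

/-! # Module C5: Proposition P -/

/-- the consequence used to apply the chain step -/
theorem C5_conseq (q h d lam nu : ℕ) (h2 : 2 < q) (hd : 1 ≤ d)
    (h1 : q ^ 2 * ((q - 1) * lam + d) ≤ (q - 1) ^ 2 * h) (h3 : q * nu ≤ h) :
    d + q * lam + nu < h := by
  obtain ⟨c, rfl⟩ : ∃ c, q = c + 1 := ⟨q - 1, by omega⟩
  rw [Nat.add_sub_cancel] at h1
  by_contra hcon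
  rw [not_lt] at hcon
  have h4 := Nat.mul_le_mul_left (c * (c + 1)) hcon
  have h5 := Nat.mul_le_mul_left c h3
  have h6 : 1 ≤ (c + 1) * d := Nat.mul_pos (by omega) (by omega)
  nlinarith

theorem C5_le (p s q k r : ℕ) (hp : p.Prime) (hq : q = p ^ s) (h2 : 2 < q) (hr : 1 ≤ r)
    (hle : (q - 1) * r ≤ p ^ k) : s ≤ k := by
  by_contra hcon
  rw [not_le] at hcon
  have h1 : p ^ (k + 1) ≤ p ^ s := Nat.pow_le_pow_right hp.pos hcon
  rw [pow_succ, ← hq] at h1
  have h3 : p ^ k * 2 ≤ p ^ k * p := Nat.mul_le_mul_left _ hp.two_le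
  have h4 : (q - 1) * 1 ≤ (q - 1) * r := Nat.mul_le_mul_left _ hr
  omega

theorem C5_dvd (p s q k r : ℕ) (hp : p.Prime) (hq : q = p ^ s) (h2 : 2 < q) (hr : 1 ≤ r)
    (hle : (q - 1) * r ≤ p ^ k) : q ∣ p ^ k := by
  rw [hq]
  exact pow_dvd_pow p (C5_le p s q k r hp hq h2 hr hle)

theorem C5_sp_one (x : ℕ) (h : Sp 3 1 x) : x = 0 := by
  generalize hQ : (1 : ℕ) = Q at h
  cases h with
  | zero => rfl
  | step Q x hQ1 hQ2 h =>
    subst hQ
    omega

theorem C5_sp (Q x : ℕ) (h : Sp 3 Q x) : ∀ j, Q = 3 ^ j → ¬ 3 ∣ x → 3 * (x - x / 3) = Q := by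
  induction h with
  | zero Q => 
    intro j _ h1
    exact absurd (dvd_zero 3) h1
  | step Q x hQ hQ0 h ih =>
    intro j hj h1
    rcases j with _ | _ | j
    · rw [pow_zero] at hj
      omega
    · have h3 : Q = 3 := by rw [hj]; norm_num
      subst h3
      have h4 : x = 0 := C5_sp_one x h
      subst h4
      norm_num
    · have h3 : Q = 9 * 3 ^ j := by rw [hj, pow_succ, pow_succ]; ring
      have h4 : Q / 3 = 3 ^ (j + 1) := by rw [h3, pow_succ]; omega
      have h5 : 3 ^ (j + 1) = 3 * 3 ^ j := by rw [pow_succ]; ring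
      have h6 := ih (j + 1) h4 (by omega)
      omega

theorem C5_four (p q g P lam d x : ℕ) (hp : 2 ≤ p) (hpq : p ≤ q) (h4 : 4 ≤ q) (hP : p * P ≤ g)
    (hl : lam ≤ P) (hx : (q - 1) * P ≤ q * x) (hd : d + x = g) :
    q * ((q - 1) * lam + d) ≤ (q - 1) ^ 2 * g := by
  obtain ⟨c, rfl⟩ : ∃ c, q = c + 1 := ⟨q - 1, by omega⟩
  rw [Nat.add_sub_cancel] at hx ⊢
  have h5 : (c + 1) * (c * lam) ≤ (c + 1) * (c * P) :=
    Nat.mul_le_mul_left _ (Nat.mul_le_mul_left _ hl)
  -- (c+1) (c lam + d) + c P ≤ (c+1) c P + (c+1) g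
  have h6 : (c + 1) * (c * lam + d) ≤ c ^ 2 * P + (c + 1) * g := by
    subst hd
    nlinarith
  refine h6.trans ?_
  -- p (c+1) ≤ (p-1) c^2
  obtain ⟨e, rfl⟩ : ∃ e, p = e + 1 := ⟨p - 1, by omega⟩
  have h7 : (e + 1) * (c + 1) ≤ e * c ^ 2 := by
    rcases Nat.lt_or_ge e 2 with h | h
    · have : e = 1 := by omega
      subst this
      nlinarith
    · nlinarith [Nat.mul_le_mul h (show 3 ≤ c by omega), Nat.mul_le_mul (show 3 ≤ c by omega)
        (show 3 ≤ c by omega)]
  have h8 : (e + 1) * (c ^ 2 * P + (c + 1) * g) ≤ (e + 1) * (c ^ 2 * g) := by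
    have h9 := Nat.mul_le_mul_left (c ^ 2) hP
    have h10 := Nat.mul_le_mul_right g h7
    nlinarith
  exact Nat.le_of_mul_le_mul_left h8 (by omega)

theorem propP (p s q : ℕ) (hp : p.Prime) (hq : q = p ^ s) (h2 : 2 < q) (k r : ℕ) (hr : 1 ≤ r)
    (hle : (q - 1) * r ≤ p ^ k) (hsp : ¬ Sp q (p ^ k) r) (h3 : q = 3 → ¬ 3 ∣ r) :
    ∃ lam nu, LN p q r lam nu ∧ (r - r / q) + 1 ≤ p ^ k / q ∧
      q ^ 2 * ((q - 1) * lam + (p ^ k / q - (r - r / q))) ≤ (q - 1) ^ 2 * p ^ k ∧
      q * nu ≤ p ^ k := by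
  induction k using Nat.strong_induction_on generalizing r with
  | _ k ih =>
    have hq0 : 0 < q := by omega
    have hsk : s ≤ k := C5_le p s q k r hp hq h2 hr hle
    obtain ⟨k', rfl⟩ : ∃ k', k = s + k' := ⟨k - s, by omega⟩
    have hs : s ≠ 0 := by
      rintro rfl
      rw [pow_zero] at hq
      omega
    obtain ⟨g, hg⟩ : ∃ g, g = p ^ k' := ⟨_, rfl⟩
    have hh : p ^ (s + k') = q * g := by rw [pow_add, hg, hq]
    have hg0 : 0 < g := by rw [hg]; exact pow_pos hp.pos _
    rw [hh] at hle hsp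
    have hdiv : q * g / q = g := Nat.mul_div_cancel_left _ hq0
    rw [hh, hdiv]
    have hrq : r / q ≤ r := Nat.div_le_self r q
    rcases le_or_gt g r with hc | hc
    · -- case r ≥ g
      obtain ⟨r1, rfl⟩ : ∃ r1, r = g + r1 := ⟨r - g, by omega⟩
      have hsp1 : ¬ Sp q g r1 := by
        intro h
        apply hsp
        have h4 := Sp.step (q * g) r1 (Dvd.intro _ rfl) (Nat.mul_pos hq0 hg0)
          (by rw [hdiv]; exact h)
        rwa [hdiv] at h4
      have hr1 : 1 ≤ r1 := by
        by_contra h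
        have h5 : r1 = 0 := by omega
        subst h5
        exact hsp1 (Sp.zero g)
      have hle1 : (q - 1) * r1 ≤ g := by
        obtain ⟨c, rfl⟩ : ∃ c, q = c + 1 := ⟨q - 1, by omega⟩
        rw [Nat.add_sub_cancel] at hle ⊢
        nlinarith
      have hqg : q ∣ g := by
        rw [hg] at hle1 ⊢
        exact C5_dvd p s q k' r1 hp hq h2 hr1 hle1
      obtain ⟨lam1, nu1, hLN, hd1, hA, hB⟩ := ih k' (by omega) r1 hr1 (by rw [← hg]; exact hle1)
        (by rw [← hg]; exact hsp1) (by
          intro hq3 h3r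
          apply h3 hq3
          exact Nat.dvd_add (hq3 ▸ hqg) h3r)
      rw [← hg] at hd1 hA hB
      have hD : (g + r1) / q = g / q + r1 / q := Nat.add_div_of_dvd_right hqg
      have hr1q : r1 / q ≤ r1 := Nat.div_le_self r1 q
      have hgq : g / q ≤ g := Nat.div_le_self g q
      obtain ⟨d, hd⟩ : ∃ d, d = g / q - (r1 - r1 / q) := ⟨_, rfl⟩
      have hdd : g - (g + r1 - (g + r1) / q) = d := by omega
      rw [← hd] at hA
      have hY := C5_conseq q g d lam1 nu1 h2 (by omega) hA hB
      obtain ⟨lam', nu', hLN', hl', hn'⟩ := chain p s q hp hq h2 k' r1 lam1 nu1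
        (by rw [← hg]; exact hqg) hr1 hLN (by rw [← hg]; omega) (by rw [← hg, ← hd]; exact hY)
      rw [← hg] at hLN' hl' hn'
      rw [← hd] at hl' hn'
      refine ⟨lam', nu', hLN', by omega, ?_, ?_⟩
      · rw [hdd]
        obtain ⟨c, rfl⟩ : ∃ c, q = c + 1 := ⟨q - 1, by omega⟩
        rw [Nat.add_sub_cancel] at hA ⊢
        calc (c + 1) ^ 2 * (c * lam' + d)
            ≤ (c + 1) ^ 2 * (c * (d + (c + 1) * lam1) + d) :=
              Nat.mul_le_mul_left _ (Nat.add_le_add_right (Nat.mul_le_mul_left _ hl') _)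
          _ = (c + 1) * ((c + 1) ^ 2 * (c * lam1 + d)) := by ring
          _ ≤ (c + 1) * (c ^ 2 * g) := Nat.mul_le_mul_left _ hA
          _ = c ^ 2 * ((c + 1) * g) := by ring
      · exact Nat.mul_le_mul_left _ (by omega)
    · -- case r < g
      obtain ⟨lam, nu, hLN, hnu⟩ := exists_LN p s q hp hq h2 r hr
      obtain ⟨j, hj1, hj2⟩ : ∃ j, p ^ j ≤ r ∧ r < p ^ (j + 1) :=
        ⟨Nat.log p r, Nat.pow_log_le_self p (by omega), Nat.lt_pow_succ_log_self hp.one_lt r⟩
      have hnuP := hnu j hj1 hj2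
      have hjk : j < k' := by
        have h4 : p ^ j < p ^ k' := by rw [← hg]; omega
        exact (Nat.pow_lt_pow_iff_right hp.one_lt).1 h4
      obtain ⟨P, hP⟩ : ∃ P, P = p ^ j := ⟨_, rfl⟩
      rw [← hP] at hnuP hj1
      have hpP : p * P ≤ g := by
        rw [hP, hg, mul_comm, ← pow_succ]
        exact Nat.pow_le_pow_right hp.pos hjk
      have hlam : lam ≤ P := hLN.le.trans hnuP
      have hP0 : 0 < P := by rw [hP]; exact pow_pos hp.pos _
      have hx : (q - 1) * r ≤ q * (r - r / q) := by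
        have h5 : q * (r / q) ≤ r := Nat.mul_div_le r q
        obtain ⟨c, rfl⟩ : ∃ c, q = c + 1 := ⟨q - 1, by omega⟩
        rw [Nat.add_sub_cancel, Nat.mul_sub]
        have h6 : (c + 1) * r = c * r + r := by ring
        omega
      rcases Nat.lt_or_ge q 4 with hq4 | hq4
      · -- q = 3
        have hq3 : q = 3 := by omega
        subst hq3
        have hps : p = 3 ∧ s = 1 := by
          have h5 : p ∣ 3 := by rw [hq]; exact dvd_pow_self p hs
          have h6 : p = 3 := (Nat.prime_dvd_prime_iff_eq hp Nat.prime_three).1 h5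
          refine ⟨h6, ?_⟩
          subst h6
          have h7 : (3 : ℕ) ^ s = 3 ^ 1 := by rw [← hq]; norm_num
          exact Nat.pow_right_injective (le_refl 2 |>.trans (by norm_num)) h7
        obtain ⟨rfl, rfl⟩ := hps
        rcases le_or_gt (9 * P) g with h9 | h9
        · exact ⟨lam, nu, hLN, by omega, by omega, by omega⟩
        · have h3P : 3 * P = g := by
            have h10 : k' < j + 2 := by
              have h11 : (3 : ℕ) ^ k' < 3 ^ (j + 2) := by
                rw [← hg, pow_add, ← hP]; omega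
              exact (Nat.pow_lt_pow_iff_right (by norm_num)).1 h11
            have h12 : k' = j + 1 := by omega
            rw [hg, h12, pow_succ, ← hP]; ring
          rcases le_or_gt P (r - r / 3) with h13 | h13
          · exact ⟨lam, nu, hLN, by omega, by omega, by omega⟩
          · obtain ⟨r', rfl⟩ : ∃ r', r = P + r' := ⟨r - P, by omega⟩
            have h3r := h3 rfl
            have hr'P : r' < P := by omega
            have h3P' : 3 ∣ P ∧ 1 ≤ r' := by
              rcases j with _ | j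
              · rw [pow_zero] at hP
                omega
              · have h14 : 3 ∣ P := by rw [hP]; exact dvd_pow_self 3 (by omega)
                refine ⟨h14, ?_⟩
                by_contra h15
                apply h3r
                have h16 : r' = 0 := by omega
                rw [h16]
                exact h14
            obtain ⟨hdP, hr'1⟩ := h3P'
            have h3r' : ¬ 3 ∣ r' := fun h => h3r (Nat.dvd_add hdP h)
            have h17 : 3 * (r' - r' / 3) < P := by omega
            have hsp' : ¬ Sp 3 P r' := by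
              intro h
              have := C5_sp P r' h j hP h3r'
              omega
            obtain ⟨lam1, nu1, hLN1, hd1, hA, hB⟩ := ih j (by omega) r' hr'1
              (by rw [← hP]; omega) (by rw [← hP]; exact hsp') (fun _ => h3r')
            rw [← hP] at hd1 hA hB
            obtain ⟨d, hd⟩ : ∃ d, d = P / 3 - (r' - r' / 3) := ⟨_, rfl⟩
            rw [← hd] at hA
            have hY := C5_conseq 3 P d lam1 nu1 h2 (by omega) hA hB
            obtain ⟨lam', nu', hLN', hl', hn'⟩ := chain 3 1 3 hp hq h2 j r' lam1 nu1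
              (by rw [← hP]; exact hdP) hr'1 hLN1 (by rw [← hP]; omega)
              (by rw [← hP, ← hd]; exact hY)
            rw [← hP] at hLN' hl' hn'
            rw [← hd] at hl' hn'
            exact ⟨lam', nu', hLN', by omega, by omega, by omega⟩
      · have hpq : p ≤ q := C3_two p s q hp hq h2
        have hsub : r - r / q ≤ r := Nat.sub_le _ _
        have hx' : (q - 1) * P ≤ q * (r - r / q) :=
          (Nat.mul_le_mul_left _ hj1).trans hx
        have h5 := C5_four p q g P lam (g - (r - r / q)) (r - r / q) hp.two_le hpq hq4 hpP hlam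
          hx' (by omega)
        refine ⟨lam, nu, hLN, by omega, ?_, ?_⟩
        · calc q ^ 2 * ((q - 1) * lam + (g - (r - r / q)))
              = q * (q * ((q - 1) * lam + (g - (r - r / q)))) := by ring
            _ ≤ q * ((q - 1) ^ 2 * g) := Nat.mul_le_mul_left _ h5
            _ = (q - 1) ^ 2 * (q * g) := by ring
        · exact Nat.mul_le_mul_left _ (by omega)

end Pool.Agent.MP33dd76
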