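import Mathlib
import Pool.Agent.Lib.MP_33dd76_nt.C5PropP

set_option autoImplicit false

open Polynomial

namespace Pool.Agent.MP33dd76

/-! # Module C6: the combinatorial lemma for `β` -/

theorem beta_fail (p s q : ℕ) (hp : p.Prime) (hq : q = p ^ s) (h2 : 2 < q) (R β : ℕ)
    (hβ : 1 ≤ β) (hle : (q - 1) * β ≤ p ^ R) (hsp : ¬ Sp q (p ^ R) β) (h3 : q = 3 → ¬ 3 ∣ β) :
    ∃ j n, p ^ R / q + β / q < j ∧ j + n < p ^ R ∧ q * n ≤ p ^ R ∧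
      (Tj p q β j).coeff n ≠ 0 ∧ ∀ i < n, (Tj p q β j).coeff i = 0 := by
  obtain ⟨lam, nu, hLN, hd, hl, hn⟩ := propP p s q hp hq h2 R β hβ hle hsp h3
  have hβq : β / q ≤ β := Nat.div_le_self β q
  have hlt : β < q * lam := hLN.lt
  obtain ⟨Q, hQ⟩ : ∃ Q, Q = p ^ R := ⟨_, rfl⟩
  rw [← hQ] at hd hl hn ⊢
  obtain ⟨G, hG⟩ : ∃ G, G = Q / q := ⟨_, rfl⟩
  rw [← hG] at hd hl ⊢
  obtain ⟨b', hb'⟩ : ∃ b', b' = β / q := ⟨_, rfl⟩
  rw [← hb'] at hd hl hβq ⊢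
  obtain ⟨j, hj1, hj2, hj3⟩ := lemR2 p s q hp hq h2 β lam nu hβ hLN (G + b') (by omega)
  refine ⟨j, nu, hj1, ?_, hn, hj3, fun i hi =>
    lemR1 p s q hp hq h2 β lam nu hβ hLN j (by omega) i hi⟩
  obtain ⟨d, hdd⟩ : ∃ d, d = G - (β - b') := ⟨_, rfl⟩
  rw [← hdd] at hl
  have hd1 : 1 ≤ d := by omega
  have hle2 : j + nu ≤ d + q * lam + nu := by omega
  refine lt_of_le_of_lt hle2 ?_
  obtain ⟨c, rfl⟩ : ∃ c, q = c + 1 := ⟨q - 1, by omega⟩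
  simp only [Nat.add_sub_cancel] at hl
  have hc : 2 ≤ c := by omega
  have key : (c + 1) * c * (d + (c + 1) * lam + nu) < (c + 1) * c * Q := by
    have h5 : c * ((c + 1) * nu) ≤ c * Q := Nat.mul_le_mul_left _ hn
    have h6 : (c + 1) * c * (d + (c + 1) * lam + nu) + (c + 1) * d =
        (c + 1) ^ 2 * (c * lam + d) + c * ((c + 1) * nu) := by ring
    have h7 : (c + 1) * c * Q = c ^ 2 * Q + c * Q := by ring
    have h8 : 0 < (c + 1) * d := by positivity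
    omega
  exact lt_of_mul_lt_mul_left key (by positivity)

end Pool.Agent.MP33dd76
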