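import Mathlib
import Pool.Agent.Lib.MP_33dd76_nt.B8Crit3
import Pool.Agent.Lib.MP_33dd76_nt.B9Tj
import Pool.Agent.Lib.MP_33dd76_nt.C1Dig
import Pool.Agent.Lib.MP_33dd76_nt.C2T0
import Pool.Agent.Lib.MP_33dd76_nt.C6Beta

set_option autoImplicit false

open Polynomial

namespace Pool.Agent.MP33dd76

/-! # Module C7: conclusion of part B -/

theorem C7_br_succ (q k : ℕ) : br q (k + 1) = q ^ k + br q k := by
  unfold br
  rw [Finset.sum_range_succ, add_comm]

theorem C7_br_geom (q k : ℕ) (h2 : 2 < q) : (q - 1) * br q k + 1 = q ^ k := by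
  induction k with
  | zero => simp [br]
  | succ k ih =>
    rw [C7_br_succ, pow_succ, ← ih]
    obtain ⟨c, rfl⟩ : ∃ c, q = c + 1 := ⟨q - 1, by omega⟩
    simp only [Nat.add_sub_cancel]
    ring

theorem C7_Sp_prime (p s q : ℕ) (hp : p.Prime) (hq : q = p ^ s) (h2 : 2 < q) (Q x : ℕ)
    (h : Sp q Q x) : ∀ R, Q = p ^ R → ¬ p ∣ x → ∃ k, 1 ≤ k ∧ Q = q ^ k ∧ x = br q k := by
  have hs : s ≠ 0 := by
    rintro rfl
    rw [pow_zero] at hq
    omega
  have hpq : p ∣ q := hq ▸ dvd_pow_self p hs
  induction h with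
  | zero Q => intro R hR hx; exact absurd (dvd_zero p) hx
  | step Q x hQ hQ' h ih =>
    intro R hR hx
    have hsR : s ≤ R := by
      rw [hR, hq] at hQ
      exact (Nat.pow_dvd_pow_iff_le_right hp.one_lt).1 hQ
    have hQq : Q / q = p ^ (R - s) := by
      rw [hR, hq]
      exact Nat.pow_div hsR hp.pos
    have hQ2 : Q = q * (Q / q) := (Nat.mul_div_cancel' hQ).symm
    by_cases hx0 : x = 0
    · subst hx0
      rw [add_zero] at hx
      rw [hQq] at hx
      have hRs : R - s = 0 := by
        by_contra hne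
        exact hx (dvd_pow_self p hne)
      refine ⟨1, le_refl 1, ?_, ?_⟩
      · rw [hQ2, hQq, hRs]; ring
      · rw [hQq, hRs]; simp [br]
    · have hq' : q ∣ Q / q := by
        cases h with
        | zero _ => exact absurd rfl hx0
        | step _ _ h1 _ _ => exact h1
      have hpQ : p ∣ Q / q := hpq.trans hq'
      have hx' : ¬ p ∣ x := fun hc => hx (dvd_add hpQ hc)
      obtain ⟨k, hk, hk1, hk2⟩ := ih (R - s) hQq hx'
      refine ⟨k + 1, by omega, ?_, ?_⟩
      · rw [hQ2, hk1]; ring
      · rw [C7_br_succ, hk1, hk2]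

/-- special elements prime to `p` -/
theorem Sp_prime (p s q : ℕ) (hp : p.Prime) (hq : q = p ^ s) (h2 : 2 < q) (R x : ℕ)
    (h : Sp q (p ^ R) x) (hx : ¬ p ∣ x) : ∃ k, 1 ≤ k ∧ p ^ R = q ^ k ∧ x = br q k :=
  C7_Sp_prime p s q hp hq h2 (p ^ R) x h R rfl hx

theorem C7_e0 (q Q β : ℕ) (h2 : 2 < q) : Q - Q / q ≤ e0 q (q * Q + β) := by
  unfold e0
  rw [Nat.le_div_iff_mul_le (by omega)]
  have h1 : (q * Q + β) / q = Q + β / q := by
    rw [add_comm, Nat.add_mul_div_left _ _ (by omega : 0 < q), add_comm]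
  rw [h1]
  have h3 : β / q ≤ β := Nat.div_le_self _ _
  have h4 : Q < q * (Q / q) + q := by
    have := Nat.div_add_mod Q q
    have := Nat.mod_lt Q (by omega : 0 < q)
    omega
  have h5 : (Q - Q / q) * q = Q * q - (Q / q) * q := Nat.sub_mul _ _ _
  have h6 : Q / q * q = q * (Q / q) := Nat.mul_comm _ _
  have h7 : Q * q = q * Q := Nat.mul_comm _ _
  have h8 : Q ≤ q * Q := Nat.le_mul_of_pos_left _ (by omega)
  rw [h5, h6, h7]
  omega

theorem partB {K : Type*} [NormedField K] [IsUltrametricDist K] {p q : ℕ} {π : K}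
    (H : Hyp K p q π) {a m : ℕ} {υ : ℕ → K} (ha : 1 ≤ a) (hm : 1 ≤ m) (hS : Star q π a m υ)
    (hprim : ¬ (p ∣ a ∧ p ∣ m)) :
    (a = 1 ∧ m = q - 1) ∨ (∃ n, 1 ≤ n ∧ a = br q n ∧ m = q ^ n) ∨
      (∃ n, 1 ≤ n ∧ a = q ^ n ∧ m = q ^ (n + 1) + br q n) := by
  have hp := H.prime
  obtain ⟨s, hq⟩ := H.pow
  have h2 := H.two
  have hs : s ≠ 0 := by
    rintro rfl
    rw [pow_zero] at hq
    omega
  have hpq : p ∣ q := hq ▸ dvd_pow_self p hs
  rcases digits p s q hp hq h2 a m ha hm (fun i hi h => crit_N1 H ha hm hS i hi h)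
    (fun i hi h => crit_N3 H ha hm hS i hi h) with ⟨R, hR1, hR2⟩ | ⟨R, α, β, hR1, hR2, hle⟩
  · left
    have hR : R = 0 := by
      by_contra hne
      have h1 : p ∣ p ^ R := dvd_pow_self p hne
      exact hprim ⟨hR1 ▸ h1, hR2 ▸ h1.mul_left _⟩
    subst hR
    rw [pow_zero] at hR1 hR2
    exact ⟨hR1, by omega⟩
  · right
    have hleα : (q - 1) * α ≤ p ^ R := le_trans (Nat.mul_le_mul_left _ (Nat.le_add_right _ _)) hle
    have hleβ : (q - 1) * β ≤ p ^ R := le_trans (Nat.mul_le_mul_left _ (Nat.le_add_left _ _)) hle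
    by_cases hR : R = 0
    · -- `Q = 1`
      left
      subst hR
      rw [pow_zero] at hR1 hR2 hle
      have h3 : α + β = 0 := by
        by_contra hne
        have h4 : 1 ≤ α + β := Nat.one_le_iff_ne_zero.2 hne
        have h5 : (q - 1) * 1 ≤ (q - 1) * (α + β) := Nat.mul_le_mul_left _ h4
        omega
      refine ⟨1, le_refl 1, ?_, ?_⟩
      · have : br q 1 = 1 := by simp [br]
        omega
      · rw [pow_one]; omega
    have hpQ : p ∣ p ^ R := dvd_pow_self p hR
    by_cases hpa : p ∣ a
    · right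
      have hpm : ¬ p ∣ m := fun h => hprim ⟨hpa, h⟩
      have hpβ : ¬ p ∣ β := by
        intro h
        exact hpm (hR2 ▸ dvd_add (hpQ.mul_left _) h)
      have hβ : 1 ≤ β := by
        rcases Nat.eq_zero_or_pos β with h | h
        · exact absurd (h ▸ dvd_zero p) hpβ
        · exact h
      have hqQ : q ≤ p ^ R := by
        by_contra hlt
        push Not at hlt
        have h4 : (q - 1) * 1 ≤ (q - 1) * β := Nat.mul_le_mul_left _ hβ
        have h5 : q = p ^ R + 1 := by omega
        have h6 : p ∣ 1 := (Nat.dvd_add_right hpQ).1 (h5 ▸ hpq)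
        exact hp.one_lt.ne' (Nat.dvd_one.1 h6)
      have hsR : s ≤ R := by
        rw [hq] at hqQ
        exact (Nat.pow_le_pow_iff_right hp.one_lt).1 hqQ
      have hqd : q ∣ p ^ R := by
        rw [hq]; exact pow_dvd_pow p hsR
      by_cases hsp : Sp q (p ^ R) β
      · obtain ⟨k, hk, hk1, hk2⟩ := Sp_prime p s q hp hq h2 R β hsp hpβ
        have h6 := C7_br_geom q k h2
        have h7 : α = 0 := by
          rw [hk1, hk2, Nat.mul_add] at hle
          by_contra hne
          have h8 : 1 ≤ α := Nat.one_le_iff_ne_zero.2 hne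
          have h9 : (q - 1) * 1 ≤ (q - 1) * α := Nat.mul_le_mul_left _ h8
          omega
        refine ⟨k, hk, ?_, ?_⟩
        · rw [hR1, h7, hk1, add_zero]
        · rw [hR2, hk1, hk2, pow_succ, mul_comm q]
      · exfalso
        have h3 : q = 3 → ¬ 3 ∣ β := by
          intro h33 hd
          have h4 : p ∣ 3 := h33 ▸ hpq
          have h5 : p = 3 := (Nat.prime_dvd_prime_iff_eq hp Nat.prime_three).1 h4
          exact hpβ (h5 ▸ hd)
        obtain ⟨j, n, hj1, hj2, hn, hc, hc'⟩ := beta_fail p s q hp hq h2 R β hβ hleβ hsp h3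
        haveI := H.char
        have hdq : 0 ≤ β / q := Nat.zero_le _
        have hdQ : 0 ≤ p ^ R / q := Nat.zero_le _
        have hmN : (m : ℤ) = (β : ℤ) + (p : ℤ) ^ (s + R) := by
          rw [hR2, hq]; push_cast; ring
        have hQq : p ^ R ≤ p ^ (s + R) := Nat.pow_le_pow_right hp.pos (by omega)
        have hT : Tj p q (m : ℤ) j = Tj p q (β : ℤ) j := by
          rw [hmN]
          exact Tj_period p q (s + R) hp (by omega) (β : ℤ) j (by omega)
        have hmq : m / q = p ^ R + β / q := by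
          rw [hR2, add_comm, Nat.add_mul_div_left _ _ (by omega : 0 < q), add_comm]
        have hTn : ‖(Tj p q (m : ℤ) j).eval₂ (ZMod.castHom (dvd_refl p) K) π‖ = ‖π‖ ^ n := by
          rw [hT]
          exact norm_eval_T hp H.ne H.lt _ n hc hc'
        have hπ0 : 0 < ‖π‖ := norm_pos_iff.2 H.ne
        have hb := beta_T H m j hm (by omega)
        have h0 : ‖(Bh q π m).coeff 0‖ = 1 := B8_norm_one norm_one (Bh_zero H m)
        have h1 : ‖(Bh q π m).coeff 0 *
            (Tj p q (m : ℤ) j).eval₂ (ZMod.castHom (dvd_refl p) K) π‖ = ‖π‖ ^ n := by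
          rw [norm_mul, h0, one_mul, hTn]
        have hlt : ‖(Bh q π m).coeff j - (Bh q π m).coeff 0 *
            (Tj p q (m : ℤ) j).eval₂ (ZMod.castHom (dvd_refl p) K) π‖ <
            ‖(Bh q π m).coeff 0 *
            (Tj p q (m : ℤ) j).eval₂ (ZMod.castHom (dvd_refl p) K) π‖ := by
          rw [h1]
          refine lt_of_le_of_lt hb ?_
          exact pow_lt_pow_right_of_lt_one₀ hπ0 H.lt (by omega)
        have hcj : ‖(Bh q π m).coeff j‖ = ‖π‖ ^ n := by
          have h5 := B8_norm_add hlt
          rw [sub_add_cancel] at h5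
          rw [h5, h1]
        have hj3 : (a + m) / q < a + j := by
          obtain ⟨c, hc2⟩ := hqd
          have h10 : p ^ R / q = c := by
            rw [hc2]; exact Nat.mul_div_cancel_left _ (by omega)
          rw [h10] at hj1
          have h11 : a + m ≤ q * (p ^ R + c + α) + β := by
            have h12 : α ≤ q * α := Nat.le_mul_of_pos_left _ (by omega)
            have h13 : q * (p ^ R + c + α) = q * p ^ R + q * c + q * α := by ring
            rw [h13]
            omega
          have h14 : (a + m) / q ≤ (q * (p ^ R + c + α) + β) / q := Nat.div_le_div_right h11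
          have h15 : (q * (p ^ R + c + α) + β) / q = p ^ R + c + α + β / q := by
            rw [add_comm, Nat.add_mul_div_left _ _ (by omega : 0 < q), add_comm]
          rw [h15] at h14
          omega
        have hN := crit_N H ha hm hS j hj3
        rw [hcj] at hN
        have he : e0 q m ≤ n := (pow_le_pow_iff_right_of_lt_one₀ hπ0 H.lt).1 hN
        have he2 : p ^ R - p ^ R / q ≤ e0 q m := by
          rw [hR2]; exact C7_e0 q (p ^ R) β h2
        obtain ⟨c, hc2⟩ := hqd
        have h10 : p ^ R / q = c := by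
          rw [hc2]; exact Nat.mul_div_cancel_left _ (by omega)
        rw [h10] at he2
        have hcpos : 0 < c := by
          rcases Nat.eq_zero_or_pos c with h | h
          · rw [h, mul_zero] at hc2
            have := Nat.pow_pos (n := R) hp.pos
            omega
          · exact h
        have h16 : p ^ R - c ≤ n := by omega
        have h17 : q * (p ^ R - c) ≤ q * n := Nat.mul_le_mul_left _ h16
        have h18 : q * (p ^ R - c) = q * p ^ R - q * c := Nat.mul_sub _ _ _
        have h19 : 3 * p ^ R ≤ q * p ^ R := Nat.mul_le_mul_right _ (by omega)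
        have h20 : 0 < p ^ R := Nat.pow_pos hp.pos
        rw [h18, ← hc2] at h17
        omega
    · left
      have hpα : ¬ p ∣ α := by
        intro h
        exact hpa (hR1 ▸ dvd_add hpQ h)
      have hα : 1 ≤ α := by
        rcases Nat.eq_zero_or_pos α with h | h
        · exact absurd (h ▸ dvd_zero p) hpα
        · exact h
      have hsp : Sp q (p ^ R) α := by
        by_contra hsp
        obtain ⟨i, hi1, hi2, hi3, hi4⟩ := t0comb p s q hp hq h2 R α hα hleα hsp
        have he2 : p ^ R - p ^ R / q ≤ e0 q m := by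
          rw [hR2]; exact C7_e0 q (p ^ R) β h2
        have h5 := crit_T0 H ha hm hS i hi1 (by omega) (by omega)
        rw [hR1] at h5
        exact hi4 h5
      obtain ⟨k, hk, hk1, hk2⟩ := Sp_prime p s q hp hq h2 R α hsp hpα
      have h6 := C7_br_geom q k h2
      have h7 : β = 0 := by
        rw [hk1, hk2, Nat.mul_add] at hle
        by_contra hne
        have h8 : 1 ≤ β := Nat.one_le_iff_ne_zero.2 hne
        have h9 : (q - 1) * 1 ≤ (q - 1) * β := Nat.mul_le_mul_left _ h8
        omega
      refine ⟨k + 1, by omega, ?_, ?_⟩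
      · rw [hR1, hk1, hk2, C7_br_succ]
      · rw [hR2, hk1, h7, pow_succ, add_zero, mul_comm q]

end Pool.Agent.MP33dd76
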