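import Mathlib
import Pool.Agent.Lib.MP_33dd76_nt.A13Ey
import Pool.Agent.Lib.MP_33dd76_nt.A14Pow

set_option autoImplicit false

open Polynomial

namespace Pool.Agent.MP33dd76

/-! # Module D1: uniqueness and values of `A_m`, `B_m` -/

variable {F : Type*} [Field F] [Fintype F] {L : Type*} [Field L] [Algebra F L]

private theorem D1_pow_inj {t : L} (ht : Transcendental F t) {a b : ℕ} (h : t ^ a = t ^ b) :
    a = b := by
  have h1 : (X ^ a : F[X]) = X ^ b := by
    apply transcendental_iff_injective.1 ht
    rw [map_pow, map_pow, aeval_X, h]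
  have h2 := congrArg Polynomial.natDegree h1
  rwa [natDegree_X_pow, natDegree_X_pow] at h2

private theorem D1_ne {t : L} (ht : Transcendental F t) (n : ℕ) (hn : 1 ≤ n) :
    t ^ (Fintype.card F ^ n) ≠ t := by
  intro h
  have h1 : Fintype.card F ^ n = 1 := D1_pow_inj ht (by rw [h, pow_one])
  have h2 : n < Fintype.card F ^ n := Nat.lt_pow_self Fintype.one_lt_card
  omega

private theorem D1_inj {t : L} (ht : Transcendental F t) :
    Function.Injective fun k : ℕ => t ^ (Fintype.card F ^ (k + 1)) := by
  intro a b h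
  have h1 : Fintype.card F ^ (a + 1) = Fintype.card F ^ (b + 1) := D1_pow_inj ht h
  have h2 := Nat.pow_right_injective Fintype.one_lt_card h1
  omega

private theorem D1_zero {t : L} (ht : Transcendental F t) (D : L[X])
    (h : ∀ k : ℕ, D.eval (t ^ (Fintype.card F ^ (k + 1))) = 0) : D = 0 :=
  Polynomial.eq_zero_of_infinite_isRoot D
    (Set.infinite_of_injective_forall_mem (D1_inj ht) fun k => h k)

private theorem D1_ext {t : L} (ht : Transcendental F t) (P Q : L[X])
    (h : ∀ k : ℕ, P.eval (t ^ (Fintype.card F ^ (k + 1))) =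
      Q.eval (t ^ (Fintype.card F ^ (k + 1)))) : P = Q := by
  rw [← sub_eq_zero]
  refine D1_zero ht _ fun k => ?_
  rw [eval_sub, h k, sub_self]

private theorem D1_expand_zero (t : L) (D : L[X]) :
    (expand L (Fintype.card F) D).eval t = D.eval (t ^ (Fintype.card F ^ (0 + 1))) := by
  rw [expand_eval, zero_add, pow_one]

private theorem D1_expand_succ (t : L) (D : L[X]) (k : ℕ) :
    (expand L (Fintype.card F) D).eval (t ^ (Fintype.card F ^ (k + 1))) =
      D.eval (t ^ (Fintype.card F ^ (k + 1 + 1))) := by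
  rw [expand_eval, ← pow_mul, ← pow_succ]

/-- a solution of the homogeneous equation vanishes -/
theorem homog_zero (hF : 2 < Fintype.card F) (t : L) (ht : Transcendental F t) (r : ℕ) (hr : 1 ≤ r)
    (D : L[X]) (h : expand L (Fintype.card F) D = (C t - X) ^ r * D) : D = 0 := by
  refine D1_zero ht D fun k => ?_
  induction k with
  | zero =>
    rw [← D1_expand_zero, h]
    simp only [eval_mul, eval_pow, eval_sub, eval_C, eval_X, sub_self]
    rw [zero_pow (by omega), zero_mul]
  | succ k ih =>
    rw [← D1_expand_succ, h, eval_mul, ih, mul_zero]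

theorem As_eval (hF : 2 < Fintype.card F) (t : L) (ht : Transcendental F t) (k m : ℕ)
    (hm : 1 ≤ m) :
    (As (Fintype.card F) (Ey F t) 1 m).eval (t ^ (Fintype.card F ^ (k + 1))) =
      ell F t k ^ ((Fintype.card F - 1) * m) * Ssum F t k ((Fintype.card F - 1) * m) := by
  rw [← hy_eq_As hF t m hm]
  exact pow_sum t ht k _ (Nat.mul_pos (by omega) hm)

theorem Bs_eval (hF : 2 < Fintype.card F) (t : L) (ht : Transcendental F t) (k m : ℕ)
    (hm : 1 ≤ m) :
    (Bs (Fintype.card F) (Ey F t) m).eval (t ^ (Fintype.card F ^ (k + 1))) =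
      ell F t k ^ ((Fintype.card F - 1) * m) * Slt F t k ((Fintype.card F - 1) * m) := by
  have hs : (Fintype.card F - 1) * m ≠ 0 := (Nat.mul_pos (by omega) hm).ne'
  induction k with
  | zero =>
    rw [← D1_expand_zero, Bs_twist hF t (D1_ne ht) m]
    simp only [eval_mul, eval_pow, eval_sub, eval_C, eval_X, sub_self]
    rw [zero_pow hs, zero_mul]
    unfold Slt
    rw [Finset.range_zero, Finset.sum_empty, mul_zero]
  | succ k ih =>
    rw [← D1_expand_succ, Bs_twist hF t (D1_ne ht) m, eval_mul, eval_add, ih,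
      As_eval hF t ht k m hm]
    simp only [eval_pow, eval_sub, eval_C, eval_X]
    have h1 : ell F t (k + 1) = ell F t k * (t - t ^ (Fintype.card F ^ (k + 1))) := by
      unfold ell
      rw [Finset.prod_range_succ]
    have h2 : Slt F t (k + 1) ((Fintype.card F - 1) * m) =
        Slt F t k ((Fintype.card F - 1) * m) + Ssum F t k ((Fintype.card F - 1) * m) := by
      unfold Slt
      rw [Finset.sum_range_succ]
    rw [h1, h2, mul_pow]
    ring

private theorem D1_sum (F : Type*) [Field F] [Fintype F] {L : Type*} [Field L] [Algebra F L]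
    {ι : Type*} (s : Finset ι) (f : ι → L) :
    (∑ i ∈ s, f i) ^ Fintype.card F = ∑ i ∈ s, f i ^ Fintype.card F :=
  map_sum (FiniteField.frobeniusAlgHom F L) f s

private theorem D1_Ssum (t : L) (k s : ℕ) :
    Ssum F t k (s * Fintype.card F) = (Ssum F t k s) ^ Fintype.card F := by
  unfold Ssum
  rw [D1_sum]
  refine Finset.sum_congr rfl fun c _ => ?_
  rw [pow_mul, inv_pow]

private theorem D1_Slt (t : L) (k s : ℕ) :
    Slt F t k (s * Fintype.card F) = (Slt F t k s) ^ Fintype.card F := by
  unfold Slt
  rw [D1_sum]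
  exact Finset.sum_congr rfl fun c _ => D1_Ssum t c s

theorem Bs_q (hF : 2 < Fintype.card F) (t : L) (ht : Transcendental F t) (m : ℕ) :
    Bs (Fintype.card F) (Ey F t) (Fintype.card F * m) =
      (Bs (Fintype.card F) (Ey F t) m) ^ Fintype.card F := by
  rcases Nat.eq_zero_or_pos m with h0 | h0
  · have h1 : Bs (Fintype.card F) (Ey F t) 0 = 1 := by
      unfold Bs
      rw [PowerSeries.coeff_zero_eq_constantCoeff_apply, PowerSeries.constantCoeff_invOfUnit]
      simp
    rw [h0, mul_zero, h1, one_pow]
  · refine D1_ext ht _ _ fun k => ?_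
    rw [eval_pow, Bs_eval hF t ht k _ (Nat.mul_pos (by omega) h0), Bs_eval hF t ht k m h0,
      mul_pow, ← D1_Slt, ← pow_mul, show (Fintype.card F - 1) * (Fintype.card F * m) =
        (Fintype.card F - 1) * m * Fintype.card F by ring]

theorem As_q (hF : 2 < Fintype.card F) (t : L) (ht : Transcendental F t) (m : ℕ) (hm : 1 ≤ m) :
    As (Fintype.card F) (Ey F t) 1 (Fintype.card F * m) =
      (As (Fintype.card F) (Ey F t) 1 m) ^ Fintype.card F := by
  refine D1_ext ht _ _ fun k => ?_
  rw [eval_pow, As_eval hF t ht k _ (Nat.mul_pos (by omega) hm), As_eval hF t ht k m hm,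
    mul_pow, ← D1_Ssum, ← pow_mul, show (Fintype.card F - 1) * (Fintype.card F * m) =
      (Fintype.card F - 1) * m * Fintype.card F by ring]

end Pool.Agent.MP33dd76
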