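import Mathlib
import Pool.Agent.Lib.MP_33dd76_nt.D1Uniq

set_option autoImplicit false

open Polynomial

namespace Pool.Agent.MP33dd76

/-! # Module D2: explicit `B_m` and `A_m` -/

variable {F : Type*} [Field F] [Fintype F] {L : Type*} [Field L] [Algebra F L]

/-- `∏_{j<n} (y^(q^j) - t)/(t^(q^(j+1)) - t)` -/
noncomputable def PP (F : Type*) [Field F] [Fintype F] {L : Type*} [Field L] (t : L) (n : ℕ) : L[X] :=
  ∏ j ∈ Finset.range n, (X ^ (Fintype.card F ^ j) - C t) *
    C ((t ^ (Fintype.card F ^ (j + 1)) - t)⁻¹)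

/-- `LL 0 = 1`, `LL (n+1) = PP n * (y^(q^n) - t^(q^(n+1)))/(t^(q^(n+1)) - t)` -/
noncomputable def LL (F : Type*) [Field F] [Fintype F] {L : Type*} [Field L] (t : L) : ℕ → L[X]
  | 0 => 1
  | n + 1 => PP F t n * (X ^ (Fintype.card F ^ n) - C (t ^ (Fintype.card F ^ (n + 1)))) *
      C ((t ^ (Fintype.card F ^ (n + 1)) - t)⁻¹)

/-- `u = (y - t^q)/(t^q - t)` -/
noncomputable def uu (F : Type*) [Field F] [Fintype F] {L : Type*} [Field L] (t : L) : L[X] :=
  C ((t ^ Fintype.card F - t)⁻¹) * (X - C (t ^ Fintype.card F))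

/-! ### Auxiliary results -/

private theorem D2_char (F L : Type*) [Field F] [Fintype F] [Field L] [Algebra F L] :
    ∃ p s : ℕ, p.Prime ∧ CharP L p ∧ Fintype.card F = p ^ s := by
  obtain ⟨p, hp⟩ := CharP.exists F
  obtain ⟨n, hpp, hc⟩ := FiniteField.card F p
  exact ⟨p, n, hpp, charP_of_injective_algebraMap (algebraMap F L).injective p, hc⟩

private theorem D2_sum (F : Type*) {L : Type*} [Field F] [Fintype F] [Field L] [Algebra F L]
    {ι : Type*} (s : Finset ι) (f : ι → L[X]) (k : ℕ) :
    (∑ i ∈ s, f i) ^ (Fintype.card F ^ k) = ∑ i ∈ s, f i ^ (Fintype.card F ^ k) := by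
  obtain ⟨p, a, hp, hc, hq⟩ := D2_char F L
  have := Fact.mk hp
  have : ExpChar L[X] p := ExpChar.prime hp
  rw [hq, ← pow_mul]
  exact sum_pow_char_pow p (a * k) s f

private theorem D2_add (F : Type*) {L : Type*} [Field F] [Fintype F] [Field L] [Algebra F L]
    (x y : L[X]) (k : ℕ) :
    (x + y) ^ (Fintype.card F ^ k) = x ^ (Fintype.card F ^ k) + y ^ (Fintype.card F ^ k) := by
  obtain ⟨p, a, hp, hc, hq⟩ := D2_char F L
  have : ExpChar L[X] p := ExpChar.prime hp
  rw [hq, ← pow_mul]
  exact add_pow_expChar_pow x y p (a * k)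

private theorem D2_sub (F : Type*) {L : Type*} [Field F] [Fintype F] [Field L] [Algebra F L]
    (x y : L[X]) (k : ℕ) :
    (x - y) ^ (Fintype.card F ^ k) = x ^ (Fintype.card F ^ k) - y ^ (Fintype.card F ^ k) := by
  obtain ⟨p, a, hp, hc, hq⟩ := D2_char F L
  have : ExpChar L[X] p := ExpChar.prime hp
  rw [hq, ← pow_mul]
  exact sub_pow_expChar_pow x y (a * k)

private theorem D2_ne (t : L) (ht : Transcendental F t) (n : ℕ) (hn : 1 ≤ n) :
    t ^ (Fintype.card F ^ n) ≠ t := by
  intro h
  apply ht
  refine ⟨X ^ (Fintype.card F ^ n) - X, ?_, ?_⟩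
  · exact FiniteField.X_pow_card_pow_sub_X_ne_zero F (by omega) Fintype.one_lt_card
  · rw [map_sub, map_pow, aeval_X, h, sub_self]

private theorem D2_PP_succ (t : L) (n : ℕ) : PP F t (n + 1) = PP F t n *
    ((X ^ (Fintype.card F ^ n) - C t) * C ((t ^ (Fintype.card F ^ (n + 1)) - t)⁻¹)) := by
  unfold PP
  rw [Finset.prod_range_succ]

private theorem D2_PP_zero (t : L) : PP F t 0 = 1 := by
  unfold PP
  simp

theorem LL_eq (t : L) (ht : Transcendental F t) (n : ℕ) :
    LL F t (n + 1) = PP F t (n + 1) - PP F t n := by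
  have hc : t ^ (Fintype.card F ^ (n + 1)) - t ≠ 0 := sub_ne_zero.2 (D2_ne t ht (n + 1) (by omega))
  obtain ⟨c, hcc⟩ : ∃ c, c = t ^ (Fintype.card F ^ (n + 1)) - t := ⟨_, rfl⟩
  have h1 : (1 : L[X]) = (C (t ^ (Fintype.card F ^ (n + 1))) - C t) * C c⁻¹ := by
    rw [← C_sub, ← C_mul, ← hcc, mul_inv_cancel₀ (by rw [hcc]; exact hc), C_1]
  rw [D2_PP_succ]
  show PP F t n * (X ^ (Fintype.card F ^ n) - C (t ^ (Fintype.card F ^ (n + 1)))) *
      C ((t ^ (Fintype.card F ^ (n + 1)) - t)⁻¹) = _
  rw [← hcc]
  linear_combination (PP F t n) * h1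

private theorem D2_PP_split (t : L) (n : ℕ) : PP F t n =
    (∏ j ∈ Finset.range n, (X ^ (Fintype.card F ^ j) - C t)) *
      ∏ j ∈ Finset.range n, C ((t ^ (Fintype.card F ^ (j + 1)) - t)⁻¹) := by
  unfold PP
  rw [Finset.prod_mul_distrib]

private theorem D2_lin (F : Type*) {L : Type*} [Field F] [Fintype F] [Field L] [Algebra F L]
    (t : L) (n : ℕ) : X ^ (Fintype.card F ^ n) - C (t ^ (Fintype.card F ^ n)) =
      (C t - X) ^ (Fintype.card F ^ n - 1) * (X - C t) := by
  have h1 : Fintype.card F ^ n = (Fintype.card F ^ n - 1) + 1 := by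
    have : 0 < Fintype.card F ^ n := pow_pos Fintype.card_pos n
    omega
  have h2 : (C t - X) ^ (Fintype.card F ^ n) = C (t ^ (Fintype.card F ^ n)) - X ^ (Fintype.card F ^ n) := by
    rw [D2_sub F, C_pow]
  have h3 : (C t - X) ^ (Fintype.card F ^ n) = (C t - X) ^ (Fintype.card F ^ n - 1) * (C t - X) := by
    nth_rewrite 1 [h1]
    rw [pow_succ]
  linear_combination h2 - h3

theorem LL_twist (hF : 2 < Fintype.card F) (t : L) (ht : Transcendental F t) (n : ℕ) :
    expand L (Fintype.card F) (LL F t n) = (C t - X) ^ (Fintype.card F ^ n - 1) * PP F t n := by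
  cases n with
  | zero =>
    rw [D2_PP_zero]
    show expand L (Fintype.card F) 1 = _
    simp
  | succ n =>
    show expand L (Fintype.card F) (PP F t n * (X ^ (Fintype.card F ^ n) -
      C (t ^ (Fintype.card F ^ (n + 1)))) * C ((t ^ (Fintype.card F ^ (n + 1)) - t)⁻¹)) = _
    rw [D2_PP_split, D2_PP_split]
    rw [map_mul, map_mul, map_mul, map_prod, map_prod, map_sub, map_pow, expand_X, expand_C,
      expand_C]
    have h1 : ∀ j, (X ^ Fintype.card F : L[X]) ^ (Fintype.card F ^ j) =
        X ^ (Fintype.card F ^ (j + 1)) := by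
      intro j
      rw [← pow_mul, pow_succ, mul_comm]
    have h2 : ∀ j ∈ Finset.range n, expand L (Fintype.card F) (X ^ (Fintype.card F ^ j) - C t) =
        X ^ (Fintype.card F ^ (j + 1)) - C t := by
      intro j _
      rw [map_sub, map_pow, expand_X, expand_C, h1]
    have h3 : ∀ j ∈ Finset.range n, expand L (Fintype.card F)
        (C ((t ^ (Fintype.card F ^ (j + 1)) - t)⁻¹)) =
        C ((t ^ (Fintype.card F ^ (j + 1)) - t)⁻¹) := by
      intro j _
      rw [expand_C]
    rw [Finset.prod_congr rfl h2, Finset.prod_congr rfl h3, h1, D2_lin F t (n + 1),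
      Finset.prod_range_succ' (fun j => (X ^ (Fintype.card F ^ j) - C t : L[X])),
      Finset.prod_range_succ (fun j => (C ((t ^ (Fintype.card F ^ (j + 1)) - t)⁻¹) : L[X])),
      pow_zero, pow_one]
    ring

private noncomputable def D2_cc (F : Type*) [Field F] [Fintype F] {L : Type*} [Field L]
    (t : L) (n : ℕ) : L[X] :=
  ∑ k ∈ Finset.range (n + 1), Ey F t k * (LL F t (n - k)) ^ (Fintype.card F ^ k)

private noncomputable def D2_dd (F : Type*) [Field F] [Fintype F] {L : Type*} [Field L]
    (t : L) (n : ℕ) : L[X] :=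
  ∑ k ∈ Finset.range (n + 1), Ey F t k * (PP F t (n - k)) ^ (Fintype.card F ^ k)

private theorem D2_dd_succ (t : L) (ht : Transcendental F t) (n : ℕ) :
    D2_dd F t (n + 1) = D2_dd F t n + D2_cc F t (n + 1) := by
  unfold D2_dd D2_cc
  rw [Finset.sum_range_succ, Finset.sum_range_succ (n := n + 1), ← add_assoc,
    ← Finset.sum_add_distrib, Nat.sub_self, D2_PP_zero]
  congr 1
  refine Finset.sum_congr rfl fun k hk => ?_
  rw [Finset.mem_range, Nat.lt_succ_iff] at hk
  rw [Nat.succ_sub hk, ← mul_add, ← D2_add F, Nat.succ_eq_add_one, LL_eq t ht]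
  congr 2
  ring

private theorem D2_expand (hF : 2 < Fintype.card F) (t : L) (ht : Transcendental F t) (n : ℕ) :
    expand L (Fintype.card F) (D2_cc F t (n + 1)) = (C t - X) ^ (Fintype.card F ^ (n + 1) - 1) *
      (D2_dd F t (n + 1) - (D2_dd F t n) ^ Fintype.card F) := by
  have hpos : ∀ k, 0 < Fintype.card F ^ k := fun k => pow_pos Fintype.card_pos k
  have h0 : (D2_dd F t n) ^ Fintype.card F =
      ∑ k ∈ Finset.range (n + 1), (Ey F t k) ^ Fintype.card F *
        (PP F t (n - k)) ^ (Fintype.card F ^ (k + 1)) := by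
    unfold D2_dd
    have h1 := D2_sum F (Finset.range (n + 1))
      (fun k => Ey F t k * (PP F t (n - k)) ^ (Fintype.card F ^ k)) 1
    rw [pow_one] at h1
    rw [h1]
    refine Finset.sum_congr rfl fun k _ => ?_
    rw [mul_pow, ← pow_mul, ← pow_succ]
  have hpow : ∀ k ≤ n + 1, expand L (Fintype.card F) (LL F t (n + 1 - k)) ^ (Fintype.card F ^ k) =
      (C t - X) ^ (Fintype.card F ^ (n + 1) - Fintype.card F ^ k) *
        (PP F t (n + 1 - k)) ^ (Fintype.card F ^ k) := by
    intro k hk
    rw [LL_twist hF t ht, mul_pow, ← pow_mul, Nat.sub_mul, one_mul, ← pow_add,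
      Nat.sub_add_cancel hk]
  have h2 : D2_dd F t (n + 1) = PP F t (n + 1) + ∑ k ∈ Finset.range (n + 1),
      Ey F t (k + 1) * (PP F t (n - k)) ^ (Fintype.card F ^ (k + 1)) := by
    unfold D2_dd
    rw [Finset.sum_range_succ', add_comm]
    have h3 : Ey F t 0 * PP F t (n + 1 - 0) ^ (Fintype.card F ^ 0) = PP F t (n + 1) := by
      show (1 : L[X]) * PP F t (n + 1) ^ (Fintype.card F ^ 0) = _
      rw [one_mul, pow_zero, pow_one]
    rw [h3]
    congr 1
    refine Finset.sum_congr rfl fun k _ => ?_
    rw [Nat.add_sub_add_right]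
  have h3 : expand L (Fintype.card F) (D2_cc F t (n + 1)) =
      (C t - X) ^ (Fintype.card F ^ (n + 1) - 1) * PP F t (n + 1) +
        ∑ k ∈ Finset.range (n + 1), (C t - X) ^ (Fintype.card F ^ (n + 1) - 1) *
          ((Ey F t (k + 1) - (Ey F t k) ^ Fintype.card F) *
            (PP F t (n - k)) ^ (Fintype.card F ^ (k + 1))) := by
    unfold D2_cc
    rw [map_sum, Finset.sum_range_succ', add_comm]
    congr 1
    · rw [map_mul, map_pow, hpow 0 (Nat.zero_le _)]
      show expand L (Fintype.card F) 1 * _ = _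
      rw [map_one, one_mul, pow_zero, pow_one, Nat.sub_zero]
    · refine Finset.sum_congr rfl fun k hk => ?_
      rw [Finset.mem_range] at hk
      rw [map_mul, map_pow, hpow (k + 1) (by omega), Ey_twist t (fun m hm => D2_ne t ht m hm) k,
        Nat.add_sub_add_right]
      have h4 : Fintype.card F ^ (n + 1) - 1 = (Fintype.card F ^ (k + 1) - 1) +
          (Fintype.card F ^ (n + 1) - Fintype.card F ^ (k + 1)) := by
        have h5 := hpos (k + 1)
        have h6 : Fintype.card F ^ (k + 1) ≤ Fintype.card F ^ (n + 1) :=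
          Nat.pow_le_pow_right Fintype.card_pos (by omega)
        omega
      rw [h4, pow_add]
      ring
  rw [h3, h0, h2, ← Finset.mul_sum, ← mul_add]
  congr 1
  rw [add_sub_assoc, ← Finset.sum_sub_distrib]
  congr 1
  refine Finset.sum_congr rfl fun k _ => ?_
  ring

private theorem D2_main (hF : 2 < Fintype.card F) (t : L) (ht : Transcendental F t) (n : ℕ) :
    D2_dd F t n = 1 ∧ D2_cc F t (n + 1) = 0 := by
  have key : ∀ n, D2_dd F t n = 1 → D2_cc F t (n + 1) = 0 := by
    intro n hn
    refine homog_zero hF t ht (Fintype.card F ^ (n + 1) - 1) ?_ _ ?_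
    · have h1 : Fintype.card F ^ 1 ≤ Fintype.card F ^ (n + 1) :=
        Nat.pow_le_pow_right Fintype.card_pos (by omega)
      rw [pow_one] at h1
      omega
    · rw [D2_expand hF t ht, D2_dd_succ t ht, hn, one_pow, add_sub_cancel_left]
  have h2 : ∀ n, D2_dd F t n = 1 := by
    intro n
    induction n with
    | zero =>
      unfold D2_dd
      rw [Finset.sum_range_succ, Finset.sum_range_zero, zero_add, Nat.sub_self, D2_PP_zero, one_pow,
        mul_one]
      rfl
    | succ n ih => rw [D2_dd_succ t ht, ih, key n ih, add_zero]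
  exact ⟨h2 n, key n (h2 n)⟩

/-- `E` composed with the inverse series is the identity -/
theorem LL_inv (hF : 2 < Fintype.card F) (t : L) (ht : Transcendental F t) (n : ℕ) (hn : 1 ≤ n) :
    ∑ k ∈ Finset.range (n + 1), Ey F t k * (LL F t (n - k)) ^ (Fintype.card F ^ k) = 0 := by
  obtain ⟨m, rfl⟩ : ∃ m, n = m + 1 := ⟨n - 1, by omega⟩
  exact (D2_main hF t ht m).2

private theorem D2_br_succ (q k : ℕ) : br q (k + 1) = br q k + q ^ k := by
  unfold br
  rw [Finset.sum_range_succ]

private theorem D2_br_mono (q : ℕ) (hq : 2 ≤ q) : StrictMono (br q) := by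
  refine strictMono_nat_of_lt_succ fun k => ?_
  rw [D2_br_succ]
  have : 0 < q ^ k := pow_pos (by omega) k
  omega

private theorem D2_br_add (q k j : ℕ) : br q (k + j) = br q k + q ^ k * br q j := by
  induction j with
  | zero => simp [br]
  | succ j ih =>
    rw [← add_assoc, D2_br_succ, ih, D2_br_succ, mul_add, pow_add]
    ring

/-- the recursion for `1/e` -/
private theorem D2_rec {R : Type*} [CommRing R] (q : ℕ) (hq : 2 ≤ q) (g : ℕ → R) (hg : g 0 = 1)
    (m N : ℕ) (hm : 1 ≤ m) (hN : br q N ≤ m) (hN' : m < br q (N + 1)) :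
    ∑ k ∈ Finset.range (N + 1), g k * Bs q g (m - br q k) = 0 := by
  classical
  have h1 : ser q g * PowerSeries.invOfUnit (ser q g) 1 = 1 :=
    PowerSeries.mul_invOfUnit _ 1 (by rw [ser_const, hg]; rfl)
  have h2 := congrArg (PowerSeries.coeff m) h1
  rw [PowerSeries.coeff_mul, PowerSeries.coeff_one, if_neg (by omega),
    Finset.Nat.sum_antidiagonal_eq_sum_range_succ_mk] at h2
  rw [← h2]
  have hmono := D2_br_mono q hq
  have h3 : ∑ k ∈ Finset.range (N + 1), g k * Bs q g (m - br q k) =
      ∑ a ∈ (Finset.range (N + 1)).image (br q), PowerSeries.coeff a (ser q g) *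
        PowerSeries.coeff (m - a) (PowerSeries.invOfUnit (ser q g) 1) := by
    rw [Finset.sum_image (fun x _ y _ h => hmono.injective h)]
    refine Finset.sum_congr rfl fun k _ => ?_
    rw [ser_coeff_br q hq]
    rfl
  rw [h3]
  refine Finset.sum_subset ?_ ?_
  · intro a ha
    rw [Finset.mem_image] at ha
    obtain ⟨k, hk, rfl⟩ := ha
    rw [Finset.mem_range] at hk
    have h4 : br q k ≤ br q N := hmono.monotone (by omega)
    exact Finset.mem_range.2 (by omega)
  · intro a ha hna
    rw [ser_coeff_ne q g a, zero_mul]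
    intro k hk
    apply hna
    rw [Finset.mem_image]
    refine ⟨k, ?_, hk⟩
    rw [Finset.mem_range] at ha ⊢
    by_contra hlt
    have h5 : br q (N + 1) ≤ br q k := hmono.monotone (by omega)
    omega

private theorem D2_Bs_pow (hF : 2 < Fintype.card F) (t : L) (ht : Transcendental F t) (k m : ℕ) :
    Bs (Fintype.card F) (Ey F t) (Fintype.card F ^ k * m) =
      (Bs (Fintype.card F) (Ey F t) m) ^ (Fintype.card F ^ k) := by
  induction k with
  | zero => rw [pow_zero, one_mul, pow_one]
  | succ k ih =>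
    rw [pow_succ', mul_assoc, Bs_q hF t ht, ih, ← pow_mul, mul_comm]

private theorem D2_Bs_zero (t : L) : Bs (Fintype.card F) (Ey F t) 0 = 1 := by
  unfold Bs
  rw [PowerSeries.coeff_zero_eq_constantCoeff_apply, PowerSeries.constantCoeff_invOfUnit]
  simp

theorem Bs_br (hF : 2 < Fintype.card F) (t : L) (ht : Transcendental F t) (n : ℕ) :
    Bs (Fintype.card F) (Ey F t) (br (Fintype.card F) n) = LL F t n := by
  induction n using Nat.strong_induction_on with
  | _ n ih =>
    rcases Nat.eq_zero_or_pos n with rfl | hn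
    · have h1 : br (Fintype.card F) 0 = 0 := by simp [br]
      rw [h1, D2_Bs_zero]
      rfl
    · have hmono := D2_br_mono (Fintype.card F) (by omega)
      have hle : n ≤ br (Fintype.card F) n := hmono.le_apply
      have h1 := D2_rec (Fintype.card F) (by omega) (Ey F t) rfl (br (Fintype.card F) n) n (by omega)
        le_rfl (hmono (by omega))
      have h2 := LL_inv hF t ht n hn
      rw [Finset.sum_range_succ'] at h1 h2
      have h3 : ∑ k ∈ Finset.range n, Ey F t (k + 1) * Bs (Fintype.card F) (Ey F t)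
          (br (Fintype.card F) n - br (Fintype.card F) (k + 1)) =
          ∑ k ∈ Finset.range n, Ey F t (k + 1) *
            (LL F t (n - (k + 1))) ^ (Fintype.card F ^ (k + 1)) := by
        refine Finset.sum_congr rfl fun k hk => ?_
        rw [Finset.mem_range] at hk
        have h4 : br (Fintype.card F) n - br (Fintype.card F) (k + 1) =
            Fintype.card F ^ (k + 1) * br (Fintype.card F) (n - (k + 1)) := by
          have h5 := D2_br_add (Fintype.card F) (k + 1) (n - (k + 1))
          rw [Nat.add_sub_cancel' (by omega)] at h5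
          omega
        rw [h4, D2_Bs_pow hF t ht, ih (n - (k + 1)) (by omega)]
      rw [h3] at h1
      have h6 := h1.trans h2.symm
      have h7 := add_left_cancel h6
      have h8 : br (Fintype.card F) 0 = 0 := by simp [br]
      rw [h8, Nat.sub_zero, Nat.sub_zero, pow_zero, pow_one] at h7
      have h9 : Ey F t 0 = 1 := rfl
      rw [h9, one_mul, one_mul] at h7
      exact h7

private theorem D2_Ey_one (t : L) : Ey F t 1 = - uu F t := by
  unfold uu
  show C ((t ^ (Fintype.card F ^ (0 + 1)) - t)⁻¹) *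
      (C (t ^ (Fintype.card F ^ (0 + 1))) - X) * (1 : L[X]) ^ Fintype.card F = _
  rw [zero_add, pow_one, one_pow]
  ring

theorem Bs_small (hF : 2 < Fintype.card F) (t : L) (ht : Transcendental F t) (m : ℕ)
    (hm : m ≤ Fintype.card F) : Bs (Fintype.card F) (Ey F t) m = (uu F t) ^ m := by
  induction m with
  | zero => rw [D2_Bs_zero, pow_zero]
  | succ m ih =>
    have h1 : br (Fintype.card F) 1 = 1 := by simp [br]
    have h2 : br (Fintype.card F) (1 + 1) = 1 + Fintype.card F := by
      rw [D2_br_succ, h1, pow_one]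
    have h3 := D2_rec (Fintype.card F) (by omega) (Ey F t) rfl (m + 1) 1 (by omega)
      (by rw [h1]; omega) (by rw [h2]; omega)
    have h4 : br (Fintype.card F) 0 = 0 := by simp [br]
    rw [Finset.sum_range_succ, Finset.sum_range_succ, Finset.sum_range_zero, zero_add, h1, h4,
      D2_Ey_one, Nat.sub_zero, Nat.add_sub_cancel, ih (by omega)] at h3
    have h5 : Ey F t 0 = 1 := rfl
    rw [h5, one_mul] at h3
    rw [pow_succ]
    linear_combination h3

theorem Bs_mixed (hF : 2 < Fintype.card F) (t : L) (ht : Transcendental F t) (n : ℕ) :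
    Bs (Fintype.card F) (Ey F t) (Fintype.card F ^ (n + 1) + br (Fintype.card F) n) =
      LL F t (n + 1) * (uu F t) ^ ((Fintype.card F - 1) * Fintype.card F ^ n) := by
  induction n using Nat.strong_induction_on with
  | _ n ih =>
    have hmono := D2_br_mono (Fintype.card F) (by omega)
    have hpn : Fintype.card F ^ (n + 1) = (Fintype.card F - 1) * Fintype.card F ^ n +
        Fintype.card F ^ n := by
      have h0 : Fintype.card F = (Fintype.card F - 1) + 1 := by omega
      calc Fintype.card F ^ (n + 1) = Fintype.card F * Fintype.card F ^ n := by rw [pow_succ, mul_comm]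
        _ = ((Fintype.card F - 1) + 1) * Fintype.card F ^ n := by rw [← h0]
        _ = _ := by ring
    have hposn : 0 < Fintype.card F ^ n := pow_pos Fintype.card_pos n
    have hb1 : br (Fintype.card F) (n + 1) = br (Fintype.card F) n + Fintype.card F ^ n :=
      D2_br_succ _ _
    have hb2 : br (Fintype.card F) (n + 1 + 1) = br (Fintype.card F) n + Fintype.card F ^ n +
        Fintype.card F ^ (n + 1) := by
      rw [D2_br_succ, hb1]
    have h1 := D2_rec (Fintype.card F) (by omega) (Ey F t) rfl
      (Fintype.card F ^ (n + 1) + br (Fintype.card F) n) (n + 1) (by omega)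
      (by rw [hb1]; omega) (by rw [hb2]; omega)
    have h2 := LL_inv hF t ht (n + 1) (by omega)
    rw [Finset.sum_range_succ'] at h1 h2
    have h3 : ∑ k ∈ Finset.range (n + 1), Ey F t (k + 1) * Bs (Fintype.card F) (Ey F t)
        (Fintype.card F ^ (n + 1) + br (Fintype.card F) n - br (Fintype.card F) (k + 1)) =
        (∑ k ∈ Finset.range (n + 1), Ey F t (k + 1) *
          (LL F t (n + 1 - (k + 1))) ^ (Fintype.card F ^ (k + 1))) *
            (uu F t) ^ ((Fintype.card F - 1) * Fintype.card F ^ n) := by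
      rw [Finset.sum_mul]
      refine Finset.sum_congr rfl fun k hk => ?_
      rw [Finset.mem_range] at hk
      rw [mul_assoc]
      congr 1
      rcases Nat.lt_or_ge k n with hkn | hkn
      · have h4 : Fintype.card F ^ (n + 1) + br (Fintype.card F) n - br (Fintype.card F) (k + 1) =
            Fintype.card F ^ (k + 1) * (Fintype.card F ^ ((n - (k + 1)) + 1) +
              br (Fintype.card F) (n - (k + 1))) := by
          have h5 := D2_br_add (Fintype.card F) (k + 1) (n - (k + 1))
          rw [Nat.add_sub_cancel' (by omega)] at h5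
          have h6 : Fintype.card F ^ (k + 1) * Fintype.card F ^ ((n - (k + 1)) + 1) =
              Fintype.card F ^ (n + 1) := by
            rw [← pow_add]
            congr 1
            omega
          rw [mul_add, h6]
          omega
        rw [h4, D2_Bs_pow hF t ht, ih (n - (k + 1)) (by omega), mul_pow, ← pow_mul]
        have h7 : n - (k + 1) + 1 = n + 1 - (k + 1) := by omega
        have h8 : (Fintype.card F - 1) * Fintype.card F ^ (n - (k + 1)) * Fintype.card F ^ (k + 1) =
            (Fintype.card F - 1) * Fintype.card F ^ n := by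
          rw [mul_assoc, ← pow_add]
          congr 2
          omega
        rw [h7, h8]
      · have hk' : k = n := by omega
        subst hk'
        have h4 : Fintype.card F ^ (k + 1) + br (Fintype.card F) k - br (Fintype.card F) (k + 1) =
            Fintype.card F ^ k * (Fintype.card F - 1) := by
          rw [hb1, mul_comm]
          omega
        rw [h4, D2_Bs_pow hF t ht, Bs_small hF t ht _ (by omega), Nat.sub_self, ← pow_mul]
        show _ = (1 : L[X]) ^ _ * _
        rw [one_pow, one_mul]
    rw [h3] at h1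
    have h8 : br (Fintype.card F) 0 = 0 := by simp [br]
    have h9 : Ey F t 0 = 1 := rfl
    rw [h8, h9, Nat.sub_zero, one_mul] at h1
    rw [h9, Nat.sub_zero, one_mul, pow_zero, pow_one] at h2
    linear_combination h1 - (uu F t) ^ ((Fintype.card F - 1) * Fintype.card F ^ n) * h2

theorem Bs_pow (hF : 2 < Fintype.card F) (t : L) (ht : Transcendental F t) (n : ℕ) :
    Bs (Fintype.card F) (Ey F t) (Fintype.card F ^ n) = (uu F t) ^ (Fintype.card F ^ n) := by
  have h1 := D2_Bs_pow hF t ht n 1
  rw [mul_one, Bs_small hF t ht 1 (by omega), pow_one] at h1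
  exact h1

theorem As_br (hF : 2 < Fintype.card F) (t : L) (ht : Transcendental F t) (n : ℕ) :
    As (Fintype.card F) (Ey F t) 1 (br (Fintype.card F) (n + 1)) = PP F t n := by
  have h1 := Bs_twist hF t (fun m hm => D2_ne t ht m hm) (br (Fintype.card F) (n + 1))
  rw [Bs_br hF t ht, LL_twist hF t ht] at h1
  have h2 : (Fintype.card F - 1) * br (Fintype.card F) (n + 1) = Fintype.card F ^ (n + 1) - 1 := by
    have h3 : ∀ m, (Fintype.card F - 1) * br (Fintype.card F) m + 1 = Fintype.card F ^ m := by
      intro m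
      induction m with
      | zero => simp [br]
      | succ m ih =>
        rw [D2_br_succ, mul_add]
        have h0 : Fintype.card F = (Fintype.card F - 1) + 1 := by omega
        calc (Fintype.card F - 1) * br (Fintype.card F) m +
              (Fintype.card F - 1) * Fintype.card F ^ m + 1
            = ((Fintype.card F - 1) * br (Fintype.card F) m + 1) +
              (Fintype.card F - 1) * Fintype.card F ^ m := by ring
          _ = ((Fintype.card F - 1) + 1) * Fintype.card F ^ m := by rw [ih]; ring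
          _ = Fintype.card F ^ (m + 1) := by rw [← h0, pow_succ, mul_comm]
    have h4 := h3 (n + 1)
    omega
  rw [h2] at h1
  have h3 : (C t - X : L[X]) ≠ 0 := by
    intro h
    have h4 := congrArg (fun f => coeff f 1) h
    simp [coeff_X] at h4
  have h4 := mul_left_cancel₀ (pow_ne_zero _ h3) h1
  rw [LL_eq t ht] at h4
  linear_combination -h4

theorem As_pow (hF : 2 < Fintype.card F) (t : L) (ht : Transcendental F t) (n : ℕ) :
    As (Fintype.card F) (Ey F t) 1 (Fintype.card F ^ n) = 1 := by
  induction n with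
  | zero =>
    rw [pow_zero]
    unfold As
    rw [Finset.Icc_self, Finset.sum_singleton, one_pow, one_mul, Nat.sub_self,
      PowerSeries.coeff_zero_eq_constantCoeff_apply, map_pow, ser_const]
    show (1 : L[X]) ^ _ = 1
    rw [one_pow]
  | succ n ih =>
    rw [pow_succ', As_q hF t ht _ (Nat.one_le_iff_ne_zero.2 (pow_pos Fintype.card_pos n).ne'), ih,
      one_pow]

end Pool.Agent.MP33dd76
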