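import Mathlib
import Pool.Agent.Lib.MP_33dd76_nt.D2LL

set_option autoImplicit false

open Polynomial

namespace Pool.Agent.MP33dd76

/-! # Module D3: explicit solutions for the three families -/

variable {F : Type*} [Field F] [Fintype F] {L : Type*} [Field L] [Algebra F L]

/-- `U` is a solution for the pair `(a, m)` -/
def IsSol (F : Type*) [Field F] [Fintype F] {L : Type*} [Field L] (t : L) (a m : ℕ) (U : L[X]) :
    Prop :=
  U.natDegree ≤ a + m ∧
    expand L (Fintype.card F) U = (C t - X) ^ ((Fintype.card F - 1) * (a + m)) *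
      (U + As (Fintype.card F) (Ey F t) 1 a * Bs (Fintype.card F) (Ey F t) m)

private theorem D3_char (F : Type*) [Field F] [Fintype F] (L : Type*) [Field L] [Algebra F L] :
    ∃ p k : ℕ, p.Prime ∧ CharP L p ∧ Fintype.card F = p ^ k := by
  obtain ⟨p, hp⟩ := CharP.exists F
  obtain ⟨k, hpp, hk⟩ := FiniteField.card F p
  exact ⟨p, k, hpp, charP_of_injective_algebraMap (algebraMap F L).injective p, hk⟩

private theorem D3_add (F : Type*) [Field F] [Fintype F] (L : Type*) [Field L] [Algebra F L]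
    (f g : L[X]) (n : ℕ) :
    (f + g) ^ (Fintype.card F ^ n) = f ^ (Fintype.card F ^ n) + g ^ (Fintype.card F ^ n) := by
  obtain ⟨p, k, hp, hL, hk⟩ := D3_char F L
  have := hL
  have := Fact.mk hp
  rw [hk, ← pow_mul]
  exact add_pow_char_pow f g p (k * n)

private theorem D3_sub (F : Type*) [Field F] [Fintype F] (L : Type*) [Field L] [Algebra F L]
    (f g : L[X]) (n : ℕ) :
    (f - g) ^ (Fintype.card F ^ n) = f ^ (Fintype.card F ^ n) - g ^ (Fintype.card F ^ n) := by
  obtain ⟨p, k, hp, hL, hk⟩ := D3_char F L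
  have := hL
  have := Fact.mk hp
  rw [hk, ← pow_mul]
  exact sub_pow_char_pow f g (k * n)

private theorem D3_one (F : Type*) [Field F] [Fintype F] (L : Type*) [Field L] [Algebra F L]
    (g : L[X]) (n : ℕ) :
    (1 + g) ^ (Fintype.card F ^ n) = 1 + g ^ (Fintype.card F ^ n) := by
  rw [D3_add, one_pow]

private theorem D3_sign (t : L) :
    (C t - X : L[X]) ^ (Fintype.card F - 1) = (X - C t) ^ (Fintype.card F - 1) := by
  have hq : 1 ≤ Fintype.card F := Fintype.card_pos
  have h1 : ((-1 : L[X])) ^ (Fintype.card F) = -1 := by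
    have h := D3_sub F L 0 1 1
    rw [pow_one, zero_sub, one_pow, zero_pow (by omega), zero_sub] at h
    exact h
  have h2 : (-1 : L[X]) ^ (Fintype.card F - 1) = 1 := by
    have h3 : (-1 : L[X]) ^ (Fintype.card F - 1) * (-1) = 1 * (-1) := by
      rw [← pow_succ, Nat.sub_add_cancel hq, h1, one_mul]
    exact mul_right_cancel₀ (neg_ne_zero.mpr one_ne_zero) h3
  have h4 : (C t - X : L[X]) = (-1) * (X - C t) := by ring
  rw [h4, mul_pow, h2, one_mul]

private theorem D3_ne (hF : 2 < Fintype.card F) (t : L) (ht : Transcendental F t) :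
    t ^ Fintype.card F - t ≠ 0 := by
  intro h
  apply ht
  refine ⟨X ^ Fintype.card F - X, ?_, ?_⟩
  · exact FiniteField.X_pow_card_sub_X_ne_zero F (by omega)
  · simpa using h

private theorem D3_c (hF : 2 < Fintype.card F) (t : L) (ht : Transcendental F t) :
    1 + uu F t = (X - C t) * C ((t ^ Fintype.card F - t)⁻¹) := by
  have h := D3_ne hF t ht
  have h1 : (C ((t ^ Fintype.card F - t)⁻¹) * C (t ^ Fintype.card F - t) : L[X]) = 1 := by
    rw [← C_mul, inv_mul_cancel₀ h, C_1]
  unfold uu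
  calc 1 + C ((t ^ Fintype.card F - t)⁻¹) * (X - C (t ^ Fintype.card F))
      = C ((t ^ Fintype.card F - t)⁻¹) * C (t ^ Fintype.card F - t) +
        C ((t ^ Fintype.card F - t)⁻¹) * (X - C (t ^ Fintype.card F)) := by rw [h1]
    _ = (X - C t) * C ((t ^ Fintype.card F - t)⁻¹) := by
        rw [C_sub]
        ring

private theorem D3_exp (hF : 2 < Fintype.card F) (t : L) (ht : Transcendental F t) :
    expand L (Fintype.card F) (uu F t) = (C t - X) ^ (Fintype.card F - 1) * (1 + uu F t) := by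
  have hq : 1 ≤ Fintype.card F := Fintype.card_pos
  rw [D3_sign, D3_c hF t ht, ← mul_assoc, ← pow_succ, Nat.sub_add_cancel hq]
  have h := D3_sub F L X (C t) 1
  rw [pow_one] at h
  rw [h]
  unfold uu
  rw [map_mul, map_sub, expand_C, expand_C, expand_X, C_pow]
  ring

private theorem D3_pow (hF : 2 < Fintype.card F) (t : L) (ht : Transcendental F t) (n : ℕ) :
    expand L (Fintype.card F) (uu F t ^ (Fintype.card F ^ n)) =
      (C t - X) ^ ((Fintype.card F - 1) * Fintype.card F ^ n) *
        (1 + uu F t ^ (Fintype.card F ^ n)) := by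
  rw [map_pow, D3_exp hF t ht, mul_pow, ← pow_mul, D3_one]

private theorem D3_br (q n : ℕ) : br q (n + 1) = br q n + q ^ n := by
  unfold br
  rw [Finset.sum_range_succ]

private theorem D3_geom (q n : ℕ) (hq : 1 ≤ q) : (q - 1) * br q n = q ^ n - 1 := by
  induction n with
  | zero => simp [br]
  | succ n ih =>
    rw [D3_br, mul_add, ih, pow_succ]
    have h1 : 1 ≤ q ^ n := Nat.one_le_pow _ _ hq
    obtain ⟨r, rfl⟩ : ∃ r, q = r + 1 := ⟨q - 1, by omega⟩
    rw [Nat.add_sub_cancel, mul_add, mul_one, mul_comm r]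
    omega

private theorem D3_degPP (t : L) (n : ℕ) : (PP F t n).natDegree ≤ br (Fintype.card F) n := by
  unfold PP br
  refine (natDegree_prod_le _ _).trans (Finset.sum_le_sum (fun j _ => ?_))
  refine (natDegree_mul_C_le _ _).trans ?_
  exact (natDegree_X_pow_sub_C).le

private theorem D3_degLL (t : L) (n : ℕ) : (LL F t n).natDegree ≤ br (Fintype.card F) n := by
  cases n with
  | zero => simp [LL]
  | succ n =>
    rw [D3_br]
    unfold LL
    refine (natDegree_mul_C_le _ _).trans (natDegree_mul_le.trans ?_)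
    exact add_le_add (D3_degPP t n) (natDegree_X_pow_sub_C).le

private theorem D3_deguu (t : L) : (uu F t).natDegree ≤ 1 := by
  unfold uu
  refine (natDegree_C_mul_le _ _).trans ?_
  exact (natDegree_X_sub_C _).le

private theorem D3_degpow (t : L) (n : ℕ) : (uu F t ^ n).natDegree ≤ n := by
  refine natDegree_pow_le.trans ?_
  have := D3_deguu (F := F) t
  nlinarith

theorem sol1 (hF : 2 < Fintype.card F) (t : L) (ht : Transcendental F t) :
    ∃ U, IsSol F t 1 (Fintype.card F - 1) U := by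
  have hq : 1 ≤ Fintype.card F := Fintype.card_pos
  have hA : As (Fintype.card F) (Ey F t) 1 1 = 1 := by
    have h := As_pow hF t ht 0
    rwa [pow_zero] at h
  have hB := Bs_small hF t ht (Fintype.card F - 1) (by omega)
  set ϖ : L := (t ^ Fintype.card F - t) ^ (Fintype.card F - 1) with hϖ
  have h2 : (1 + uu F t) ^ (Fintype.card F - 1) =
      (C t - X) ^ (Fintype.card F - 1) * C (ϖ⁻¹) := by
    rw [D3_c hF t ht, mul_pow, D3_sign, ← C_pow, hϖ, inv_pow]
  refine ⟨C (ϖ⁻¹) * uu F t ^ Fintype.card F - uu F t ^ (Fintype.card F - 1), ?_, ?_⟩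
  · refine (natDegree_sub_le _ _).trans (max_le ?_ ?_)
    · refine (natDegree_C_mul_le _ _).trans ((D3_degpow t _).trans ?_)
      omega
    · refine (D3_degpow t _).trans ?_
      omega
  · rw [hA, hB, one_mul, sub_add_cancel, map_sub, map_mul, expand_C, map_pow, map_pow,
      D3_exp hF t ht, mul_pow, mul_pow]
    have h3 := D3_one F L (uu F t) 1
    rw [pow_one] at h3
    have h4 : 1 + (Fintype.card F - 1) = Fintype.card F := by omega
    rw [h3, h2, h4]
    have h5 : ((C t - X : L[X]) ^ (Fintype.card F - 1)) ^ Fintype.card F =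
        ((C t - X : L[X]) ^ (Fintype.card F - 1)) ^ (Fintype.card F - 1) *
          (C t - X) ^ (Fintype.card F - 1) := by
      rw [← pow_succ, Nat.sub_add_cancel hq]
    rw [pow_mul, h5]
    ring

theorem sol2 (hF : 2 < Fintype.card F) (t : L) (ht : Transcendental F t) (n : ℕ) (hn : 1 ≤ n) :
    ∃ U, IsSol F t (br (Fintype.card F) n) (Fintype.card F ^ n) U := by
  have hq : 1 ≤ Fintype.card F := Fintype.card_pos
  obtain ⟨k, rfl⟩ : ∃ k, n = k + 1 := ⟨n - 1, by omega⟩
  have hA := As_br hF t ht k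
  have hB := Bs_pow hF t ht (k + 1)
  have hL1 := LL_eq t ht k
  have hL2 := LL_eq t ht (k + 1)
  refine ⟨uu F t ^ (Fintype.card F ^ (k + 1)) * LL F t (k + 1) - LL F t (k + 2), ?_, ?_⟩
  · refine (natDegree_sub_le _ _).trans (max_le ?_ ?_)
    · refine natDegree_mul_le.trans ?_
      rw [add_comm (br _ _)]
      exact add_le_add (D3_degpow t _) (D3_degLL t _)
    · refine (D3_degLL t _).trans ?_
      rw [D3_br]
  · have h1 : (Fintype.card F - 1) * (br (Fintype.card F) (k + 1) + Fintype.card F ^ (k + 1)) =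
        (Fintype.card F - 1) * Fintype.card F ^ (k + 1) + (Fintype.card F ^ (k + 1) - 1) := by
      rw [mul_add, D3_geom _ _ hq, add_comm]
    have h2 : (Fintype.card F - 1) * Fintype.card F ^ (k + 1) + (Fintype.card F ^ (k + 1) - 1) =
        Fintype.card F ^ (k + 2) - 1 := by
      rw [← h1, ← D3_br, D3_geom _ _ hq]
    have e1 : expand L (Fintype.card F) (uu F t ^ (Fintype.card F ^ (k + 1)) * LL F t (k + 1)) =
        (C t - X) ^ (Fintype.card F ^ (k + 2) - 1) *
          ((1 + uu F t ^ (Fintype.card F ^ (k + 1))) * PP F t (k + 1)) := by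
      rw [map_mul, D3_pow hF t ht, LL_twist hF t ht, ← h2, pow_add]
      ring
    rw [hA, hB, h1, h2, map_sub, e1, LL_twist hF t ht, hL1, hL2]
    ring

theorem sol3 (hF : 2 < Fintype.card F) (t : L) (ht : Transcendental F t) (n : ℕ) :
    ∃ U, IsSol F t (Fintype.card F ^ n) (Fintype.card F ^ (n + 1) + br (Fintype.card F) n) U := by
  have hq : 1 ≤ Fintype.card F := Fintype.card_pos
  have hA := As_pow hF t ht n
  have hB := Bs_mixed hF t ht n
  have hL1 := LL_eq t ht n
  have hL2 := LL_eq t ht (n + 1)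
  set κ : L := (t ^ Fintype.card F - t) ^ (Fintype.card F ^ n) *
    (t ^ (Fintype.card F ^ (n + 1)) - t)⁻¹ with hκ
  have hne := D3_ne hF t ht
  have hbr : Fintype.card F ^ n + (Fintype.card F ^ (n + 1) + br (Fintype.card F) n) =
      br (Fintype.card F) (n + 2) := by
    rw [D3_br, D3_br]
    ring
  have hu : C ((t ^ Fintype.card F - t) ^ (Fintype.card F ^ n)) *
      uu F t ^ (Fintype.card F ^ n) = X ^ (Fintype.card F ^ n) -
        C (t ^ (Fintype.card F ^ (n + 1))) := by
    unfold uu
    rw [mul_pow, D3_sub, ← C_pow, ← mul_assoc, ← C_mul, ← mul_pow, mul_inv_cancel₀ hne, one_pow,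
      C_1, one_mul, ← C_pow, ← pow_mul, ← pow_succ']
  have hκL : LL F t (n + 1) = C κ * PP F t n * uu F t ^ (Fintype.card F ^ n) := by
    have h1 : LL F t (n + 1) = PP F t n * (X ^ (Fintype.card F ^ n) -
        C (t ^ (Fintype.card F ^ (n + 1)))) * C ((t ^ (Fintype.card F ^ (n + 1)) - t)⁻¹) := rfl
    rw [h1, ← hu, hκ, C_mul]
    ring
  have hpw : uu F t ^ (Fintype.card F ^ n) * uu F t ^ ((Fintype.card F - 1) * Fintype.card F ^ n) =
      uu F t ^ (Fintype.card F ^ (n + 1)) := by
    rw [← pow_add]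
    congr 1
    rw [pow_succ']
    obtain ⟨r, hr⟩ : ∃ r, Fintype.card F = r + 1 := ⟨Fintype.card F - 1, by omega⟩
    rw [hr, Nat.add_sub_cancel]
    ring
  have hkey : LL F t (n + 1) * uu F t ^ ((Fintype.card F - 1) * Fintype.card F ^ n) =
      C κ * (uu F t ^ (Fintype.card F ^ (n + 1)) * PP F t n) := by
    rw [hκL, ← hpw]
    ring
  refine ⟨C κ * (uu F t ^ (Fintype.card F ^ (n + 1)) * LL F t (n + 1) - LL F t (n + 2)), ?_, ?_⟩
  · rw [hbr]
    refine (natDegree_C_mul_le _ _).trans ((natDegree_sub_le _ _).trans (max_le ?_ ?_))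
    · refine natDegree_mul_le.trans ?_
      rw [D3_br _ (n + 1), add_comm (br _ _)]
      exact add_le_add (D3_degpow t _) (D3_degLL t _)
    · exact D3_degLL t _
  · have h2 : (Fintype.card F - 1) * Fintype.card F ^ (n + 1) + (Fintype.card F ^ (n + 1) - 1) =
        Fintype.card F ^ (n + 2) - 1 := by
      rw [← D3_geom _ (n + 1) hq, ← mul_add, add_comm, ← D3_br, D3_geom _ _ hq]
    have e1 : expand L (Fintype.card F) (uu F t ^ (Fintype.card F ^ (n + 1)) * LL F t (n + 1)) =
        (C t - X) ^ (Fintype.card F ^ (n + 2) - 1) *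
          ((1 + uu F t ^ (Fintype.card F ^ (n + 1))) * PP F t (n + 1)) := by
      rw [map_mul, D3_pow hF t ht, LL_twist hF t ht, ← h2, pow_add]
      ring
    rw [hA, hB, hbr, D3_geom _ _ hq, one_mul, hkey, map_mul, expand_C, map_sub, e1,
      LL_twist hF t ht, hL2, hL1]
    ring

end Pool.Agent.MP33dd76
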