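import Mathlib
import Pool.Agent.Lib.MP_33dd76_nt.D3Sol
import Pool.Agent.Lib.MP_33dd76_nt.A11Omega
import Pool.Agent.Lib.MP_33dd76_nt.A16Mzv
import Pool.Agent.Lib.MP_33dd76_nt.A17Sys

set_option autoImplicit false

open Polynomial

namespace Pool.Agent.MP33dd76

/-! # Module D4: a solution gives an eulerian value -/

variable {F : Type*} [Field F] [Fintype F] {K : Type*} [NormedField K] [IsUltrametricDist K]
  [CompleteSpace K] [Algebra F K]

private theorem D4_j_alg {θ : K} {j : RatFunc F →+* K}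
    (hj : ∀ P : F[X], j (algebraMap F[X] (RatFunc F) P) = aeval θ P) (a : F) :
    j (algebraMap F (RatFunc F) a) = algebraMap F K a := by
  have h1 : algebraMap F (RatFunc F) a = algebraMap F[X] (RatFunc F) (C a) := by
    rw [← Polynomial.algebraMap_eq]
    exact IsScalarTower.algebraMap_apply F F[X] (RatFunc F) a
  rw [h1, hj, aeval_C]

private theorem D4_j_X {θ : K} {j : RatFunc F →+* K}
    (hj : ∀ P : F[X], j (algebraMap F[X] (RatFunc F) P) = aeval θ P) :
    j RatFunc.X = θ := by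
  rw [← RatFunc.algebraMap_X, hj, aeval_X]

private theorem D4_j_ell {θ : K} {j : RatFunc F →+* K}
    (hj : ∀ P : F[X], j (algebraMap F[X] (RatFunc F) P) = aeval θ P) (n : ℕ) :
    j (ell F RatFunc.X n) = ell F θ n := by
  unfold ell
  rw [map_prod]
  refine Finset.prod_congr rfl fun i _ => ?_
  rw [map_sub, map_pow, D4_j_X hj]

private theorem D4_j_Ssum {θ : K} {j : RatFunc F →+* K}
    (hj : ∀ P : F[X], j (algebraMap F[X] (RatFunc F) P) = aeval θ P) (n s : ℕ) :
    j (Ssum F RatFunc.X n s) = Ssum F θ n s := by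
  unfold Ssum mon
  rw [map_sum]
  refine Finset.sum_congr rfl fun c _ => ?_
  rw [map_inv₀, map_pow, map_add, map_pow, map_sum, D4_j_X hj]
  congr 3
  refine Finset.sum_congr rfl fun i _ => ?_
  rw [map_mul, map_pow, D4_j_X hj, D4_j_alg hj]

private theorem D4_j_sig {θ : K} {j : RatFunc F →+* K}
    (hj : ∀ P : F[X], j (algebraMap F[X] (RatFunc F) P) = aeval θ P) (n s1 s2 : ℕ) :
    j (sig F RatFunc.X n s1 s2) = sig F θ n s1 s2 := by
  unfold sig Slt
  rw [map_sum]
  refine Finset.sum_congr rfl fun i _ => ?_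
  rw [map_mul, D4_j_Ssum hj, map_sum]
  congr 1
  exact Finset.sum_congr rfl fun i _ => D4_j_Ssum hj i s2

private theorem D4_transc : Transcendental F (RatFunc.X : RatFunc F) := by
  rw [transcendental_iff_injective, injective_iff_map_eq_zero]
  intro P hP
  have h1 : aeval (RatFunc.X : RatFunc F) P = algebraMap F[X] (RatFunc F) P := by
    rw [← RatFunc.algebraMap_X, aeval_algebraMap_apply, aeval_X_left_apply]
  rw [h1] at hP
  exact (map_eq_zero_iff _ (IsFractionRing.injective F[X] (RatFunc F))).1 hP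

private theorem D4_rec {L : Type*} [Field L] [Algebra F L] (t : L) (r : ℕ) (hr : 1 ≤ r) (f g : L[X])
    (h : expand L (Fintype.card F) f = (C t - X) ^ r * (f + g)) (c : ℕ → L)
    (hg : ∀ n, g.eval (t ^ (Fintype.card F ^ (n + 1))) = ell F t n ^ r * c n) (n : ℕ) :
    f.eval (t ^ (Fintype.card F ^ (n + 1))) = ell F t n ^ r * ∑ i ∈ Finset.range n, c i := by
  have key : ∀ x : L, f.eval (x ^ Fintype.card F) = (t - x) ^ r * (f.eval x + g.eval x) := by
    intro x
    rw [← expand_eval, h, eval_mul, eval_pow, eval_sub, eval_C, eval_X, eval_add]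
  induction n with
  | zero =>
    have h1 := key t
    rw [sub_self, zero_pow (by omega), zero_mul] at h1
    rw [Finset.sum_range_zero, mul_zero, zero_add, pow_one]
    exact h1
  | succ n ih =>
    have h1 := key (t ^ (Fintype.card F ^ (n + 1)))
    rw [← pow_mul, ← pow_succ, ih, hg n] at h1
    rw [h1, Finset.sum_range_succ]
    have h2 : ell F t (n + 1) = ell F t n * (t - t ^ (Fintype.card F ^ (n + 1))) := by
      unfold ell
      rw [Finset.prod_range_succ]
    rw [h2, mul_pow]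
    ring

private theorem D4_neg_one (F : Type*) [Field F] [Fintype F] {K : Type*} [Field K] [Algebra F K] :
    (-1 : K) ^ (Fintype.card F - 1) = 1 := by
  have h1 : (-1 : F) ^ (Fintype.card F - 1) = 1 :=
    FiniteField.pow_card_sub_one_eq_one (-1) (neg_ne_zero.2 one_ne_zero)
  have h2 := congrArg (algebraMap F K) h1
  rw [map_pow, map_neg, map_one] at h2
  exact h2

omit [IsUltrametricDist K] [CompleteSpace K] in
private theorem D4_ell (F : Type*) [Field F] [Fintype F] [Algebra F K] {θ : K} (hθ : θ ≠ 0)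
    (k : ℕ) :
    ell F θ k ^ (Fintype.card F - 1) * θ ^ Fintype.card F =
      θ ^ (Fintype.card F ^ (k + 1)) *
        (∏ i ∈ Finset.range k, (1 - θ * (θ⁻¹) ^ (Fintype.card F ^ (i + 1)))) ^
          (Fintype.card F - 1) := by
  induction k with
  | zero => simp [ell]
  | succ k ih =>
    obtain ⟨N, hN⟩ : ∃ N, N = Fintype.card F ^ (k + 1) := ⟨_, rfl⟩
    have h2 : ell F θ (k + 1) = ell F θ k * (θ - θ ^ N) := by
      unfold ell
      rw [Finset.prod_range_succ, hN]
    have h3 : θ - θ ^ N = (-1) * (θ ^ N * (1 - θ * (θ⁻¹) ^ N)) := by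
      have h4 : θ ^ N * (θ⁻¹) ^ N = 1 := by
        rw [← mul_pow, mul_inv_cancel₀ hθ, one_pow]
      linear_combination (-θ) * h4
    have h5 : Fintype.card F ^ (k + 1 + 1) = N + N * (Fintype.card F - 1) := by
      have h6 : 1 ≤ Fintype.card F := Fintype.card_pos
      obtain ⟨c, hc⟩ : ∃ c, Fintype.card F = c + 1 := ⟨Fintype.card F - 1, by omega⟩
      rw [pow_succ, ← hN, hc, Nat.add_sub_cancel]
      ring
    rw [← hN] at ih
    rw [h2, h3, Finset.prod_range_succ, ← hN, h5, pow_add, pow_mul]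
    rw [mul_pow, mul_pow (-1 : K), D4_neg_one F, one_mul, mul_pow (θ ^ N), mul_pow (∏ i ∈ _, _)]
    calc ell F θ k ^ (Fintype.card F - 1) *
          ((θ ^ N) ^ (Fintype.card F - 1) * (1 - θ * θ⁻¹ ^ N) ^ (Fintype.card F - 1)) *
          θ ^ Fintype.card F
        = (ell F θ k ^ (Fintype.card F - 1) * θ ^ Fintype.card F) *
          ((θ ^ N) ^ (Fintype.card F - 1) * (1 - θ * θ⁻¹ ^ N) ^ (Fintype.card F - 1)) := by ring
      _ = _ := by rw [ih]; ring

private theorem D4_lim {θ ϖ : K} (hθ : 1 < ‖θ‖) (hF : 2 < Fintype.card F)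
    (hϖ : IsPeriod F θ ϖ) :
    Filter.Tendsto (fun k : ℕ => θ ^ (Fintype.card F ^ (k + 1)) / ell F θ k ^ (Fintype.card F - 1))
      Filter.atTop (nhds (-ϖ ^ (Fintype.card F - 1))) := by
  have hθ0 : θ ≠ 0 := by
    rintro rfl
    rw [norm_zero] at hθ
    linarith
  have hell : ∀ n, ell F θ n ≠ 0 := fun n => (norm_ell (F := F) hθ (by omega) n).2
  obtain ⟨hp, hp1⟩ := pprod_hasProd (F := F) hθ
  have hp0 : pprod F θ ≠ 0 := by
    intro h
    rw [h, norm_zero] at hp1
    exact zero_ne_one hp1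
  have h1 := hp.tendsto_prod_nat
  have h2 : Filter.Tendsto (fun k : ℕ => θ ^ Fintype.card F /
      (∏ i ∈ Finset.range k, (1 - θ * (θ⁻¹) ^ (Fintype.card F ^ (i + 1)))) ^
        (Fintype.card F - 1)) Filter.atTop
      (nhds (θ ^ Fintype.card F / pprod F θ ^ (Fintype.card F - 1))) :=
    tendsto_const_nhds.div (h1.pow _) (pow_ne_zero _ hp0)
  have h3 : -ϖ ^ (Fintype.card F - 1) = θ ^ Fintype.card F / pprod F θ ^ (Fintype.card F - 1) := by
    have h4 : ϖ ^ (Fintype.card F - 1) =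
      - θ ^ Fintype.card F * ((pprod F θ) ^ (Fintype.card F - 1))⁻¹ := hϖ
    rw [h4, div_eq_mul_inv]
    ring
  rw [h3]
  refine h2.congr fun k => ?_
  have h5 := D4_ell F hθ0 k
  have h6 : (∏ i ∈ Finset.range k, (1 - θ * (θ⁻¹) ^ (Fintype.card F ^ (i + 1)))) ^
      (Fintype.card F - 1) ≠ 0 := by
    intro h7
    rw [h7, mul_zero] at h5
    exact (mul_ne_zero (pow_ne_zero _ (hell k)) (pow_ne_zero _ hθ0)) h5
  rw [div_eq_div_iff h6 (pow_ne_zero _ (hell k)), mul_comm, h5]

theorem euler_of_sol {θ ϖ : K} (hθ : 1 < ‖θ‖) (hF : 2 < Fintype.card F) (hϖ : IsPeriod F θ ϖ)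
    (a m : ℕ) (ha : 1 ≤ a) (hm : 1 ≤ m) (U : (RatFunc F)[X])
    (hU : IsSol F (RatFunc.X : RatFunc F) a m U) :
    ∃ n d : F[X], d ≠ 0 ∧
      aeval θ d * mzv F θ ((Fintype.card F - 1) * a) ((Fintype.card F - 1) * m) =
        aeval θ n * ϖ ^ ((Fintype.card F - 1) * a + (Fintype.card F - 1) * m) := by
  obtain ⟨j, hj⟩ := exists_emb (F := F) hθ
  obtain ⟨hdeg, hU⟩ := hU
  have htr := D4_transc (F := F)
  set q := Fintype.card F with hq
  have hθ0 : θ ≠ 0 := by
    rintro rfl
    rw [norm_zero] at hθ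
    linarith
  have hell : ∀ n, ell F θ n ≠ 0 := fun n => (norm_ell (F := F) hθ (by omega) n).2
  have hw1 : 1 ≤ (q - 1) * (a + m) := Nat.mul_pos (by omega) (by omega)
  -- values of `U`
  have hval : ∀ k, U.eval ((RatFunc.X : RatFunc F) ^ (q ^ (k + 1))) =
      ell F RatFunc.X k ^ ((q - 1) * (a + m)) *
        sig F RatFunc.X k ((q - 1) * a) ((q - 1) * m) := by
    intro k
    refine D4_rec (F := F) RatFunc.X ((q - 1) * (a + m)) hw1 U _ hU
      (fun n => Ssum F RatFunc.X n ((q - 1) * a) * Slt F RatFunc.X n ((q - 1) * m))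
      (fun n => ?_) k
    rw [eval_mul, As_eval hF _ htr n a ha, Bs_eval hF _ htr n m hm, mul_add, pow_add]
    ring
  have hval2 : ∀ k, ∑ i ∈ Finset.range (a + m + 1), j (U.coeff i) * (θ ^ (q ^ (k + 1))) ^ i =
      ell F θ k ^ ((q - 1) * (a + m)) * sig F θ k ((q - 1) * a) ((q - 1) * m) := by
    intro k
    have h1 := congrArg j (hval k)
    rw [eval_eq_sum_range' (n := a + m + 1) (by omega), map_sum, map_mul, map_pow, D4_j_ell hj,
      D4_j_sig hj] at h1
    rw [← h1]
    refine Finset.sum_congr rfl fun i _ => ?_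
    rw [map_mul, map_pow, map_pow, D4_j_X hj]
  -- the two sequences
  set x : ℕ → K := fun k => θ ^ (q ^ (k + 1)) / ell F θ k ^ (q - 1) with hx
  set z : ℕ → K := fun k => (ell F θ k ^ (q - 1))⁻¹ with hz
  have hxlim : Filter.Tendsto x Filter.atTop (nhds (-ϖ ^ (q - 1))) := D4_lim hθ hF hϖ
  have hzx : ∀ k, z k = x k * (θ⁻¹) ^ (q ^ (k + 1)) := by
    intro k
    rw [hx, hz]
    simp only
    rw [inv_pow]
    have h1 : θ ^ (q ^ (k + 1)) ≠ 0 := pow_ne_zero _ hθ0
    have h2 : ell F θ k ^ (q - 1) ≠ 0 := pow_ne_zero _ (hell k)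
    field_simp
  have hzlim : Filter.Tendsto z Filter.atTop (nhds 0) := by
    have h1 : Filter.Tendsto (fun k : ℕ => (θ⁻¹) ^ (q ^ (k + 1))) Filter.atTop (nhds 0) := by
      have h2 : ‖θ⁻¹‖ < 1 := by
        rw [norm_inv]
        exact inv_lt_one_of_one_lt₀ hθ
      refine (tendsto_pow_atTop_nhds_zero_of_norm_lt_one h2).comp ?_
      refine Filter.tendsto_atTop_mono (fun k => ?_) Filter.tendsto_id
      have h3 : k + 1 < q ^ (k + 1) := Nat.lt_pow_self (by omega)
      show k ≤ q ^ (k + 1)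
      omega
    have h2 := hxlim.mul h1
    rw [mul_zero] at h2
    exact h2.congr fun k => (hzx k).symm
  have hsig : ∀ k, sig F θ k ((q - 1) * a) ((q - 1) * m) =
      ∑ i ∈ Finset.range (a + m + 1), j (U.coeff i) * (x k ^ i * z k ^ (a + m - i)) := by
    intro k
    have h2 : ell F θ k ^ ((q - 1) * (a + m)) ≠ 0 := pow_ne_zero _ (hell k)
    have h3 : sig F θ k ((q - 1) * a) ((q - 1) * m) =
        (∑ i ∈ Finset.range (a + m + 1), j (U.coeff i) * (θ ^ (q ^ (k + 1))) ^ i) *
          (ell F θ k ^ ((q - 1) * (a + m)))⁻¹ := by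
      rw [hval2 k]
      field_simp
    rw [h3, Finset.sum_mul]
    refine Finset.sum_congr rfl fun i hi => ?_
    rw [mul_assoc]
    congr 1
    have hi' : i ≤ a + m := by
      have := Finset.mem_range.1 hi
      omega
    have h4 : ell F θ k ^ ((q - 1) * (a + m)) =
        (ell F θ k ^ (q - 1)) ^ i * (ell F θ k ^ (q - 1)) ^ (a + m - i) := by
      rw [← pow_add, ← pow_mul, Nat.add_sub_cancel' hi']
    rw [h4, hx, hz]
    simp only
    rw [div_pow, inv_pow, mul_inv, div_eq_mul_inv]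
    ring
  have hlim : Filter.Tendsto (fun k => sig F θ k ((q - 1) * a) ((q - 1) * m)) Filter.atTop
      (nhds (j (U.coeff (a + m)) * (-ϖ ^ (q - 1)) ^ (a + m))) := by
    have h1 : Filter.Tendsto (fun k => ∑ i ∈ Finset.range (a + m + 1),
        j (U.coeff i) * (x k ^ i * z k ^ (a + m - i))) Filter.atTop
        (nhds (∑ i ∈ Finset.range (a + m + 1),
          j (U.coeff i) * ((-ϖ ^ (q - 1)) ^ i * 0 ^ (a + m - i)))) :=
      tendsto_finsetSum _ fun i _ =>
        tendsto_const_nhds.mul ((hxlim.pow i).mul (hzlim.pow (a + m - i)))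
    have h2 : (∑ i ∈ Finset.range (a + m + 1),
          j (U.coeff i) * ((-ϖ ^ (q - 1)) ^ i * 0 ^ (a + m - i))) =
        j (U.coeff (a + m)) * (-ϖ ^ (q - 1)) ^ (a + m) := by
      rw [Finset.sum_range_succ, Finset.sum_eq_zero, zero_add, Nat.sub_self, pow_zero, mul_one]
      intro i hi
      have := Finset.mem_range.1 hi
      rw [zero_pow (by omega), mul_zero, mul_zero]
    rw [h2] at h1
    exact h1.congr fun k => (hsig k).symm
  have hmz := tendsto_nhds_unique hlim
    (mzv_tendsto hθ ((q - 1) * a) ((q - 1) * m) (Nat.mul_pos (by omega) (by omega))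
      (Nat.mul_pos (by omega) (by omega)))
  refine ⟨(-1) ^ (a + m) * (U.coeff (a + m)).num, (U.coeff (a + m)).denom,
    (U.coeff (a + m)).denom_ne_zero, ?_⟩
  have hd : aeval θ (U.coeff (a + m)).denom ≠ 0 :=
    aeval_ne_zero hθ _ (U.coeff (a + m)).denom_ne_zero
  have hnd : aeval θ (U.coeff (a + m)).denom * j (U.coeff (a + m)) =
      aeval θ (U.coeff (a + m)).num := by
    have h1 := RatFunc.num_div_denom (U.coeff (a + m))
    have h2 : algebraMap F[X] (RatFunc F) (U.coeff (a + m)).denom ≠ 0 := by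
      rw [Ne, map_eq_zero_iff _ (IsFractionRing.injective F[X] (RatFunc F))]
      exact (U.coeff (a + m)).denom_ne_zero
    rw [← hj, ← hj, ← map_mul, mul_comm, ← (div_eq_iff h2).1 h1]
  rw [← hmz, ← mul_assoc, hnd, map_mul, map_pow, map_neg, map_one, neg_pow (ϖ ^ (q - 1)),
    ← pow_mul, mul_add]
  ring

end Pool.Agent.MP33dd76
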