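import Mathlib
import Pool.Agent.Lib.MP_33dd76_nt.ADefs

set_option autoImplicit false

open scoped LaurentSeries
open Valuation WithZero Polynomial

namespace Pool.Agent.MP33dd76

/-! # Existence of fields with a Carlitz period

`K = F((1/λ))`, `θ = -λ^(q-1)`. -/

@[instance_reducible]
noncomputable def lsRank (F : Type) [Field F] :
    (Valued.v : Valuation (LaurentSeries F) ℤᵐ⁰).RankOne := by
  haveI : (Valued.v : Valuation (LaurentSeries F) ℤᵐ⁰).IsRankOneDiscrete := by
    rw [LaurentSeries.valuation_def]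
    infer_instance
  exact Valuation.IsRankOneDiscrete.rankOne _ (e := 2) (by norm_num)

theorem exists_model (F : Type) [Field F] [Fintype F] :
    ∃ (K : Type) (_ : NormedField K) (_ : IsUltrametricDist K) (_ : CompleteSpace K)
      (_ : Algebra F K) (θ ϖ : K), 1 < ‖θ‖ ∧ IsPeriod F θ ϖ := by
  let hv := lsRank F
  let _ : NormedField (LaurentSeries F) := Valued.toNormedField (LaurentSeries F) ℤᵐ⁰
  have hult : IsUltrametricDist (LaurentSeries F) := inferInstance
  have hcomp : CompleteSpace (LaurentSeries F) := LaurentSeries.instLaurentSeriesComplete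
  set x : LaurentSeries F := HahnSeries.single 1 (1 : F) with hx
  have hx0 : x ≠ 0 := by
    rw [hx]
    simp
  have hx1 : ‖x‖ < 1 := by
    rw [Valued.toNormedField.norm_lt_one_iff, hx]
    have h := LaurentSeries.valuation_single_zpow (K := F) 1
    rw [h]
    rw [← WithZero.exp_zero]
    exact WithZero.exp_lt_exp.2 (by norm_num)
  have hq : 2 ≤ Fintype.card F := Fintype.one_lt_card
  refine ⟨LaurentSeries F, inferInstance, hult, hcomp, inferInstance,
    -(x⁻¹) ^ (Fintype.card F - 1), (x⁻¹) ^ Fintype.card F *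
      (pprod F (-(x⁻¹) ^ (Fintype.card F - 1)))⁻¹, ?_, ?_⟩
  · rw [norm_neg, norm_pow, norm_inv]
    have h1 : 1 < ‖x‖⁻¹ := (one_lt_inv₀ (norm_pos_iff.2 hx0)).2 hx1
    exact one_lt_pow₀ h1 (by omega)
  · unfold IsPeriod
    have h1 : (-1 : LaurentSeries F) ^ Fintype.card F = -1 := by
      have h := FiniteField.pow_card (-1 : F)
      have h' := congrArg (algebraMap F (LaurentSeries F)) h
      simpa using h'
    generalize pprod F (-(x⁻¹) ^ (Fintype.card F - 1)) = P
    generalize x⁻¹ = y
    rw [mul_pow, inv_pow P, neg_pow (y ^ (Fintype.card F - 1)) (Fintype.card F), h1, ← pow_mul,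
      ← pow_mul, mul_comm (Fintype.card F) (Fintype.card F - 1)]
    ring

end Pool.Agent.MP33dd76
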