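import Mathlib
import Pool.Agent.Lib.MP_33dd76_nt.A21Par
import Pool.Agent.Lib.MP_33dd76_nt.A22Bridge
import Pool.Agent.Lib.MP_33dd76_nt.C7Concl

set_option autoImplicit false

open Polynomial

namespace Pool.Agent.MP33dd76

/-! # Assembly -/

variable {F : Type*} [Field F] [Fintype F] {K : Type*} [NormedField K] [IsUltrametricDist K]
  [CompleteSpace K] [Algebra F K]

theorem Z_br_mul (q k : ℕ) (h2 : 2 < q) : (q - 1) * br q k = q ^ k - 1 := by
  have h := C7_br_geom q k h2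
  omega

theorem Z_third (q k : ℕ) (h2 : 2 < q) :
    (q - 1) * (q ^ (k + 1) + br q k) = q ^ (k + 2) - 1 - (q - 1) * q ^ k := by
  have h := C7_br_geom q k h2
  obtain ⟨c, rfl⟩ : ∃ c, q = c + 1 := ⟨q - 1, by omega⟩
  simp only [Nat.add_sub_cancel] at h ⊢
  have h1 : c * ((c + 1) ^ (k + 1) + br (c + 1) k) + 1 + c * (c + 1) ^ k = (c + 1) ^ (k + 2) := by
    have h3 : c * ((c + 1) ^ (k + 1) + br (c + 1) k) + 1 + c * (c + 1) ^ k =
        c * (c + 1) ^ (k + 1) + (c * br (c + 1) k + 1) + c * (c + 1) ^ k := by ring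
    rw [h3, h]
    ring
  omega

theorem Z_X_ne (n : ℕ) (hn : 1 ≤ n) :
    (RatFunc.X : RatFunc F) ^ (Fintype.card F ^ n) ≠ RatFunc.X := by
  intro h
  have h1 : algebraMap F[X] (RatFunc F) (X ^ (Fintype.card F ^ n)) =
      algebraMap F[X] (RatFunc F) X := by
    rw [map_pow, RatFunc.algebraMap_X, h]
  have h2 : (X : F[X]) ^ (Fintype.card F ^ n) = X := RatFunc.algebraMap_injective F h1
  have h3 := congrArg natDegree h2
  rw [natDegree_pow, natDegree_X, mul_one] at h3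
  have h4 : 1 < Fintype.card F ^ n := Nat.one_lt_pow (by omega) Fintype.one_lt_card
  omega

theorem Z_theta {θ : K} (hθ : 1 < ‖θ‖) (hF : 2 < Fintype.card F) :
    θ ^ Fintype.card F - θ ≠ 0 ∧
      ‖((θ ^ Fintype.card F - θ) ^ (Fintype.card F - 1))⁻¹‖ < 1 := by
  have h1 : ‖θ‖ < ‖θ ^ Fintype.card F‖ := by
    rw [norm_pow]
    calc ‖θ‖ = ‖θ‖ ^ 1 := (pow_one _).symm
      _ < ‖θ‖ ^ Fintype.card F := pow_lt_pow_right₀ hθ (by omega)
  have h2 : ‖θ ^ Fintype.card F - θ‖ = ‖θ ^ Fintype.card F‖ := by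
    rw [sub_eq_add_neg, IsUltrametricDist.norm_add_eq_max_of_norm_ne_norm]
    · rw [norm_neg]
      exact max_eq_left h1.le
    · rw [norm_neg]
      exact h1.ne'
  have h3 : 1 < ‖θ ^ Fintype.card F - θ‖ := by
    rw [h2]
    exact hθ.trans h1
  refine ⟨fun h => ?_, ?_⟩
  · rw [h, norm_zero] at h3
    linarith
  · rw [norm_inv, norm_pow]
    exact inv_lt_one_of_one_lt₀ (one_lt_pow₀ h3 (by omega))

theorem main_converse (p : ℕ) [CharP F p] {θ ϖ : K} (hθ : 1 < ‖θ‖) (hF : 2 < Fintype.card F)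
    (hϖ : IsPeriod F θ ϖ) (s1 s2 : ℕ) (h1 : 1 ≤ s1) (h2 : 1 ≤ s2) (hprim : ¬ (p ∣ s1 ∧ p ∣ s2))
    (n d : F[X]) (hd : d ≠ 0) (hz : aeval θ d * mzv F θ s1 s2 = aeval θ n * ϖ ^ (s1 + s2)) :
    (s1 = Fintype.card F - 1 ∧ s2 = (Fintype.card F - 1) ^ 2) ∨
    (∃ k, 1 ≤ k ∧ s1 = Fintype.card F ^ k - 1 ∧ s2 = (Fintype.card F - 1) * Fintype.card F ^ k) ∨
    (∃ k, s1 = (Fintype.card F - 1) * Fintype.card F ^ k ∧
      s2 = Fintype.card F ^ (k + 2) - 1 - (Fintype.card F - 1) * Fintype.card F ^ k) := by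
  obtain ⟨s, hp, hcard⟩ := FiniteField.card F p
  obtain ⟨B, U, hB, hU⟩ := thmA hθ hF hϖ s1 s2 h1 h2 n d hd hz
  obtain ⟨a, m, ha, hm, hs1, hs2, hBB, hUU⟩ := parity hθ hF s1 s2 h1 h2 B U hB hU
  obtain ⟨υ, hS⟩ := bridge_L hF (RatFunc.X : RatFunc F) (fun n hn => Z_X_ne n hn) a m ha hm U hUU
  obtain ⟨j, hj⟩ := exists_emb (F := F) hθ
  have hjX : j RatFunc.X = θ := by
    have h := hj X
    rwa [RatFunc.algebraMap_X, aeval_X] at h
  have hS' := Star_map j (Fintype.card F) _ a m υ hS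
  have hπ : j (((RatFunc.X ^ Fintype.card F - RatFunc.X) ^ (Fintype.card F - 1))⁻¹) =
      ((θ ^ Fintype.card F - θ) ^ (Fintype.card F - 1))⁻¹ := by
    rw [map_inv₀, map_pow, map_sub, map_pow, hjX]
  rw [hπ] at hS'
  obtain ⟨hne, hlt⟩ := Z_theta (F := F) hθ hF
  have hchar : CharP K p := charP_of_injective_algebraMap (algebraMap F K).injective p
  have H : Hyp K p (Fintype.card F) (((θ ^ Fintype.card F - θ) ^ (Fintype.card F - 1))⁻¹) :=
    { prime := hp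
      char := hchar
      pow := ⟨s, hcard⟩
      two := hF
      ne := inv_ne_zero (pow_ne_zero _ hne)
      lt := hlt }
  have hprim' : ¬ (p ∣ a ∧ p ∣ m) := by
    rintro ⟨hpa, hpm⟩
    exact hprim ⟨hs1 ▸ hpa.mul_left _, hs2 ▸ hpm.mul_left _⟩
  rcases partB H ha hm hS' hprim' with ⟨h3, h4⟩ | ⟨k, hk, h3, h4⟩ | ⟨k, hk, h3, h4⟩
  · left
    subst h3 h4
    refine ⟨by rw [hs1, mul_one], by rw [hs2, pow_two]⟩
  · right; left
    refine ⟨k, hk, ?_, ?_⟩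
    · rw [hs1, h3, Z_br_mul _ _ hF]
    · rw [hs2, h4]
  · right; right
    refine ⟨k, ?_, ?_⟩
    · rw [hs1, h3]
    · rw [hs2, h4, Z_third _ _ hF]

end Pool.Agent.MP33dd76
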