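import Mathlib
import Pool.Agent.Lib.MP_33dd76_nt.ZMain
import Pool.Agent.Lib.MP_33dd76_nt.D4Lim

set_option autoImplicit false

open Polynomial

namespace Pool.Agent.MP33dd76

/-! # The equivalence -/

variable {F : Type*} [Field F] [Fintype F] {K : Type*} [NormedField K] [IsUltrametricDist K]
  [CompleteSpace K] [Algebra F K]

/-- `ζ(s1,s2)/ϖ^(s1+s2)` lies in `F(θ)` -/
def Eulerian (F : Type*) [Field F] [Fintype F] {K : Type*} [NormedField K] [Algebra F K] (θ ϖ : K)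
    (s1 s2 : ℕ) : Prop :=
  ∃ n d : F[X], d ≠ 0 ∧ aeval θ d * mzv F θ s1 s2 = aeval θ n * ϖ ^ (s1 + s2)

theorem Z_trans : Transcendental F (RatFunc.X : RatFunc F) := by
  rw [transcendental_iff]
  intro P hP
  rw [RatFunc.aeval_X_left_eq_algebraMap] at hP
  exact (map_eq_zero_iff _ (RatFunc.algebraMap_injective F)).1 hP

theorem main_iff (p : ℕ) [CharP F p] {θ ϖ : K} (hθ : 1 < ‖θ‖) (hF : 2 < Fintype.card F)
    (hϖ : IsPeriod F θ ϖ) (s1 s2 : ℕ) (h1 : 1 ≤ s1) (h2 : 1 ≤ s2) (hprim : ¬ (p ∣ s1 ∧ p ∣ s2)) :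
    Eulerian F θ ϖ s1 s2 ↔
    ((s1 = Fintype.card F - 1 ∧ s2 = (Fintype.card F - 1) ^ 2) ∨
    (∃ k, 1 ≤ k ∧ s1 = Fintype.card F ^ k - 1 ∧ s2 = (Fintype.card F - 1) * Fintype.card F ^ k) ∨
    (∃ k, s1 = (Fintype.card F - 1) * Fintype.card F ^ k ∧
      s2 = Fintype.card F ^ (k + 2) - 1 - (Fintype.card F - 1) * Fintype.card F ^ k)) := by
  constructor
  · rintro ⟨n, d, hd, hz⟩
    exact main_converse p hθ hF hϖ s1 s2 h1 h2 hprim n d hd hz
  · have ht : Transcendental F (RatFunc.X : RatFunc F) := Z_trans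
    rintro (⟨rfl, rfl⟩ | ⟨k, hk, rfl, rfl⟩ | ⟨k, rfl, rfl⟩)
    · obtain ⟨U, hU⟩ := sol1 hF (RatFunc.X : RatFunc F) ht
      have h := euler_of_sol hθ hF hϖ 1 (Fintype.card F - 1) le_rfl (by omega) U hU
      rw [mul_one, ← pow_two] at h
      exact h
    · obtain ⟨U, hU⟩ := sol2 hF (RatFunc.X : RatFunc F) ht k hk
      have hb : 1 ≤ br (Fintype.card F) k := by
        obtain ⟨k', rfl⟩ : ∃ k', k = k' + 1 := ⟨k - 1, by omega⟩
        rw [C7_br_succ]
        have : 0 < Fintype.card F ^ k' := pow_pos (by omega) _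
        omega
      have h := euler_of_sol hθ hF hϖ (br (Fintype.card F) k) (Fintype.card F ^ k) hb
        (Nat.one_le_pow _ _ (by omega)) U hU
      rw [Z_br_mul _ _ hF] at h
      exact h
    · obtain ⟨U, hU⟩ := sol3 hF (RatFunc.X : RatFunc F) ht k
      have hb : 1 ≤ Fintype.card F ^ (k + 1) + br (Fintype.card F) k := by
        have : 0 < Fintype.card F ^ (k + 1) := pow_pos (by omega) _
        omega
      have h := euler_of_sol hθ hF hϖ (Fintype.card F ^ k)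
        (Fintype.card F ^ (k + 1) + br (Fintype.card F) k) (Nat.one_le_pow _ _ (by omega)) hb U hU
      rw [Z_third _ _ hF] at h
      exact h

end Pool.Agent.MP33dd76
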